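import Pool.Agent.H776GM.Biv

/-!
# Curves that are mapped to curves of small degree by a power map
-/

set_option autoImplicit false

namespace Pool.Agent.H776GM

open Polynomial Polynomial.Bivariate Finset

/-- the substitution `X ↦ α X`, `Y ↦ β Y` -/
noncomputable def tw (α β : ℂ) : ℂ[X][Y] →+* ℂ[X][Y] :=
  (compRingHom (C (C β) * X)).comp (mapRingHom (compRingHom (C α * X)))

theorem coeff_tw (α β : ℂ) (F : ℂ[X][Y]) (i j : ℕ) :
    ((tw α β F).coeff j).coeff i = α ^ i * β ^ j * (F.coeff j).coeff i := by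
  simp only [tw, RingHom.comp_apply, coe_compRingHom_apply, coe_mapRingHom, comp_C_mul_X_coeff,
    coeff_map]
  rw [← C_pow, coeff_mul_C, comp_C_mul_X_coeff]
  ring

theorem ext2 {F G : ℂ[X][Y]} (h : ∀ i j, (F.coeff j).coeff i = (G.coeff j).coeff i) : F = G := by
  ext j i
  exact h i j

theorem tw_tw (α β α' β' : ℂ) (F : ℂ[X][Y]) : tw α β (tw α' β' F) = tw (α * α') (β * β') F := by
  apply ext2
  intro i j
  rw [coeff_tw, coeff_tw, coeff_tw, mul_pow, mul_pow]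
  ring

theorem tw_one (F : ℂ[X][Y]) : tw 1 1 F = F := by
  apply ext2
  intro i j
  rw [coeff_tw]
  simp

/-- the twist as an automorphism -/
noncomputable def twE (α β : ℂ) (hα : α ≠ 0) (hβ : β ≠ 0) : ℂ[X][Y] ≃+* ℂ[X][Y] :=
  { tw α β with
    invFun := tw α⁻¹ β⁻¹
    left_inv := by
      intro F
      show tw α⁻¹ β⁻¹ (tw α β F) = F
      rw [tw_tw, inv_mul_cancel₀ hα, inv_mul_cancel₀ hβ, tw_one]
    right_inv := by
      intro F
      show tw α β (tw α⁻¹ β⁻¹ F) = F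
      rw [tw_tw, mul_inv_cancel₀ hα, mul_inv_cancel₀ hβ, tw_one] }

theorem irr_tw {α β : ℂ} (hα : α ≠ 0) (hβ : β ≠ 0) {Q : ℂ[X][Y]} (hQ : Irreducible Q) :
    Irreducible (tw α β Q) :=
  (MulEquiv.irreducible_iff (twE α β hα hβ)).mpr hQ

theorem tw_box {α β : ℂ} (hα : α ≠ 0) (hβ : β ≠ 0) {Q : ℂ[X][Y]} (m n : ℕ) :
    tw α β Q ∈ Box ℂ m n ↔ Q ∈ Box ℂ m n := by
  rw [mem_box, mem_box]
  have h1 : ∀ i j, ((tw α β Q).coeff j).coeff i ≠ 0 ↔ (Q.coeff j).coeff i ≠ 0 := by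
    intro i j
    rw [coeff_tw]
    constructor
    · exact right_ne_zero_of_mul
    · exact mul_ne_zero (mul_ne_zero (pow_ne_zero _ hα) (pow_ne_zero _ hβ))
  simp only [h1]

theorem tw_deg {α β : ℂ} (hα : α ≠ 0) (hβ : β ≠ 0) {Q : ℂ[X][Y]} (hQ : Q ≠ 0) :
    dX (tw α β Q) = dX Q ∧ (tw α β Q).natDegree = Q.natDegree := by
  have hQ' : tw α β Q ≠ 0 := by
    intro h
    apply hQ
    have := congrArg (tw α⁻¹ β⁻¹) h
    rwa [tw_tw, inv_mul_cancel₀ hα, inv_mul_cancel₀ hβ, tw_one, map_zero] at this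
  have h1 := (tw_box hα hβ (Q := Q) (dX Q + 1) (Q.natDegree + 1)).mpr
    ((mem_box_iff hQ).mpr ⟨by omega, by omega⟩)
  have h2 := (tw_box hα hβ (Q := Q) (dX (tw α β Q) + 1) ((tw α β Q).natDegree + 1)).mp
    ((mem_box_iff hQ').mpr ⟨by omega, by omega⟩)
  rw [mem_box_iff hQ'] at h1
  rw [mem_box_iff hQ] at h2
  omega

/-- `F(X^l, Y^l)` -/
noncomputable def exL (R : Type*) [CommRing R] (l : ℕ) : R[X][Y] →+* R[X][Y] :=
  (expand R[X] l).toRingHom.comp (mapRingHom (expand R l).toRingHom)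

theorem coeff_exL {R : Type*} [CommRing R] {l : ℕ} (hl : 0 < l) (F : R[X][Y]) (i j : ℕ) :
    ((exL R l F).coeff j).coeff i =
      if l ∣ i ∧ l ∣ j then (F.coeff (j / l)).coeff (i / l) else 0 := by
  have h1 : exL R l F = expand R[X] l (F.map (expand R l).toRingHom) := rfl
  rw [h1, coeff_expand hl]
  by_cases hj : l ∣ j
  · rw [if_pos hj, coeff_map]
    have h2 : (expand R l).toRingHom (F.coeff (j / l)) = expand R l (F.coeff (j / l)) := rfl
    rw [h2, coeff_expand hl]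
    by_cases hi : l ∣ i
    · rw [if_pos hi, if_pos ⟨hi, hj⟩]
    · rw [if_neg hi, if_neg (fun h => hi h.1)]
  · rw [if_neg hj, if_neg (fun h => hj h.2), coeff_zero]

theorem exL_box {R : Type*} [CommRing R] {l : ℕ} (hl : 0 < l) {F : R[X][Y]} {m n : ℕ}
    (hF : F ∈ Box R m n) : exL R l F ∈ Box R (l * m) (l * n) := by
  intro i j h
  rw [coeff_exL hl] at h
  by_cases hij : l ∣ i ∧ l ∣ j
  · rw [if_pos hij] at h
    have h1 := hF _ _ h
    obtain ⟨⟨i', rfl⟩, ⟨j', rfl⟩⟩ := hij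
    rw [Nat.mul_div_cancel_left _ hl, Nat.mul_div_cancel_left _ hl] at h1
    exact ⟨Nat.mul_lt_mul_of_pos_left h1.1 hl, Nat.mul_lt_mul_of_pos_left h1.2 hl⟩
  · rw [if_neg hij] at h
    exact absurd rfl h

theorem exL_ne {R : Type*} [CommRing R] {l : ℕ} (hl : 0 < l) {F : R[X][Y]} (hF : F ≠ 0) :
    exL R l F ≠ 0 := by
  intro h
  apply hF
  ext j i
  have h1 := coeff_exL hl F (l * i) (l * j)
  rw [h, if_pos ⟨dvd_mul_right _ _, dvd_mul_right _ _⟩, Nat.mul_div_cancel_left _ hl,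
    Nat.mul_div_cancel_left _ hl] at h1
  simpa using h1.symm

theorem tw_exL {l : ℕ} (hl : 0 < l) (α β : ℂ) (hα : α ^ l = 1) (hβ : β ^ l = 1) (F : ℂ[X][Y]) :
    tw α β (exL ℂ l F) = exL ℂ l F := by
  apply ext2
  intro i j
  rw [coeff_tw, coeff_exL hl]
  by_cases hij : l ∣ i ∧ l ∣ j
  · rw [if_pos hij]
    obtain ⟨⟨i', rfl⟩, ⟨j', rfl⟩⟩ := hij
    rw [pow_mul, pow_mul, hα, hβ, one_pow, one_pow, one_mul, one_mul]
  · rw [if_neg hij, mul_zero]

theorem unit_const {u : ℂ[X][Y]} (hu : IsUnit u) : ∃ c : ℂ, c ≠ 0 ∧ u = C (C c) := by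
  obtain ⟨r, hr, rfl⟩ := Polynomial.isUnit_iff.mp hu
  obtain ⟨c, hc, rfl⟩ := Polynomial.isUnit_iff.mp hr
  exact ⟨c, hc.ne_zero, rfl⟩

theorem dX_prod {ι : Type} (s : Finset ι) (f : ι → ℂ[X][Y]) (h : ∀ i ∈ s, f i ≠ 0) :
    dX (∏ i ∈ s, f i) = ∑ i ∈ s, dX (f i) := by
  simp only [dX]
  rw [map_prod, natDegree_prod]
  intro i hi h0
  exact h i hi (by simpa using congrArg swap h0)

theorem stab {l m : ℕ} (hl : l.Prime) (hm : m ≤ l) {F Q : ℂ[X][Y]} (hF : F ≠ 0)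
    (hFb : F ∈ Box ℂ m m) (hQ : Irreducible Q) (hd : Q ∣ exL ℂ l F) {ζ : ℂ}
    (hζ : IsPrimitiveRoot ζ l) :
    ∃ a b : ℕ × ℕ, a ∈ range l ×ˢ range l ∧ b ∈ range l ×ˢ range l ∧ a ≠ b ∧ ∃ c : ℂ,
      tw (ζ ^ a.1) (ζ ^ a.2) Q = C (C c) * tw (ζ ^ b.1) (ζ ^ b.2) Q := by
  by_contra hcon
  push Not at hcon
  have hlpos := hl.pos
  have hζ0 : ζ ≠ 0 := hζ.ne_zero hl.ne_zero
  have hζl : ∀ i, (ζ ^ i) ^ l = 1 := by
    intro i
    rw [← pow_mul, mul_comm, pow_mul, hζ.pow_eq_one, one_pow]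
  have h1 : ∏ a ∈ range l ×ˢ range l, tw (ζ ^ a.1) (ζ ^ a.2) Q ∣ exL ℂ l F := by
    apply Finset.prod_dvd_of_isRelPrime
    · intro a ha b hb hab
      have ia := irr_tw (pow_ne_zero a.1 hζ0) (pow_ne_zero a.2 hζ0) hQ
      have ib := irr_tw (pow_ne_zero b.1 hζ0) (pow_ne_zero b.2 hζ0) hQ
      show IsRelPrime _ _
      rw [ia.isRelPrime_iff_not_dvd]
      intro h2
      obtain ⟨u, hu⟩ := (ia.associated_of_dvd ib h2).symm
      obtain ⟨c, hc, hc2⟩ := unit_const u.isUnit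
      apply hcon a b ha hb hab c
      rw [← hu, hc2, mul_comm]
    · intro a _
      have h2 := map_dvd (tw (ζ ^ a.1) (ζ ^ a.2)) hd
      rwa [tw_exL hlpos _ _ (hζl _) (hζl _)] at h2
  have hF0 : exL ℂ l F ≠ 0 := exL_ne hlpos hF
  have hbox := (mem_box_iff hF0).mp (exL_box hlpos hFb)
  have hcard : (range l ×ˢ range l).card = l * l := by simp
  have hQ0 := hQ.ne_zero
  have h2 := dX_le_of_dvd hF0 h1
  rw [dX_prod _ _ (fun a _ => (irr_tw (pow_ne_zero a.1 hζ0) (pow_ne_zero a.2 hζ0) hQ).ne_zero)] at h2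
  have h3 : ∑ a ∈ range l ×ˢ range l, dX (tw (ζ ^ a.1) (ζ ^ a.2) Q) = l * l * dX Q := by
    rw [Finset.sum_congr rfl fun a _ =>
      (tw_deg (pow_ne_zero a.1 hζ0) (pow_ne_zero a.2 hζ0) hQ0).1, Finset.sum_const, hcard,
      smul_eq_mul]
  rw [h3] at h2
  have h4 := natDegree_le_of_dvd h1 hF0
  rw [natDegree_prod _ _
    (fun a _ => (irr_tw (pow_ne_zero a.1 hζ0) (pow_ne_zero a.2 hζ0) hQ).ne_zero)] at h4
  have h5 : ∑ a ∈ range l ×ˢ range l, (tw (ζ ^ a.1) (ζ ^ a.2) Q).natDegree =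
      l * l * Q.natDegree := by
    rw [Finset.sum_congr rfl fun a _ =>
      (tw_deg (pow_ne_zero a.1 hζ0) (pow_ne_zero a.2 hζ0) hQ0).2, Finset.sum_const, hcard,
      smul_eq_mul]
  rw [h5] at h4
  have h6 : dX Q = 0 := by
    by_contra h0
    have h7 : l * l * 1 ≤ l * l * dX Q := Nat.mul_le_mul_left _ (Nat.one_le_iff_ne_zero.mpr h0)
    have h8 : l * m ≤ l * l := Nat.mul_le_mul_left _ hm
    omega
  have h7 : Q.natDegree = 0 := by
    by_contra h0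
    have h7 : l * l * 1 ≤ l * l * Q.natDegree :=
      Nat.mul_le_mul_left _ (Nat.one_le_iff_ne_zero.mpr h0)
    have h8 : l * m ≤ l * l := Nat.mul_le_mul_left _ hm
    omega
  apply hQ.not_isUnit
  have h8 : Q = C (Q.coeff 0) := eq_C_of_natDegree_eq_zero h7
  have h9 : (Q.coeff 0).natDegree = 0 := by
    have := dX_C (R := ℂ) (Q.coeff 0)
    rw [← h8, h6] at this
    exact this.symm
  have h10 : Q.coeff 0 = C ((Q.coeff 0).coeff 0) := eq_C_of_natDegree_eq_zero h9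
  rw [h8, h10]
  have h11 : (Q.coeff 0).coeff 0 ≠ 0 := by
    intro h0
    rw [h0, C_0] at h10
    rw [h10, C_0] at h8
    exact hQ0 h8
  exact (isUnit_iff_ne_zero.mpr h11).map ((C : ℂ[X] →+* ℂ[X][Y]).comp (C : ℂ →+* ℂ[X]))

theorem collinear {l m ω : ℕ} (hl : l.Prime) (hm : m ≤ l) {F Q : ℂ[X][Y]} (hF : F ≠ 0)
    (hFb : F ∈ Box ℂ m m) (hQ : Irreducible Q) (hd : Q ∣ exL ℂ l F)
    (hQb : Q ∈ Box ℂ (ω + 1) (ω + 1)) (hω : 2 * (ω * ω) < l) (i0 j0 i1 j1 i j : ℕ)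
    (h0 : (Q.coeff j0).coeff i0 ≠ 0) (h1 : (Q.coeff j1).coeff i1 ≠ 0)
    (h : (Q.coeff j).coeff i ≠ 0) :
    ((i1 : ℤ) - i0) * ((j : ℤ) - j0) = ((j1 : ℤ) - j0) * ((i : ℤ) - i0) := by
  have hζ := Complex.isPrimitiveRoot_exp l hl.ne_zero
  set ζ := Complex.exp (2 * Real.pi * Complex.I / l)
  have hζ0 : ζ ≠ 0 := hζ.ne_zero hl.ne_zero
  obtain ⟨a, b, ha, hb, hab, c, hc⟩ := stab hl hm hF hFb hQ hd hζ
  have key : ∀ i j : ℕ, (Q.coeff j).coeff i ≠ 0 →
      ζ ^ (a.1 * i + a.2 * j) = c * ζ ^ (b.1 * i + b.2 * j) := by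
    intro i j hij
    have h2 := congrArg (fun G => (G.coeff j).coeff i) hc
    simp only [coeff_tw, coeff_C_mul] at h2
    rw [← mul_assoc] at h2
    have h3 := mul_right_cancel₀ hij h2
    rw [pow_add, pow_add, pow_mul, pow_mul, pow_mul, pow_mul]
    exact h3
  have hdiff : ∀ i j i' j' : ℕ, (Q.coeff j).coeff i ≠ 0 → (Q.coeff j').coeff i' ≠ 0 →
      (l : ℤ) ∣ ((a.1 : ℤ) - b.1) * ((i : ℤ) - i') + ((a.2 : ℤ) - b.2) * ((j : ℤ) - j') := by
    intro i j i' j' hij hij'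
    have e1 := key i j hij
    have e2 := key i' j' hij'
    rw [← hζ.zpow_eq_one_iff_dvd]
    have e3 : ((a.1 : ℤ) - b.1) * ((i : ℤ) - i') + ((a.2 : ℤ) - b.2) * ((j : ℤ) - j') =
        ((a.1 * i + a.2 * j : ℕ) : ℤ) + ((b.1 * i' + b.2 * j' : ℕ) : ℤ) -
          (((b.1 * i + b.2 * j : ℕ) : ℤ) + ((a.1 * i' + a.2 * j' : ℕ) : ℤ)) := by
      push_cast
      ring
    rw [e3, zpow_sub₀ hζ0, zpow_add₀ hζ0, zpow_add₀ hζ0, zpow_natCast, zpow_natCast, zpow_natCast,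
      zpow_natCast, e1, e2]
    have hc0 : c ≠ 0 := by
      intro h0
      rw [h0, zero_mul] at e1
      exact pow_ne_zero _ hζ0 e1
    have f1 := pow_ne_zero (b.1 * i + b.2 * j) hζ0
    have f2 := pow_ne_zero (b.1 * i' + b.2 * j') hζ0
    field_simp
  have d1 := hdiff i1 j1 i0 j0 h1 h0
  have d2 := hdiff i j i0 j0 h h0
  set A : ℤ := (a.1 : ℤ) - b.1 with hA
  set B : ℤ := (a.2 : ℤ) - b.2 with hB
  set det : ℤ := ((i1 : ℤ) - i0) * ((j : ℤ) - j0) - ((j1 : ℤ) - j0) * ((i : ℤ) - i0) with hdet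
  have hAd : (l : ℤ) ∣ A * det := by
    have : A * det = ((j : ℤ) - j0) * (A * ((i1 : ℤ) - i0) + B * ((j1 : ℤ) - j0)) -
        ((j1 : ℤ) - j0) * (A * ((i : ℤ) - i0) + B * ((j : ℤ) - j0)) := by
      rw [hdet]
      ring
    rw [this]
    exact dvd_sub (d1.mul_left _) (d2.mul_left _)
  have hBd : (l : ℤ) ∣ B * det := by
    have : B * det = ((i1 : ℤ) - i0) * (A * ((i : ℤ) - i0) + B * ((j : ℤ) - j0)) -
        ((i : ℤ) - i0) * (A * ((i1 : ℤ) - i0) + B * ((j1 : ℤ) - j0)) := by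
      rw [hdet]
      ring
    rw [this]
    exact dvd_sub (d2.mul_left _) (d1.mul_left _)
  have hlp : Prime (l : ℤ) := Nat.prime_iff_prime_int.mp hl
  have hldet : (l : ℤ) ∣ det := by
    rw [Finset.mem_product, Finset.mem_range, Finset.mem_range] at ha hb
    by_cases hA0 : A = 0
    · have hB0 : B ≠ 0 := by
        intro hB0
        apply hab
        apply Prod.ext
        · omega
        · omega
      rcases hlp.dvd_or_dvd hBd with h2 | h2
      · exfalso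
        have := Int.le_of_dvd (abs_pos.mpr hB0) ((dvd_abs _ _).mpr h2)
        have h3 : |B| < l := by
          rw [abs_lt]
          omega
        omega
      · exact h2
    · rcases hlp.dvd_or_dvd hAd with h2 | h2
      · exfalso
        have := Int.le_of_dvd (abs_pos.mpr hA0) ((dvd_abs _ _).mpr h2)
        have h3 : |A| < l := by
          rw [abs_lt]
          omega
        omega
      · exact h2
  have b0 := hQb _ _ h0
  have b1 := hQb _ _ h1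
  have b2 := hQb _ _ h
  have hdet0 : det = 0 := by
    by_contra hne
    have h2 := Int.le_of_dvd (abs_pos.mpr hne) ((dvd_abs _ _).mpr hldet)
    have h3 : |det| ≤ 2 * ((ω : ℤ) * ω) := by
      have c1 : |((i1 : ℤ) - i0) * ((j : ℤ) - j0)| ≤ (ω : ℤ) * ω := by
        rw [abs_mul]
        refine mul_le_mul ?_ ?_ (abs_nonneg _) (Nat.cast_nonneg _)
        · rw [abs_le]
          omega
        · rw [abs_le]
          omega
      have c2 : |((j1 : ℤ) - j0) * ((i : ℤ) - i0)| ≤ (ω : ℤ) * ω := by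
        rw [abs_mul]
        refine mul_le_mul ?_ ?_ (abs_nonneg _) (Nat.cast_nonneg _)
        · rw [abs_le]
          omega
        · rw [abs_le]
          omega
      rw [hdet]
      have := abs_sub (((i1 : ℤ) - i0) * ((j : ℤ) - j0)) (((j1 : ℤ) - j0) * ((i : ℤ) - i0))
      linarith
    have h4 : (2 * ((ω : ℤ) * ω)) < l := by exact_mod_cast hω
    linarith
  rw [hdet] at hdet0
  linarith

end Pool.Agent.H776GM
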