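import Mathlib

/-!
# Bivariate polynomials in boxes
-/

set_option autoImplicit false

namespace Pool.Agent.H776GM

open Polynomial Polynomial.Bivariate Module

section ring

variable {R : Type*} [CommRing R]

theorem coeff_swap (F : R[X][Y]) (i j : ℕ) : ((swap F).coeff i).coeff j = (F.coeff j).coeff i := by
  induction F using Polynomial.induction_on' with
  | add p q hp hq => simp [hp, hq]
  | monomial n f =>
    induction f using Polynomial.induction_on' with
    | add p q hp hq => simp only [map_add, coeff_add, hp, hq]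
    | monomial m r =>
      rw [swap_monomial_monomial, coeff_monomial, coeff_monomial]
      by_cases h1 : m = i
      · by_cases h2 : n = j
        · simp [h1, h2]
        · simp [h1, h2, coeff_monomial]
      · by_cases h2 : n = j
        · simp [h1, h2, coeff_monomial]
        · simp [h1, h2]

/-- the degree in `X` -/
noncomputable def dX (F : R[X][Y]) : ℕ := (swap F).natDegree

/-- polynomials of degree less than `m` in `X` and less than `n` in `Y` -/
def Box (R : Type*) [CommRing R] (m n : ℕ) : Submodule R R[X][Y] where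
  carrier := {F | ∀ i j, (F.coeff j).coeff i ≠ 0 → i < m ∧ j < n}
  add_mem' := by
    intro a b ha hb i j h
    by_contra hcon
    apply h
    have h1 : (a.coeff j).coeff i = 0 := by
      by_contra h1
      exact hcon (ha i j h1)
    have h2 : (b.coeff j).coeff i = 0 := by
      by_contra h2
      exact hcon (hb i j h2)
    rw [coeff_add, coeff_add, h1, h2, add_zero]
  zero_mem' := by
    intro i j h
    simp at h
  smul_mem' := by
    intro c a ha i j h
    refine ha i j ?_
    intro h1
    apply h
    rw [coeff_smul, coeff_smul, h1, smul_zero]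

theorem mem_box {m n : ℕ} {F : R[X][Y]} :
    F ∈ Box R m n ↔ ∀ i j, (F.coeff j).coeff i ≠ 0 → i < m ∧ j < n := Iff.rfl

/-- the polynomial with given coefficients -/
noncomputable def bp {m n : ℕ} (c : Fin m × Fin n → R) : R[X][Y] :=
  ∑ p, monomial (p.2 : ℕ) (monomial (p.1 : ℕ) (c p))

theorem coeff_bp {m n : ℕ} (c : Fin m × Fin n → R) (p : Fin m × Fin n) :
    ((bp c).coeff p.2).coeff p.1 = c p := by
  simp only [bp, finsetSum_coeff]
  rw [Finset.sum_eq_single p]
  · simp
  · intro q _ hq
    rw [coeff_monomial]
    by_cases h2 : (q.2 : ℕ) = p.2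
    · rw [if_pos h2, coeff_monomial, if_neg]
      intro h1
      exact hq (Prod.ext (Fin.ext h1) (Fin.ext h2))
    · rw [if_neg h2, coeff_zero]
  · simp

theorem coeff_bp' {m n : ℕ} (c : Fin m × Fin n → R) (i j : ℕ) (h : ¬ (i < m ∧ j < n)) :
    ((bp c).coeff j).coeff i = 0 := by
  simp only [bp, finsetSum_coeff]
  refine Finset.sum_eq_zero fun q _ => ?_
  rw [coeff_monomial]
  by_cases h2 : (q.2 : ℕ) = j
  · rw [if_pos h2, coeff_monomial, if_neg]
    intro h1
    exact h ⟨h1 ▸ q.1.2, h2 ▸ q.2.2⟩
  · rw [if_neg h2, coeff_zero]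

theorem bp_mem {m n : ℕ} (c : Fin m × Fin n → R) : bp c ∈ Box R m n := by
  intro i j h
  by_contra h1
  exact h (coeff_bp' c i j h1)

/-- the coefficient isomorphism -/
noncomputable def boxEquiv (R : Type*) [CommRing R] (m n : ℕ) :
    (Fin m × Fin n → R) ≃ₗ[R] Box R m n where
  toFun c := ⟨bp c, bp_mem c⟩
  map_add' c d := by
    apply Subtype.ext
    simp [bp, Finset.sum_add_distrib]
  map_smul' r c := by
    apply Subtype.ext
    simp [bp, Finset.smul_sum, smul_monomial]
  invFun F := fun p => (F.1.coeff p.2).coeff p.1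
  left_inv c := by
    funext p
    exact coeff_bp c p
  right_inv F := by
    apply Subtype.ext
    ext j i
    by_cases h : i < m ∧ j < n
    · exact coeff_bp _ (⟨i, h.1⟩, ⟨j, h.2⟩)
    · rw [coeff_bp' _ _ _ h]
      by_contra h1
      exact h (F.2 i j (Ne.symm h1))

theorem boxEquiv_apply {m n : ℕ} (c : Fin m × Fin n → R) : (boxEquiv R m n c : R[X][Y]) = bp c :=
  rfl

theorem finrank_box (k : Type*) [CommRing k] [Nontrivial k] (m n : ℕ) :
    finrank k (Box k m n) = m * n := by
  rw [← (boxEquiv k m n).finrank_eq, Module.finrank_fintype_fun_eq_card]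
  simp

instance (R : Type*) [CommRing R] (m n : ℕ) : Module.Finite R (Box R m n) :=
  Module.Finite.equiv (boxEquiv R m n)

instance (R : Type*) [CommRing R] (m n : ℕ) : Module.Free R (Box R m n) :=
  Module.Free.of_equiv (boxEquiv R m n)

theorem box_mono {m n m' n' : ℕ} (h1 : m ≤ m') (h2 : n ≤ n') : Box R m n ≤ Box R m' n' := by
  intro F hF i j h
  have := hF i j h
  exact ⟨this.1.trans_le h1, this.2.trans_le h2⟩

theorem mem_box_iff {m n : ℕ} {F : R[X][Y]} (hF : F ≠ 0) :
    F ∈ Box R m n ↔ dX F < m ∧ F.natDegree < n := by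
  constructor
  · intro h
    have hs : swap F ≠ 0 := by
      intro h0
      exact hF (by simpa using congrArg swap h0)
    constructor
    · have h1 : (swap F).coeff (swap F).natDegree ≠ 0 := by
        rw [coeff_natDegree, leadingCoeff_ne_zero]
        exact hs
      obtain ⟨j, hj⟩ : ∃ j, ((swap F).coeff (swap F).natDegree).coeff j ≠ 0 := by
        by_contra hcon
        push Not at hcon
        exact h1 (Polynomial.ext fun j => by simpa using hcon j)
      rw [coeff_swap] at hj
      exact (h _ _ hj).1
    · have h1 : F.coeff F.natDegree ≠ 0 := by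
        rw [coeff_natDegree, leadingCoeff_ne_zero]
        exact hF
      obtain ⟨i, hi⟩ : ∃ i, (F.coeff F.natDegree).coeff i ≠ 0 := by
        by_contra hcon
        push Not at hcon
        exact h1 (Polynomial.ext fun j => by simpa using hcon j)
      exact (h _ _ hi).2
  · rintro ⟨h1, h2⟩ i j h
    constructor
    · rw [← coeff_swap] at h
      have h3 : (swap F).coeff i ≠ 0 := by
        intro h0
        rw [h0, coeff_zero] at h
        exact h rfl
      exact (le_natDegree_of_ne_zero h3).trans_lt h1
    · have h3 : F.coeff j ≠ 0 := by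
        intro h0
        rw [h0, coeff_zero] at h
        exact h rfl
      exact (le_natDegree_of_ne_zero h3).trans_lt h2

end ring

section domain

variable {R : Type*} [CommRing R] [IsDomain R]

theorem dX_mul {F G : R[X][Y]} (hF : F ≠ 0) (hG : G ≠ 0) : dX (F * G) = dX F + dX G := by
  rw [dX, map_mul, natDegree_mul]
  · rfl
  · intro h
    exact hF (by simpa using congrArg swap h)
  · intro h
    exact hG (by simpa using congrArg swap h)

theorem dX_le_of_dvd {F G : R[X][Y]} (hG : G ≠ 0) (h : F ∣ G) : dX F ≤ dX G := by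
  obtain ⟨H, rfl⟩ := h
  rw [dX_mul (left_ne_zero_of_mul hG) (right_ne_zero_of_mul hG)]
  exact Nat.le_add_right _ _

omit [IsDomain R] in
theorem dX_C (r : R[X]) : dX (C r : R[X][Y]) = r.natDegree := by
  rw [dX, swap_C]
  by_cases h : r = 0
  · simp [h]
  · exact natDegree_map_eq_of_injective C_injective r

theorem mul_mem_box {m n m' n' : ℕ} {F G : R[X][Y]} (hF : F ∈ Box R (m + 1) (n + 1))
    (hG : G ∈ Box R m' n') : F * G ∈ Box R (m + m') (n + n') := by
  by_cases h1 : F = 0
  · rw [h1, zero_mul]
    exact Submodule.zero_mem _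
  by_cases h2 : G = 0
  · rw [h2, mul_zero]
    exact Submodule.zero_mem _
  rw [mem_box_iff h1] at hF
  rw [mem_box_iff h2] at hG
  rw [mem_box_iff (mul_ne_zero h1 h2), dX_mul h1 h2, natDegree_mul h1 h2]
  constructor <;> omega

end domain

section bezout

variable {k : Type*} [CommRing k] [IsDomain k] [UniqueFactorizationMonoid k]

/-- Two relatively prime polynomials in two variables generate an ideal that contains a polynomial
of small degree in the first variable only. -/
theorem bezout (A B : k[X][Y]) (hA : A ≠ 0) (hB : B ≠ 0) (hrel : IsRelPrime A B) :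
    ∃ r : k[X], r ≠ 0 ∧ r.natDegree ≤ dX A * B.natDegree + dX B * A.natDegree + dX A + dX B ∧
      ∃ U V : k[X][Y], U * A + V * B = C r := by
  set a := A.natDegree with ha
  set b := B.natDegree with hb
  by_cases hab : a = 0
  · have h1 : A = C (A.coeff 0) := eq_C_of_natDegree_eq_zero hab
    refine ⟨A.coeff 0, ?_, ?_, 1, 0, ?_⟩
    · intro h0
      rw [h0, C_0] at h1
      exact hA h1
    · have : dX A = (A.coeff 0).natDegree := by
        conv_lhs => rw [h1]
        exact dX_C _
      rw [← this]
      omega
    · rw [one_mul, zero_mul, add_zero]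
      exact h1
  set M := dX A * b + dX B * a + dX A + dX B with hM
  let V1 := Box k (M + 1 - dX A) b
  let V2 := Box k (M + 1 - dX B) a
  let V3 := Box k (M + 1) 1
  let Wt := Box k (M + 1) (a + b)
  have hMA : dX A ≤ M := by omega
  have hMB : dX B ≤ M := by omega
  let Θ : (V1 × V2 × V3) →ₗ[k] Wt :=
    LinearMap.codRestrict Wt
      ((LinearMap.mulRight k A).comp (V1.subtype.comp (LinearMap.fst k _ _)) +
        ((LinearMap.mulRight k B).comp (V2.subtype.comp
          ((LinearMap.fst k _ _).comp (LinearMap.snd k _ _))) -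
          V3.subtype.comp ((LinearMap.snd k _ _).comp (LinearMap.snd k _ _)))) (by
      rintro ⟨⟨u, hu⟩, ⟨v, hv⟩, ⟨w, hw⟩⟩
      simp only [LinearMap.add_apply, LinearMap.sub_apply, LinearMap.comp_apply,
        LinearMap.fst_apply, LinearMap.snd_apply, Submodule.subtype_apply,
        LinearMap.mulRight_apply]
      refine Wt.add_mem ?_ (Wt.sub_mem ?_ ?_)
      · have h1 : A ∈ Box k (dX A + 1) (a + 1) := (mem_box_iff hA).mpr ⟨by omega, by omega⟩
        have h2 := mul_mem_box h1 hu
        rw [mul_comm]
        have h3 : dX A + (M + 1 - dX A) = M + 1 := by omega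
        rw [h3] at h2
        exact h2
      · have h1 : B ∈ Box k (dX B + 1) (b + 1) := (mem_box_iff hB).mpr ⟨by omega, by omega⟩
        have h2 := mul_mem_box h1 hv
        rw [mul_comm]
        have h3 : dX B + (M + 1 - dX B) = M + 1 := by omega
        rw [h3, add_comm b a] at h2
        exact h2
      · exact box_mono le_rfl (by omega) hw)
  have hlt : finrank k Wt < finrank k (V1 × V2 × V3) := by
    rw [Module.finrank_prod, Module.finrank_prod, finrank_box, finrank_box, finrank_box,
      finrank_box]
    have h1 : (M + 1 - dX A) * b + dX A * b = (M + 1) * b := by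
      rw [← Nat.add_mul]
      congr 1
      omega
    have h2 : (M + 1 - dX B) * a + dX B * a = (M + 1) * a := by
      rw [← Nat.add_mul]
      congr 1
      omega
    have h3 : (M + 1) * (a + b) = (M + 1) * a + (M + 1) * b := by ring
    omega
  have hker : ∃ x, Θ x = 0 ∧ x ≠ 0 := by
    by_contra hcon
    push Not at hcon
    have hinj : Function.Injective Θ := by
      intro x y hxy
      have h1 : Θ (x + (-1 : k) • y) = 0 := by
        rw [map_add, map_smul, hxy]
        apply Subtype.ext
        simp
      have h2 := hcon _ h1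
      have h3 := congrArg (fun z : V1 × V2 × V3 => (z.1 : k[X][Y])) h2
      have h4 := congrArg (fun z : V1 × V2 × V3 => (z.2.1 : k[X][Y])) h2
      have h5 := congrArg (fun z : V1 × V2 × V3 => (z.2.2 : k[X][Y])) h2
      simp only [Prod.fst_add, Prod.snd_add, Prod.smul_fst, Prod.smul_snd, Submodule.coe_add,
        Submodule.coe_smul, Prod.fst_zero, Prod.snd_zero, Submodule.coe_zero] at h3 h4 h5
      refine Prod.ext (Subtype.ext ?_) (Prod.ext (Subtype.ext ?_) (Subtype.ext ?_))
      · rw [neg_smul, one_smul, add_neg_eq_zero] at h3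
        exact h3
      · rw [neg_smul, one_smul, add_neg_eq_zero] at h4
        exact h4
      · rw [neg_smul, one_smul, add_neg_eq_zero] at h5
        exact h5
    have h1 : finrank k (V1 × V2 × V3) ≤ finrank k Wt :=
      LinearMap.finrank_le_finrank_of_injective (f := Θ) hinj
    exact absurd hlt (not_lt.mpr h1)
  obtain ⟨⟨⟨u, hu⟩, ⟨v, hv⟩, ⟨w, hw⟩⟩, hx, hx0⟩ := hker
  have hrel2 : u * A + v * B = w := by
    have h1 := congrArg Subtype.val hx
    simp only [Θ, LinearMap.codRestrict_apply, LinearMap.add_apply, LinearMap.sub_apply,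
      LinearMap.comp_apply, LinearMap.fst_apply, LinearMap.snd_apply, Submodule.subtype_apply,
      LinearMap.mulRight_apply, ZeroMemClass.coe_zero] at h1
    linear_combination h1
  have hwdeg : w.natDegree = 0 := by
    by_cases h0 : w = 0
    · rw [h0, natDegree_zero]
    · have := ((mem_box_iff h0).mp hw).2
      omega
  have hwC : w = C (w.coeff 0) := eq_C_of_natDegree_eq_zero hwdeg
  have hw0 : w ≠ 0 := by
    intro h0
    rw [h0] at hrel2
    have h1 : B ∣ u * A := ⟨-v, by linear_combination hrel2⟩
    have h2 : B ∣ u := (hrel.symm.dvd_of_dvd_mul_right h1)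
    have hu0 : u = 0 := by
      by_contra hu0
      have h3 := natDegree_le_of_dvd h2 hu0
      have h4 := ((mem_box_iff hu0).mp hu).2
      omega
    rw [hu0, zero_mul, zero_add] at hrel2
    have hv0 : v = 0 := by
      rcases mul_eq_zero.mp hrel2 with h | h
      · exact h
      · exact absurd h hB
    apply hx0
    simp [hu0, hv0, h0]
  refine ⟨w.coeff 0, ?_, ?_, u, v, ?_⟩
  · intro h0
    rw [h0, C_0] at hwC
    exact hw0 hwC
  · have h1 := ((mem_box_iff hw0).mp hw).1
    have h2 : dX w = (w.coeff 0).natDegree := by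
      conv_lhs => rw [hwC]
      exact dX_C _
    omega
  · rw [hrel2]
    exact hwC

end bezout

end Pool.Agent.H776GM
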