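import Pool.Agent.H776GM.Alg

/-!
# Counting points on curves that are mapped to curves of small degree
-/

set_option autoImplicit false

namespace Pool.Agent.H776GM

open Polynomial Polynomial.Bivariate Finset

theorem evalEval_box {R : Type*} [CommRing R] {m n : ℕ} {F : R[X][Y]} (hF : F ∈ Box R m n)
    (x y : R) : evalEval x y F =
      ∑ p : Fin m × Fin n, (F.coeff p.2).coeff p.1 * x ^ (p.1 : ℕ) * y ^ (p.2 : ℕ) := by
  have h1 : F = bp (fun p : Fin m × Fin n => (F.coeff p.2).coeff p.1) := by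
    have := (boxEquiv R m n).apply_symm_apply ⟨F, hF⟩
    exact (congrArg Subtype.val this).symm
  conv_lhs => rw [h1]
  rw [bp, evalEval_finsetSum]
  refine Finset.sum_congr rfl fun p _ => ?_
  simp [evalEval, eval_monomial]

theorem count_irr {l m ω κ : ℕ} (hl : l.Prime) (hm : m ≤ l) {F Q : ℂ[X][Y]} (hF : F ≠ 0)
    (hFb : F ∈ Box ℂ m m) (hQ : Irreducible Q) (hd : Q ∣ exL ℂ l F)
    (hQb : Q ∈ Box ℂ (ω + 1) (ω + 1)) (hω : 2 * (ω * ω) < l) {ι : Type} [Fintype ι]
    (x y : ι → ℂ) (hx : ∀ w, x w ≠ 0) (hy : ∀ w, y w ≠ 0)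
    (hfib : ∀ u v : ℤ, (u, v) ≠ (0, 0) → ∀ z : ℂ,
      (univ.filter fun w => x w ^ u * y w ^ v = z).card ≤ κ) :
    (univ.filter fun w => evalEval (x w) (y w) Q = 0).card ≤ 2 * ω * κ := by
  classical
  obtain ⟨i0, j0, h0⟩ : ∃ i0 j0, (Q.coeff j0).coeff i0 ≠ 0 := by
    by_contra hcon
    push Not at hcon
    apply hQ.ne_zero
    ext j i
    simpa using hcon i j
  by_cases hone : ∀ i j, (Q.coeff j).coeff i ≠ 0 → i = i0 ∧ j = j0
  · have : (univ.filter fun w => evalEval (x w) (y w) Q = 0) = ∅ := by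
      rw [Finset.filter_eq_empty_iff]
      intro w _ hw
      rw [evalEval_box hQb] at hw
      have hb0 := hQb _ _ h0
      rw [Finset.sum_eq_single (⟨i0, hb0.1⟩, ⟨j0, hb0.2⟩)] at hw
      · exact (mul_ne_zero (mul_ne_zero h0 (pow_ne_zero _ (hx w))) (pow_ne_zero _ (hy w))) hw
      · intro p _ hp
        have : (Q.coeff p.2).coeff p.1 = 0 := by
          by_contra hne
          have := hone _ _ hne
          exact hp (Prod.ext (Fin.ext this.1) (Fin.ext this.2))
        rw [this, zero_mul, zero_mul]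
      · intro h
        exact absurd (Finset.mem_univ _) h
    rw [this, Finset.card_empty]
    exact Nat.zero_le _
  push Not at hone
  obtain ⟨i1, j1, h1, hne⟩ := hone
  set U : ℤ := (i1 : ℤ) - i0 with hU
  set V : ℤ := (j1 : ℤ) - j0 with hV
  have hUV : ¬ (U = 0 ∧ V = 0) := by
    rintro ⟨hU0, hV0⟩
    have e1 : i1 = i0 := by omega
    exact hne e1 (by omega)
  set g : ℤ := (Int.gcd U V : ℤ) with hg
  have hg0 : g ≠ 0 := by
    intro hg0
    apply hUV
    rw [hg] at hg0
    have := Int.gcd_eq_zero_iff.mp (by exact_mod_cast hg0)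
    exact this
  obtain ⟨u, hu⟩ : g ∣ U := Int.gcd_dvd_left ..
  obtain ⟨v, hv⟩ : g ∣ V := Int.gcd_dvd_right ..
  obtain ⟨α, β, hαβ⟩ : ∃ α β : ℤ, α * u + β * v = 1 := by
    have h2 := Int.gcd_eq_gcd_ab U V
    refine ⟨Int.gcdA U V, Int.gcdB U V, ?_⟩
    rw [← hg] at h2
    apply mul_left_cancel₀ hg0
    rw [mul_one]
    conv_rhs => rw [h2]
    conv_rhs => rw [hu, hv]
    rw [hu, hv] at *
    ring
  have huv : (u, v) ≠ (0, 0) := by
    intro h
    rw [Prod.mk.injEq] at h
    rw [h.1, h.2] at hαβ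
    simp at hαβ
  let t : ℕ → ℕ → ℤ := fun i j => α * ((i : ℤ) - i0) + β * ((j : ℤ) - j0)
  have ht : ∀ i j, (Q.coeff j).coeff i ≠ 0 → u * t i j = (i : ℤ) - i0 ∧
      v * t i j = (j : ℤ) - j0 := by
    intro i j hij
    have h2 := collinear hl hm hF hFb hQ hd hQb hω i0 j0 i1 j1 i j h0 h1 hij
    rw [← hU, ← hV, hu, hv, mul_assoc, mul_assoc] at h2
    have h3 := mul_left_cancel₀ hg0 h2
    simp only [t]
    constructor
    · linear_combination ((i : ℤ) - i0) * hαβ + β * h3
    · linear_combination ((j : ℤ) - j0) * hαβ - α * h3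
  have htb : ∀ i j, (Q.coeff j).coeff i ≠ 0 → |t i j| ≤ ω := by
    intro i j hij
    obtain ⟨e1, e2⟩ := ht i j hij
    have b0 := hQb _ _ h0
    have b1 := hQb _ _ hij
    by_cases hu0 : u = 0
    · have hv0 : v ≠ 0 := by
        intro hv0
        exact huv (by rw [hu0, hv0])
      have h2 : |t i j| ≤ |v| * |t i j| :=
        le_mul_of_one_le_left (abs_nonneg _) (Int.one_le_abs hv0)
      rw [← abs_mul, e2] at h2
      refine h2.trans ?_
      rw [abs_le]
      omega
    · have h2 : |t i j| ≤ |u| * |t i j| :=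
        le_mul_of_one_le_left (abs_nonneg _) (Int.one_le_abs hu0)
      rw [← abs_mul, e1] at h2
      refine h2.trans ?_
      rw [abs_le]
      omega
  let tn : Fin (ω + 1) × Fin (ω + 1) → ℕ := fun p => (t p.1 p.2 + ω).toNat
  set q : ℂ[X] := ∑ p : Fin (ω + 1) × Fin (ω + 1), monomial (tn p) ((Q.coeff p.2).coeff p.1) with hq
  have hb0 := hQb _ _ h0
  have ht0 : t i0 j0 = 0 := by simp [t]
  have hq0 : q ≠ 0 := by
    intro hq0
    have h2 := congrArg (fun r => r.coeff ω) hq0
    simp only [hq, finsetSum_coeff, coeff_zero] at h2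
    rw [Finset.sum_eq_single (⟨i0, hb0.1⟩, ⟨j0, hb0.2⟩)] at h2
    · rw [coeff_monomial, if_pos] at h2
      · exact h0 h2
      · simp [tn, ht0]
    · intro p _ hp
      by_cases hc : (Q.coeff p.2).coeff p.1 = 0
      · rw [hc, monomial_zero_right, coeff_zero]
      · rw [coeff_monomial, if_neg]
        intro h3
        have h4 := htb _ _ hc
        rw [abs_le] at h4
        have h5 : t p.1 p.2 = 0 := by
          simp only [tn] at h3
          omega
        obtain ⟨e1, e2⟩ := ht _ _ hc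
        rw [h5, mul_zero] at e1 e2
        apply hp
        apply Prod.ext
        · apply Fin.ext
          show (p.1 : ℕ) = i0
          omega
        · apply Fin.ext
          show (p.2 : ℕ) = j0
          omega
    · intro h
      exact absurd (Finset.mem_univ _) h
  have hqdeg : q.natDegree ≤ 2 * ω := by
    rw [hq]
    apply natDegree_sum_le_of_forall_le
    intro p _
    by_cases hc : (Q.coeff p.2).coeff p.1 = 0
    · rw [hc, monomial_zero_right, natDegree_zero]
      exact Nat.zero_le _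
    · refine (natDegree_monomial_le _).trans ?_
      have h4 := htb _ _ hc
      rw [abs_le] at h4
      simp only [tn]
      omega
  have hroot : ∀ w, evalEval (x w) (y w) Q = 0 → q.IsRoot (x w ^ u * y w ^ v) := by
    intro w hw
    rw [evalEval_box hQb] at hw
    rw [IsRoot.def, hq, eval_finsetSum]
    have hθ : x w ^ u * y w ^ v ≠ 0 := mul_ne_zero (zpow_ne_zero _ (hx w)) (zpow_ne_zero _ (hy w))
    have h2 : ∀ p : Fin (ω + 1) × Fin (ω + 1),
        eval (x w ^ u * y w ^ v) (monomial (tn p) ((Q.coeff p.2).coeff p.1)) =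
        ((x w ^ u * y w ^ v) ^ ω * (x w ^ (-(i0 : ℤ)) * y w ^ (-(j0 : ℤ)))) *
          ((Q.coeff p.2).coeff p.1 * x w ^ (p.1 : ℕ) * y w ^ (p.2 : ℕ)) := by
      intro p
      rw [eval_monomial]
      by_cases hc : (Q.coeff p.2).coeff p.1 = 0
      · rw [hc]
        ring
      have h4 := htb _ _ hc
      rw [abs_le] at h4
      obtain ⟨e1, e2⟩ := ht _ _ hc
      have h5 : ((tn p : ℕ) : ℤ) = t p.1 p.2 + ω := by
        simp only [tn]
        omega
      rw [← zpow_natCast (x w ^ u * y w ^ v) (tn p), h5, zpow_add₀ hθ, zpow_natCast, mul_zpow,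
        ← zpow_mul, ← zpow_mul, e1, e2, zpow_sub₀ (hx w), zpow_sub₀ (hy w), zpow_neg, zpow_neg]
      simp only [zpow_natCast]
      field_simp
    rw [Finset.sum_congr rfl fun p _ => h2 p, ← Finset.mul_sum, hw, mul_zero]
  calc (univ.filter fun w => evalEval (x w) (y w) Q = 0).card
      ≤ (q.roots.toFinset.biUnion fun z => univ.filter fun w => x w ^ u * y w ^ v = z).card := by
        apply Finset.card_le_card
        intro w hw
        rw [Finset.mem_biUnion]
        refine ⟨x w ^ u * y w ^ v, ?_, Finset.mem_filter.mpr ⟨Finset.mem_univ _, rfl⟩⟩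
        rw [Multiset.mem_toFinset, mem_roots hq0]
        exact hroot w (Finset.mem_filter.mp hw).2
    _ ≤ ∑ z ∈ q.roots.toFinset, (univ.filter fun w => x w ^ u * y w ^ v = z).card :=
        Finset.card_biUnion_le
    _ ≤ ∑ _z ∈ q.roots.toFinset, κ := Finset.sum_le_sum fun z _ => hfib u v huv z
    _ = q.roots.toFinset.card * κ := by rw [Finset.sum_const, smul_eq_mul]
    _ ≤ 2 * ω * κ := by
        apply Nat.mul_le_mul_right
        exact (Multiset.toFinset_card_le _).trans ((card_roots' q).trans hqdeg)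

theorem count_all {l m ω κ : ℕ} (hl : l.Prime) (hm : m ≤ l) {F : ℂ[X][Y]} (hF : F ≠ 0)
    (hFb : F ∈ Box ℂ m m) (hω : 2 * (ω * ω) < l) {ι : Type} [Fintype ι]
    (x y : ι → ℂ) (hx : ∀ w, x w ≠ 0) (hy : ∀ w, y w ≠ 0)
    (hfib : ∀ u v : ℤ, (u, v) ≠ (0, 0) → ∀ z : ℂ,
      (univ.filter fun w => x w ^ u * y w ^ v = z).card ≤ κ)
    (R : ℂ[X][Y]) (hR0 : R ≠ 0) (hd : R ∣ exL ℂ l F) (hRb : R ∈ Box ℂ (ω + 1) (ω + 1)) :
    (univ.filter fun w => evalEval (x w) (y w) R = 0).card ≤
      (dX R + R.natDegree) * (2 * ω * κ) := by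
  classical
  induction R using WfDvdMonoid.induction_on_irreducible with
  | zero => exact absurd rfl hR0
  | unit u hu =>
    have : (univ.filter fun w => evalEval (x w) (y w) u = 0) = ∅ := by
      rw [Finset.filter_eq_empty_iff]
      intro w _ hw
      exact (hu.map (evalEvalRingHom (x w) (y w))).ne_zero hw
    rw [this, Finset.card_empty]
    exact Nat.zero_le _
  | mul a i ha hi ih =>
    have hi0 := hi.ne_zero
    have hbox := (mem_box_iff hR0).mp hRb
    rw [dX_mul hi0 ha, natDegree_mul hi0 ha] at hbox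
    have h1 := ih ha ((dvd_mul_left _ _).trans hd) ((mem_box_iff ha).mpr ⟨by omega, by omega⟩)
    have hib : i ∈ Box ℂ (ω + 1) (ω + 1) := (mem_box_iff hi0).mpr ⟨by omega, by omega⟩
    have h2 := count_irr hl hm hF hFb hi ((dvd_mul_right _ _).trans hd) hib hω x y hx hy hfib
    have h3 : 1 ≤ dX i + i.natDegree := by
      by_contra hcon
      have h4 : i.natDegree = 0 := by omega
      have h5 : dX i = 0 := by omega
      have h8 : i = C (i.coeff 0) := eq_C_of_natDegree_eq_zero h4
      have h9 : (i.coeff 0).natDegree = 0 := by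
        have := dX_C (R := ℂ) (i.coeff 0)
        rw [← h8, h5] at this
        exact this.symm
      have h10 : i.coeff 0 = C ((i.coeff 0).coeff 0) := eq_C_of_natDegree_eq_zero h9
      have h11 : (i.coeff 0).coeff 0 ≠ 0 := by
        intro h0
        rw [h0, C_0] at h10
        rw [h10, C_0] at h8
        exact hi0 h8
      apply hi.not_isUnit
      rw [h8, h10]
      exact (isUnit_iff_ne_zero.mpr h11).map ((C : ℂ[X] →+* ℂ[X][Y]).comp (C : ℂ →+* ℂ[X]))
    have h4 : (univ.filter fun w => evalEval (x w) (y w) (i * a) = 0) ⊆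
        (univ.filter fun w => evalEval (x w) (y w) i = 0) ∪
        (univ.filter fun w => evalEval (x w) (y w) a = 0) := by
      intro w hw
      rw [Finset.mem_filter, evalEval_mul] at hw
      rw [Finset.mem_union, Finset.mem_filter, Finset.mem_filter]
      rcases mul_eq_zero.mp hw.2 with h | h
      · exact Or.inl ⟨Finset.mem_univ _, h⟩
      · exact Or.inr ⟨Finset.mem_univ _, h⟩
    rw [dX_mul hi0 ha, natDegree_mul hi0 ha]
    calc _ ≤ _ := Finset.card_le_card h4
      _ ≤ _ := Finset.card_union_le _ _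
      _ ≤ 2 * ω * κ + (dX a + a.natDegree) * (2 * ω * κ) := Nat.add_le_add h2 h1
      _ = (1 + (dX a + a.natDegree)) * (2 * ω * κ) := by ring
      _ ≤ _ := Nat.mul_le_mul_right _ (by omega)

end Pool.Agent.H776GM
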