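import Pool.Agent.H776GM.Gap

/-!
# Multiplicative dependence of short eigenvalues
-/

set_option autoImplicit false

namespace Pool.Agent.H776GM

open Polynomial NumberField Finset Module Pool.Agent.H225R3.Marg

/-- an eigenvector over a field -/
theorem eigvec {E : Type*} [Field E] {n : ℕ} (A : Matrix (Fin n) (Fin n) E) (l : E)
    (h : A.charpoly.IsRoot l) : ∃ v : Fin n → E, v ≠ 0 ∧ A.mulVec v = l • v := by
  rw [IsRoot, Matrix.eval_charpoly] at h
  obtain ⟨v, hv, hv2⟩ := Matrix.exists_mulVec_eq_zero_iff.mpr h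
  refine ⟨v, hv, ?_⟩
  rw [Matrix.sub_mulVec, sub_eq_zero] at hv2
  rw [← hv2]
  ext i
  simp [Matrix.scalar_apply, Matrix.mulVec_diagonal]

theorem root_of_eigvec {E : Type*} [Field E] {n : ℕ} (A : Matrix (Fin n) (Fin n) E) (l : E)
    (v : Fin n → E) (hv : v ≠ 0) (h : A.mulVec v = l • v) : A.charpoly.IsRoot l := by
  rw [IsRoot, Matrix.eval_charpoly]
  refine Matrix.exists_mulVec_eq_zero_iff.mp ⟨v, hv, ?_⟩
  rw [Matrix.sub_mulVec, h, sub_eq_zero]
  ext i
  simp [Matrix.scalar_apply, Matrix.mulVec_diagonal]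

theorem root_inv' {E : Type*} [Field E] {n : ℕ} (B B' : Matrix (Fin n) (Fin n) E)
    (h : B' * B = 1) (l : E) (hl : B.charpoly.IsRoot l) : l ≠ 0 ∧ B'.charpoly.IsRoot l⁻¹ := by
  obtain ⟨v, hv, hv2⟩ := eigvec B l hl
  have h1 : v = l • B'.mulVec v := by
    calc v = (B' * B).mulVec v := by rw [h, Matrix.one_mulVec]
      _ = B'.mulVec (B.mulVec v) := by rw [Matrix.mulVec_mulVec]
      _ = l • B'.mulVec v := by rw [hv2, Matrix.mulVec_smul]
  have hl0 : l ≠ 0 := by
    rintro rfl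
    apply hv
    rw [h1, zero_smul]
  refine ⟨hl0, root_of_eigvec B' l⁻¹ v hv ?_⟩
  conv_rhs => rw [h1]
  rw [smul_smul, inv_mul_cancel₀ hl0, one_smul]

/-- roots are integral -/
theorem int_root {k L : Type} [Field k] [Field L] [NumberField k] [Algebra k L]
    {n : ℕ} (A : Matrix (Fin n) (Fin n) (𝓞 k)) (α : L)
    (hα : (A.charpoly.map ((algebraMap k L).comp (algebraMap (𝓞 k) k))).IsRoot α) :
    IsIntegral ℤ α := by
  have h1 : IsIntegral (𝓞 k) α := by
    refine ⟨A.charpoly, A.charpoly_monic, ?_⟩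
    rw [IsRoot, eval_map] at hα
    exact hα
  haveI : IsScalarTower ℤ (𝓞 k) L := IsScalarTower.of_algebraMap_eq' (RingHom.ext_int _ _)
  exact isIntegral_trans α h1

/-- roots are units -/
theorem unit_root {k L : Type} [Field k] [Field L] [NumberField k] [Algebra k L]
    {n : ℕ} (A : Matrix (Fin n) (Fin n) (𝓞 k)) (hA : IsUnit A) (α : L)
    (hα : (A.charpoly.map ((algebraMap k L).comp (algebraMap (𝓞 k) k))).IsRoot α) :
    α ≠ 0 ∧ IsIntegral ℤ α⁻¹ := by
  set g : 𝓞 k →+* L := (algebraMap k L).comp (algebraMap (𝓞 k) k) with hg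
  obtain ⟨u, hu⟩ := hA
  set A' : Matrix (Fin n) (Fin n) (𝓞 k) := ((u⁻¹ : (Matrix (Fin n) (Fin n) (𝓞 k))ˣ) :
    Matrix (Fin n) (Fin n) (𝓞 k)) with hA'
  have h1 : g.mapMatrix A' * g.mapMatrix A = 1 := by
    rw [← map_mul, hA', ← hu, Units.inv_mul, map_one]
  have h2 : (g.mapMatrix A).charpoly = A.charpoly.map g := by rw [← Matrix.charpoly_map]; rfl
  have h3 : (g.mapMatrix A').charpoly = A'.charpoly.map g := by rw [← Matrix.charpoly_map]; rfl
  rw [← h2] at hα
  obtain ⟨h4, h5⟩ := root_inv' _ _ h1 α hα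
  rw [h3] at h5
  exact ⟨h4, int_root A' α⁻¹ h5⟩

theorem int_zpow {L : Type} [Field L] (α : L) (h1 : IsIntegral ℤ α) (h2 : IsIntegral ℤ α⁻¹)
    (u : ℤ) : IsIntegral ℤ (α ^ u) := by
  rcases u with m | m
  · have : α ^ (Int.ofNat m) = α ^ m := zpow_natCast α m
    rw [this]
    exact h1.pow m
  · rw [zpow_negSucc, ← inv_pow]
    exact h2.pow (m + 1)

theorem supp_count2 {k F : Type} [Field k] [NumberField k]
    [Field F] [NumberField F] {n : ℕ}
    (A B : Matrix (Fin n) (Fin n) (𝓞 k)) (S : Finset (k →+* ℂ)) (a b : 𝓞 F)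
    (hgen : ∀ w w' : F →+* ℂ, emb w a = emb w' a → emb w b = emb w' b → w = w')
    (T : Finset (F →+* ℂ))
    (hT : ∀ u ∈ T, ∃ σ ∈ S,
      ((emb σ).mapMatrix A).charpoly.IsRoot (emb u a) ∧
      ((emb σ).mapMatrix B).charpoly.IsRoot (emb u b)) :
    T.card ≤ S.card * (n * n) := by
  classical
  set R : Matrix (Fin n) (Fin n) (𝓞 k) → (k →+* ℂ) → Finset ℂ :=
    fun A σ => ((emb σ).mapMatrix A).charpoly.roots.toFinset with hR
  have hRc : ∀ A σ, (R A σ).card ≤ n := by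
    intro A σ
    refine (Multiset.toFinset_card_le _).trans ((card_roots' _).trans ?_)
    rw [Matrix.charpoly_natDegree_eq_dim, Fintype.card_fin]
  have hRm : ∀ A σ l, ((emb σ).mapMatrix A).charpoly.IsRoot l → l ∈ R A σ := by
    intro A σ l hl
    rw [hR]
    simp only [Multiset.mem_toFinset]
    rw [mem_roots (Matrix.charpoly_monic _).ne_zero]
    exact hl
  set Q : Finset (ℂ × ℂ) := S.biUnion fun σ => R A σ ×ˢ R B σ with hQ
  have h1 : Q.card ≤ S.card * (n * n) := by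
    refine Finset.card_biUnion_le_card_mul _ _ _ fun σ _ => ?_
    rw [Finset.card_product]
    exact Nat.mul_le_mul (hRc _ _) (hRc _ _)
  have h2 : T.card ≤ Q.card := by
    refine Finset.card_le_card_of_injOn (fun u => (emb u a, emb u b)) ?_ ?_
    · intro u hu
      obtain ⟨σ, h3, h4, h5⟩ := hT u (Finset.mem_coe.mp hu)
      simp only [hQ, Finset.coe_biUnion, Set.mem_iUnion]
      refine ⟨σ, h3, ?_⟩
      rw [Finset.mem_coe, Finset.mem_product]
      exact ⟨hRm _ _ _ h4, hRm _ _ _ h5⟩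
    · intro u _ u' _ h
      simp only [Prod.mk.injEq] at h
      exact hgen u u' h.1 h.2
  exact h2.trans h1

theorem dep_core : ∃ D0 : ℕ, ∀ (k L : Type) [Field k] [Field L] [NumberField k] [NumberField L]
    [Algebra k L] (n : ℕ) (A B : Matrix (Fin n) (Fin n) (𝓞 k)) (S : Finset (k →+* ℂ)),
    IsUnit A → IsUnit B →
    (∀ σ : k →+* ℂ, σ ∉ S → ∀ l : ℂ, ((emb σ).mapMatrix A).charpoly.IsRoot l → ‖l‖ = 1) →
    (∀ σ : k →+* ℂ, σ ∉ S → ∀ l : ℂ, ((emb σ).mapMatrix B).charpoly.IsRoot l → ‖l‖ = 1) →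
    (∀ σ ∈ S, ∀ l : ℂ, ((emb σ).mapMatrix A).charpoly.IsRoot l → ‖l‖ ≤ Real.exp 1) →
    (∀ σ ∈ S, ∀ l : ℂ, ((emb σ).mapMatrix B).charpoly.IsRoot l → ‖l‖ ≤ Real.exp 1) →
    D0 * S.card ≤ finrank ℚ k → (S.card * (n * n)) ^ 300 * S.card ≤ finrank ℚ k →
    ∀ α β : L, (A.charpoly.map ((algebraMap k L).comp (algebraMap (𝓞 k) k))).IsRoot α →
      (B.charpoly.map ((algebraMap k L).comp (algebraMap (𝓞 k) k))).IsRoot β →
      ∃ u v : ℤ, (u, v) ≠ (0, 0) ∧ α ^ u * β ^ v = 1 := by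
  classical
  obtain ⟨D0, hD0⟩ := heights
  refine ⟨D0, ?_⟩
  intro k L _ _ _ _ _ n A B S hA hB houtA houtB hinA hinB hd1 hd2 α β hα hβ
  by_contra hno
  push Not at hno
  obtain ⟨hα0, hαi⟩ := unit_root A hA α hα
  obtain ⟨hβ0, hβi⟩ := unit_root B hB β hβ
  have hαint := int_root A α hα
  have hβint := int_root B β hβ
  have hspA : ∀ w : L →+* ℂ,
      ((emb (w.comp (algebraMap k L))).mapMatrix A).charpoly.IsRoot (w α) :=
    fun w => spec_root A (algebraMap k L) w α hα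
  have hspB : ∀ w : L →+* ℂ,
      ((emb (w.comp (algebraMap k L))).mapMatrix B).charpoly.IsRoot (w β) :=
    fun w => spec_root B (algebraMap k L) w β hβ
  have hn : 0 < n := by
    rcases Nat.eq_zero_or_pos n with h0 | h0
    · exfalso
      subst h0
      have : A.charpoly = 1 := by
        rw [Matrix.charpoly, Matrix.det_isEmpty]
      rw [this] at hα
      simp at hα
    · exact h0
  -- degree
  obtain ⟨τ0, hτ0⟩ : ∃ τ0 : L →+* ℂ, 1 < ‖τ0 α‖ := by
    by_contra hcon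
    push Not at hcon
    obtain ⟨N, hN, h⟩ := NumberField.Embeddings.pow_eq_one_of_norm_le_one L ℂ hα0 hαint hcon
    refine hno N 0 ?_ ?_
    · intro h1
      rw [Prod.mk.injEq] at h1
      omega
    · rw [zpow_natCast, h, zpow_zero, mul_one]
  have hdeg0 := deg_bound S α τ0 (fun τ hτ => by
    by_contra hS
    have := houtA _ hS _ (hspA τ)
    rw [hτ] at this
    linarith)
  have hScard : 0 < S.card := by
    rcases Nat.eq_zero_or_pos S.card with h0 | h0
    · rw [h0, mul_zero] at hdeg0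
      have := Module.finrank_pos (R := ℚ) (M := k)
      omega
    · exact h0
  -- the field
  obtain ⟨F, _, _, jF, a, b, hjx, hjy, hgen⟩ := exists_field α β hαint hβint
  have hea : ∀ w : L →+* ℂ, emb (w.comp jF) a = w α := by
    intro w
    rw [← hjx]
    rfl
  have heb : ∀ w : L →+* ℂ, emb (w.comp jF) b = w β := by
    intro w
    rw [← hjy]
    rfl
  have ha0 : a ≠ 0 := by
    intro h
    have h1 : ((0 : 𝓞 F) : F) = 0 := rfl
    apply hα0
    rw [← hjx, h, h1, map_zero]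
  have hb0 : b ≠ 0 := by
    intro h
    have h1 : ((0 : 𝓞 F) : F) = 0 := rfl
    apply hβ0
    rw [← hjy, h, h1, map_zero]
  have hroots : ∀ u : F →+* ℂ, ∃ σ : k →+* ℂ,
      ((emb σ).mapMatrix A).charpoly.IsRoot (emb u a) ∧
      ((emb σ).mapMatrix B).charpoly.IsRoot (emb u b) := by
    intro u
    haveI : Algebra.IsIntegral k L := by
      haveI : FiniteDimensional k L := FiniteDimensional.right ℚ k L
      infer_instance
    obtain ⟨w, hw⟩ := extend_emb jF (fun x => alg_over' (K := k) jF x) u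
    refine ⟨w.comp (algebraMap k L), ?_, ?_⟩
    · rw [← hw, hea]
      exact hspA w
    · rw [← hw, heb]
      exact hspB w
  have hbda : ∀ u : F →+* ℂ, ‖emb u a‖ ≤ Real.exp 1 := by
    intro u
    obtain ⟨σ, h1, h2⟩ := hroots u
    by_cases h3 : σ ∈ S
    · exact hinA _ h3 _ h1
    · rw [houtA _ h3 _ h1]
      exact Real.one_le_exp zero_le_one
  have hbdb : ∀ u : F →+* ℂ, ‖emb u b‖ ≤ Real.exp 1 := by
    intro u
    obtain ⟨σ, h1, h2⟩ := hroots u
    by_cases h3 : σ ∈ S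
    · exact hinB _ h3 _ h2
    · rw [houtB _ h3 _ h2]
      exact Real.one_le_exp zero_le_one
  have hsuppa : (univ.filter fun w : F →+* ℂ => ‖emb w a‖ ≠ 1).card ≤ S.card * (n * n) := by
    refine supp_count2 A B S a b hgen _ fun u hu => ?_
    obtain ⟨σ, h1, h2⟩ := hroots u
    refine ⟨σ, ?_, h1, h2⟩
    by_contra h3
    exact (Finset.mem_filter.mp hu).2 (houtA _ h3 _ h1)
  have hsuppb : (univ.filter fun w : F →+* ℂ => ‖emb w b‖ ≠ 1).card ≤ S.card * (n * n) := by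
    refine supp_count2 A B S a b hgen _ fun u hu => ?_
    obtain ⟨σ, h1, h2⟩ := hroots u
    refine ⟨σ, ?_, h1, h2⟩
    by_contra h3
    exact (Finset.mem_filter.mp hu).2 (houtB _ h3 _ h2)
  -- independence
  have hind : ∀ u v : ℤ, (u, v) ≠ (0, 0) →
      ∃ w : F →+* ℂ, ‖emb w a‖ ^ u * ‖emb w b‖ ^ v ≠ 1 := by
    intro u v huv
    by_contra hcon
    push Not at hcon
    have h1 : ∀ w : L →+* ℂ, ‖w (α ^ u * β ^ v)‖ = 1 := by
      intro w
      have h2 := hcon (w.comp jF)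
      rw [hea, heb] at h2
      rw [map_mul, map_zpow₀, map_zpow₀, norm_mul, norm_zpow, norm_zpow]
      exact h2
    have h3 : IsIntegral ℤ (α ^ u * β ^ v) :=
      (int_zpow α hαint hαi u).mul (int_zpow β hβint hβi v)
    obtain ⟨N, hN, h4⟩ := NumberField.Embeddings.pow_eq_one_of_norm_eq_one L ℂ h3 h1
    refine hno (u * N) (v * N) ?_ ?_
    · intro h5
      rw [Prod.mk.injEq] at h5
      apply huv
      have hN0 : (N : ℤ) ≠ 0 := by exact_mod_cast hN.ne'
      have h6 := (mul_eq_zero.mp h5.1).resolve_right hN0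
      have h7 := (mul_eq_zero.mp h5.2).resolve_right hN0
      rw [h6, h7]
    · rw [zpow_mul, zpow_mul, zpow_natCast, zpow_natCast, ← mul_pow]
      exact h4
  have hdeg : finrank ℚ k ≤ finrank ℚ F * S.card := by
    refine hdeg0.trans (Nat.mul_le_mul_right _ ?_)
    have h1 : minpoly ℚ α = minpoly ℚ (a : F) := by
      have h2 : α = RingHom.toRatAlgHom jF (a : F) := hjx.symm
      rw [h2]
      exact minpoly.algHom_eq (RingHom.toRatAlgHom jF) jF.injective (a : F)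
    rw [h1]
    exact minpoly.natDegree_le (a : F)
  have hspos : 0 < S.card * (n * n) := Nat.mul_pos hScard (Nat.mul_pos hn hn)
  refine hD0 F ?_ (S.card * (n * n)) hspos ?_ a b ha0 hb0 hgen hsuppa hsuppb hbda hbdb hind
  · exact Nat.le_of_mul_le_mul_right (hd1.trans hdeg) hScard
  · exact Nat.le_of_mul_le_mul_right (hd2.trans hdeg) hScard

/-- eigenvalues at the noncompact embeddings are close to one -/
theorem close_root {G : Type*} [Group G] {M : ℕ} {ρ : G →* Matrix (Fin M) (Fin M) ℂ}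
    {Γ : Subgroup G} {k : Type} [Field k] [NumberField k] {n : ℕ} {S : Finset (k →+* ℂ)}
    (R : Realization ρ Γ k n S) (ε : ℝ) (hε : 0 < ε) (g u : G)
    (hu : ∀ i j, ‖(ρ u - 1) i j‖ < ε / (M + 1)) (hΓ : g * u * g⁻¹ ∈ Γ)
    (σ : k →+* ℂ) (hσ : σ ∈ S) (l : ℂ)
    (hl : ((emb σ).mapMatrix (R.r ⟨g * u * g⁻¹, hΓ⟩)).charpoly.IsRoot l) : ‖l - 1‖ < ε := by
  have h1 : IsEig (ρ (g * u * g⁻¹)) l := R.eig σ hσ ⟨g * u * g⁻¹, hΓ⟩ l hl
  have h2 : (ρ (g * u * g⁻¹)).charpoly = (ρ u).charpoly := by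
    rw [map_mul, map_mul]
    have h4 : ρ g⁻¹ * ρ g = 1 := by rw [← map_mul, inv_mul_cancel, map_one]
    rw [Matrix.charpoly_mul_comm, ← mul_assoc, h4, one_mul]
  rw [IsEig, h2] at h1
  exact close_eig (ρ u) ε hε hu l h1

end Pool.Agent.H776GM
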