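import Pool.Agent.H776GM.Odd

/-!
# Dependence of short eigenvalues for a pair of embeddings of the field
-/

set_option autoImplicit false

namespace Pool.Agent.H776GM

open Polynomial NumberField Finset Module Pool.Agent.H225R3.Marg

theorem int_root_hom {k L : Type} [Field k] [Field L] [NumberField k] (j : k →+* L)
    {n : ℕ} (A : Matrix (Fin n) (Fin n) (𝓞 k)) (α : L)
    (hα : (A.charpoly.map (j.comp (algebraMap (𝓞 k) k))).IsRoot α) : IsIntegral ℤ α := by
  letI : Algebra k L := j.toAlgebra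
  exact int_root A α hα

theorem unit_root_hom {k L : Type} [Field k] [Field L] [NumberField k] (j : k →+* L)
    {n : ℕ} (A : Matrix (Fin n) (Fin n) (𝓞 k)) (hA : IsUnit A) (α : L)
    (hα : (A.charpoly.map (j.comp (algebraMap (𝓞 k) k))).IsRoot α) :
    α ≠ 0 ∧ IsIntegral ℤ α⁻¹ := by
  letI : Algebra k L := j.toAlgebra
  exact unit_root A hA α hα

theorem nonroot_hom {k L : Type} [Field k] [NumberField k] [Field L] (j : k →+* L) {n : ℕ}
    (A : Matrix (Fin n) (Fin n) (𝓞 k))
    (hsplit : (A.charpoly.map (j.comp (algebraMap (𝓞 k) k))).Splits)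
    (hnil : ∀ N : ℕ, 0 < N → ¬ IsNilpotent (A ^ N - 1)) :
    ∃ α : L, (A.charpoly.map (j.comp (algebraMap (𝓞 k) k))).IsRoot α ∧
      ∀ N : ℕ, 0 < N → α ^ N ≠ 1 := by
  letI : Algebra k L := j.toAlgebra
  have h1 : A.charpoly.map (j.comp (algebraMap (𝓞 k) k)) =
      (A.charpoly.map (algebraMap (𝓞 k) k)).map (algebraMap k L) := by
    rw [Polynomial.map_map]
    rfl
  rw [h1] at hsplit ⊢
  exact exists_nonroot A _ rfl hsplit hnil

theorem deg_bound_hom {k L : Type} [Field k] [Field L] [NumberField k] [NumberField L]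
    (j : k →+* L) (S : Finset (k →+* ℂ)) (x : L) (τ0 : L →+* ℂ)
    (h : ∀ τ : L →+* ℂ, τ x = τ0 x → τ.comp j ∈ S) :
    finrank ℚ k ≤ (minpoly ℚ x).natDegree * S.card := by
  letI : Algebra k L := j.toAlgebra
  exact deg_bound S x τ0 h

theorem supp_count3 {k K F : Type} [Field k] [Field K] [NumberField k] [NumberField K]
    [Field F] [NumberField F] {n : ℕ}
    (A B : Matrix (Fin n) (Fin n) (𝓞 k)) (i i' : k →+* K) (S : Finset (k →+* ℂ)) (m : ℕ)
    (hm : finrank ℚ K = m * finrank ℚ k) (a b : 𝓞 F)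
    (hgen : ∀ w w' : F →+* ℂ, emb w a = emb w' a → emb w b = emb w' b → w = w')
    (T : Finset (F →+* ℂ))
    (hT : ∀ u ∈ T, ∃ ψ : K →+* ℂ, ψ.comp i ∈ S ∧
      ((emb (ψ.comp i)).mapMatrix A).charpoly.IsRoot (emb u a) ∧
      ((emb (ψ.comp i')).mapMatrix B).charpoly.IsRoot (emb u b)) :
    T.card ≤ S.card * m * (n * n) := by
  classical
  set P := univ.filter fun ψ : K →+* ℂ => ψ.comp i ∈ S with hP
  set R : Matrix (Fin n) (Fin n) (𝓞 k) → (k →+* ℂ) → Finset ℂ :=
    fun A σ => ((emb σ).mapMatrix A).charpoly.roots.toFinset with hR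
  have hRc : ∀ A σ, (R A σ).card ≤ n := by
    intro A σ
    refine (Multiset.toFinset_card_le _).trans ((card_roots' _).trans ?_)
    rw [Matrix.charpoly_natDegree_eq_dim, Fintype.card_fin]
  have hRm : ∀ A σ l, ((emb σ).mapMatrix A).charpoly.IsRoot l → l ∈ R A σ := by
    intro A σ l hl
    rw [hR]
    simp only [Multiset.mem_toFinset]
    rw [mem_roots (Matrix.charpoly_monic _).ne_zero]
    exact hl
  set Q : Finset (ℂ × ℂ) := P.biUnion fun ψ => R A (ψ.comp i) ×ˢ R B (ψ.comp i') with hQ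
  have h1 : Q.card ≤ P.card * (n * n) := by
    refine Finset.card_biUnion_le_card_mul _ _ _ fun ψ _ => ?_
    rw [Finset.card_product]
    exact Nat.mul_le_mul (hRc _ _) (hRc _ _)
  have h2 : T.card ≤ Q.card := by
    refine Finset.card_le_card_of_injOn (fun u => (emb u a, emb u b)) ?_ ?_
    · intro u hu
      obtain ⟨ψ, h3, h4, h5⟩ := hT u (Finset.mem_coe.mp hu)
      simp only [hQ, Finset.coe_biUnion, Set.mem_iUnion]
      refine ⟨ψ, ?_, ?_⟩
      · rw [hP]
        simp [h3]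
      · rw [Finset.mem_coe, Finset.mem_product]
        exact ⟨hRm _ _ _ h4, hRm _ _ _ h5⟩
    · intro u _ u' _ h
      simp only [Prod.mk.injEq] at h
      exact hgen u u' h.1 h.2
  have h3 : P.card = S.card * m := card_over' i S m hm
  rw [h3] at h1
  exact h2.trans h1

theorem dep_pair : ∃ D0 : ℕ, ∀ (k K L : Type) [Field k] [Field K] [Field L] [NumberField k]
    [NumberField K] [NumberField L] [Algebra K L] (n : ℕ)
    (A B : Matrix (Fin n) (Fin n) (𝓞 k)) (i i' : k →+* K) (S : Finset (k →+* ℂ)) (m : ℕ),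
    finrank ℚ K = m * finrank ℚ k → IsUnit A → IsUnit B →
    (∀ σ : k →+* ℂ, σ ∉ S → ∀ l : ℂ, ((emb σ).mapMatrix A).charpoly.IsRoot l → ‖l‖ = 1) →
    (∀ σ : k →+* ℂ, σ ∉ S → ∀ l : ℂ, ((emb σ).mapMatrix B).charpoly.IsRoot l → ‖l‖ = 1) →
    (∀ σ ∈ S, ∀ l : ℂ, ((emb σ).mapMatrix A).charpoly.IsRoot l → ‖l‖ ≤ Real.exp 1) →
    (∀ σ ∈ S, ∀ l : ℂ, ((emb σ).mapMatrix B).charpoly.IsRoot l → ‖l‖ ≤ Real.exp 1) →
    D0 * S.card ≤ finrank ℚ k → (S.card * m * (n * n)) ^ 300 * S.card ≤ finrank ℚ k →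
    ∀ α β : L,
      (A.charpoly.map (((algebraMap K L).comp i).comp (algebraMap (𝓞 k) k))).IsRoot α →
      (B.charpoly.map (((algebraMap K L).comp i').comp (algebraMap (𝓞 k) k))).IsRoot β →
      ∃ u v : ℤ, (u, v) ≠ (0, 0) ∧ α ^ u * β ^ v = 1 := by
  classical
  obtain ⟨D0, hD0⟩ := heights
  refine ⟨D0, ?_⟩
  intro k K L _ _ _ _ _ _ _ n A B i i' S m hmK hA hB houtA houtB hinA hinB hd1 hd2 α β hα hβ
  by_contra hno
  push Not at hno
  set jA : k →+* L := (algebraMap K L).comp i with hjA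
  set jB : k →+* L := (algebraMap K L).comp i' with hjB
  obtain ⟨hα0, hαi⟩ := unit_root_hom jA A hA α hα
  obtain ⟨hβ0, hβi⟩ := unit_root_hom jB B hB β hβ
  have hαint := int_root_hom jA A α hα
  have hβint := int_root_hom jB B β hβ
  have hspA : ∀ w : L →+* ℂ,
      ((emb (w.comp jA)).mapMatrix A).charpoly.IsRoot (w α) := fun w => spec_root A jA w α hα
  have hspB : ∀ w : L →+* ℂ,
      ((emb (w.comp jB)).mapMatrix B).charpoly.IsRoot (w β) := fun w => spec_root B jB w β hβ
  have hn : 0 < n := by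
    rcases Nat.eq_zero_or_pos n with h0 | h0
    · exfalso
      subst h0
      have : A.charpoly = 1 := by
        rw [Matrix.charpoly, Matrix.det_isEmpty]
      rw [this] at hα
      simp at hα
    · exact h0
  have hmpos : 0 < m := by
    rcases Nat.eq_zero_or_pos m with h0 | h0
    · rw [h0, zero_mul] at hmK
      have := Module.finrank_pos (R := ℚ) (M := K)
      omega
    · exact h0
  -- degree
  obtain ⟨τ0, hτ0⟩ : ∃ τ0 : L →+* ℂ, 1 < ‖τ0 α‖ := by
    by_contra hcon
    push Not at hcon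
    obtain ⟨N, hN, h⟩ := NumberField.Embeddings.pow_eq_one_of_norm_le_one L ℂ hα0 hαint hcon
    refine hno N 0 ?_ ?_
    · intro h1
      rw [Prod.mk.injEq] at h1
      omega
    · rw [zpow_natCast, h, zpow_zero, mul_one]
  have hdeg0 := deg_bound_hom jA S α τ0 (fun τ hτ => by
    by_contra hS
    have := houtA _ hS _ (hspA τ)
    rw [hτ] at this
    linarith)
  have hScard : 0 < S.card := by
    rcases Nat.eq_zero_or_pos S.card with h0 | h0
    · rw [h0, mul_zero] at hdeg0
      have := Module.finrank_pos (R := ℚ) (M := k)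
      omega
    · exact h0
  -- the field
  obtain ⟨F, _, _, jF, a, b, hjx, hjy, hgen⟩ := exists_field α β hαint hβint
  have hea : ∀ w : L →+* ℂ, emb (w.comp jF) a = w α := by
    intro w
    rw [← hjx]
    rfl
  have heb : ∀ w : L →+* ℂ, emb (w.comp jF) b = w β := by
    intro w
    rw [← hjy]
    rfl
  have ha0 : a ≠ 0 := by
    intro h
    have h1 : ((0 : 𝓞 F) : F) = 0 := rfl
    apply hα0
    rw [← hjx, h, h1, map_zero]
  have hb0 : b ≠ 0 := by
    intro h
    have h1 : ((0 : 𝓞 F) : F) = 0 := rfl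
    apply hβ0
    rw [← hjy, h, h1, map_zero]
  have hroots : ∀ u : F →+* ℂ, ∃ ψ : K →+* ℂ,
      ((emb (ψ.comp i)).mapMatrix A).charpoly.IsRoot (emb u a) ∧
      ((emb (ψ.comp i')).mapMatrix B).charpoly.IsRoot (emb u b) := by
    intro u
    haveI : Algebra.IsIntegral K L := by
      haveI : FiniteDimensional K L := FiniteDimensional.right ℚ K L
      infer_instance
    obtain ⟨w, hw⟩ := extend_emb jF (fun x => alg_over' (K := K) jF x) u
    refine ⟨w.comp (algebraMap K L), ?_, ?_⟩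
    · rw [← hw, hea]
      exact hspA w
    · rw [← hw, heb]
      exact hspB w
  have hbda : ∀ u : F →+* ℂ, ‖emb u a‖ ≤ Real.exp 1 := by
    intro u
    obtain ⟨ψ, h1, h2⟩ := hroots u
    by_cases h3 : ψ.comp i ∈ S
    · exact hinA _ h3 _ h1
    · rw [houtA _ h3 _ h1]
      exact Real.one_le_exp zero_le_one
  have hbdb : ∀ u : F →+* ℂ, ‖emb u b‖ ≤ Real.exp 1 := by
    intro u
    obtain ⟨ψ, h1, h2⟩ := hroots u
    by_cases h3 : ψ.comp i' ∈ S
    · exact hinB _ h3 _ h2
    · rw [houtB _ h3 _ h2]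
      exact Real.one_le_exp zero_le_one
  have hsuppa : (univ.filter fun w : F →+* ℂ => ‖emb w a‖ ≠ 1).card ≤ S.card * m * (n * n) := by
    refine supp_count3 A B i i' S m hmK a b hgen _ fun u hu => ?_
    obtain ⟨ψ, h1, h2⟩ := hroots u
    refine ⟨ψ, ?_, h1, h2⟩
    by_contra h3
    exact (Finset.mem_filter.mp hu).2 (houtA _ h3 _ h1)
  have hsuppb : (univ.filter fun w : F →+* ℂ => ‖emb w b‖ ≠ 1).card ≤ S.card * m * (n * n) := by
    refine supp_count3 B A i' i S m hmK b a (fun w w' h1 h2 => hgen w w' h2 h1) _ fun u hu => ?_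
    obtain ⟨ψ, h1, h2⟩ := hroots u
    refine ⟨ψ, ?_, h2, h1⟩
    by_contra h3
    exact (Finset.mem_filter.mp hu).2 (houtB _ h3 _ h2)
  -- independence
  have hind : ∀ u v : ℤ, (u, v) ≠ (0, 0) →
      ∃ w : F →+* ℂ, ‖emb w a‖ ^ u * ‖emb w b‖ ^ v ≠ 1 := by
    intro u v huv
    by_contra hcon
    push Not at hcon
    have h1 : ∀ w : L →+* ℂ, ‖w (α ^ u * β ^ v)‖ = 1 := by
      intro w
      have h2 := hcon (w.comp jF)
      rw [hea, heb] at h2
      rw [map_mul, map_zpow₀, map_zpow₀, norm_mul, norm_zpow, norm_zpow]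
      exact h2
    have h3 : IsIntegral ℤ (α ^ u * β ^ v) :=
      (int_zpow α hαint hαi u).mul (int_zpow β hβint hβi v)
    obtain ⟨N, hN, h4⟩ := NumberField.Embeddings.pow_eq_one_of_norm_eq_one L ℂ h3 h1
    refine hno (u * N) (v * N) ?_ ?_
    · intro h5
      rw [Prod.mk.injEq] at h5
      apply huv
      have hN0 : (N : ℤ) ≠ 0 := by exact_mod_cast hN.ne'
      have h6 := (mul_eq_zero.mp h5.1).resolve_right hN0
      have h7 := (mul_eq_zero.mp h5.2).resolve_right hN0
      rw [h6, h7]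
    · rw [zpow_mul, zpow_mul, zpow_natCast, zpow_natCast, ← mul_pow]
      exact h4
  have hdeg : finrank ℚ k ≤ finrank ℚ F * S.card := by
    refine hdeg0.trans (Nat.mul_le_mul_right _ ?_)
    have h1 : minpoly ℚ α = minpoly ℚ (a : F) := by
      have h2 : α = RingHom.toRatAlgHom jF (a : F) := hjx.symm
      rw [h2]
      exact minpoly.algHom_eq (RingHom.toRatAlgHom jF) jF.injective (a : F)
    rw [h1]
    exact minpoly.natDegree_le (a : F)
  have hspos : 0 < S.card * m * (n * n) :=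
    Nat.mul_pos (Nat.mul_pos hScard hmpos) (Nat.mul_pos hn hn)
  refine hD0 F ?_ (S.card * m * (n * n)) hspos ?_ a b ha0 hb0 hgen hsuppa hsuppb hbda hbdb hind
  · exact Nat.le_of_mul_le_mul_right (hd1.trans hdeg) hScard
  · exact Nat.le_of_mul_le_mul_right (hd2.trans hdeg) hScard

/-- roots over a number field with prescribed images -/
theorem lift_root' {k K L : Type} [Field k] [Field K] [Field L] [NumberField k] [Algebra K L]
    {n : ℕ} (A : Matrix (Fin n) (Fin n) (𝓞 k)) (i : k →+* K) (w : L →+* ℂ)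
    (hs : (A.charpoly.map (((algebraMap K L).comp i).comp (algebraMap (𝓞 k) k))).Splits) (l : ℂ)
    (hl : ((emb ((w.comp (algebraMap K L)).comp i)).mapMatrix A).charpoly.IsRoot l) : ∃ α : L,
    (A.charpoly.map (((algebraMap K L).comp i).comp (algebraMap (𝓞 k) k))).IsRoot α ∧
      w α = l := by
  have hm : (A.charpoly.map (((algebraMap K L).comp i).comp (algebraMap (𝓞 k) k))).Monic :=
    A.charpoly_monic.map _
  have h1 : ((emb ((w.comp (algebraMap K L)).comp i)).mapMatrix A).charpoly =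
      (A.charpoly.map (((algebraMap K L).comp i).comp (algebraMap (𝓞 k) k))).map w := by
    rw [Polynomial.map_map, ← Matrix.charpoly_map]; rfl
  rw [h1] at hl
  have h3 : l ∈ ((A.charpoly.map (((algebraMap K L).comp i).comp
      (algebraMap (𝓞 k) k))).map w).roots := by
    rw [mem_roots (hm.map w).ne_zero]
    exact hl
  rw [hs.roots_map, Multiset.mem_map] at h3
  obtain ⟨α, h4, h5⟩ := h3
  exact ⟨α, (mem_roots hm.ne_zero).mp h4, h5⟩

end Pool.Agent.H776GM
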