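import Pool.Agent.H776GM.Long

/-!
# Descent of the short eigenvalues to small subfields
-/

set_option autoImplicit false

namespace Pool.Agent.H776GM

open Polynomial NumberField Finset Module Pool.Agent.H225R3.Marg

theorem cheb_ex (M : ℕ) : ∃ p : ℤ[X], ∀ (E : Type) [Field E] (z : E), z ≠ 0 →
    z ^ M + (z ^ M)⁻¹ = aeval (z + z⁻¹) p := by
  have key : ∀ M : ℕ, (∃ p : ℤ[X], ∀ (E : Type) [Field E] (z : E), z ≠ 0 →
      z ^ M + (z ^ M)⁻¹ = aeval (z + z⁻¹) p) ∧ (∃ p : ℤ[X], ∀ (E : Type) [Field E] (z : E),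
      z ≠ 0 → z ^ (M + 1) + (z ^ (M + 1))⁻¹ = aeval (z + z⁻¹) p) := by
    intro M
    induction M with
    | zero =>
      refine ⟨⟨2, fun E _ z hz => ?_⟩, ⟨X, fun E _ z hz => ?_⟩⟩
      · rw [pow_zero, inv_one, map_ofNat]
        norm_num
      · rw [aeval_X, zero_add, pow_one]
    | succ M ih =>
      obtain ⟨⟨p, hp⟩, ⟨q, hq⟩⟩ := ih
      refine ⟨⟨q, hq⟩, ⟨X * q - p, fun E _ z hz => ?_⟩⟩
      rw [map_sub, map_mul, aeval_X, ← hp E z hz, ← hq E z hz, pow_succ z (M + 1), pow_succ z M]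
      have hx : z ^ M ≠ 0 := pow_ne_zero _ hz
      generalize z ^ M = x at hx
      field_simp
      ring
  exact (key M).1

theorem hom_cheb {R E : Type*} [CommRing R] [CommRing E] (f : R →+* E) (t : R) (p : ℤ[X]) :
    f (aeval t p) = aeval (f t) p := by
  have := aeval_algHom_apply (RingHom.toIntAlgHom f) t p
  exact this.symm

theorem root_uniq {E : Type*} [Field E] (z y : E) (hz : z ≠ 0) (hy : y ≠ 0)
    (h : z + z⁻¹ = y + y⁻¹) : z = y ∨ z = y⁻¹ := by
  have h1 : (z - y) * (z * y - 1) = 0 := by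
    field_simp at h
    linear_combination h
  rcases mul_eq_zero.mp h1 with h2 | h2
  · exact Or.inl (sub_eq_zero.mp h2)
  · right
    exact eq_inv_of_mul_eq_one_left (sub_eq_zero.mp h2)

theorem abslog_uniq (z y : ℂ) (hz : z ≠ 0) (hy : y ≠ 0) (h : z + z⁻¹ = y + y⁻¹) :
    |Real.log ‖z‖| = |Real.log ‖y‖| := by
  rcases root_uniq z y hz hy h with h | h
  · rw [h]
  · rw [h, norm_inv, Real.log_inv, abs_neg]

theorem exists_z (s : ℂ) : ∃ z : ℂ, z ≠ 0 ∧ z + z⁻¹ = s := by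
  have hdeg : (X ^ 2 - C s * X + 1 : ℂ[X]).degree ≠ 0 := by
    have : (X ^ 2 - C s * X + 1 : ℂ[X]).degree = 2 := by compute_degree!
    rw [this]
    norm_num
  obtain ⟨z, hz⟩ := IsAlgClosed.exists_root _ hdeg
  rw [IsRoot, eval_add, eval_sub, eval_mul, eval_pow, eval_X, eval_C, eval_one] at hz
  have hz0 : z ≠ 0 := by
    rintro rfl
    simp at hz
  refine ⟨z, hz0, ?_⟩
  field_simp
  linear_combination hz

theorem sum_over {k K : Type} [Field k] [Field K] [NumberField k] [NumberField K]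
    (i : k →+* K) (m : ℕ) (hm : finrank ℚ K = m * finrank ℚ k) (f : (k →+* ℂ) → ℝ) :
    ∑ w : K →+* ℂ, f (w.comp i) = m * ∑ σ : k →+* ℂ, f σ := by
  classical
  have h1 : ∑ w : K →+* ℂ, f (w.comp i) =
      ∑ σ : k →+* ℂ, ∑ w ∈ univ.filter (fun w : K →+* ℂ => w.comp i = σ), f (w.comp i) :=
    (Finset.sum_fiberwise _ _ _).symm
  rw [h1, Finset.mul_sum]
  refine Finset.sum_congr rfl fun σ _ => ?_
  have h2 : ∑ w ∈ univ.filter (fun w : K →+* ℂ => w.comp i = σ), f (w.comp i) =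
      ∑ w ∈ univ.filter (fun w : K →+* ℂ => w.comp i = σ), f σ := by
    refine Finset.sum_congr rfl fun w hw => ?_
    rw [(Finset.mem_filter.mp hw).2]
  rw [h2, Finset.sum_const, nsmul_eq_mul]
  congr 1
  have h3 := card_over' i {σ} m hm
  simp only [Finset.mem_singleton, Finset.card_singleton, one_mul] at h3
  exact_mod_cast h3

end Pool.Agent.H776GM
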