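import Pool.Agent.H776GM.Desc

/-!
# Descent of the short eigenvalues, main step
-/

set_option autoImplicit false

namespace Pool.Agent.H776GM

open Polynomial NumberField Finset Module Pool.Agent.H225R3.Marg

theorem root_transfer {R E F : Type*} [CommRing R] [Field E] [Field F] (P : R[X]) (g : R →+* E)
    (ι : E →+* F) (h : R →+* F) (hg : ι.comp g = h) (x : E) (hx : (P.map h).IsRoot (ι x)) :
    (P.map g).IsRoot x := by
  rw [IsRoot, eval_map] at hx ⊢
  apply ι.injective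
  rw [map_zero, hom_eval₂, hg]
  exact hx

theorem descend {k K L : Type} [Field k] [Field K] [Field L] [NumberField k] [NumberField K]
    [NumberField L] [Algebra k L] {n : ℕ} (A : Matrix (Fin n) (Fin n) (𝓞 k))
    (i i' : k →+* K) (m : ℕ) (hm : finrank ℚ K = m * finrank ℚ k)
    (hdep : ∀ (L₁ : Type) [Field L₁] [NumberField L₁] [Algebra K L₁] (α β : L₁),
      (A.charpoly.map (((algebraMap K L₁).comp i).comp (algebraMap (𝓞 k) k))).IsRoot α →
      (A.charpoly.map (((algebraMap K L₁).comp i').comp (algebraMap (𝓞 k) k))).IsRoot β →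
      ∃ u v : ℤ, (u, v) ≠ (0, 0) ∧ α ^ u * β ^ v = 1)
    (hA : IsUnit A) (α : L)
    (hα : (A.charpoly.map ((algebraMap k L).comp (algebraMap (𝓞 k) k))).IsRoot α)
    (N : ℕ) (t : 𝓞 k)
    (ht : α ^ N + (α ^ N)⁻¹ = algebraMap k L (t : k)) :
    ∃ (M : ℕ) (s : 𝓞 k), 0 < M ∧ α ^ (N * M) + (α ^ (N * M))⁻¹ = algebraMap k L (s : k) ∧
      i s = i' s := by
  classical
  obtain ⟨hα0, hαi⟩ := unit_root A hA α hα
  have hαint := int_root A α hα
  -- reduction to a power
  suffices hsuf : ∃ M : ℕ, 0 < M ∧ ∀ p : ℤ[X], (∀ (E : Type) [Field E] (z : E), z ≠ 0 →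
      z ^ M + (z ^ M)⁻¹ = aeval (z + z⁻¹) p) → i (aeval (t : k) p) = i' (aeval (t : k) p) by
    obtain ⟨M, hM, h⟩ := hsuf
    obtain ⟨p, hp⟩ := cheb_ex M
    have e1 : ((aeval t p : 𝓞 k) : k) = aeval (t : k) p :=
      hom_cheb (algebraMap (𝓞 k) k) t p
    refine ⟨M, aeval t p, hM, ?_, ?_⟩
    · rw [pow_mul, hp L (α ^ N) (pow_ne_zero _ hα0), ht, e1, hom_cheb]
    · rw [e1]
      exact h p hp
  -- embeddings
  obtain ⟨w0⟩ : Nonempty (K →+* ℂ) := inferInstance
  letI : Algebra K ℂ := w0.toAlgebra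
  haveI : FiniteDimensional k L := FiniteDimensional.right ℚ k L
  have hintk : ∀ x : L, ∃ p : k[X], p.Monic ∧ p.eval₂ (algebraMap k L) x = 0 := by
    intro x
    have : IsIntegral k x := Algebra.IsIntegral.isIntegral x
    exact this
  obtain ⟨j₁, hj₁⟩ := extend_emb (algebraMap k L) hintk (w0.comp i)
  obtain ⟨j₂, hj₂⟩ := extend_emb (algebraMap k L) hintk (w0.comp i')
  have hintK : ∀ j : L →+* ℂ, IsIntegral K (j α) := by
    intro j
    have h1 : IsIntegral ℤ (j α) := hαint.map (RingHom.toIntAlgHom j)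
    obtain ⟨p, hp, hp0⟩ := h1
    refine ⟨p.map (algebraMap ℤ K), hp.map _, ?_⟩
    rw [eval₂_map, RingHom.ext_int ((algebraMap K ℂ).comp (algebraMap ℤ K)) (algebraMap ℤ ℂ)]
    exact hp0
  let L₁ := IntermediateField.adjoin K ({j₁ α, j₂ α} : Set ℂ)
  haveI : FiniteDimensional K L₁ := by
    refine IntermediateField.finiteDimensional_adjoin fun x hx => ?_
    rcases hx with hx | hx
    · rw [hx]; exact hintK j₁
    · rw [Set.mem_singleton_iff.mp hx]; exact hintK j₂
  haveI : CharZero L₁ := charZero_of_injective_algebraMap (algebraMap K L₁).injective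
  haveI : NumberField L₁ := NumberField.of_module_finite K L₁
  let ι : L₁ →+* ℂ := algebraMap L₁ ℂ
  have hι : ι.comp (algebraMap K L₁) = w0 := rfl
  let x₁ : L₁ := ⟨j₁ α, IntermediateField.subset_adjoin K _ (by simp)⟩
  let x₂ : L₁ := ⟨j₂ α, IntermediateField.subset_adjoin K _ (by simp)⟩
  have hx₁ : ι x₁ = j₁ α := rfl
  have hx₂ : ι x₂ = j₂ α := rfl
  have hroot : ∀ (i : k →+* K) (j : L →+* ℂ) (x : L₁), j.comp (algebraMap k L) = w0.comp i →
      ι x = j α →
      (A.charpoly.map (((algebraMap K L₁).comp i).comp (algebraMap (𝓞 k) k))).IsRoot x := by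
    intro i j x hj hx
    refine root_transfer A.charpoly _ ι (j.comp ((algebraMap k L).comp (algebraMap (𝓞 k) k)))
      ?_ x ?_
    · rw [← RingHom.comp_assoc, ← RingHom.comp_assoc, hι, ← RingHom.comp_assoc, hj]
    · rw [hx, ← Polynomial.map_map]
      exact hα.map
  have heq : ∀ (i : k →+* K) (j : L →+* ℂ) (x : L₁), j.comp (algebraMap k L) = w0.comp i →
      ι x = j α → x ^ N + (x ^ N)⁻¹ = algebraMap K L₁ (i t) := by
    intro i j x hj hx
    apply ι.injective
    have h1 := congrArg j ht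
    rw [map_add, map_inv₀, map_pow] at h1 ⊢
    rw [hx, h1]
    exact RingHom.congr_fun hj (t : k)
  have hr₁ := hroot i j₁ x₁ hj₁ hx₁
  have hr₂ := hroot i' j₂ x₂ hj₂ hx₂
  have he₁ := heq i j₁ x₁ hj₁ hx₁
  have he₂ := heq i' j₂ x₂ hj₂ hx₂
  have hx₁0 : x₁ ≠ 0 := by
    intro h
    have h1 : ι x₁ = 0 := by rw [h, map_zero]
    rw [hx₁] at h1
    exact hα0 ((map_eq_zero j₁).mp h1)
  have hx₂0 : x₂ ≠ 0 := by
    intro h
    have h1 : ι x₂ = 0 := by rw [h, map_zero]
    rw [hx₂] at h1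
    exact hα0 ((map_eq_zero j₂).mp h1)
  obtain ⟨u, v, huv, hrel⟩ := hdep L₁ x₁ x₂ hr₁ hr₂
  -- the function
  choose zz hz0 hz1 using fun s : ℂ => exists_z s
  set lam : (k →+* ℂ) → ℝ := fun σ => |Real.log ‖zz (σ (t : k))‖| with hlam
  have hlamj : ∀ (E : Type) [Field E] (y : E) (g : k →+* E) (w : E →+* ℂ), y ≠ 0 →
      y ^ N + (y ^ N)⁻¹ = g t → lam (w.comp g) = N * |Real.log ‖w y‖| := by
    intro E _ y g w hy h
    have h1 := congrArg w h
    rw [map_add, map_inv₀, map_pow] at h1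
    have hwy : w y ≠ 0 := (map_ne_zero w).mpr hy
    have h2 : |Real.log ‖zz ((w.comp g) (t : k))‖| = |Real.log ‖(w y) ^ N‖| :=
      abslog_uniq _ _ (hz0 _) (pow_ne_zero _ hwy) ((hz1 _).trans h1.symm)
    rw [hlam]
    simp only
    rw [h2, norm_pow, Real.log_pow, abs_mul, Nat.abs_cast]
  have hbal : ∀ w : K →+* ℂ, |(u : ℝ)| * lam (w.comp i) = |(v : ℝ)| * lam (w.comp i') := by
    intro w
    obtain ⟨w₁, hw₁⟩ := extend_emb (algebraMap K L₁) (fun x => by
      have : IsIntegral K x := Algebra.IsIntegral.isIntegral x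
      exact this) w
    have h1 := hlamj L₁ x₁ ((algebraMap K L₁).comp i) w₁ hx₁0 he₁
    have h2 := hlamj L₁ x₂ ((algebraMap K L₁).comp i') w₁ hx₂0 he₂
    rw [← RingHom.comp_assoc, hw₁] at h1 h2
    rw [h1, h2]
    have hn1 : 0 < ‖w₁ x₁‖ := norm_pos_iff.mpr ((map_ne_zero w₁).mpr hx₁0)
    have hn2 : 0 < ‖w₁ x₂‖ := norm_pos_iff.mpr ((map_ne_zero w₁).mpr hx₂0)
    have h3 := congrArg (fun x => Real.log ‖w₁ x‖) hrel
    simp only [map_mul, map_zpow₀, norm_mul, norm_zpow, map_one, norm_one, Real.log_one] at h3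
    rw [Real.log_mul (zpow_pos hn1 _).ne' (zpow_pos hn2 _).ne', Real.log_zpow, Real.log_zpow] at h3
    have h4 : (u : ℝ) * Real.log ‖w₁ x₁‖ = -((v : ℝ) * Real.log ‖w₁ x₂‖) := by linarith
    have h5 : |(u : ℝ)| * |Real.log ‖w₁ x₁‖| = |(v : ℝ)| * |Real.log ‖w₁ x₂‖| := by
      rw [← abs_mul, ← abs_mul, h4, abs_neg]
    calc |(u : ℝ)| * (N * |Real.log ‖w₁ x₁‖|) = N * (|(u : ℝ)| * |Real.log ‖w₁ x₁‖|) := by ring
      _ = N * (|(v : ℝ)| * |Real.log ‖w₁ x₂‖|) := by rw [h5]
      _ = |(v : ℝ)| * (N * |Real.log ‖w₁ x₂‖|) := by ring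
  have hsum : |(u : ℝ)| * (m * ∑ σ : k →+* ℂ, lam σ) = |(v : ℝ)| * (m * ∑ σ : k →+* ℂ, lam σ) := by
    have a1 : |(u : ℝ)| * (m * ∑ σ : k →+* ℂ, lam σ) =
        ∑ w : K →+* ℂ, |(u : ℝ)| * lam (w.comp i) := by
      rw [← sum_over i m hm lam, Finset.mul_sum]
    have a2 : |(v : ℝ)| * (m * ∑ σ : k →+* ℂ, lam σ) =
        ∑ w : K →+* ℂ, |(v : ℝ)| * lam (w.comp i') := by
      rw [← sum_over i' m hm lam, Finset.mul_sum]
    rw [a1, a2]
    exact Finset.sum_congr rfl fun w _ => hbal w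
  have hmpos : 0 < m := by
    rcases Nat.eq_zero_or_pos m with h0 | h0
    · rw [h0, zero_mul] at hm
      have := Module.finrank_pos (R := ℚ) (M := K)
      omega
    · exact h0
  have hlam0 : ∀ σ, 0 ≤ lam σ := fun σ => abs_nonneg _
  by_cases hX : ∑ σ : k →+* ℂ, lam σ = 0
  · -- root of unity
    have h1 : ∀ σ, lam σ = 0 := fun σ =>
      (Finset.sum_eq_zero_iff_of_nonneg (fun σ _ => hlam0 σ)).mp hX σ (Finset.mem_univ σ)
    by_cases hN : N = 0
    · refine ⟨1, one_pos, fun p hp => ?_⟩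
      have h2 : (t : k) = 2 := by
        apply (algebraMap k L).injective
        rw [← ht, hN, pow_zero, inv_one, map_ofNat]
        norm_num
      have h3 : aeval (t : k) p = 2 := by
        have := hp k 1 one_ne_zero
        rw [one_pow, inv_one, one_add_one_eq_two] at this
        rw [h2, ← this]
      rw [h3, map_ofNat, map_ofNat]
    · have h2 : ∀ w : L →+* ℂ, ‖w α‖ = 1 := by
        intro w
        have h3 := hlamj L α (algebraMap k L) w hα0 ht
        rw [h1] at h3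
        have h4 : |Real.log ‖w α‖| = 0 := by
          rcases mul_eq_zero.mp h3.symm with h | h
          · exact absurd (Nat.cast_eq_zero.mp h) hN
          · exact h
        have h5 : 0 < ‖w α‖ := norm_pos_iff.mpr ((map_ne_zero w).mpr hα0)
        exact Real.eq_one_of_pos_of_log_eq_zero h5 (abs_eq_zero.mp h4)
      obtain ⟨M, hM, h3⟩ := NumberField.Embeddings.pow_eq_one_of_norm_eq_one L ℂ hαint h2
      refine ⟨M, hM, fun p hp => ?_⟩
      have h4 : aeval (t : k) p = 2 := by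
        apply (algebraMap k L).injective
        rw [hom_cheb, ← ht, ← hp L (α ^ N) (pow_ne_zero _ hα0), ← pow_mul, mul_comm, pow_mul, h3,
          one_pow, inv_one, map_ofNat]
        norm_num
      rw [h4, map_ofNat, map_ofNat]
  · have hm0 : (m : ℝ) ≠ 0 := Nat.cast_ne_zero.mpr hmpos.ne'
    have h1 : |(u : ℝ)| = |(v : ℝ)| := mul_right_cancel₀ (mul_ne_zero hm0 hX) hsum
    have h2 : |u| = |v| := by exact_mod_cast h1
    have hu0 : u ≠ 0 := by
      rintro rfl
      apply huv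
      have : v = 0 := by
        rw [abs_zero] at h2
        exact abs_eq_zero.mp h2.symm
      rw [this]
    refine ⟨u.natAbs, Int.natAbs_pos.mpr hu0, fun p hp => ?_⟩
    apply (algebraMap K L₁).injective
    rw [hom_cheb i, hom_cheb i', hom_cheb (algebraMap K L₁), hom_cheb (algebraMap K L₁),
      ← he₁, ← he₂, ← hp L₁ _ (pow_ne_zero _ hx₁0), ← hp L₁ _ (pow_ne_zero _ hx₂0)]
    have h3 : (x₁ ^ N) ^ u * (x₂ ^ N) ^ v = 1 := by
      rw [← zpow_natCast, ← zpow_natCast, zpow_comm x₁ _ u, zpow_comm x₂ _ v, ← mul_zpow, hrel,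
        one_zpow]
    have ha0 : x₁ ^ N ≠ 0 := pow_ne_zero _ hx₁0
    have hb0 : x₂ ^ N ≠ 0 := pow_ne_zero _ hx₂0
    generalize x₁ ^ N = a at h3 ha0
    generalize x₂ ^ N = b at h3 hb0
    have key : a ^ u.natAbs = b ^ u.natAbs ∨ a ^ u.natAbs = (b ^ u.natAbs)⁻¹ := by
      have h4 : a ^ u = b ^ u ∨ a ^ u = (b ^ u)⁻¹ := by
        rcases abs_eq_abs.mp h2 with h | h
        · right
          rw [← h] at h3
          exact eq_inv_of_mul_eq_one_left h3
        · left
          have h5 : v = -u := by omega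
          rw [h5, zpow_neg] at h3
          have h6 : b ^ u ≠ 0 := zpow_ne_zero _ hb0
          field_simp at h3
          exact h3
      obtain ⟨q, hq⟩ : ∃ q : ℕ, u.natAbs = q := ⟨_, rfl⟩
      have hqu := Int.natAbs_eq u
      rw [hq] at hqu ⊢
      rcases hqu with h | h
      · rw [h, zpow_natCast, zpow_natCast] at h4
        exact h4
      · rw [h, zpow_neg, zpow_neg, zpow_natCast, zpow_natCast, inv_inv] at h4
        rcases h4 with h4 | h4
        · exact Or.inl (inv_injective h4)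
        · right
          rw [← h4, inv_inv]
    rcases key with h | h
    · rw [h]
    · rw [h, inv_inv, add_comm]

end Pool.Agent.H776GM
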