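import Pool.Agent.H776GM.Desc2

/-!
# Descent of the short eigenvalues, final statement
-/

set_option autoImplicit false

namespace Pool.Agent.H776GM

open Polynomial NumberField Finset Module Pool.Agent.H225R3.Marg

theorem dep_pair_long (e : ℕ) (he : e = 3000) (C n : ℕ) : ∃ c : ℝ, 0 < c ∧
    ∀ (k K L : Type) [Field k] [Field K] [Field L] [NumberField k] [NumberField K]
      [NumberField L] [Algebra K L] (S : Finset (k →+* ℂ)) (A B : Matrix (Fin n) (Fin n) (𝓞 k))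
      (i i' : k →+* K), S.Nonempty →
      (S.card * finrank ℚ K) ^ 400 ≤ C * finrank ℚ k ^ 401 → IsUnit A → IsUnit B →
      (∀ σ : k →+* ℂ, σ ∉ S → ∀ l : ℂ, ((emb σ).mapMatrix A).charpoly.IsRoot l → ‖l‖ = 1) →
      (∀ σ : k →+* ℂ, σ ∉ S → ∀ l : ℂ, ((emb σ).mapMatrix B).charpoly.IsRoot l → ‖l‖ = 1) →
      (∀ σ ∈ S, ∀ l : ℂ, ((emb σ).mapMatrix A).charpoly.IsRoot l →
        c * (1 + |Real.log ‖l‖|) ^ e < finrank ℚ k) →
      (∀ σ ∈ S, ∀ l : ℂ, ((emb σ).mapMatrix B).charpoly.IsRoot l →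
        c * (1 + |Real.log ‖l‖|) ^ e < finrank ℚ k) →
      ∀ α β : L,
        (A.charpoly.map (((algebraMap K L).comp i).comp (algebraMap (𝓞 k) k))).IsRoot α →
        (B.charpoly.map (((algebraMap K L).comp i').comp (algebraMap (𝓞 k) k))).IsRoot β →
        ∃ u v : ℤ, (u, v) ≠ (0, 0) ∧ α ^ u * β ^ v = 1 := by
  classical
  have he0 : e ≠ 0 := by omega
  obtain ⟨D0, hD0⟩ := dep_pair_h
  obtain ⟨d1, hd1⟩ : ∃ d1, d1 = D0 ^ 400 * C + C ^ 301 * ((n * n) ^ 300) ^ 400 := ⟨_, rfl⟩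
  obtain ⟨c, hc⟩ : ∃ c : ℝ, c = max ((2 : ℝ) ^ e) d1 := ⟨_, rfl⟩
  have hc2 : (2 : ℝ) ^ e ≤ c := hc ▸ le_max_left _ _
  have hcd : (d1 : ℝ) ≤ c := hc ▸ le_max_right _ _
  have hc0 : 0 < c := lt_of_lt_of_le (by positivity) hc2
  refine ⟨c, hc0, ?_⟩
  intro k K L _ _ _ _ _ _ _ S A B i i' hS hsize hA hB houtA houtB hinA hinB α β hα hβ
  have hdpos : 0 < finrank ℚ k := Module.finrank_pos
  obtain ⟨h, hh, hhd, hsize0⟩ := exists_size e he0 (finrank ℚ k) hdpos c hc2
  obtain ⟨σ0, hσ0⟩ := hS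
  have : FiniteDimensional K L := FiniteDimensional.right ℚ K L
  obtain ⟨m, hm⟩ : ∃ m, finrank ℚ K = m * finrank ℚ k := by
    letI : Algebra k K := i.toAlgebra
    refine ⟨finrank k K, ?_⟩
    rw [mul_comm]
    exact (Module.finrank_mul_finrank ℚ k K).symm
  have hmpos : 0 < m := by
    rcases Nat.eq_zero_or_pos m with h0 | h0
    · rw [h0, zero_mul] at hm
      have := Module.finrank_pos (R := ℚ) (M := K)
      omega
    · exact h0
  obtain ⟨w1, hw1⟩ : ∃ w1 : K →+* ℂ, w1.comp i = σ0 := by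
    refine extend_emb i (fun x => ?_) σ0
    letI : Algebra k K := i.toAlgebra
    have : FiniteDimensional k K := FiniteDimensional.right ℚ k K
    have : IsIntegral k x := Algebra.IsIntegral.isIntegral x
    exact this
  obtain ⟨w, hw⟩ := extend_emb (algebraMap K L) (fun x => by
    have : IsIntegral K x := Algebra.IsIntegral.isIntegral x
    exact this) w1
  have hl0 := spec_root A ((algebraMap K L).comp i) w α hα
  rw [← RingHom.comp_assoc, hw, hw1] at hl0
  have hd : d1 ≤ finrank ℚ k := by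
    have h1 := hinA σ0 hσ0 _ hl0
    have h2 : c ≤ c * (1 + |Real.log ‖w α‖|) ^ e := by
      refine le_mul_of_one_le_right hc0.le (one_le_pow₀ ?_)
      have := abs_nonneg (Real.log ‖w α‖)
      linarith
    have h3 : (d1 : ℝ) ≤ finrank ℚ k := (hcd.trans h2).trans h1.le
    exact_mod_cast h3
  rw [hm] at hsize
  obtain ⟨e1, e2⟩ := sizes_h D0 C n S.card m (finrank ℚ k) h hdpos hmpos hsize
    ((Nat.le_add_right _ _).trans (hd1 ▸ hd)) ((Nat.le_add_left _ _).trans (hd1 ▸ hd)) (he ▸ hhd)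
  have hne0 : ∀ A : Matrix (Fin n) (Fin n) (𝓞 k), IsUnit A → ∀ σ : k →+* ℂ, ∀ l : ℂ,
      ((emb σ).mapMatrix A).charpoly.IsRoot l → l ≠ 0 := by
    intro A hA σ l hl
    obtain ⟨B, hB⟩ := hA.exists_left_inv
    have h1 : (emb σ).mapMatrix B * (emb σ).mapMatrix A = 1 := by
      rw [← map_mul, hB, map_one]
    exact (root_inv _ _ h1 l hl).1
  exact hD0 k K L n A B i i' S m h hh hm hA hB houtA houtB
    (fun σ hσ l hl => hsize0 _ (hinA σ hσ l hl) (norm_pos_iff.mpr (hne0 A hA σ l hl)))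
    (fun σ hσ l hl => hsize0 _ (hinB σ hσ l hl) (norm_pos_iff.mpr (hne0 B hB σ l hl)))
    e1 e2 α β hα hβ

theorem mult_step {k L : Type} [Field k] [Field L] [NumberField k] [NumberField L] [Algebra k L]
    (α : L) (h0 : α ≠ 0) (σ τ : k →+* ℂ) (N M : ℕ) (s : 𝓞 k)
    (hs : α ^ N + (α ^ N)⁻¹ = algebraMap k L (s : k)) (hst : σ (s : k) = τ (s : k)) :
    ∃ s' : 𝓞 k, α ^ (N * M) + (α ^ (N * M))⁻¹ = algebraMap k L (s' : k) ∧
      σ (s' : k) = τ (s' : k) := by
  obtain ⟨p, hp⟩ := cheb_ex M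
  have e1 : ((aeval s p : 𝓞 k) : k) = aeval (s : k) p := hom_cheb (algebraMap (𝓞 k) k) s p
  refine ⟨aeval s p, ?_, ?_⟩
  · rw [pow_mul, hp L (α ^ N) (pow_ne_zero _ h0), hs, e1, hom_cheb]
  · rw [e1, hom_cheb, hom_cheb, hst]

theorem long_full (e : ℕ) (he : e = 3000) (C n : ℕ) : ∃ c : ℝ, 0 < c ∧
    ∀ {G : Type*} [Group G] {M : ℕ} (ρ : G →* Matrix (Fin M) (Fin M) ℂ) (Γ : Subgroup G)
      (k : Type) [Field k] [NumberField k] (S : Finset (k →+* ℂ)) (R : Realization ρ Γ k n S),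
      S.card ^ 400 ≤ C * finrank ℚ k → ∀ γ : Γ,
      (∀ l : ℂ, IsEig (ρ γ) l → c * (1 + |Real.log ‖l‖|) ^ e < finrank ℚ k) →
      (∀ δ : Γ, (∀ l : ℂ, IsEig (ρ δ) l → c * (1 + |Real.log ‖l‖|) ^ e < finrank ℚ k) →
        ∀ (σ : k →+* ℂ) (l m : ℂ), IsEig (conjMat σ (R.r γ)) l → IsEig (conjMat σ (R.r δ)) m →
        ∃ a b : ℤ, (a, b) ≠ (0, 0) ∧ l ^ a * m ^ b = 1) ∧
      ∃ N : ℕ, 0 < N ∧ ∀ (σ : k →+* ℂ) (l : ℂ), IsEig (conjMat σ (R.r γ)) l →
        ∃ t : 𝓞 k, (l ^ N) ^ 2 - σ (t : k) * l ^ N + 1 = 0 ∧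
          ∀ (K : Type) [Field K] [NumberField K] (i i' : k →+* K),
            (S.card * finrank ℚ K) ^ 400 ≤ C * finrank ℚ k ^ 401 → i (t : k) = i' (t : k) := by
  classical
  obtain ⟨c, hc, h⟩ := dep_pair_long e he C n
  refine ⟨c, hc, ?_⟩
  intro G _ M ρ Γ k _ _ S R hsize γ hγ
  have hunit : ∀ γ : Γ, IsUnit (R.r γ) := fun γ => (Group.isUnit γ).map R.r
  have hsize' : (S.card * finrank ℚ k) ^ 400 ≤ C * finrank ℚ k ^ 401 := by
    calc (S.card * finrank ℚ k) ^ 400 = S.card ^ 400 * finrank ℚ k ^ 400 := mul_pow _ _ _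
      _ ≤ (C * finrank ℚ k) * finrank ℚ k ^ 400 := Nat.mul_le_mul_right _ hsize
      _ = C * finrank ℚ k ^ 401 := by rw [mul_assoc, ← pow_succ']
  have hself : ∀ (δ : Γ) (_ : ∀ l : ℂ, IsEig (ρ δ) l →
      c * (1 + |Real.log ‖l‖|) ^ e < finrank ℚ k) (L : Type) [Field L] [NumberField L]
      [Algebra k L] (α β : L),
      ((R.r γ).charpoly.map ((algebraMap k L).comp (algebraMap (𝓞 k) k))).IsRoot α →
      ((R.r δ).charpoly.map ((algebraMap k L).comp (algebraMap (𝓞 k) k))).IsRoot β →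
      ∃ u v : ℤ, (u, v) ≠ (0, 0) ∧ α ^ u * β ^ v = 1 := by
    intro δ hδ L _ _ _ α β hα hβ
    exact h k k L S (R.r γ) (R.r δ) (RingHom.id k) (RingHom.id k) R.nonempty hsize' (hunit _)
      (hunit _) (fun σ hσ l hl => out_one R _ σ hσ l hl) (fun σ hσ l hl => out_one R _ σ hσ l hl)
      (fun σ hσ l hl => hγ l (R.eig σ hσ γ l hl)) (fun σ hσ l hl => hδ l (R.eig σ hσ δ l hl))
      α β hα hβ
  refine ⟨?_, ?_⟩
  · intro δ hδ σ l m hl hm
    obtain ⟨L, _, _, _, w, α, β, h1, h2, h3, h4⟩ := eig_lift (R.r γ) (R.r δ) σ l m hl hm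
    obtain ⟨u, v, huv, hdep⟩ := hself δ hδ L α β h1 h2
    refine ⟨u, v, huv, ?_⟩
    rw [← h3, ← h4, ← map_zpow₀, ← map_zpow₀, ← map_mul, hdep, map_one]
  · set P : k[X] := (R.r γ).charpoly.map (algebraMap (𝓞 k) k) with hP
    obtain ⟨L, _, _, _, hsplit, hnormal⟩ : ∃ (L : Type) (_ : Field L) (_ : NumberField L)
        (_ : Algebra k L), (P.map (algebraMap k L)).Splits ∧ Normal k L := by
      have : CharZero P.SplittingField :=
        charZero_of_injective_algebraMap (algebraMap k P.SplittingField).injective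
      exact ⟨P.SplittingField, inferInstance, NumberField.of_module_finite k _, inferInstance,
        SplittingField.splits P, inferInstance⟩
    have : FiniteDimensional k L := FiniteDimensional.right ℚ k L
    have hPL : P.map (algebraMap k L) =
        (R.r γ).charpoly.map ((algebraMap k L).comp (algebraMap (𝓞 k) k)) := by
      rw [hP, Polynomial.map_map]
    rw [hPL] at hsplit
    set Q : L[X] := (R.r γ).charpoly.map ((algebraMap k L).comp (algebraMap (𝓞 k) k)) with hQ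
    have hm : Q.Monic := (R.r γ).charpoly_monic.map _
    obtain ⟨N0, hN0, hquad⟩ := quad_core (L := L) (R.r γ) (hunit γ)
      (fun α β hα hβ => hself γ hγ L α β hα hβ)
    have hne : ∀ α : L, Q.IsRoot α → α ≠ 0 := fun α hα => (unit_root (R.r γ) (hunit γ) α hα).1
    -- one pair of embeddings
    have hone : ∀ (α : L) (σ τ : k →+* ℂ), ∃ N : ℕ, 0 < N ∧ (Q.IsRoot α →
        ∃ s : 𝓞 k, α ^ N + (α ^ N)⁻¹ = algebraMap k L (s : k) ∧
          ((∃ (K : Type) (_ : Field K) (_ : NumberField K) (i i' : k →+* K) (w : K →+* ℂ),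
            w.comp i = σ ∧ w.comp i' = τ ∧
            (S.card * finrank ℚ K) ^ 400 ≤ C * finrank ℚ k ^ 401) → σ (s : k) = τ (s : k))) := by
      intro α σ τ
      by_cases hα : Q.IsRoot α
      · obtain ⟨t, ht⟩ := hquad α hα
        have hα0 := hne α hα
        have ht' : α ^ N0 + (α ^ N0)⁻¹ = algebraMap k L (t : k) := by
          have h1 : α ^ N0 ≠ 0 := pow_ne_zero _ hα0
          generalize α ^ N0 = x at ht h1
          field_simp
          linear_combination ht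
        by_cases hK : ∃ (K : Type) (_ : Field K) (_ : NumberField K) (i i' : k →+* K)
            (w : K →+* ℂ), w.comp i = σ ∧ w.comp i' = τ ∧
            (S.card * finrank ℚ K) ^ 400 ≤ C * finrank ℚ k ^ 401
        · obtain ⟨K, _, _, i, i', w, hi, hi', hsz⟩ := hK
          obtain ⟨m, hmK⟩ : ∃ m, finrank ℚ K = m * finrank ℚ k := by
            letI : Algebra k K := i.toAlgebra
            refine ⟨finrank k K, ?_⟩
            rw [mul_comm]
            exact (Module.finrank_mul_finrank ℚ k K).symm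
          obtain ⟨M, s, hM, hs1, hs2⟩ := descend (L := L) (R.r γ) i i' m hmK
            (fun L₁ _ _ _ α β h1 h2 => h k K L₁ S (R.r γ) (R.r γ) i i' R.nonempty hsz (hunit _)
              (hunit _) (fun σ hσ l hl => out_one R _ σ hσ l hl)
              (fun σ hσ l hl => out_one R _ σ hσ l hl)
              (fun σ hσ l hl => hγ l (R.eig σ hσ γ l hl))
              (fun σ hσ l hl => hγ l (R.eig σ hσ γ l hl)) α β h1 h2)
            (hunit γ) α hα N0 t ht'
          refine ⟨N0 * M, Nat.mul_pos hN0 hM, fun _ => ⟨s, hs1, fun _ => ?_⟩⟩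
          rw [← hi, ← hi', RingHom.comp_apply, RingHom.comp_apply]
          exact congrArg w hs2
        · exact ⟨N0, hN0, fun _ => ⟨t, ht', fun h => absurd h hK⟩⟩
      · exact ⟨1, one_pos, fun h => absurd h hα⟩
    choose NN hNN0 hNN using hone
    set N := ∏ α ∈ Q.roots.toFinset, ∏ σ : k →+* ℂ, ∏ τ : k →+* ℂ, NN α σ τ with hN
    have hNpos : 0 < N := Finset.prod_pos fun α _ => Finset.prod_pos fun σ _ =>
      Finset.prod_pos fun τ _ => hNN0 α σ τ
    have hall : ∀ (α : L), Q.IsRoot α → ∀ σ τ : k →+* ℂ,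
        ∃ s : 𝓞 k, α ^ N + (α ^ N)⁻¹ = algebraMap k L (s : k) ∧
          ((∃ (K : Type) (_ : Field K) (_ : NumberField K) (i i' : k →+* K) (w : K →+* ℂ),
            w.comp i = σ ∧ w.comp i' = τ ∧
            (S.card * finrank ℚ K) ^ 400 ≤ C * finrank ℚ k ^ 401) → σ (s : k) = τ (s : k)) := by
      intro α hα σ τ
      have hmem : α ∈ Q.roots.toFinset := by
        rw [Multiset.mem_toFinset, mem_roots hm.ne_zero]
        exact hα
      have hd1 : NN α σ τ ∣ N :=
        ((Finset.dvd_prod_of_mem (fun τ => NN α σ τ) (Finset.mem_univ τ)).trans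
          (Finset.dvd_prod_of_mem (fun σ => ∏ τ : k →+* ℂ, NN α σ τ) (Finset.mem_univ σ))).trans
          (Finset.dvd_prod_of_mem (fun α => ∏ σ : k →+* ℂ, ∏ τ : k →+* ℂ, NN α σ τ) hmem)
      obtain ⟨M, hM⟩ := hd1
      obtain ⟨s, hs, hst⟩ := hNN α σ τ hα
      by_cases hK : ∃ (K : Type) (_ : Field K) (_ : NumberField K) (i i' : k →+* K)
            (w : K →+* ℂ), w.comp i = σ ∧ w.comp i' = τ ∧
            (S.card * finrank ℚ K) ^ 400 ≤ C * finrank ℚ k ^ 401
      · obtain ⟨s', h1, h2⟩ := mult_step α (hne α hα) σ τ _ M s hs (hst hK)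
        exact ⟨s', by rw [hM]; exact h1, fun _ => h2⟩
      · obtain ⟨s', h1, _⟩ := mult_step α (hne α hα) σ σ _ M s hs rfl
        exact ⟨s', by rw [hM]; exact h1, fun h => absurd h hK⟩
    refine ⟨N, hNpos, fun σ l hl => ?_⟩
    obtain ⟨w, hw⟩ := extend_emb (algebraMap k L) (fun x => by
      have : IsIntegral k x := Algebra.IsIntegral.isIntegral x
      exact this) σ
    have h3 : ((emb σ).mapMatrix (R.r γ)).charpoly = Q.map w := by
      rw [hQ, Polynomial.map_map, ← RingHom.comp_assoc, hw, ← Matrix.charpoly_map]; rfl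
    have h4 : l ∈ (Q.map w).roots := by
      rw [mem_roots (hm.map w).ne_zero, ← h3]
      exact hl
    rw [hsplit.roots_map, Multiset.mem_map] at h4
    obtain ⟨α, h5, h6⟩ := h4
    have hα : Q.IsRoot α := (mem_roots hm.ne_zero).mp h5
    obtain ⟨s0, hs0, _⟩ := hall α hα σ σ
    refine ⟨s0, ?_, ?_⟩
    · have h7 := congrArg w hs0
      have h8 : w (algebraMap k L (s0 : k)) = σ (s0 : k) := RingHom.congr_fun hw (s0 : k)
      rw [map_add, map_inv₀, map_pow, h6, h8] at h7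
      have hl0 : l ≠ 0 := by
        rw [← h6]
        exact (map_ne_zero w).mpr (hne α hα)
      have h9 : l ^ N ≠ 0 := pow_ne_zero _ hl0
      rw [← h7]
      generalize l ^ N = x at h9
      field_simp
      ring
    · intro K _ _ i i' hsz
      obtain ⟨w0⟩ : Nonempty (K →+* ℂ) := inferInstance
      obtain ⟨s, hs, hst⟩ := hall α hα (w0.comp i) (w0.comp i')
      have h7 := hst ⟨K, inferInstance, inferInstance, i, i', w0, rfl, rfl, hsz⟩
      have h8 : (s : k) = (s0 : k) := (algebraMap k L).injective (hs.symm.trans hs0)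
      rw [h8] at h7
      exact w0.injective h7

end Pool.Agent.H776GM
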