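import Pool.Agent.H776GM.Div2
import Pool.Agent.H225R3.Marg5

/-!
# An upper bound for the norm of the different of the minimal polynomial
-/

set_option autoImplicit false

namespace Pool.Agent.H776GM

open Polynomial NumberField Finset Pool.Agent.H225R3.Marg

theorem det_bound {n : ℕ} (v : Fin n → ℂ) (M : Fin n → ℝ) (h1 : ∀ i, 1 ≤ M i)
    (h2 : ∀ i, ‖v i‖ ≤ M i) :
    ‖(Matrix.vandermonde v).det‖ ≤ (n.factorial : ℝ) * (∏ i, M i) ^ n := by
  have hM : ∀ i, 0 < M i := fun i => lt_of_lt_of_le one_pos (h1 i)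
  let A : Matrix (Fin n) (Fin n) ℂ := Matrix.of fun i j => v i ^ (j : ℕ) / ((M i : ℂ) ^ n)
  have h3 : (Matrix.vandermonde v).det = (∏ i, (M i : ℂ) ^ n) * A.det := by
    rw [← Matrix.det_mul_column]
    congr 1
    ext i j
    simp only [Matrix.vandermonde_apply, Matrix.of_apply, A]
    have : (M i : ℂ) ^ n ≠ 0 := pow_ne_zero _ (by exact_mod_cast (hM i).ne')
    field_simp
  have h4 : ‖A.det‖ ≤ (n.factorial : ℝ) := by
    have h5 := Matrix.det_le (A := A) (abv := NormedField.toAbsoluteValue ℂ) (x := (1 : ℝ)) (by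
      intro i j
      show ‖A i j‖ ≤ 1
      simp only [A, Matrix.of_apply, norm_div, norm_pow, Complex.norm_real, Real.norm_eq_abs,
        abs_of_pos (hM i)]
      rw [div_le_one (pow_pos (hM i) n)]
      calc ‖v i‖ ^ (j : ℕ) ≤ M i ^ (j : ℕ) := pow_le_pow_left₀ (norm_nonneg _) (h2 i) _
        _ ≤ M i ^ n := pow_le_pow_right₀ (h1 i) j.2.le)
    have h6 : ‖A.det‖ ≤ Nat.factorial (Fintype.card (Fin n)) • (1 : ℝ) ^ Fintype.card (Fin n) := h5
    simpa using h6
  rw [h3, norm_mul, norm_prod]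
  have h5 : ∏ i, ‖(M i : ℂ) ^ n‖ = (∏ i, M i) ^ n := by
    rw [← Finset.prod_pow]
    refine Finset.prod_congr rfl fun i _ => ?_
    rw [norm_pow, Complex.norm_real, Real.norm_eq_abs, abs_of_pos (hM i)]
  rw [h5, mul_comm]
  exact mul_le_mul_of_nonneg_right h4 (pow_nonneg (Finset.prod_nonneg fun i _ => (hM i).le) _)

theorem pair_bound (ℛ : Finset ℂ) (M : ℂ → ℝ) (h1 : ∀ x ∈ ℛ, 1 ≤ M x)
    (h2 : ∀ x ∈ ℛ, ‖x‖ ≤ M x) :
    ∏ x ∈ ℛ, ∏ y ∈ ℛ.erase x, ‖x - y‖ ≤
      ((ℛ.card.factorial : ℝ) * (∏ x ∈ ℛ, M x) ^ ℛ.card) ^ 2 := by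
  classical
  set n := ℛ.card with hn
  let e : Fin n ≃ ℛ := (ℛ.equivFin).symm
  let v : Fin n → ℂ := fun i => (e i : ℂ)
  have h3 := det_bound v (fun i => M (v i)) (fun i => h1 _ (e i).2) (fun i => h2 _ (e i).2)
  have h4 : ∏ i, M (v i) = ∏ x ∈ ℛ, M x := by
    rw [← Finset.prod_coe_sort ℛ M]
    exact Fintype.prod_equiv e _ _ fun i => rfl
  have h5 : ∏ x ∈ ℛ, ∏ y ∈ ℛ.erase x, ‖x - y‖ = ‖(Matrix.vandermonde v).det‖ ^ 2 := by
    have h6 : ∏ x ∈ ℛ, ∏ y ∈ ℛ.erase x, ‖x - y‖ = ∏ i, ∏ j ∈ ({i}ᶜ : Finset (Fin n)),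
        ‖v j - v i‖ := by
      rw [← Finset.prod_coe_sort ℛ (fun x => ∏ y ∈ ℛ.erase x, ‖x - y‖)]
      refine (Fintype.prod_equiv e _ _ fun i => ?_).symm
      refine Finset.prod_bij (fun j _ => v j) ?_ ?_ ?_ ?_
      · intro j hj
        rw [Finset.mem_compl, Finset.mem_singleton] at hj
        rw [Finset.mem_erase]
        refine ⟨?_, (e j).2⟩
        intro h
        exact hj (e.injective (Subtype.ext h))
      · intro j _ j' _ h
        exact e.injective (Subtype.ext h)
      · intro y hy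
        rw [Finset.mem_erase] at hy
        refine ⟨e.symm ⟨y, hy.2⟩, ?_, ?_⟩
        · rw [Finset.mem_compl, Finset.mem_singleton]
          intro h
          apply hy.1
          rw [← h]
          simp
        · simp [v]
      · intro j _
        rw [norm_sub_rev]
    rw [h6, ← Finset.prod_prod_Ioi_mul_eq_prod_prod_off_diag, Matrix.det_vandermonde, norm_prod,
      ← Finset.prod_pow]
    refine Finset.prod_congr rfl fun i _ => ?_
    rw [norm_prod, ← Finset.prod_pow]
    refine Finset.prod_congr rfl fun j _ => ?_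
    rw [norm_sub_rev (v i) (v j), sq]
  rw [h5, ← h4]
  exact pow_le_pow_left₀ (norm_nonneg _) h3 2

variable {K : Type} [Field K] [NumberField K]

theorem fiber_card (a : K) (w0 : K →+* ℂ) :
    Nat.card {w : K →+* ℂ // w a = w0 a} = Module.finrank (IntermediateField.adjoin ℚ {a}) K := by
  rw [← natCard_ext (IntermediateField.adjoin ℚ {a}) K
    (w0.comp (algebraMap (IntermediateField.adjoin ℚ {a}) K))]
  refine Nat.card_congr (Equiv.subtypeEquivRight fun w => ?_)
  have hint : IsIntegral ℚ a := Algebra.IsIntegral.isIntegral a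
  constructor
  · intro h
    let pb := IntermediateField.adjoin.powerBasis hint
    have h1 : (w.comp (algebraMap (IntermediateField.adjoin ℚ {a}) K)).toRatAlgHom =
        (w0.comp (algebraMap (IntermediateField.adjoin ℚ {a}) K)).toRatAlgHom := by
      apply pb.algHom_ext
      rw [IntermediateField.adjoin.powerBasis_gen]
      show w (algebraMap _ K (IntermediateField.AdjoinSimple.gen ℚ a)) =
        w0 (algebraMap _ K (IntermediateField.AdjoinSimple.gen ℚ a))
      rw [IntermediateField.AdjoinSimple.algebraMap_gen]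
      exact h
    ext x
    exact DFunLike.congr_fun h1 x
  · intro h
    have h1 := RingHom.congr_fun h (IntermediateField.AdjoinSimple.gen ℚ a)
    simp only [RingHom.comp_apply, IntermediateField.AdjoinSimple.algebraMap_gen] at h1
    exact h1

theorem quo_bound (a : 𝓞 K) (s : ℕ) (hs : (univ.filter fun w : K →+* ℂ => ‖emb w a‖ ≠ 1).card ≤ s)
    (hle : ∀ w : K →+* ℂ, ‖emb w a‖ ≤ Real.exp 1) :
    ∏ w : K →+* ℂ, ‖emb w ((quo (minpoly ℤ a) a).eval a)‖ ≤
      ((Module.finrank ℚ K : ℝ) * Real.exp s) ^ (2 * Module.finrank ℚ K) ∧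
    (quo (minpoly ℤ a) a).eval a ≠ 0 := by
  classical
  set f := minpoly ℤ a with hf
  have hint : IsIntegral ℤ a := RingOfIntegers.isIntegral a
  have hfm : f.Monic := minpoly.monic hint
  have hfa : (f.map (Int.castRingHom (𝓞 K))).eval a = 0 := by
    have := minpoly.aeval ℤ a
    rwa [aeval_def, ← eval_map] at this
  set ℛ : Finset ℂ := univ.image fun w : K →+* ℂ => emb w a with hℛ
  set t := Module.finrank (IntermediateField.adjoin ℚ {(a : K)}) K with ht
  have hfib : ∀ x ∈ ℛ, (univ.filter fun w : K →+* ℂ => emb w a = x).card = t := by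
    intro x hx
    rw [hℛ, Finset.mem_image] at hx
    obtain ⟨w0, _, rfl⟩ := hx
    rw [ht, ← fiber_card (a : K) w0, Nat.card_eq_fintype_card, Fintype.card_subtype]
    rfl
  have hcard : ℛ.card * t = Module.finrank ℚ K := by
    have h1 := Finset.card_eq_sum_card_fiberwise (s := (univ : Finset (K →+* ℂ)))
      (f := fun w => emb w a) (t := ℛ) (by
        intro w _
        exact Finset.mem_coe.mpr (Finset.mem_image_of_mem _ (Finset.mem_univ w)))
    rw [Finset.sum_congr rfl hfib, Finset.sum_const, smul_eq_mul, Finset.card_univ,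
      NumberField.Embeddings.card] at h1
    exact h1.symm
  -- the minimal polynomial has the roots `ℛ`
  have hmq : f.map (Int.castRingHom ℚ) = minpoly ℚ (a : K) := by
    have h1 := minpoly.isIntegrallyClosed_eq_field_fractions' ℚ
      (show IsIntegral ℤ (a : K) from RingOfIntegers.isIntegral_coe a)
    have h2 : minpoly ℤ (a : K) = f := by
      rw [hf]
      exact minpoly.algebraMap_eq (RingOfIntegers.coe_injective) a
    rw [h2] at h1
    rw [h1]
    rfl
  have hsep : (f.map (Int.castRingHom ℂ)).Separable := by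
    have h1 : f.map (Int.castRingHom ℂ) = (minpoly ℚ (a : K)).map (algebraMap ℚ ℂ) := by
      rw [← hmq, Polynomial.map_map]
      congr 1
    rw [h1]
    exact (minpoly.irreducible (Algebra.IsIntegral.isIntegral (a : K))).separable.map
  have hroots : f.map (Int.castRingHom ℂ) = ∏ x ∈ ℛ, (X - C x) := by
    have hdeg : ℛ.card = (f.map (Int.castRingHom ℂ)).natDegree := by
      have hf1 : (f.map (Int.castRingHom ℂ)).natDegree = (minpoly ℚ (a : K)).natDegree := by
        rw [hfm.natDegree_map, ← hmq, hfm.natDegree_map]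
      have h3 : Module.finrank ℚ (IntermediateField.adjoin ℚ {(a : K)}) =
          (minpoly ℚ (a : K)).natDegree :=
        IntermediateField.adjoin.finrank (Algebra.IsIntegral.isIntegral (a : K))
      have h4 : Module.finrank ℚ (IntermediateField.adjoin ℚ {(a : K)}) * t =
          Module.finrank ℚ K := Module.finrank_mul_finrank ℚ _ K
      have htpos : 0 < t := Module.finrank_pos
      rw [hf1, ← h3]
      exact Nat.eq_of_mul_eq_mul_right htpos (hcard.trans h4.symm)
    have hne : f.map (Int.castRingHom ℂ) ≠ 0 := (hfm.map _).ne_zero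
    have hsub : ℛ ⊆ (f.map (Int.castRingHom ℂ)).roots.toFinset := by
      intro x hx
      rw [hℛ, Finset.mem_image] at hx
      obtain ⟨w, _, rfl⟩ := hx
      rw [Multiset.mem_toFinset, mem_roots hne, IsRoot.def]
      have h1 := congrArg (emb w) hfa
      rw [map_zero, ← eval_map_apply, Polynomial.map_map] at h1
      have h2 : (emb w).comp (Int.castRingHom (𝓞 K)) = Int.castRingHom ℂ := RingHom.ext_int _ _
      rw [h2] at h1
      exact h1
    have heq : ℛ = (f.map (Int.castRingHom ℂ)).roots.toFinset := by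
      apply Finset.eq_of_subset_of_card_le hsub
      rw [hdeg]
      exact (Multiset.toFinset_card_le _).trans (card_roots' _)
    have h5 := IsAlgClosed.splits (f.map (Int.castRingHom ℂ))
    have h6 := h5.eq_prod_roots
    rw [(hfm.map _).leadingCoeff, C_1, one_mul] at h6
    rw [heq, Finset.prod, Multiset.toFinset_val,
      Multiset.dedup_eq_self.mpr (nodup_roots hsep)]
    exact h6
  have hval : ∀ w : K →+* ℂ, emb w ((quo f a).eval a) = ∏ y ∈ ℛ.erase (emb w a), (emb w a - y) := by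
    intro w
    have hmem : emb w a ∈ ℛ := Finset.mem_image_of_mem _ (Finset.mem_univ w)
    have h1 := congrArg (Polynomial.map (emb w)) (quo_spec f a hfa)
    rw [Polynomial.map_mul, Polynomial.map_sub, map_X, map_C, Polynomial.map_map] at h1
    have h2 : (emb w).comp (Int.castRingHom (𝓞 K)) = Int.castRingHom ℂ := RingHom.ext_int _ _
    rw [h2, hroots, ← Finset.mul_prod_erase ℛ _ hmem] at h1
    have h3 := mul_left_cancel₀ (X_sub_C_ne_zero (emb w a)) h1
    rw [← eval_map_apply, h3, eval_prod]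
    refine Finset.prod_congr rfl fun y _ => ?_
    simp
  have hprod : ∏ w : K →+* ℂ, ‖emb w ((quo f a).eval a)‖ =
      (∏ x ∈ ℛ, ∏ y ∈ ℛ.erase x, ‖x - y‖) ^ t := by
    rw [Finset.prod_congr rfl fun w _ => by rw [hval w, norm_prod]]
    rw [← Finset.prod_fiberwise_of_maps_to (s := univ) (t := ℛ) (g := fun w => emb w a)
      (fun w _ => Finset.mem_image_of_mem _ (Finset.mem_univ w))]
    rw [← Finset.prod_pow]
    refine Finset.prod_congr rfl fun x hx => ?_
    rw [← hfib x hx, ← Finset.prod_const]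
    refine Finset.prod_congr rfl fun w hw => ?_
    rw [(Finset.mem_filter.mp hw).2]
  have hb := pair_bound ℛ (fun x => max 1 ‖x‖) (fun x _ => le_max_left _ _)
    (fun x _ => le_max_right _ _)
  have hM : ∏ x ∈ ℛ, max 1 ‖x‖ ≤ Real.exp s := by
    have h1 : ∏ x ∈ ℛ, max 1 ‖x‖ = ∏ x ∈ ℛ.filter (fun x => ‖x‖ ≠ 1), max 1 ‖x‖ := by
      rw [Finset.prod_filter_of_ne]
      intro x _ hx h
      rw [h, max_self] at hx
      exact hx rfl
    rw [h1]
    calc ∏ x ∈ ℛ.filter (fun x => ‖x‖ ≠ 1), max 1 ‖x‖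
        ≤ ∏ _x ∈ ℛ.filter (fun x => ‖x‖ ≠ 1), Real.exp 1 := by
          refine Finset.prod_le_prod (fun x _ => le_trans zero_le_one (le_max_left _ _)) ?_
          intro x hx
          rw [Finset.mem_filter, hℛ, Finset.mem_image] at hx
          obtain ⟨⟨w, _, rfl⟩, _⟩ := hx
          exact max_le (Real.one_le_exp zero_le_one) (hle w)
      _ = Real.exp 1 ^ (ℛ.filter (fun x => ‖x‖ ≠ 1)).card := by rw [Finset.prod_const]
      _ ≤ Real.exp 1 ^ s := by
          refine pow_le_pow_right₀ (Real.one_le_exp zero_le_one) ?_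
          refine le_trans ?_ hs
          have h2 : ℛ.filter (fun x => ‖x‖ ≠ 1) ⊆
              (univ.filter fun w : K →+* ℂ => ‖emb w a‖ ≠ 1).image fun w => emb w a := by
            intro x hx
            rw [Finset.mem_filter, hℛ, Finset.mem_image] at hx
            obtain ⟨⟨w, _, rfl⟩, h⟩ := hx
            exact Finset.mem_image.mpr ⟨w, Finset.mem_filter.mpr ⟨Finset.mem_univ _, h⟩, rfl⟩
          exact (Finset.card_le_card h2).trans Finset.card_image_le
      _ = Real.exp s := by rw [← Real.exp_nat_mul, mul_one]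
  refine ⟨?_, ?_⟩
  swap
  · obtain ⟨w⟩ : Nonempty (K →+* ℂ) := inferInstance
    intro h0
    have h1 := hval w
    rw [h0, map_zero] at h1
    obtain ⟨y, hy, hy0⟩ := Finset.prod_eq_zero_iff.mp h1.symm
    exact (Finset.mem_erase.mp hy).1 (sub_eq_zero.mp hy0).symm
  rw [hprod]
  have hM0 : 0 ≤ ∏ x ∈ ℛ, max 1 ‖x‖ :=
    Finset.prod_nonneg fun x _ => le_trans zero_le_one (le_max_left _ _)
  have hRD : (ℛ.card : ℝ) ≤ Module.finrank ℚ K := by
    have : ℛ.card ≤ Module.finrank ℚ K := by
      rw [← hcard]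
      exact Nat.le_mul_of_pos_right _ Module.finrank_pos
    exact_mod_cast this
  calc (∏ x ∈ ℛ, ∏ y ∈ ℛ.erase x, ‖x - y‖) ^ t
      ≤ (((ℛ.card.factorial : ℝ) * (∏ x ∈ ℛ, max 1 ‖x‖) ^ ℛ.card) ^ 2) ^ t :=
        pow_le_pow_left₀ (Finset.prod_nonneg fun x _ => Finset.prod_nonneg fun y _ =>
          norm_nonneg _) hb t
    _ ≤ ((((Module.finrank ℚ K : ℝ)) ^ ℛ.card * (Real.exp s) ^ ℛ.card) ^ 2) ^ t := by
        refine pow_le_pow_left₀ (by positivity) (pow_le_pow_left₀ (by positivity) ?_ 2) t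
        refine mul_le_mul ?_ (pow_le_pow_left₀ hM0 hM _) (by positivity) (by positivity)
        have h1 : (ℛ.card.factorial : ℝ) ≤ (ℛ.card : ℝ) ^ ℛ.card := by
          exact_mod_cast Nat.factorial_le_pow _
        exact h1.trans (pow_le_pow_left₀ (Nat.cast_nonneg _) hRD _)
    _ = _ := by
        rw [← mul_pow, ← pow_mul, ← pow_mul, ← hcard]
        congr 1
        ring

end Pool.Agent.H776GM
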