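import Mathlib
import Pool.Agent.H225R3.Marg2

/-!
# Divisibility at Frobenius powers
-/

set_option autoImplicit false

namespace Pool.Agent.H776GM

open Polynomial NumberField Finset Pool.Agent.H225R3.Marg

section jets

variable {m n : ℕ} {R S : Type*} [CommRing R] [CommRing S]

/-- value of the polynomial with coefficients `c` -/
def ev (c : Fin m × Fin n → ℤ) (x y : R) : R :=
  ∑ p, (c p : R) * x ^ (p.1 : ℕ) * y ^ (p.2 : ℕ)

/-- divided derivatives of the polynomial with coefficients `c` -/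
def jet (c : Fin m × Fin n → ℤ) (u v : ℕ) (x y : R) : R :=
  ∑ p, (c p : R) * (((p.1 : ℕ).choose u : R) * ((p.2 : ℕ).choose v : R)) *
    x ^ ((p.1 : ℕ) - u) * y ^ ((p.2 : ℕ) - v)

theorem map_ev (f : R →+* S) (c : Fin m × Fin n → ℤ) (x y : R) :
    f (ev c x y) = ev c (f x) (f y) := by
  simp [ev, map_sum]

theorem map_jet (f : R →+* S) (c : Fin m × Fin n → ℤ) (u v : ℕ) (x y : R) :
    f (jet c u v x y) = jet c u v (f x) (f y) := by
  simp [jet, map_sum]

theorem pow_taylor (x a : R) (i m : ℕ) (hi : i < m) :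
    x ^ i = ∑ u ∈ range m, (i.choose u : R) * a ^ (i - u) * (x - a) ^ u := by
  have h1 : x ^ i = ((x - a) + a) ^ i := by rw [sub_add_cancel]
  rw [h1, add_pow]
  rw [← Finset.sum_subset (Finset.range_subset_range.mpr (Nat.succ_le_of_lt hi))]
  · refine Finset.sum_congr rfl fun u _ => ?_
    ring
  · intro u _ hu
    rw [Finset.mem_range, not_lt] at hu
    rw [Nat.choose_eq_zero_of_lt (by omega)]
    simp

theorem ev_taylor (c : Fin m × Fin n → ℤ) (x y a b : R) :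
    ev c x y = ∑ u ∈ range m, ∑ v ∈ range n, jet c u v a b * ((x - a) ^ u * (y - b) ^ v) := by
  simp only [ev, jet]
  have h1 : ∀ p : Fin m × Fin n, (c p : R) * x ^ (p.1 : ℕ) * y ^ (p.2 : ℕ) =
      ∑ u ∈ range m, ∑ v ∈ range n, ((c p : R) * (((p.1 : ℕ).choose u : R) *
        ((p.2 : ℕ).choose v : R)) * a ^ ((p.1 : ℕ) - u) * b ^ ((p.2 : ℕ) - v)) *
        ((x - a) ^ u * (y - b) ^ v) := by
    intro p
    rw [pow_taylor x a p.1 m p.1.2, pow_taylor y b p.2 n p.2.2, mul_assoc, Finset.sum_mul_sum,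
      Finset.mul_sum]
    refine Finset.sum_congr rfl fun u _ => ?_
    rw [Finset.mul_sum]
    refine Finset.sum_congr rfl fun v _ => ?_
    ring
  rw [Finset.sum_congr rfl fun p _ => h1 p, Finset.sum_comm]
  refine Finset.sum_congr rfl fun u _ => ?_
  rw [Finset.sum_comm]
  refine Finset.sum_congr rfl fun v _ => ?_
  rw [Finset.sum_mul]

/-- Frobenius congruence -/
theorem ev_frob (c : Fin m × Fin n → ℤ) (p : ℕ) (hp : p.Prime) (x y : R) :
    (p : R) ∣ ev c (x ^ p) (y ^ p) - ev c x y ^ p := by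
  have : Fact p.Prime := ⟨hp⟩
  by_cases hu : IsUnit (p : R)
  · exact hu.dvd
  have hchar : CharP (R ⧸ Ideal.span {(p : R)}) p := CharP.quotient R p hu
  rw [← Ideal.mem_span_singleton, ← Ideal.Quotient.eq_zero_iff_mem]
  have h1 : ∀ z : R ⧸ Ideal.span {(p : R)}, z ^ p = frobenius _ p z := fun z => rfl
  rw [map_sub, map_pow, map_ev, map_ev, map_pow, map_pow, h1, h1, h1, map_ev, sub_self]

end jets

section emb

variable {K : Type} [Field K] [NumberField K]

theorem trace_emb (x : 𝓞 K) :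
    ((Algebra.trace ℤ (𝓞 K) x : ℤ) : ℂ) = ∑ w : K →+* ℂ, emb w x := by
  have h1 : ((Algebra.trace ℤ (𝓞 K) x : ℤ) : ℂ) =
      (algebraMap ℚ ℂ) (Algebra.trace ℚ K (x : K)) := by
    rw [← Algebra.coe_trace_int]
    simp
  rw [h1, trace_eq_sum_embeddings ℂ]
  exact Fintype.sum_equiv (RingHom.equivRatAlgHom K ℂ).symm _ _ fun f => rfl

/-- `τ(z; x, y)` -/
noncomputable def tau (z : 𝓞 K) (P Q : (𝓞 K)[X]) (x y : 𝓞 K) : 𝓞 K :=
  ∑ i ∈ range (P.natDegree + 1), ∑ j ∈ range (Q.natDegree + 1),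
    ((Algebra.trace ℤ (𝓞 K) (z * P.coeff i * Q.coeff j) : ℤ) : 𝓞 K) * x ^ i * y ^ j

theorem emb_tau (w0 : K →+* ℂ) (z : 𝓞 K) (P Q : (𝓞 K)[X]) (x y : 𝓞 K) :
    emb w0 (tau z P Q x y) = ∑ w : K →+* ℂ, emb w z *
      (P.map (emb w)).eval (emb w0 x) * (Q.map (emb w)).eval (emb w0 y) := by
  have h1 : ∀ w : K →+* ℂ, ∀ (P : (𝓞 K)[X]) (t : ℂ), (P.map (emb w)).eval t =
      ∑ i ∈ range (P.natDegree + 1), emb w (P.coeff i) * t ^ i := by
    intro w P t
    rw [eval_eq_sum_range' (n := P.natDegree + 1)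
      (Nat.lt_succ_of_le (natDegree_map_le))]
    simp
  have h2 : ∀ w : K →+* ℂ, emb w z *
      (P.map (emb w)).eval (emb w0 x) * (Q.map (emb w)).eval (emb w0 y) =
      ∑ i ∈ range (P.natDegree + 1), ∑ j ∈ range (Q.natDegree + 1),
        emb w (z * P.coeff i * Q.coeff j) * (emb w0 x) ^ i * (emb w0 y) ^ j := by
    intro w
    rw [h1, h1, mul_assoc, Finset.sum_mul_sum, Finset.mul_sum]
    refine Finset.sum_congr rfl fun i _ => ?_
    rw [Finset.mul_sum]
    refine Finset.sum_congr rfl fun j _ => ?_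
    rw [map_mul, map_mul]
    ring
  rw [Finset.sum_congr rfl fun w _ => h2 w, Finset.sum_comm]
  simp only [tau, map_sum, map_mul, map_pow, map_intCast]
  refine Finset.sum_congr rfl fun i _ => ?_
  rw [Finset.sum_comm]
  refine Finset.sum_congr rfl fun j _ => ?_
  rw [trace_emb, Finset.sum_mul, Finset.sum_mul]
  refine Finset.sum_congr rfl fun w _ => ?_
  rw [map_mul, map_mul]

/-- divisibility by `q` among algebraic integers -/
def Dv (q z : ℂ) : Prop := ∃ t : ℂ, IsIntegral ℤ t ∧ z = q * t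

theorem Dv.add {q y z : ℂ} (hy : Dv q y) (hz : Dv q z) : Dv q (y + z) := by
  obtain ⟨s, hs, rfl⟩ := hy
  obtain ⟨t, ht, rfl⟩ := hz
  exact ⟨s + t, hs.add ht, by ring⟩

theorem Dv.zero {q : ℂ} : Dv q 0 := ⟨0, isIntegral_zero, by ring⟩

theorem Dv.mul_left {q y z : ℂ} (hy : IsIntegral ℤ y) (hz : Dv q z) : Dv q (y * z) := by
  obtain ⟨t, ht, rfl⟩ := hz
  exact ⟨y * t, hy.mul ht, by ring⟩

theorem Dv.sum {q : ℂ} {ι : Type*} (s : Finset ι) (f : ι → ℂ) (h : ∀ i ∈ s, Dv q (f i)) :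
    Dv q (∑ i ∈ s, f i) := by
  classical
  induction s using Finset.induction_on with
  | empty => simpa using Dv.zero
  | insert a s ha ih =>
    rw [Finset.sum_insert ha]
    exact (h a (Finset.mem_insert_self _ _)).add
      (ih fun i hi => h i (Finset.mem_insert_of_mem hi))

theorem Dv.pow {q z : ℂ} (hz : Dv q z) (T : ℕ) : Dv (q ^ T) (z ^ T) := by
  obtain ⟨t, ht, rfl⟩ := hz
  exact ⟨t ^ T, ht.pow T, by ring⟩

omit [NumberField K] in
theorem emb_inj (w : K →+* ℂ) : Function.Injective (emb w) := by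
  intro x y h
  have h1 : w (x : K) = w (y : K) := h
  exact RingOfIntegers.ext (w.injective h1)

omit [NumberField K] in
theorem emb_int (w : K →+* ℂ) (x : 𝓞 K) : IsIntegral ℤ (emb w x) := by
  have h1 : IsIntegral ℤ (x : K) := RingOfIntegers.isIntegral_coe x
  exact h1.map (w.toIntAlgHom)

/-- descent of divisibility -/
theorem Dv.desc (w : K →+* ℂ) (q : ℕ) (hq : q ≠ 0) (x : 𝓞 K) (h : Dv (q : ℂ) (emb w x)) :
    (q : 𝓞 K) ∣ x := by
  obtain ⟨t, ht, h1⟩ := h
  have hq' : (q : K) ≠ 0 := Nat.cast_ne_zero.mpr hq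
  have h2 : w ((x : K) / q) = t := by
    rw [map_div₀, map_natCast]
    have h3 : w (x : K) = q * t := h1
    rw [h3]
    have : (q : ℂ) ≠ 0 := Nat.cast_ne_zero.mpr hq
    field_simp
  have h3 : IsIntegral ℤ ((x : K) / q) := by
    rw [← h2] at ht
    exact (isIntegral_algHom_iff w.toIntAlgHom w.injective).mp ht
  refine ⟨⟨(x : K) / q, h3⟩, ?_⟩
  apply RingOfIntegers.ext
  show (x : K) = (q : K) * ((x : K) / q)
  field_simp

theorem Dv.asc (w : K →+* ℂ) (q : ℕ) (x : 𝓞 K) (h : (q : 𝓞 K) ∣ x) : Dv (q : ℂ) (emb w x) := by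
  obtain ⟨y, rfl⟩ := h
  exact ⟨emb w y, emb_int w y, by rw [map_mul, map_natCast]⟩

/-- an algebraic integer with nilpotent class modulo `p` has trace divisible by `p` -/
theorem trace_nil (p : ℕ) (hp : p.Prime) (y : 𝓞 K) (m : ℕ) (h : (p : 𝓞 K) ∣ y ^ m) :
    (p : ℤ) ∣ Algebra.trace ℤ (𝓞 K) y := by
  have : Fact p.Prime := ⟨hp⟩
  let A := integralClosure ℤ ℂ
  obtain ⟨k, hk⟩ : ∃ k : ℕ, m ≤ p ^ k := ⟨m, (Nat.lt_pow_self hp.one_lt).le⟩
  have h1 : (p : 𝓞 K) ∣ y ^ (p ^ k) := h.trans (pow_dvd_pow _ hk)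
  have hnu : ¬ IsUnit (p : A) := by
    intro hu
    obtain ⟨b, hb⟩ := hu.exists_right_inv
    have hb' : (p : ℂ) * (b : ℂ) = 1 := by
      have := congrArg Subtype.val hb
      simpa using this
    have h2 : IsIntegral ℤ ((1 : ℚ) / p) := by
      have h3 : IsIntegral ℤ (b : ℂ) := b.2
      have h4 : (b : ℂ) = algebraMap ℚ ℂ ((1 : ℚ) / p) := by
        have hp0 : (p : ℂ) ≠ 0 := Nat.cast_ne_zero.mpr hp.ne_zero
        simp only [map_div₀, map_one, map_natCast]
        field_simp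
        rw [mul_comm]
        exact hb'
      rw [h4] at h3
      exact (isIntegral_algebraMap_iff (algebraMap ℚ ℂ).injective).mp h3
    obtain ⟨n, hn⟩ := IsIntegrallyClosed.isIntegral_iff.mp h2
    have hn' : (n : ℚ) = 1 / p := by simpa using hn
    have hp0 : (p : ℚ) ≠ 0 := Nat.cast_ne_zero.mpr hp.ne_zero
    rw [eq_div_iff hp0] at hn'
    have h5 : n * (p : ℤ) = 1 := by exact_mod_cast hn'
    have h6 : (p : ℤ) ∣ 1 := ⟨n, by rw [mul_comm]; exact h5.symm⟩
    have h7 := Int.natAbs_dvd_natAbs.mpr h6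
    simp at h7
    exact hp.one_lt.ne' h7
  have hchar : CharP (A ⧸ Ideal.span {(p : A)}) p := CharP.quotient A p hnu
  let f : A →+* (A ⧸ Ideal.span {(p : A)}) := Ideal.Quotient.mk _
  let e : (K →+* ℂ) → A := fun w => ⟨emb w y, emb_int w y⟩
  have h2 : f (∑ w, e w) ^ (p ^ k) = 0 := by
    rw [map_sum, ← iterateFrobenius_def, map_sum]
    refine Finset.sum_eq_zero fun w _ => ?_
    rw [iterateFrobenius_def, ← map_pow, Ideal.Quotient.eq_zero_iff_mem,
      Ideal.mem_span_singleton]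
    obtain ⟨t, ht⟩ := h1
    refine ⟨⟨emb w t, emb_int w t⟩, ?_⟩
    apply Subtype.ext
    show (emb w y) ^ (p ^ k) = _
    rw [← map_pow, ht, map_mul, map_natCast]
    rfl
  have h3 : (∑ w, e w) = ((Algebra.trace ℤ (𝓞 K) y : ℤ) : A) := by
    apply Subtype.ext
    have h4 := trace_emb y
    push_cast
    rw [h4]
  rw [h3, map_intCast] at h2
  have h4 : (((Algebra.trace ℤ (𝓞 K) y) ^ (p ^ k) : ℤ) : A ⧸ Ideal.span {(p : A)}) = 0 := by
    rw [Int.cast_pow]
    exact h2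
  rw [CharP.intCast_eq_zero_iff _ p] at h4
  exact Int.Prime.dvd_pow' hp h4

end emb

end Pool.Agent.H776GM
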