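import Pool.Agent.H776GM.Div

/-!
# Divisibility at Frobenius powers, continued
-/

set_option autoImplicit false

namespace Pool.Agent.H776GM

open Polynomial NumberField Finset Pool.Agent.H225R3.Marg

variable {K : Type} [Field K] [NumberField K]

/-- the quotient `f / (X - a)` -/
noncomputable def quo (f : ℤ[X]) (a : 𝓞 K) : (𝓞 K)[X] :=
  (f.map (Int.castRingHom (𝓞 K))) /ₘ (X - C a)

theorem quo_spec (f : ℤ[X]) (a : 𝓞 K) (h : (f.map (Int.castRingHom (𝓞 K))).eval a = 0) :
    (X - C a) * quo f a = f.map (Int.castRingHom (𝓞 K)) :=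
  mul_divByMonic_eq_iff_isRoot.mpr h

theorem emb_quo (f : ℤ[X]) (a : 𝓞 K) (h : (f.map (Int.castRingHom (𝓞 K))).eval a = 0)
    (w : K →+* ℂ) (x : ℂ) :
    (x - emb w a) * ((quo f a).map (emb w)).eval x = (f.map (Int.castRingHom ℂ)).eval x := by
  have h1 := congrArg (fun q => (q.map (emb w)).eval x) (quo_spec f a h)
  simp only [Polynomial.map_mul, Polynomial.map_sub, map_X, map_C, eval_mul, eval_sub, eval_X,
    eval_C, Polynomial.map_map] at h1
  rw [h1]
  congr 2
  exact RingHom.ext_int _ _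

theorem poly_frob {R : Type*} [CommRing R] (f : ℤ[X]) (p : ℕ) (hp : p.Prime) (x : R) :
    (p : R) ∣ (f.map (Int.castRingHom R)).eval (x ^ p) -
      (f.map (Int.castRingHom R)).eval x ^ p := by
  have : Fact p.Prime := ⟨hp⟩
  by_cases hu : IsUnit (p : R)
  · exact hu.dvd
  have hchar : CharP (R ⧸ Ideal.span {(p : R)}) p := CharP.quotient R p hu
  rw [← Ideal.mem_span_singleton, ← Ideal.Quotient.eq_zero_iff_mem]
  rw [map_sub, map_pow, ← eval_map_apply, ← eval_map_apply, Polynomial.map_map, map_pow, sub_eq_zero]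
  set g := f.map ((Ideal.Quotient.mk (Ideal.span {(p : R)})).comp (Int.castRingHom R)) with hg
  set z := Ideal.Quotient.mk (Ideal.span {(p : R)}) x
  have h1 : frobenius _ p (g.eval z) = g.eval (frobenius _ p z) := by
    have h2 := (eval_map_apply (frobenius (R ⧸ Ideal.span {(p : R)}) p) (p := g) (x := z))
    have h3 : g.map (frobenius (R ⧸ Ideal.span {(p : R)}) p) = g := by
      rw [hg, Polynomial.map_map]
      congr 1
      exact RingHom.ext_int _ _
    rw [h3] at h2
    exact h2.symm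
  exact h1.symm

theorem tau_frob (z : 𝓞 K) (P Q : (𝓞 K)[X]) (p : ℕ) (hp : p.Prime) (x y : 𝓞 K) :
    (p : 𝓞 K) ∣ tau z P Q (x ^ p) (y ^ p) - tau z P Q x y ^ p := by
  have : Fact p.Prime := ⟨hp⟩
  by_cases hu : IsUnit (p : 𝓞 K)
  · exact hu.dvd
  have hchar : CharP ((𝓞 K) ⧸ Ideal.span {(p : 𝓞 K)}) p := CharP.quotient _ p hu
  rw [← Ideal.mem_span_singleton, ← Ideal.Quotient.eq_zero_iff_mem]
  have h1 : ∀ z : (𝓞 K) ⧸ Ideal.span {(p : 𝓞 K)}, z ^ p = frobenius _ p z := fun z => rfl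
  rw [map_sub, map_pow, h1]
  simp only [tau, map_sum, map_mul, map_pow, map_intCast]
  rw [sub_eq_zero]
  refine Finset.sum_congr rfl fun i _ => Finset.sum_congr rfl fun j _ => ?_
  rw [← h1, ← h1]

variable (f g : ℤ[X]) (a b : 𝓞 K)

/-- the element `f'(a) g'(b)` -/
noncomputable def dlt : 𝓞 K := (quo f a).eval a * (quo g b).eval b

theorem tau_self (hf : (f.map (Int.castRingHom (𝓞 K))).eval a = 0)
    (hg : (g.map (Int.castRingHom (𝓞 K))).eval b = 0)
    (hgen : ∀ w w' : K →+* ℂ, emb w a = emb w' a → emb w b = emb w' b → w = w')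
    (w0 : K →+* ℂ) (z : 𝓞 K) (T : ℕ) (hT : 0 < T) :
    tau z (quo f a ^ T) (quo g b ^ T) a b = z * dlt f g a b ^ T := by
  apply emb_inj w0
  rw [emb_tau, Finset.sum_eq_single w0]
  · rw [map_mul, map_pow, dlt, map_mul, Polynomial.map_pow, Polynomial.map_pow, eval_pow, eval_pow,
      eval_map_apply, eval_map_apply, mul_pow, mul_assoc]
  · intro w _ hw
    have h1 := emb_quo f a hf w (emb w0 a)
    have h2 := emb_quo g b hg w (emb w0 b)
    have h3 : (f.map (Int.castRingHom ℂ)).eval (emb w0 a) = 0 := by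
      have := congrArg (emb w0) hf
      rw [map_zero, ← eval_map_apply, Polynomial.map_map] at this
      rw [← this]
      congr 2
      exact RingHom.ext_int _ _
    have h4 : (g.map (Int.castRingHom ℂ)).eval (emb w0 b) = 0 := by
      have := congrArg (emb w0) hg
      rw [map_zero, ← eval_map_apply, Polynomial.map_map] at this
      rw [← this]
      congr 2
      exact RingHom.ext_int _ _
    rw [h3] at h1
    rw [h4] at h2
    rw [Polynomial.map_pow, Polynomial.map_pow, eval_pow, eval_pow]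
    rcases mul_eq_zero.mp h1 with h5 | h5
    · rcases mul_eq_zero.mp h2 with h6 | h6
      · exact absurd (hgen w w0 (sub_eq_zero.mp h5).symm (sub_eq_zero.mp h6).symm) hw
      · rw [h6, zero_pow hT.ne', mul_zero]
    · rw [h5, zero_pow hT.ne', mul_zero, zero_mul]
  · intro h
    exact absurd (Finset.mem_univ _) h

theorem dlt_rad (hf : (f.map (Int.castRingHom (𝓞 K))).eval a = 0)
    (hg : (g.map (Int.castRingHom (𝓞 K))).eval b = 0)
    (hgen : ∀ w w' : K →+* ℂ, emb w a = emb w' a → emb w b = emb w' b → w = w')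
    (w0 : K →+* ℂ) (p : ℕ) (hp : p.Prime) (y : 𝓞 K) (m : ℕ) (h : (p : 𝓞 K) ∣ y ^ m) :
    (p : 𝓞 K) ∣ dlt f g a b * y := by
  have h1 := tau_self f g a b hf hg hgen w0 y 1 one_pos
  rw [pow_one, pow_one, pow_one, mul_comm] at h1
  rw [← h1, tau]
  refine Finset.dvd_sum fun i _ => Finset.dvd_sum fun j _ => ?_
  have h2 := trace_nil p hp (y * (quo f a).coeff i * (quo g b).coeff j) m (by
    rw [mul_pow, mul_pow, mul_assoc]
    exact h.mul_right _)
  obtain ⟨t, ht⟩ := h2
  rw [ht]
  push_cast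
  rw [mul_assoc, mul_assoc]
  exact dvd_mul_right _ _

theorem tau_dvd (hf : (f.map (Int.castRingHom (𝓞 K))).eval a = 0)
    (hg : (g.map (Int.castRingHom (𝓞 K))).eval b = 0)
    (w0 : K →+* ℂ) (p : ℕ) (hp : p.Prime) (T : ℕ) {m n : ℕ} (c : Fin m × Fin n → ℤ)
    (hjet : ∀ u < T, ∀ v < T, jet c u v a b = 0) :
    ((p ^ T : ℕ) : 𝓞 K) ∣
      tau 1 (quo f a ^ T) (quo g b ^ T) (a ^ p) (b ^ p) * ev c (a ^ p) (b ^ p) := by
  apply Dv.desc w0 _ (pow_ne_zero _ hp.ne_zero)
  rw [map_mul, emb_tau, map_ev, Finset.sum_mul]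
  set x := emb w0 (a ^ p) with hx
  set y := emb w0 (b ^ p) with hy
  have hfx : ∀ (f : ℤ[X]) (a : 𝓞 K), (f.map (Int.castRingHom (𝓞 K))).eval a = 0 →
      Dv (p : ℂ) ((f.map (Int.castRingHom ℂ)).eval (emb w0 (a ^ p))) := by
    intro f a hf
    have h1 := poly_frob f p hp a
    rw [hf, zero_pow hp.ne_zero, sub_zero] at h1
    have h2 := Dv.asc w0 p _ h1
    rw [← eval_map_apply, Polynomial.map_map] at h2
    have h3 : (emb w0).comp (Int.castRingHom (𝓞 K)) = Int.castRingHom ℂ := RingHom.ext_int _ _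
    rw [h3] at h2
    exact h2
  refine Dv.sum _ _ fun w _ => ?_
  rw [ev_taylor c x y (emb w a) (emb w b), Finset.mul_sum]
  refine Dv.sum _ _ fun u _ => ?_
  rw [Finset.mul_sum]
  refine Dv.sum _ _ fun v _ => ?_
  rw [← map_jet]
  by_cases huv : u < T ∧ v < T
  · rw [hjet u huv.1 v huv.2, map_zero, zero_mul, mul_zero]
    exact Dv.zero
  rw [map_one, one_mul, Polynomial.map_pow, Polynomial.map_pow, eval_pow, eval_pow]
  have hPint : ∀ (P : (𝓞 K)[X]) (t : 𝓞 K), IsIntegral ℤ ((P.map (emb w)).eval (emb w0 t)) := by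
    intro P t
    rw [eval_eq_sum_range]
    refine IsIntegral.sum _ fun i _ => ?_
    rw [coeff_map]
    exact (emb_int w _).mul ((emb_int w0 t).pow i)
  have hxi : IsIntegral ℤ (x - emb w a) := (emb_int w0 _).sub (emb_int w _)
  have hyi : IsIntegral ℤ (y - emb w b) := (emb_int w0 _).sub (emb_int w _)
  rw [Nat.cast_pow]
  by_cases hu : u < T
  · have hv : T ≤ v := by
      by_contra hv
      exact huv ⟨hu, not_le.mp hv⟩
    obtain ⟨v', rfl⟩ := Nat.exists_eq_add_of_le hv
    have h1 : eval x (Polynomial.map (emb w) (quo f a)) ^ T *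
        eval y (Polynomial.map (emb w) (quo g b)) ^ T *
        ((emb w) (jet c u (T + v') a b) * ((x - (emb w) a) ^ u * (y - (emb w) b) ^ (T + v'))) =
        (eval x (Polynomial.map (emb w) (quo f a)) ^ T * (emb w) (jet c u (T + v') a b) *
          (x - (emb w) a) ^ u * (y - (emb w) b) ^ v') *
          ((y - emb w b) * eval y (Polynomial.map (emb w) (quo g b))) ^ T := by
      rw [mul_pow (y - emb w b), pow_add]
      ring
    rw [h1, emb_quo g b hg w y]
    refine Dv.mul_left ?_ ((hfx g b hg).pow T)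
    exact ((((hPint _ _).pow T).mul (emb_int w _)).mul (hxi.pow u)).mul (hyi.pow v')
  · obtain ⟨u', rfl⟩ := Nat.exists_eq_add_of_le (not_lt.mp hu)
    have h1 : eval x (Polynomial.map (emb w) (quo f a)) ^ T *
        eval y (Polynomial.map (emb w) (quo g b)) ^ T *
        ((emb w) (jet c (T + u') v a b) * ((x - (emb w) a) ^ (T + u') * (y - (emb w) b) ^ v)) =
        (eval y (Polynomial.map (emb w) (quo g b)) ^ T * (emb w) (jet c (T + u') v a b) *
          (x - (emb w) a) ^ u' * (y - (emb w) b) ^ v) *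
          ((x - emb w a) * eval x (Polynomial.map (emb w) (quo f a))) ^ T := by
      rw [mul_pow (x - emb w a), pow_add]
      ring
    rw [h1, emb_quo f a hf w x]
    refine Dv.mul_left ?_ ((hfx f a hf).pow T)
    exact ((((hPint _ _).pow T).mul (emb_int w _)).mul (hxi.pow u')).mul (hyi.pow v)

/-- the main divisibility -/
theorem main_dvd (hf : (f.map (Int.castRingHom (𝓞 K))).eval a = 0)
    (hg : (g.map (Int.castRingHom (𝓞 K))).eval b = 0)
    (hgen : ∀ w w' : K →+* ℂ, emb w a = emb w' a → emb w b = emb w' b → w = w')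
    (w0 : K →+* ℂ) (p : ℕ) (hp : p.Prime) (T : ℕ) (hT : 0 < T) {m n : ℕ} (c : Fin m × Fin n → ℤ)
    (hjet : ∀ u < T, ∀ v < T, jet c u v a b = 0) :
    ((p ^ T : ℕ) : 𝓞 K) ∣ dlt f g a b ^ (2 * T) * ev c (a ^ p) (b ^ p) := by
  set δ := dlt f g a b with hδ
  set G := ev c (a ^ p) (b ^ p) with hG
  set h := tau 1 (quo f a ^ T) (quo g b ^ T) (a ^ p) (b ^ p) with hh
  have h1 : ((p ^ T : ℕ) : 𝓞 K) ∣ h * G := tau_dvd f g a b hf hg w0 p hp T c hjet
  have h2 : (p : 𝓞 K) ∣ h - (δ ^ T) ^ p := by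
    have := tau_frob 1 (quo f a ^ T) (quo g b ^ T) p hp a b
    rw [tau_self f g a b hf hg hgen w0 1 T hT, one_mul] at this
    exact this
  have hrad := dlt_rad f g a b hf hg hgen w0 p hp
  have hp0 : (p : 𝓞 K) ≠ 0 := Nat.cast_ne_zero.mpr hp.ne_zero
  have hI0 : Ideal.span {(p : 𝓞 K)} ≠ 0 := by
    rw [Ne, Ideal.zero_eq_bot, Ideal.span_singleton_eq_bot]
    exact hp0
  rw [← Ideal.mem_span_singleton, ← Ideal.span_singleton_le_iff_mem, ← Ideal.dvd_iff_le]
  rw [Nat.cast_pow, ← Ideal.span_singleton_pow]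
  by_cases hX : Ideal.span {δ ^ (2 * T) * G} = 0
  · rw [hX]
    exact dvd_zero _
  rw [UniqueFactorizationMonoid.dvd_iff_emultiplicity_le (pow_ne_zero T hI0)]
  intro P hP
  have hfin : FiniteMultiplicity P (Ideal.span {(p : 𝓞 K)}) :=
    FiniteMultiplicity.of_prime_left hP hI0
  obtain ⟨J, hJ1, hJ2⟩ := hfin.exists_eq_pow_mul_and_not_dvd
  set e := multiplicity P (Ideal.span {(p : 𝓞 K)}) with he
  by_cases he0 : e = 0
  · have h3 : ¬ P ∣ Ideal.span {(p : 𝓞 K)} := by
      rw [hJ1, he0, pow_zero, one_mul]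
      exact hJ2
    have h4 : emultiplicity P (Ideal.span {(p : 𝓞 K)} ^ T) = 0 := by
      rw [emultiplicity_eq_zero]
      exact fun h5 => h3 (hP.dvd_of_dvd_pow h5)
    rw [h4]
    exact bot_le
  have h3 : emultiplicity P (Ideal.span {(p : 𝓞 K)} ^ T) = ((e * T : ℕ) : ℕ∞) := by
    rw [emultiplicity_pow hP, hfin.emultiplicity_eq_multiplicity, ← he]
    push_cast
    ring
  rw [h3]
  apply le_emultiplicity_of_pow_dvd
  have hPdvd : P ^ e ∣ Ideal.span {(p : 𝓞 K)} := ⟨J, hJ1⟩
  have hpP : (p : 𝓞 K) ∈ P := by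
    rw [← Ideal.span_singleton_le_iff_mem, ← Ideal.dvd_iff_le]
    exact (dvd_pow_self P he0).trans hPdvd
  have hPI : P.IsPrime := Ideal.isPrime_of_prime hP
  by_cases hδP : δ ∈ P
  · -- bad prime
    have h4 : Ideal.span {(p : 𝓞 K)} ∣ Ideal.span {δ} * (P * J) := by
      rw [Ideal.dvd_iff_le, Ideal.mul_le]
      intro r hr s hs
      rw [Ideal.mem_span_singleton] at hr ⊢
      obtain ⟨r', rfl⟩ := hr
      have h5 : (p : 𝓞 K) ∣ s ^ e := by
        rw [← Ideal.mem_span_singleton, hJ1]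
        have h6 : s ^ e ∈ (P * J) ^ e := Ideal.pow_mem_pow hs e
        rw [mul_pow] at h6
        exact Ideal.mul_mono_right (Ideal.pow_le_self he0) h6
      have h7 := hrad s e h5
      rw [mul_assoc, mul_left_comm]
      exact h7.mul_left _
    have hJ0 : J ≠ 0 := by
      intro h0
      rw [h0] at hJ2
      exact hJ2 (dvd_zero _)
    have h5 : P ^ e ∣ Ideal.span {δ} * P := by
      rw [hJ1, ← mul_assoc] at h4
      exact (mul_dvd_mul_iff_right hJ0).mp h4
    have h6 : P ^ (e - 1) ∣ Ideal.span {δ} := by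
      obtain ⟨e', he'⟩ := Nat.exists_eq_succ_of_ne_zero he0
      rw [he'] at h5 ⊢
      rw [Nat.succ_eq_add_one, pow_succ] at h5
      rw [Nat.succ_eq_add_one, Nat.add_sub_cancel]
      exact (mul_dvd_mul_iff_right hP.ne_zero).mp h5
    have h7 : P ^ e ∣ Ideal.span {δ} ^ 2 := by
      by_cases he1 : e = 1
      · rw [he1, pow_one]
        have : P ∣ Ideal.span {δ} := by
          rw [Ideal.dvd_iff_le, Ideal.span_singleton_le_iff_mem]
          exact hδP
        exact this.trans (dvd_pow_self _ two_ne_zero)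
      · have h8 : e ≤ (e - 1) * 2 := by omega
        refine (pow_dvd_pow P h8).trans ?_
        rw [pow_mul]
        exact pow_dvd_pow_of_dvd h6 2
    have h8 : P ^ (e * T) ∣ Ideal.span {δ} ^ (2 * T) := by
      rw [pow_mul, pow_mul]
      exact pow_dvd_pow_of_dvd h7 T
    refine h8.trans ?_
    rw [Ideal.span_singleton_pow, ← Ideal.span_singleton_mul_span_singleton]
    exact dvd_mul_right _ _
  · -- good prime
    have h4 : h ∉ P := by
      intro h5
      have h6 : h - (δ ^ T) ^ p ∈ P := by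
        obtain ⟨t, ht⟩ := h2
        rw [ht]
        exact P.mul_mem_right _ hpP
      have h7 : (δ ^ T) ^ p ∈ P := by
        have := P.sub_mem h5 h6
        rwa [sub_sub_cancel] at this
      rw [← pow_mul] at h7
      exact hδP (hPI.mem_of_pow_mem _ h7)
    have h5 : P ^ (e * T) ∣ Ideal.span {h} * Ideal.span {G} := by
      rw [Ideal.span_singleton_mul_span_singleton, pow_mul]
      refine (pow_dvd_pow_of_dvd hPdvd T).trans ?_
      rw [Ideal.span_singleton_pow, Ideal.dvd_iff_le, Ideal.span_singleton_le_iff_mem,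
        Ideal.mem_span_singleton, ← Nat.cast_pow]
      exact h1
    have h6 : ¬ P ∣ Ideal.span {h} := by
      rw [Ideal.dvd_iff_le, Ideal.span_singleton_le_iff_mem]
      exact h4
    have h7 := hP.pow_dvd_of_dvd_mul_left _ h6 h5
    refine h7.trans ?_
    rw [← Ideal.span_singleton_mul_span_singleton]
    exact dvd_mul_left _ _

end Pool.Agent.H776GM
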