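import Pool.Agent.H776GM.Gap

/-!
# Uniform discreteness of the families with automorphisms and subfields
-/

set_option autoImplicit false

namespace Pool.Agent.H776GM

open Polynomial NumberField Finset Module Pool.Agent.H225R3.Marg

/-- an automorphism moving the set away from itself -/
theorem exists_aut {k : Type} [Field k] [NumberField k] (S : Finset (k →+* ℂ))
    (h : S.card ^ 2 < Nat.card (k ≃ₐ[ℚ] k)) :
    ∃ τ : k →+* k, ∀ w : k →+* ℂ, ¬ (w.comp (RingHom.id k) ∈ S ∧ w.comp τ ∈ S) := by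
  classical
  by_contra hcon
  push Not at hcon
  have h1 : ∀ τ : k ≃ₐ[ℚ] k, ∃ w : k →+* ℂ, w ∈ S ∧
      w.comp (τ.toRingEquiv.toRingHom) ∈ S := by
    intro τ
    obtain ⟨w, hw1, hw2⟩ := hcon (τ.toRingEquiv.toRingHom)
    exact ⟨w, by rwa [RingHom.comp_id] at hw1, hw2⟩
  choose f hf1 hf2 using h1
  have h2 : Nat.card (k ≃ₐ[ℚ] k) ≤ Nat.card (S × S) := by
    refine Nat.card_le_card_of_injective
      (fun τ => (⟨f τ, hf1 τ⟩, ⟨(f τ).comp (τ.toRingEquiv.toRingHom), hf2 τ⟩)) ?_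
    intro τ τ' hτ
    simp only [Prod.mk.injEq, Subtype.mk.injEq] at hτ
    obtain ⟨e1, e2⟩ := hτ
    ext x
    apply (f τ').injective
    have := RingHom.congr_fun e2 x
    rw [e1] at this
    exact this
  have h3 : Nat.card S = S.card := by rw [Nat.card_eq_fintype_card, Fintype.card_coe]
  rw [Nat.card_prod, h3, ← sq] at h2
  omega

/-- the automorphisms over a subfield -/
theorem card_aut_sub {k : Type} [Field k] [NumberField k] (k₀ : Subfield k)
    (hgal : IsGalois k₀ k) : finrank ℚ k ≤ finrank ℚ k₀ * Nat.card (k ≃ₐ[ℚ] k) := by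
  haveI : FiniteDimensional k₀ k := FiniteDimensional.right ℚ k₀ k
  have h1 : Nat.card (k ≃ₐ[k₀] k) = finrank k₀ k := IsGalois.card_aut_eq_finrank k₀ k
  have h2 : Nat.card (k ≃ₐ[k₀] k) ≤ Nat.card (k ≃ₐ[ℚ] k) := by
    refine Nat.card_le_card_of_injective (AlgEquiv.restrictScalars ℚ) ?_
    exact AlgEquiv.restrictScalars_injective ℚ
  rw [← Module.finrank_mul_finrank ℚ k₀ k, ← h1]
  exact Nat.mul_le_mul_left _ h2

theorem uniform_aut (C n : ℕ) {G : Type*} [Group G] [TopologicalSpace G] {M : ℕ}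
    (ρ : G →* Matrix (Fin M) (Fin M) ℂ) (hρ : Continuous ρ) :
    UniformlyDiscrete (AutomorphismsFamily C n ρ) := by
  obtain ⟨ε, hε, h⟩ := gap C n
  obtain ⟨ε', hε', h'⟩ := gap_small n (C * (C ^ 2) ^ 2)
  refine ⟨_, nhd ρ hρ (min ε ε') (lt_min hε hε'), ?_⟩
  rintro Γ ⟨htf, k, _, _, S, R, hk, hsize⟩ g u hu hΓ
  refine final_step' R htf (min ε ε') (lt_min hε hε') g u hu hΓ fun hnil => ?_
  have hunit : IsUnit (R.r ⟨g * u * g⁻¹, hΓ⟩) :=
    (Group.isUnit (⟨g * u * g⁻¹, hΓ⟩ : Γ)).map R.r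
  have hSpos : 0 < S.card := Finset.card_pos.mpr R.nonempty
  by_cases hcard : S.card ^ 2 < Nat.card (k ≃ₐ[ℚ] k)
  · obtain ⟨τ, hτ⟩ := exists_aut S hcard
    have hsize' : (S.card * finrank ℚ k) ^ 400 ≤ C * finrank ℚ k ^ 401 := by
      calc (S.card * finrank ℚ k) ^ 400 = S.card ^ 400 * finrank ℚ k ^ 400 := mul_pow _ _ _
        _ ≤ (C * finrank ℚ k) * finrank ℚ k ^ 400 := Nat.mul_le_mul_right _ hsize
        _ = C * finrank ℚ k ^ 401 := by rw [mul_assoc, ← pow_succ']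
    obtain ⟨σ, hσ, l, hl, hl2⟩ := h k k S _ (RingHom.id k) τ R.nonempty hsize' hunit
      (fun σ hσ l hl => out_one R _ σ hσ l hl) hnil hτ
    exact ⟨σ, hσ, l, hl, (min_le_left _ _).trans hl2⟩
  · obtain ⟨k₀, hk₀, hgal⟩ := hk.resolve_right hcard
    have h1 := card_aut_sub k₀ hgal
    push Not at hcard
    have h6 : finrank ℚ k ≤ C * S.card ^ 2 := h1.trans (Nat.mul_le_mul hk₀ hcard)
    have h2 : S.card ≤ C ^ 2 := by
      have h3 : S.card ^ 398 * S.card ^ 2 ≤ C ^ 2 * S.card ^ 2 := by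
        calc S.card ^ 398 * S.card ^ 2 = S.card ^ 400 := by rw [← pow_add]
          _ ≤ C * finrank ℚ k := hsize
          _ ≤ C * (C * S.card ^ 2) := Nat.mul_le_mul_left _ h6
          _ = C ^ 2 * S.card ^ 2 := by rw [← mul_assoc, ← sq]
      have h4 := Nat.le_of_mul_le_mul_right h3 (Nat.pow_pos hSpos)
      exact (Nat.le_self_pow (by norm_num) _).trans h4
    have h5 : finrank ℚ k ≤ C * (C ^ 2) ^ 2 :=
      h6.trans (Nat.mul_le_mul_left _ (Nat.pow_le_pow_left h2 2))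
    obtain ⟨σ, hσ, l, hl, hl2⟩ := h' k S _ R.nonempty h5 hunit
      (fun σ hσ l hl => (out_one R _ σ hσ l hl).le)
      (by
        have := hnil 1 one_pos
        rwa [pow_one] at this)
    exact ⟨σ, hσ, l, hl, (min_le_right _ _).trans hl2⟩

/-- the degree of a number field does not depend on the presentation -/
theorem finrank_tower' {k₀ K : Type} [Field k₀] [Field K] [NumberField k₀] [NumberField K]
    (j : k₀ →+* K) (r : ℕ) (a : Algebra k₀ K) (ha : a.algebraMap = j)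
    (hr : @finrank k₀ K _ _ a.toModule ≤ r) : finrank ℚ K ≤ finrank ℚ k₀ * r := by
  rw [← Module.finrank_mul_finrank ℚ k₀ K]
  exact Nat.mul_le_mul_left _ hr

theorem exists_pair' {k₀ k : Type} [Field k₀] [Field k] [NumberField k₀] [NumberField k]
    [Algebra k₀ k] (hr1 : 1 < finrank k₀ k) :
    ∃ (K : Type) (_ : Field K) (_ : NumberField K) (i i' : k →+* K),
      i.comp (algebraMap k₀ k) = i'.comp (algebraMap k₀ k) ∧ i ≠ i' ∧
      finrank ℚ K ≤ finrank k₀ k * finrank ℚ k := by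
  classical
  haveI : FiniteDimensional k₀ k := FiniteDimensional.right ℚ k₀ k
  obtain ⟨Ω, _, _, _⟩ : ∃ (Ω : Type) (_ : Field Ω) (_ : IsAlgClosed Ω), Nonempty (Algebra k Ω) :=
    ⟨AlgebraicClosure k, inferInstance, inferInstance, ⟨inferInstance⟩⟩
  letI : Algebra k Ω := Classical.choice ‹_›
  letI : Algebra k₀ Ω := ((algebraMap k Ω).comp (algebraMap k₀ k)).toAlgebra
  haveI : IsScalarTower k₀ k Ω := IsScalarTower.of_algebraMap_eq' rfl
  haveI : CharZero Ω := charZero_of_injective_algebraMap (algebraMap k Ω).injective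
  obtain ⟨r, hr⟩ : ∃ r, finrank k₀ k = r := ⟨_, rfl⟩
  rw [hr] at hr1 ⊢
  have hcard : Fintype.card (k →ₐ[k₀] Ω) = r := (AlgHom.card k₀ k Ω).trans hr
  set φ0 : k →ₐ[k₀] Ω := IsScalarTower.toAlgHom k₀ k Ω with hφ0
  obtain ⟨φ, hφ⟩ : ∃ φ : k →ₐ[k₀] Ω, φ ≠ φ0 :=
    Fintype.exists_ne_of_one_lt_card (by rw [hcard]; exact hr1) φ0
  set E1 := φ0.fieldRange with hE1
  set E2 := φ.fieldRange with hE2
  have hf1 : finrank k₀ E1 = r :=
    ((AlgEquiv.ofInjectiveField φ0).toLinearEquiv.finrank_eq).symm.trans hr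
  have hf2 : finrank k₀ E2 = r :=
    ((AlgEquiv.ofInjectiveField φ).toLinearEquiv.finrank_eq).symm.trans hr
  haveI : FiniteDimensional k₀ E1 := FiniteDimensional.of_finrank_pos (by omega)
  haveI : FiniteDimensional k₀ E2 := FiniteDimensional.of_finrank_pos (by omega)
  have hsup : finrank k₀ ↥(E1 ⊔ E2) ≤ r * r := by
    have := IntermediateField.finrank_sup_le E1 E2
    rwa [hf1, hf2] at this
  haveI : FiniteDimensional k₀ ↥(E1 ⊔ E2) := IntermediateField.finiteDimensional_sup E1 E2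
  haveI : CharZero ↥(E1 ⊔ E2) :=
    charZero_of_injective_algebraMap (algebraMap k₀ ↥(E1 ⊔ E2)).injective
  haveI : NumberField ↥(E1 ⊔ E2) := NumberField.of_module_finite k₀ _
  let i : k →+* ↥(E1 ⊔ E2) := φ0.toRingHom.codRestrict (E1 ⊔ E2).toSubfield
    (fun x => (le_sup_left : E1 ≤ E1 ⊔ E2) ⟨x, rfl⟩)
  let i' : k →+* ↥(E1 ⊔ E2) := φ.toRingHom.codRestrict (E1 ⊔ E2).toSubfield
    (fun x => (le_sup_right : E2 ≤ E1 ⊔ E2) ⟨x, rfl⟩)
  refine ⟨↥(E1 ⊔ E2), inferInstance, inferInstance, i, i', ?_, ?_, ?_⟩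
  · ext x
    have h1 : φ0 (algebraMap k₀ k x) = φ (algebraMap k₀ k x) :=
      (φ0.commutes x).trans (φ.commutes x).symm
    exact h1
  · intro h
    apply hφ
    ext x
    have := congrArg Subtype.val (RingHom.congr_fun h x)
    exact this.symm
  · have h1 := finrank_tower' (algebraMap k₀ ↥(E1 ⊔ E2)) (r * r) inferInstance rfl hsup
    have h2 : finrank ℚ k₀ * r = finrank ℚ k := by
      rw [← hr]
      exact Module.finrank_mul_finrank ℚ k₀ k
    calc finrank ℚ ↥(E1 ⊔ E2) ≤ finrank ℚ k₀ * (r * r) := h1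
      _ = r * (finrank ℚ k₀ * r) := by ring
      _ = r * finrank ℚ k := by rw [h2]

theorem exists_pair {k : Type} [Field k] [NumberField k] (k₀ : Subfield k) (hk : k₀ ≠ ⊤) :
    ∃ (K : Type) (_ : Field K) (_ : NumberField K) (i i' : k →+* K),
      i.comp k₀.subtype = i'.comp k₀.subtype ∧ i ≠ i' ∧
      finrank ℚ K ≤ finrank k₀ k * finrank ℚ k := by
  haveI : NumberField k₀ := by
    haveI : FiniteDimensional ℚ k₀ := FiniteDimensional.left ℚ k₀ k
    exact { to_charZero := inferInstance, to_finiteDimensional := inferInstance }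
  haveI : FiniteDimensional k₀ k := FiniteDimensional.right ℚ k₀ k
  refine exists_pair' (k₀ := k₀) (k := k) ?_
  have h0 : 0 < finrank k₀ k := Module.finrank_pos
  have h1 : finrank k₀ k ≠ 1 := by
    intro h1
    rw [← Subalgebra.bot_eq_top_iff_finrank_eq_one] at h1
    apply hk
    rw [eq_top_iff]
    intro x _
    have h2 : x ∈ (⊤ : Subalgebra k₀ k) := Algebra.mem_top
    rw [← h1, Algebra.mem_bot] at h2
    obtain ⟨y, hy⟩ := h2
    rw [← hy]
    exact y.2
  omega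

theorem uniform_sub (C n : ℕ) {G : Type*} [Group G] [TopologicalSpace G] {M : ℕ}
    (ρ : G →* Matrix (Fin M) (Fin M) ℂ) (hρ : Continuous ρ) :
    UniformlyDiscrete (SubfieldFamily C n ρ) := by
  obtain ⟨U, hU, h⟩ := uniform_two C n ρ hρ
  refine ⟨U, hU, fun Γ hΓ => h Γ ?_⟩
  obtain ⟨htf, k, _, _, S, R, k₀, hk₀, hinj, hsize⟩ := hΓ
  obtain ⟨K, _, _, i, i', h1, h2, h3⟩ := exists_pair k₀ hk₀
  refine ⟨htf, k, inferInstance, inferInstance, S, R, K, inferInstance, inferInstance, i, i',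
    ?_, ?_⟩
  · rintro w ⟨hw1, hw2⟩
    apply h2
    have h4 : w.comp i = w.comp i' := by
      refine hinj _ hw1 _ hw2 ?_
      rw [RingHom.comp_assoc, RingHom.comp_assoc, h1]
    ext x
    apply w.injective
    exact RingHom.congr_fun h4 x
  · calc (S.card * finrank ℚ K) ^ 400 ≤ (S.card * (finrank k₀ k * finrank ℚ k)) ^ 400 :=
          Nat.pow_le_pow_left (Nat.mul_le_mul_left _ h3) 400
      _ = (S.card * finrank k₀ k) ^ 400 * finrank ℚ k ^ 400 := by rw [← mul_assoc, mul_pow]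
      _ ≤ (C * finrank ℚ k) * finrank ℚ k ^ 400 := Nat.mul_le_mul_right _ hsize
      _ = C * finrank ℚ k ^ 401 := by rw [mul_assoc, ← pow_succ']

end Pool.Agent.H776GM
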