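import Pool.Agent.H225R3.MargDefs

/-!
# Families of arithmetic groups whose noncompact embeddings can be separated
-/

set_option autoImplicit false

namespace Pool.Agent.H776GM

open NumberField Pool.Agent.H225R3.Marg

/-- The torsion-free subgroups `Γ` with a realization of size `n` over a number field `k` of degree
`d`, with set `S` of noncompact embeddings, such that for each nonempty subset `T` of `S` there are
a number field `K`, two embeddings `i₁`, `i₂` of `k` in `K` and a complex embedding `w` of `K` which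
restricts along `i₁` to an element of `T` and along `i₂` to an embedding not in `T`, and
`(|T| * [K : ℚ]) ^ 400 ≤ C * d ^ 401`. -/
def SeparatedFamily (C n d : ℕ) {G : Type*} [Group G] {M : ℕ}
    (ρ : G →* Matrix (Fin M) (Fin M) ℂ) : Set (Subgroup G) :=
  {Γ | (∀ γ ∈ Γ, ∀ N : ℕ, 0 < N → γ ^ N = 1 → γ = 1) ∧
    ∃ (k : Type) (_ : Field k) (_ : NumberField k) (S : Finset (k →+* ℂ))
    (_ : Realization ρ Γ k n S), Module.finrank ℚ k = d ∧ ∀ T ⊆ S, T.Nonempty →
      ∃ (K : Type) (_ : Field K) (_ : NumberField K) (i₁ i₂ : k →+* K) (w : K →+* ℂ),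
        w.comp i₁ ∈ T ∧ w.comp i₂ ∉ T ∧
        (T.card * Module.finrank ℚ K) ^ 400 ≤ C * d ^ 401}

/-- The torsion-free subgroups `Γ` with a realization of size `n` over a number field `k` of degree
`d`, with set `S` of noncompact embeddings, which has more than `|S|` automorphisms, or at least
`(d / C) ^ (1 / 399)` automorphisms, with `|S| ^ 400 ≤ C * d`. -/
def ManyAutomorphismsFamily (C n d : ℕ) {G : Type*} [Group G] {M : ℕ}
    (ρ : G →* Matrix (Fin M) (Fin M) ℂ) : Set (Subgroup G) :=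
  {Γ | (∀ γ ∈ Γ, ∀ N : ℕ, 0 < N → γ ^ N = 1 → γ = 1) ∧
    ∃ (k : Type) (_ : Field k) (_ : NumberField k) (S : Finset (k →+* ℂ))
    (_ : Realization ρ Γ k n S), Module.finrank ℚ k = d ∧
    (S.card < Nat.card (k ≃ₐ[ℚ] k) ∨ d ≤ C * Nat.card (k ≃ₐ[ℚ] k) ^ 399) ∧
    S.card ^ 400 ≤ C * d}

/-- The torsion-free subgroups `Γ` with a realization of size `n` over a number field `k` of degree
`d`, with set `S` of noncompact embeddings, which has a subfield `k₀` such that `S` contains for no
complex embedding of `k₀` all its extensions to `k`, and `(|S| * [k : k₀]) ^ 400 ≤ C * d`. -/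
def NoFullFibreFamily (C n d : ℕ) {G : Type*} [Group G] {M : ℕ}
    (ρ : G →* Matrix (Fin M) (Fin M) ℂ) : Set (Subgroup G) :=
  {Γ | (∀ γ ∈ Γ, ∀ N : ℕ, 0 < N → γ ^ N = 1 → γ = 1) ∧
    ∃ (k : Type) (_ : Field k) (_ : NumberField k) (S : Finset (k →+* ℂ))
    (_ : Realization ρ Γ k n S) (k₀ : Subfield k), Module.finrank ℚ k = d ∧
    (∀ σ ∈ S, ∃ τ : k →+* ℂ, τ ∉ S ∧ τ.comp k₀.subtype = σ.comp k₀.subtype) ∧
    (S.card * Module.finrank k₀ k) ^ 400 ≤ C * d}

end Pool.Agent.H776GM
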