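import Pool.Agent.H776GM.Three
import Pool.Agent.H776GM.ShortDefs

/-!
# Short elements of arithmetic groups
-/

set_option autoImplicit false

namespace Pool.Agent.H776GM

open Polynomial NumberField Finset Module Pool.Agent.H225R3.Marg

/-- eigenvalues of any two short elements are multiplicatively dependent -/
theorem short_dep (C n : ℕ) {G : Type*} [Group G] [TopologicalSpace G] {M : ℕ}
    (ρ : G →* Matrix (Fin M) (Fin M) ℂ) (hρ : Continuous ρ) :
    ∃ U ∈ nhds (1 : G), ∀ (Γ : Subgroup G) (k L : Type) [Field k] [NumberField k] [Field L]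
      [NumberField L] [Algebra k L] (S : Finset (k →+* ℂ)) (R : Realization ρ Γ k n S),
      S.card ^ 400 ≤ C * finrank ℚ k → ∀ γ δ : Γ,
      (∃ g : G, ∃ u ∈ U, (γ : G) = g * u * g⁻¹) → (∃ g : G, ∃ u ∈ U, (δ : G) = g * u * g⁻¹) →
      ∀ α β : L, ((R.r γ).charpoly.map ((algebraMap k L).comp (algebraMap (𝓞 k) k))).IsRoot α →
      ((R.r δ).charpoly.map ((algebraMap k L).comp (algebraMap (𝓞 k) k))).IsRoot β →
      ∃ u v : ℤ, (u, v) ≠ (0, 0) ∧ α ^ u * β ^ v = 1 := by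
  obtain ⟨D0, hD0⟩ := dep_core
  obtain ⟨d1, hd1⟩ : ∃ d1, d1 = D0 ^ 400 * C + C ^ 301 * ((n * n) ^ 300) ^ 400 := ⟨_, rfl⟩
  obtain ⟨ε, hε, h⟩ := gap_small n d1
  have hε1 : 0 < min ε 1 := lt_min hε one_pos
  refine ⟨_, nhd ρ hρ (min ε 1) hε1, ?_⟩
  intro Γ k L _ _ _ _ _ S R hsize γ δ hγ hδ α β hα hβ
  obtain ⟨g, u, hu, hgu⟩ := hγ
  obtain ⟨g', u', hu', hgu'⟩ := hδ
  have hΓ : g * u * g⁻¹ ∈ Γ := hgu ▸ γ.2
  have hΓ' : g' * u' * g'⁻¹ ∈ Γ := hgu' ▸ δ.2
  have hγ' : γ = ⟨g * u * g⁻¹, hΓ⟩ := Subtype.ext hgu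
  have hδ' : δ = ⟨g' * u' * g'⁻¹, hΓ'⟩ := Subtype.ext hgu'
  have hunit : ∀ γ : Γ, IsUnit (R.r γ) := fun γ => (Group.isUnit γ).map R.r
  by_cases hd : finrank ℚ k ≤ d1
  · have h1 : g * u * g⁻¹ = 1 := by
      refine final_step R (min ε 1) hε1 g u hu hΓ fun hnil => ?_
      obtain ⟨σ, hσ, l, hl, hl2⟩ := h k S _ R.nonempty hd (hunit _)
        (fun σ hσ l hl => (out_one R _ σ hσ l hl).le) hnil
      exact ⟨σ, hσ, l, hl, (min_le_left _ _).trans hl2⟩
    have h2 : γ = 1 := by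
      rw [hγ']
      exact Subtype.ext h1
    rw [h2, map_one, Matrix.charpoly_one, Polynomial.map_pow, Polynomial.map_sub, Polynomial.map_X,
      Polynomial.map_one] at hα
    have h3 : α = 1 := by
      rw [IsRoot, eval_pow, eval_sub, eval_X, eval_one] at hα
      rcases Nat.eq_zero_or_pos (Fintype.card (Fin n)) with h0 | h0
      · rw [h0, pow_zero] at hα
        exact absurd hα one_ne_zero
      · exact sub_eq_zero.mp ((pow_eq_zero_iff h0.ne').mp hα)
    exact ⟨1, 0, by simp, by rw [h3]; simp⟩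
  · push Not at hd
    have hdpos : 0 < finrank ℚ k := Module.finrank_pos
    have hsize' : (S.card * (1 * finrank ℚ k)) ^ 400 ≤ C * finrank ℚ k ^ 401 := by
      rw [one_mul]
      calc (S.card * finrank ℚ k) ^ 400 = S.card ^ 400 * finrank ℚ k ^ 400 := mul_pow _ _ _
        _ ≤ (C * finrank ℚ k) * finrank ℚ k ^ 400 := Nat.mul_le_mul_right _ hsize
        _ = C * finrank ℚ k ^ 401 := by rw [mul_assoc, ← pow_succ']
    obtain ⟨e1, e2⟩ := sizes D0 C n S.card 1 (finrank ℚ k) hdpos one_pos hsize'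
      ((Nat.le_add_right _ _).trans (hd1 ▸ hd.le)) ((Nat.le_add_left _ _).trans (hd1 ▸ hd.le))
    rw [mul_one] at e2
    have hin : ∀ (g u : G) (_ : ∀ i j, ‖(ρ u - 1) i j‖ < min ε 1 / (M + 1))
        (hΓ : g * u * g⁻¹ ∈ Γ), ∀ σ ∈ S, ∀ l : ℂ,
        ((emb σ).mapMatrix (R.r ⟨g * u * g⁻¹, hΓ⟩)).charpoly.IsRoot l → ‖l‖ ≤ Real.exp 1 := by
      intro g u hu hΓ σ hσ l hl
      have h1 := (close_root R (min ε 1) hε1 g u hu hΓ σ hσ l hl).trans_le (min_le_right _ _)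
      have h2 : ‖l‖ ≤ ‖l - 1‖ + ‖(1 : ℂ)‖ := by
        have := norm_add_le (l - 1) 1
        rwa [sub_add_cancel] at this
      rw [norm_one] at h2
      have := Real.exp_one_gt_d9
      linarith
    refine hD0 k L n (R.r γ) (R.r δ) S (hunit _) (hunit _)
      (fun σ hσ l hl => out_one R _ σ hσ l hl) (fun σ hσ l hl => out_one R _ σ hσ l hl)
      ?_ ?_ e1 e2 α β hα hβ
    · rw [hγ']
      exact hin g u hu hΓ
    · rw [hδ']
      exact hin g' u' hu' hΓ'

/-- complex eigenvalues come from a number field -/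
theorem eig_lift {k : Type} [Field k] [NumberField k] {n : ℕ}
    (A B : Matrix (Fin n) (Fin n) (𝓞 k)) (σ : k →+* ℂ) (l m : ℂ)
    (hl : ((emb σ).mapMatrix A).charpoly.IsRoot l)
    (hm : ((emb σ).mapMatrix B).charpoly.IsRoot m) :
    ∃ (L : Type) (_ : Field L) (_ : NumberField L) (_ : Algebra k L) (w : L →+* ℂ) (α β : L),
      (A.charpoly.map ((algebraMap k L).comp (algebraMap (𝓞 k) k))).IsRoot α ∧
      (B.charpoly.map ((algebraMap k L).comp (algebraMap (𝓞 k) k))).IsRoot β ∧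
      w α = l ∧ w β = m := by
  set P : k[X] := A.charpoly.map (algebraMap (𝓞 k) k) * B.charpoly.map (algebraMap (𝓞 k) k)
    with hP
  have hP0 : P ≠ 0 := ((A.charpoly_monic.map _).mul (B.charpoly_monic.map _)).ne_zero
  obtain ⟨L, _, _, _, hsplit⟩ : ∃ (L : Type) (_ : Field L) (_ : NumberField L)
      (_ : Algebra k L), (P.map (algebraMap k L)).Splits := by
    haveI : CharZero P.SplittingField :=
      charZero_of_injective_algebraMap (algebraMap k P.SplittingField).injective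
    exact ⟨P.SplittingField, inferInstance, NumberField.of_module_finite k _, inferInstance,
      SplittingField.splits P⟩
  haveI : FiniteDimensional k L := FiniteDimensional.right ℚ k L
  obtain ⟨w, hw⟩ := extend_emb (algebraMap k L) (fun x => by
    have : IsIntegral k x := Algebra.IsIntegral.isIntegral x
    exact this) σ
  have hmap : (P.map (algebraMap k L)) =
      A.charpoly.map ((algebraMap k L).comp (algebraMap (𝓞 k) k)) *
      B.charpoly.map ((algebraMap k L).comp (algebraMap (𝓞 k) k)) := by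
    rw [hP, Polynomial.map_mul, Polynomial.map_map, Polynomial.map_map]
  have hPL0 : (P.map (algebraMap k L)) ≠ 0 := (Polynomial.map_ne_zero_iff
    (algebraMap k L).injective).mpr hP0
  rw [hmap] at hsplit hPL0
  have hsA : (A.charpoly.map ((algebraMap k L).comp (algebraMap (𝓞 k) k))).Splits :=
    hsplit.of_dvd hPL0 (dvd_mul_right _ _)
  have hsB : (B.charpoly.map ((algebraMap k L).comp (algebraMap (𝓞 k) k))).Splits :=
    hsplit.of_dvd hPL0 (dvd_mul_left _ _)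
  have key : ∀ (A : Matrix (Fin n) (Fin n) (𝓞 k)) (l : ℂ),
      (A.charpoly.map ((algebraMap k L).comp (algebraMap (𝓞 k) k))).Splits →
      ((emb σ).mapMatrix A).charpoly.IsRoot l → ∃ α : L,
      (A.charpoly.map ((algebraMap k L).comp (algebraMap (𝓞 k) k))).IsRoot α ∧ w α = l := by
    intro A l hs hl
    have hm : (A.charpoly.map ((algebraMap k L).comp (algebraMap (𝓞 k) k))).Monic :=
      A.charpoly_monic.map _
    have h1 : ((emb σ).mapMatrix A).charpoly =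
        (A.charpoly.map ((algebraMap k L).comp (algebraMap (𝓞 k) k))).map w := by
      rw [Polynomial.map_map, ← RingHom.comp_assoc, hw, ← Matrix.charpoly_map]; rfl
    rw [h1] at hl
    have h3 : l ∈ ((A.charpoly.map ((algebraMap k L).comp
        (algebraMap (𝓞 k) k))).map w).roots := by
      rw [mem_roots (hm.map w).ne_zero]
      exact hl
    rw [hs.roots_map, Multiset.mem_map] at h3
    obtain ⟨α, h4, h5⟩ := h3
    exact ⟨α, (mem_roots hm.ne_zero).mp h4, h5⟩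
  obtain ⟨α, h1, h2⟩ := key A l hsA hl
  obtain ⟨β, h3, h4⟩ := key B m hsB hm
  exact ⟨L, inferInstance, inferInstance, inferInstance, w, α, β, h1, h3, h2, h4⟩

/-- complex form -/
theorem short_complex (C n : ℕ) {G : Type*} [Group G] [TopologicalSpace G] {M : ℕ}
    (ρ : G →* Matrix (Fin M) (Fin M) ℂ) (hρ : Continuous ρ) :
    ∃ U ∈ nhds (1 : G), ∀ (Γ : Subgroup G) (k : Type) [Field k] [NumberField k]
      (S : Finset (k →+* ℂ)) (R : Realization ρ Γ k n S),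
      S.card ^ 400 ≤ C * finrank ℚ k → ∀ γ δ : Γ,
      (∃ g : G, ∃ u ∈ U, (γ : G) = g * u * g⁻¹) → (∃ g : G, ∃ u ∈ U, (δ : G) = g * u * g⁻¹) →
      ∀ (σ : k →+* ℂ) (l m : ℂ), IsEig (conjMat σ (R.r γ)) l → IsEig (conjMat σ (R.r δ)) m →
      ∃ a b : ℤ, (a, b) ≠ (0, 0) ∧ l ^ a * m ^ b = 1 := by
  obtain ⟨U, hU, h⟩ := short_dep C n ρ hρ
  refine ⟨U, hU, ?_⟩
  intro Γ k _ _ S R hsize γ δ hγ hδ σ l m hl hm
  obtain ⟨L, _, _, _, w, α, β, h1, h2, h3, h4⟩ := eig_lift (R.r γ) (R.r δ) σ l m hl hm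
  obtain ⟨u, v, huv, hdep⟩ := h Γ k L S R hsize γ δ hγ hδ α β h1 h2
  refine ⟨u, v, huv, ?_⟩
  rw [← h3, ← h4, ← map_zpow₀, ← map_zpow₀, ← map_mul, hdep, map_one]

theorem uniform_ind (C n : ℕ) {G : Type*} [Group G] [TopologicalSpace G] {M : ℕ}
    (ρ : G →* Matrix (Fin M) (Fin M) ℂ) (hρ : Continuous ρ) :
    UniformlyDiscrete (IndependentFamily C n ρ) := by
  obtain ⟨U, hU, h⟩ := short_complex C n ρ hρ
  refine ⟨U, hU, ?_⟩
  rintro Γ ⟨htf, k, _, _, S, R, hsize, hind⟩ g u hu hΓ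
  by_contra hne
  obtain ⟨σ, l, m, hl, hm, hlm⟩ := hind ⟨g * u * g⁻¹, hΓ⟩ (fun h => hne (congrArg Subtype.val h))
  obtain ⟨a, b, hab, hdep⟩ := h Γ k S R hsize ⟨g * u * g⁻¹, hΓ⟩ ⟨g * u * g⁻¹, hΓ⟩
    ⟨g, u, hu, rfl⟩ ⟨g, u, hu, rfl⟩ σ l m hl hm
  exact hlm a b hab hdep

/-- from a number field to complex eigenvalues -/
theorem ind_of_field {k : Type} [Field k] [NumberField k] {n : ℕ}
    (A : Matrix (Fin n) (Fin n) (𝓞 k))
    (h : ∃ (L : Type) (_ : Field L) (_ : NumberField L) (_ : Algebra k L) (α β : L),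
      (A.charpoly.map ((algebraMap k L).comp (algebraMap (𝓞 k) k))).IsRoot α ∧
      (A.charpoly.map ((algebraMap k L).comp (algebraMap (𝓞 k) k))).IsRoot β ∧
      ∀ u v : ℤ, (u, v) ≠ (0, 0) → α ^ u * β ^ v ≠ 1) :
    ∃ (σ : k →+* ℂ) (l m : ℂ), IsEig (conjMat σ A) l ∧ IsEig (conjMat σ A) m ∧
      ∀ a b : ℤ, (a, b) ≠ (0, 0) → l ^ a * m ^ b ≠ 1 := by
  obtain ⟨L, _, _, _, α, β, h1, h2, h3⟩ := h
  obtain ⟨w⟩ : Nonempty (L →+* ℂ) := inferInstance
  refine ⟨w.comp (algebraMap k L), w α, w β, spec_root A (algebraMap k L) w α h1,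
    spec_root A (algebraMap k L) w β h2, ?_⟩
  intro a b hab h4
  apply h3 a b hab
  apply w.injective
  rw [map_mul, map_zpow₀, map_zpow₀, h4, map_one]

theorem nil_pow {G : Type*} [Group G] {M : ℕ} {ρ : G →* Matrix (Fin M) (Fin M) ℂ}
    {Γ : Subgroup G} {k : Type} [Field k] [NumberField k] {n : ℕ} {S : Finset (k →+* ℂ)}
    (R : Realization ρ Γ k n S) (htf : ∀ γ ∈ Γ, ∀ N : ℕ, 0 < N → γ ^ N = 1 → γ = 1)
    (γ : Γ) (hγ : γ ≠ 1) (N : ℕ) (hN : 0 < N) : ¬ IsNilpotent (R.r γ ^ N - 1) := by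
  intro h
  rw [← map_pow] at h
  have h1 := R.unipotent _ h
  have h2 : (γ : G) ^ N = 1 := congrArg Subtype.val h1
  exact hγ (Subtype.ext (htf _ γ.2 N hN h2))

theorem odd_sub (C n : ℕ) {G : Type*} [Group G] {M : ℕ}
    (ρ : G →* Matrix (Fin M) (Fin M) ℂ) :
    OddDivisionFamily C n ρ ⊆ IndependentFamily C n ρ := by
  rintro Γ ⟨htf, k, _, _, S, R, hsize, D, _, _, N, b, f, hN, hf⟩
  refine ⟨htf, k, inferInstance, inferInstance, S, R, hsize, fun γ hγ => ?_⟩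
  obtain ⟨h1, h2⟩ := hf γ
  have hunit : IsUnit (R.r γ) := (Group.isUnit γ).map R.r
  haveI : Module.Finite k D := Module.Finite.of_basis b
  have hint : IsIntegral k (f γ) := Algebra.IsIntegral.isIntegral _
  refine ind_of_field _ (odd_core hN (R.r γ) hunit _ h2 (n - N) h1 (minpoly k (f γ))
    (minpoly.irreducible hint) ?_ (nil_pow R htf γ hγ))
  rw [aeval_algHom_apply, minpoly.aeval, map_zero]

end Pool.Agent.H776GM
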