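import Pool.Agent.H776GM.Grow
import Pool.Agent.H776GM.Fam
import Pool.Agent.H776GM.Short
import Pool.Agent.H776GM.GMDefs2

/-!
# Uniform discreteness of the families with separated embeddings
-/

set_option autoImplicit false

namespace Pool.Agent.H776GM

open Polynomial NumberField Finset Module Pool.Agent.H225R3.Marg

theorem uniform_sep (C n : ℕ) {G : Type*} [Group G] [TopologicalSpace G] {M : ℕ}
    (ρ : G →* Matrix (Fin M) (Fin M) ℂ) (hρ : Continuous ρ) :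
    UniformlyDiscrete (⋃ d, SeparatedFamily C n d ρ) := by
  obtain ⟨ε, hε, h⟩ := gap2 C n
  refine ⟨_, nhd ρ hρ ε hε, ?_⟩
  intro Γ hmem g u hu hΓ
  rw [Set.mem_iUnion] at hmem
  obtain ⟨d, htf, k, _, _, S, R, hkd, hsep⟩ := hmem
  subst hkd
  refine final_step' R htf ε hε g u hu hΓ fun hnil => ?_
  have hunit : IsUnit (R.r ⟨g * u * g⁻¹, hΓ⟩) :=
    (Group.isUnit (⟨g * u * g⁻¹, hΓ⟩ : Γ)).map R.r
  exact h k S _ R.nonempty hunit (fun σ hσ l hl => out_one R _ σ hσ l hl) hnil hsep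

/-- the eigenvalues grow with the degree -/
def Grows {G : Type*} [Group G] {M : ℕ} (ρ : G →* Matrix (Fin M) (Fin M) ℂ) (e : ℕ)
    (F : ℕ → Set (Subgroup G)) : Prop :=
  ∃ c : ℝ, ∀ d : ℕ, ∀ Γ ∈ F d, ∀ γ ∈ Γ, γ ≠ 1 →
    ∃ l : ℂ, IsEig (ρ γ) l ∧ (d : ℝ) ≤ c * (1 + |Real.log ‖l‖|) ^ e

theorem grow_sep (e : ℕ) (he : e = 3000) (C n : ℕ) {G : Type*} [Group G] {M : ℕ}
    (ρ : G →* Matrix (Fin M) (Fin M) ℂ) : Grows ρ e fun d => SeparatedFamily C n d ρ := by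
  obtain ⟨c, hc, h⟩ := grow' e he C n
  refine ⟨c, ?_⟩
  rintro d Γ ⟨htf, k, _, _, S, R, hkd, hsep⟩ γ hγ hne
  subst hkd
  have hunit : IsUnit (R.r ⟨γ, hγ⟩) := (Group.isUnit (⟨γ, hγ⟩ : Γ)).map R.r
  obtain ⟨σ, hσ, l, hl, hl2⟩ := h k S _ hunit (fun σ hσ l hl => out_one R _ σ hσ l hl)
    (nil_pow R htf ⟨γ, hγ⟩ (fun h => hne (congrArg Subtype.val h))) hsep
  exact ⟨l, R.eig σ hσ ⟨γ, hγ⟩ l hl, hl2⟩

/-- an automorphism moving an element of a small set out of it -/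
theorem exists_aut2 {k : Type} [Field k] [NumberField k] (T : Finset (k →+* ℂ))
    (hT : T.Nonempty) (h : T.card < Nat.card (k ≃ₐ[ℚ] k)) :
    ∃ (τ : k →+* k) (w : k →+* ℂ), w.comp (RingHom.id k) ∈ T ∧ w.comp τ ∉ T := by
  classical
  by_contra hcon
  push Not at hcon
  obtain ⟨w, hw⟩ := hT
  have h1 : ∀ τ : k ≃ₐ[ℚ] k, w.comp (τ.toRingEquiv.toRingHom) ∈ T := by
    intro τ
    exact hcon _ w (by rwa [RingHom.comp_id])
  have h2 : Nat.card (k ≃ₐ[ℚ] k) ≤ Nat.card T := by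
    refine Nat.card_le_card_of_injective
      (fun τ => (⟨w.comp (τ.toRingEquiv.toRingHom), h1 τ⟩ : T)) ?_
    intro τ τ' hτ
    simp only [Subtype.mk.injEq] at hτ
    ext x
    apply w.injective
    exact RingHom.congr_fun hτ x
  have h3 : Nat.card T = T.card := by rw [Nat.card_eq_fintype_card, Fintype.card_coe]
  rw [h3] at h2
  omega

theorem aut_sep {k : Type} [Field k] [NumberField k] (C : ℕ) (S : Finset (k →+* ℂ))
    (hcard : S.card < Nat.card (k ≃ₐ[ℚ] k)) (hsize : S.card ^ 400 ≤ C * finrank ℚ k)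
    (T : Finset (k →+* ℂ)) (hTS : T ⊆ S) (hT : T.Nonempty) :
    ∃ (K : Type) (_ : Field K) (_ : NumberField K) (i₁ i₂ : k →+* K) (w : K →+* ℂ),
      w.comp i₁ ∈ T ∧ w.comp i₂ ∉ T ∧
      (T.card * finrank ℚ K) ^ 400 ≤ C * finrank ℚ k ^ 401 := by
  have hle : T.card ≤ S.card := Finset.card_le_card hTS
  obtain ⟨τ, w, h1, h2⟩ := exists_aut2 T hT (hle.trans_lt hcard)
  refine ⟨k, inferInstance, inferInstance, RingHom.id k, τ, w, h1, h2, ?_⟩
  calc (T.card * finrank ℚ k) ^ 400 = T.card ^ 400 * finrank ℚ k ^ 400 := mul_pow _ _ _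
    _ ≤ (C * finrank ℚ k) * finrank ℚ k ^ 400 :=
      Nat.mul_le_mul_right _ ((Nat.pow_le_pow_left hle 400).trans hsize)
    _ = C * finrank ℚ k ^ 401 := by rw [mul_assoc, ← pow_succ']

theorem small_deg (C s d a : ℕ) (hs : 0 < s) (h1 : d ≤ C * a ^ 399) (hcard : a ≤ s)
    (hsize : s ^ 400 ≤ C * d) : d ≤ C * (C ^ 2) ^ 399 := by
  have h6 : d ≤ C * s ^ 399 := h1.trans (Nat.mul_le_mul_left _ (Nat.pow_le_pow_left hcard 399))
  have h2 : s ≤ C ^ 2 := by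
    have h3 : s * s ^ 399 ≤ C ^ 2 * s ^ 399 := by
      calc s * s ^ 399 = s ^ 400 := by rw [← pow_succ']
        _ ≤ C * d := hsize
        _ ≤ C * (C * s ^ 399) := Nat.mul_le_mul_left _ h6
        _ = C ^ 2 * s ^ 399 := by rw [← mul_assoc, ← sq]
    exact Nat.le_of_mul_le_mul_right h3 (Nat.pow_pos hs)
  exact h6.trans (Nat.mul_le_mul_left _ (Nat.pow_le_pow_left h2 399))

theorem uniform_aut2 (C n : ℕ) {G : Type*} [Group G] [TopologicalSpace G] {M : ℕ}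
    (ρ : G →* Matrix (Fin M) (Fin M) ℂ) (hρ : Continuous ρ) :
    UniformlyDiscrete (⋃ d, ManyAutomorphismsFamily C n d ρ) := by
  obtain ⟨ε, hε, h⟩ := gap2 C n
  obtain ⟨ε', hε', h'⟩ := gap_small n (C * (C ^ 2) ^ 399)
  refine ⟨_, nhd ρ hρ (min ε ε') (lt_min hε hε'), ?_⟩
  intro Γ hmem g u hu hΓ
  rw [Set.mem_iUnion] at hmem
  obtain ⟨d, htf, k, _, _, S, R, hkd, hk, hsize⟩ := hmem
  subst hkd
  refine final_step' R htf (min ε ε') (lt_min hε hε') g u hu hΓ fun hnil => ?_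
  have hunit : IsUnit (R.r ⟨g * u * g⁻¹, hΓ⟩) :=
    (Group.isUnit (⟨g * u * g⁻¹, hΓ⟩ : Γ)).map R.r
  have hSpos : 0 < S.card := Finset.card_pos.mpr R.nonempty
  by_cases hcard : S.card < Nat.card (k ≃ₐ[ℚ] k)
  · obtain ⟨σ, hσ, l, hl, hl2⟩ := h k S _ R.nonempty hunit
      (fun σ hσ l hl => out_one R _ σ hσ l hl) hnil (aut_sep C S hcard hsize)
    exact ⟨σ, hσ, l, hl, (min_le_left _ _).trans hl2⟩
  · have h1 := hk.resolve_left hcard
    push Not at hcard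
    have h5 := small_deg C S.card _ _ hSpos h1 hcard hsize
    obtain ⟨σ, hσ, l, hl, hl2⟩ := h' k S _ R.nonempty h5 hunit
      (fun σ hσ l hl => (out_one R _ σ hσ l hl).le)
      (by
        have := hnil 1 one_pos
        rwa [pow_one] at this)
    exact ⟨σ, hσ, l, hl, (min_le_right _ _).trans hl2⟩

theorem grow_aut (e : ℕ) (he : e = 3000) (C n : ℕ) {G : Type*} [Group G] {M : ℕ}
    (ρ : G →* Matrix (Fin M) (Fin M) ℂ) : Grows ρ e fun d => ManyAutomorphismsFamily C n d ρ := by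
  obtain ⟨c, h⟩ := grow_sep e he C n ρ
  obtain ⟨B, hB⟩ : ∃ B : ℕ, B = C * (C ^ 2) ^ 399 := ⟨_, rfl⟩
  refine ⟨max c B, ?_⟩
  rintro d Γ ⟨htf, k, _, _, S, R, hkd, hk, hsize⟩ γ hγ hne
  subst hkd
  have hSpos : 0 < S.card := Finset.card_pos.mpr R.nonempty
  by_cases hcard : S.card < Nat.card (k ≃ₐ[ℚ] k)
  · obtain ⟨l, hl, hl2⟩ := h (finrank ℚ k) Γ
      ⟨htf, k, inferInstance, inferInstance, S, R, rfl, aut_sep C S hcard hsize⟩ γ hγ hne
    refine ⟨l, hl, hl2.trans (mul_le_mul_of_nonneg_right (le_max_left _ _) ?_)⟩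
    positivity
  · have h1 := hk.resolve_left hcard
    push Not at hcard
    have h5 := small_deg C S.card _ _ hSpos h1 hcard hsize
    rw [← hB] at h5
    have hunit : IsUnit (R.r ⟨γ, hγ⟩) := (Group.isUnit (⟨γ, hγ⟩ : Γ)).map R.r
    obtain ⟨σ, hσ, l, hl, _⟩ := exists_root S _ hunit
      (fun σ hσ l hl => out_one R _ σ hσ l hl)
      (nil_pow R htf ⟨γ, hγ⟩ (fun h => hne (congrArg Subtype.val h)))
    refine ⟨l, R.eig σ hσ ⟨γ, hγ⟩ l hl, ?_⟩
    have h6 : (finrank ℚ k : ℝ) ≤ B := by exact_mod_cast h5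
    have h7 : (B : ℝ) ≤ max c B := le_max_right _ _
    have h8 : (0 : ℝ) ≤ B := Nat.cast_nonneg _
    refine (h6.trans h7).trans (le_mul_of_one_le_right (h8.trans h7) (one_le_pow₀ ?_))
    have := abs_nonneg (Real.log ‖l‖)
    linarith

theorem exists_pair2' {k₀ k : Type} [Field k₀] [Field k] [NumberField k₀] [NumberField k]
    [Algebra k₀ k] (σ τ : k →+* ℂ)
    (h : τ.comp (algebraMap k₀ k) = σ.comp (algebraMap k₀ k)) :
    ∃ (K : Type) (_ : Field K) (_ : NumberField K) (i i' : k →+* K) (w : K →+* ℂ),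
      w.comp i = σ ∧ w.comp i' = τ ∧
      finrank ℚ K ≤ finrank k₀ k * finrank ℚ k := by
  classical
  haveI : FiniteDimensional k₀ k := FiniteDimensional.right ℚ k₀ k
  letI : Algebra k₀ ℂ := (σ.comp (algebraMap k₀ k)).toAlgebra
  obtain ⟨r, hr⟩ : ∃ r, finrank k₀ k = r := ⟨_, rfl⟩
  have hr0 : 0 < r := hr ▸ Module.finrank_pos
  rw [hr]
  let φ1 : k →ₐ[k₀] ℂ := { σ with commutes' := fun _ => rfl }
  let φ2 : k →ₐ[k₀] ℂ := { τ with commutes' := fun x => RingHom.congr_fun h x }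
  set E1 := φ1.fieldRange with hE1
  set E2 := φ2.fieldRange with hE2
  have hf1 : finrank k₀ E1 = r :=
    ((AlgEquiv.ofInjectiveField φ1).toLinearEquiv.finrank_eq).symm.trans hr
  have hf2 : finrank k₀ E2 = r :=
    ((AlgEquiv.ofInjectiveField φ2).toLinearEquiv.finrank_eq).symm.trans hr
  haveI : FiniteDimensional k₀ E1 := FiniteDimensional.of_finrank_pos (by omega)
  haveI : FiniteDimensional k₀ E2 := FiniteDimensional.of_finrank_pos (by omega)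
  have hsup : finrank k₀ ↥(E1 ⊔ E2) ≤ r * r := by
    have := IntermediateField.finrank_sup_le E1 E2
    rwa [hf1, hf2] at this
  haveI : FiniteDimensional k₀ ↥(E1 ⊔ E2) := IntermediateField.finiteDimensional_sup E1 E2
  haveI : CharZero ↥(E1 ⊔ E2) :=
    charZero_of_injective_algebraMap (algebraMap k₀ ↥(E1 ⊔ E2)).injective
  haveI : NumberField ↥(E1 ⊔ E2) := NumberField.of_module_finite k₀ _
  let i : k →+* ↥(E1 ⊔ E2) := φ1.toRingHom.codRestrict (E1 ⊔ E2).toSubfield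
    (fun x => (le_sup_left : E1 ≤ E1 ⊔ E2) ⟨x, rfl⟩)
  let i' : k →+* ↥(E1 ⊔ E2) := φ2.toRingHom.codRestrict (E1 ⊔ E2).toSubfield
    (fun x => (le_sup_right : E2 ≤ E1 ⊔ E2) ⟨x, rfl⟩)
  refine ⟨↥(E1 ⊔ E2), inferInstance, inferInstance, i, i', (E1 ⊔ E2).toSubfield.subtype,
    ?_, ?_, ?_⟩
  · ext x
    rfl
  · ext x
    rfl
  · have h1 := finrank_tower' (algebraMap k₀ ↥(E1 ⊔ E2)) (r * r) inferInstance rfl hsup
    have h2 : finrank ℚ k₀ * r = finrank ℚ k := by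
      rw [← hr]
      exact Module.finrank_mul_finrank ℚ k₀ k
    calc finrank ℚ ↥(E1 ⊔ E2) ≤ finrank ℚ k₀ * (r * r) := h1
      _ = r * (finrank ℚ k₀ * r) := by ring
      _ = r * finrank ℚ k := by rw [h2]

theorem exists_pair2 {k : Type} [Field k] [NumberField k] (k₀ : Subfield k) (σ τ : k →+* ℂ)
    (h : τ.comp k₀.subtype = σ.comp k₀.subtype) :
    ∃ (K : Type) (_ : Field K) (_ : NumberField K) (i i' : k →+* K) (w : K →+* ℂ),
      w.comp i = σ ∧ w.comp i' = τ ∧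
      finrank ℚ K ≤ finrank k₀ k * finrank ℚ k := by
  haveI : NumberField k₀ := by
    haveI : FiniteDimensional ℚ k₀ := FiniteDimensional.left ℚ k₀ k
    exact { to_charZero := inferInstance, to_finiteDimensional := inferInstance }
  exact exists_pair2' (k₀ := k₀) (k := k) σ τ h

theorem sub_sep {C n d : ℕ} {G : Type*} [Group G] {M : ℕ}
    (ρ : G →* Matrix (Fin M) (Fin M) ℂ) (Γ : Subgroup G) (hΓ : Γ ∈ NoFullFibreFamily C n d ρ) :
    Γ ∈ SeparatedFamily C n d ρ := by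
  obtain ⟨htf, k, _, _, S, R, k₀, hkd, hfib, hsize⟩ := hΓ
  subst hkd
  refine ⟨htf, k, inferInstance, inferInstance, S, R, rfl, ?_⟩
  intro T hTS hT
  obtain ⟨σ, hσ⟩ := hT
  obtain ⟨τ, hτ, hres⟩ := hfib σ (hTS hσ)
  obtain ⟨K, _, _, i, i', w, h1, h2, h3⟩ := exists_pair2 k₀ σ τ hres
  refine ⟨K, inferInstance, inferInstance, i, i', w, h1.symm ▸ hσ,
    fun h4 => hτ (hTS (h2 ▸ h4)), ?_⟩
  have hle : T.card ≤ S.card := Finset.card_le_card hTS
  calc (T.card * finrank ℚ K) ^ 400 ≤ (S.card * (finrank k₀ k * finrank ℚ k)) ^ 400 :=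
        Nat.pow_le_pow_left (Nat.mul_le_mul hle h3) 400
    _ = (S.card * finrank k₀ k) ^ 400 * finrank ℚ k ^ 400 := by rw [← mul_assoc, mul_pow]
    _ ≤ (C * finrank ℚ k) * finrank ℚ k ^ 400 := Nat.mul_le_mul_right _ hsize
    _ = C * finrank ℚ k ^ 401 := by rw [mul_assoc, ← pow_succ']

theorem grow_union {G : Type*} [Group G] {M : ℕ} (ρ : G →* Matrix (Fin M) (Fin M) ℂ) (e : ℕ)
    (F F' : ℕ → Set (Subgroup G)) (h : Grows ρ e F) (h' : Grows ρ e F') :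
    Grows ρ e fun d => F d ∪ F' d := by
  obtain ⟨c, hc⟩ := h
  obtain ⟨c', hc'⟩ := h'
  refine ⟨max c c', ?_⟩
  rintro d Γ (hΓ | hΓ) γ hγ hne
  · obtain ⟨l, hl, hl2⟩ := hc d Γ hΓ γ hγ hne
    exact ⟨l, hl, hl2.trans (mul_le_mul_of_nonneg_right (le_max_left _ _) (by positivity))⟩
  · obtain ⟨l, hl, hl2⟩ := hc' d Γ hΓ γ hγ hne
    exact ⟨l, hl, hl2.trans (mul_le_mul_of_nonneg_right (le_max_right _ _) (by positivity))⟩

theorem disc_union {G : Type*} [Group G] [TopologicalSpace G] (F F' : ℕ → Set (Subgroup G))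
    (h : UniformlyDiscrete (⋃ d, F d)) (h' : UniformlyDiscrete (⋃ d, F' d)) :
    UniformlyDiscrete (⋃ d, (F d ∪ F' d)) := by
  obtain ⟨U, hU, h1⟩ := h
  obtain ⟨U', hU', h2⟩ := h'
  refine ⟨U ∩ U', Filter.inter_mem hU hU', ?_⟩
  rintro Γ hΓ g u ⟨hu, hu'⟩ hg
  rw [Set.mem_iUnion] at hΓ
  obtain ⟨d, hΓ | hΓ⟩ := hΓ
  · exact h1 Γ (Set.mem_iUnion.mpr ⟨d, hΓ⟩) g u hu hg
  · exact h2 Γ (Set.mem_iUnion.mpr ⟨d, hΓ⟩) g u hu' hg

end Pool.Agent.H776GM
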