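import Pool.Agent.H225R3.MargDefs

/-!
# Three families of arithmetic groups with no congruence condition
-/

set_option autoImplicit false

namespace Pool.Agent.H776GM

open NumberField Pool.Agent.H225R3.Marg

/-- The torsion-free subgroups `Γ` with a realization of size `n` over a number field `k` which has
two embeddings `i₁`, `i₂` in a number field `K`, such that no embedding of `K` restricts to
noncompact embeddings of `k` both along `i₁` and along `i₂`, and
`(|S| * [K : ℚ]) ^ 400 ≤ C * [k : ℚ] ^ 401`. -/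
def TwoEmbeddingsFamily (C n : ℕ) {G : Type*} [Group G] {M : ℕ}
    (ρ : G →* Matrix (Fin M) (Fin M) ℂ) : Set (Subgroup G) :=
  {Γ | (∀ γ ∈ Γ, ∀ N : ℕ, 0 < N → γ ^ N = 1 → γ = 1) ∧
    ∃ (k : Type) (_ : Field k) (_ : NumberField k) (S : Finset (k →+* ℂ))
    (_ : Realization ρ Γ k n S) (K : Type) (_ : Field K) (_ : NumberField K) (i₁ i₂ : k →+* K),
    (∀ w : K →+* ℂ, ¬ (w.comp i₁ ∈ S ∧ w.comp i₂ ∈ S)) ∧
    (S.card * Module.finrank ℚ K) ^ 400 ≤ C * Module.finrank ℚ k ^ 401}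

/-- The torsion-free subgroups `Γ` with a realization of size `n` over a number field `k` which is
a Galois extension of a subfield of degree at most `C` over `ℚ`, or has more than `|S| ^ 2`
automorphisms, with `|S| ^ 400 ≤ C * [k : ℚ]`. -/
def AutomorphismsFamily (C n : ℕ) {G : Type*} [Group G] {M : ℕ}
    (ρ : G →* Matrix (Fin M) (Fin M) ℂ) : Set (Subgroup G) :=
  {Γ | (∀ γ ∈ Γ, ∀ N : ℕ, 0 < N → γ ^ N = 1 → γ = 1) ∧
    ∃ (k : Type) (_ : Field k) (_ : NumberField k) (S : Finset (k →+* ℂ))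
    (_ : Realization ρ Γ k n S),
    ((∃ k₀ : Subfield k, Module.finrank ℚ k₀ ≤ C ∧ IsGalois k₀ k) ∨
      S.card ^ 2 < Nat.card (k ≃ₐ[ℚ] k)) ∧
    S.card ^ 400 ≤ C * Module.finrank ℚ k}

/-- The torsion-free subgroups `Γ` with a realization of size `n` over a number field `k` which has
a proper subfield `k₀` such that different noncompact embeddings of `k` have different
restrictions to `k₀`, and `(|S| * [k : k₀]) ^ 400 ≤ C * [k : ℚ]`. -/
def SubfieldFamily (C n : ℕ) {G : Type*} [Group G] {M : ℕ}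
    (ρ : G →* Matrix (Fin M) (Fin M) ℂ) : Set (Subgroup G) :=
  {Γ | (∀ γ ∈ Γ, ∀ N : ℕ, 0 < N → γ ^ N = 1 → γ = 1) ∧
    ∃ (k : Type) (_ : Field k) (_ : NumberField k) (S : Finset (k →+* ℂ))
    (_ : Realization ρ Γ k n S) (k₀ : Subfield k), k₀ ≠ ⊤ ∧
    (∀ σ ∈ S, ∀ τ ∈ S, σ.comp k₀.subtype = τ.comp k₀.subtype → σ = τ) ∧
    (S.card * Module.finrank k₀ k) ^ 400 ≤ C * Module.finrank ℚ k}

end Pool.Agent.H776GM
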