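import Pool.Agent.H776GM.Pair
import Pool.Agent.H776GM.GMDefs

/-!
# Uniform discreteness of the three families
-/

set_option autoImplicit false

namespace Pool.Agent.H776GM

open Polynomial NumberField Finset Module Pool.Agent.H225R3.Marg

theorem gap_small (n d1 : ℕ) : ∃ ε : ℝ, 0 < ε ∧
    ∀ (k : Type) [Field k] [NumberField k] (S : Finset (k →+* ℂ))
      (A : Matrix (Fin n) (Fin n) (𝓞 k)), S.Nonempty → finrank ℚ k ≤ d1 → IsUnit A →
      (∀ σ : k →+* ℂ, σ ∉ S → ∀ l : ℂ, ((emb σ).mapMatrix A).charpoly.IsRoot l → ‖l‖ ≤ 1) →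
      ¬ IsNilpotent (A - 1) →
      ∃ σ ∈ S, ∃ l : ℂ, ((emb σ).mapMatrix A).charpoly.IsRoot l ∧ ε ≤ ‖l - 1‖ := by
  obtain ⟨p, hp1, hp⟩ := Nat.exists_infinite_primes (2 ^ d1)
  obtain ⟨ε, hε, h⟩ := gapF 2 (by norm_num) (p ^ d1) n
  refine ⟨ε, hε, ?_⟩
  intro k _ _ S A hS hd hA hout hnil
  have hnorm : Ideal.absNorm (Ideal.span {(p : 𝓞 k)}) = p ^ finrank ℚ k := by
    rw [Ideal.absNorm_span_natCast, RingOfIntegers.rank]
  have hne : Ideal.span {(p : 𝓞 k)} ≠ ⊤ := by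
    intro h
    rw [h, Ideal.absNorm_top] at hnorm
    have h2 : 0 < finrank ℚ k := Module.finrank_pos
    have := Nat.one_lt_pow h2.ne' hp.one_lt
    omega
  obtain ⟨I, hI, hle⟩ := Ideal.exists_le_maximal _ hne
  have hdvd : Ideal.absNorm I ∣ p ^ finrank ℚ k := by
    rw [← hnorm]
    exact Ideal.absNorm_dvd_absNorm_of_le hle
  obtain ⟨f, hf, hIf⟩ := (Nat.dvd_prime_pow hp).mp hdvd
  have hI1 : Ideal.absNorm I ≠ 1 := fun h => hI.ne_top (Ideal.absNorm_eq_one_iff.mp h)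
  have hf0 : f ≠ 0 := by
    rintro rfl
    exact hI1 (by rw [hIf, pow_zero])
  have hIbot : I ≠ ⊥ := by
    rintro rfl
    rw [Ideal.absNorm_bot] at hIf
    exact absurd hIf (pow_ne_zero _ hp.ne_zero).symm
  refine h k S {I} A hS ?_ ?_ hA hout hnil
  · intro J hJ
    rw [Finset.mem_singleton] at hJ
    subst hJ
    refine ⟨hI.isPrime, hIbot, ?_⟩
    rw [hIf]
    exact Nat.pow_le_pow_right hp.pos (hf.trans hd)
  · rw [Finset.prod_singleton, hIf]
    have h1 : (2 : ℝ) ^ (Fintype.card (k →+* ℂ) - S.card) ≤ 2 ^ d1 := by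
      refine pow_le_pow_right₀ (by norm_num) ?_
      rw [NumberField.Embeddings.card]
      omega
    have h2 : ((2 ^ d1 : ℕ) : ℝ) ≤ p := by exact_mod_cast hp1
    have h3 : p ≤ p ^ f := Nat.le_self_pow hf0 p
    have h4 : (p : ℝ) ≤ ((p ^ f : ℕ) : ℝ) := by exact_mod_cast h3
    push_cast at h2 h4 ⊢
    linarith

theorem root_inv {n : ℕ} (B B' : Matrix (Fin n) (Fin n) ℂ) (h : B' * B = 1) (l : ℂ)
    (hl : B.charpoly.IsRoot l) : l ≠ 0 ∧ B'.charpoly.IsRoot l⁻¹ := by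
  obtain ⟨v, hv, hv2⟩ := exists_eigvec B l hl
  have h1 : v = l • B'.mulVec v := by
    calc v = (B' * B).mulVec v := by rw [h, Matrix.one_mulVec]
      _ = B'.mulVec (B.mulVec v) := by rw [Matrix.mulVec_mulVec]
      _ = l • B'.mulVec v := by rw [hv2, Matrix.mulVec_smul]
  have hl0 : l ≠ 0 := by
    rintro rfl
    apply hv
    rw [h1, zero_smul]
  refine ⟨hl0, ?_⟩
  have h2 : B'.mulVec v = l⁻¹ • v := by
    conv_rhs => rw [h1]
    rw [smul_smul, inv_mul_cancel₀ hl0, one_smul]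
  rw [IsRoot, Matrix.eval_charpoly]
  refine Matrix.exists_mulVec_eq_zero_iff.mp ⟨v, hv, ?_⟩
  rw [Matrix.sub_mulVec, h2, sub_eq_zero]
  ext i
  simp [Matrix.scalar_apply, Matrix.mulVec_diagonal]

theorem out_one {G : Type*} [Group G] {M : ℕ} {ρ : G →* Matrix (Fin M) (Fin M) ℂ}
    {Γ : Subgroup G} {k : Type} [Field k] [NumberField k] {n : ℕ} {S : Finset (k →+* ℂ)}
    (R : Realization ρ Γ k n S) (γ : Γ) (σ : k →+* ℂ) (hσ : σ ∉ S) (l : ℂ)
    (h : ((emb σ).mapMatrix (R.r γ)).charpoly.IsRoot l) : ‖l‖ = 1 := by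
  refine le_antisymm (R.comp' γ σ hσ l h) ?_
  have h1 : (emb σ).mapMatrix (R.r γ⁻¹) * (emb σ).mapMatrix (R.r γ) = 1 := by
    rw [← map_mul, ← map_mul, inv_mul_cancel, map_one, map_one]
  obtain ⟨h2, h3⟩ := root_inv _ _ h1 l h
  have h4 := R.comp' γ⁻¹ σ hσ l⁻¹ h3
  rw [norm_inv] at h4
  exact (inv_le_one₀ (norm_pos_iff.mpr h2)).mp h4

theorem sizes (D0 C n s m d : ℕ) (hd : 0 < d) (hm : 0 < m)
    (h1 : (s * (m * d)) ^ 400 ≤ C * d ^ 401)
    (h2 : D0 ^ 400 * C ≤ d) (h3 : C ^ 301 * ((n * n) ^ 300) ^ 400 ≤ d) :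
    D0 * s ≤ d ∧ (s * m * (n * n)) ^ 300 * s ≤ d := by
  have h4 : (s * m) ^ 400 ≤ C * d := by
    have h5 : (s * m) ^ 400 * d ^ 400 ≤ (C * d) * d ^ 400 := by
      calc (s * m) ^ 400 * d ^ 400 = (s * (m * d)) ^ 400 := by rw [← mul_pow, mul_assoc]
        _ ≤ C * d ^ 401 := h1
        _ = (C * d) * d ^ 400 := by rw [mul_assoc, ← pow_succ']
    exact Nat.le_of_mul_le_mul_right h5 (Nat.pow_pos hd)
  have h5 : s ^ 400 ≤ C * d := by
    refine le_trans ?_ h4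
    exact Nat.pow_le_pow_left (Nat.le_mul_of_pos_right s hm) 400
  constructor
  · have h6 : (D0 * s) ^ 400 ≤ d ^ 400 := by
      calc (D0 * s) ^ 400 = D0 ^ 400 * s ^ 400 := mul_pow _ _ _
        _ ≤ D0 ^ 400 * (C * d) := Nat.mul_le_mul_left _ h5
        _ = (D0 ^ 400 * C) * d := (mul_assoc _ _ _).symm
        _ ≤ d * d := Nat.mul_le_mul_right _ h2
        _ = d ^ 2 := (sq d).symm
        _ ≤ d ^ 400 := Nat.pow_le_pow_right hd (by norm_num)
    exact (Nat.pow_le_pow_iff_left (by norm_num)).mp h6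
  · have h6 : ((s * m * (n * n)) ^ 300 * s) ^ 400 ≤ d ^ 400 := by
      calc ((s * m * (n * n)) ^ 300 * s) ^ 400
          = ((s * m) ^ 400) ^ 300 * ((n * n) ^ 300) ^ 400 * s ^ 400 := by
            rw [mul_pow, mul_pow (s * m) (n * n) 300, mul_pow, ← pow_mul (s * m) 300 400,
              ← pow_mul (s * m) 400 300]
        _ ≤ (C * d) ^ 300 * ((n * n) ^ 300) ^ 400 * (C * d) :=
            Nat.mul_le_mul (Nat.mul_le_mul_right _ (Nat.pow_le_pow_left h4 300)) h5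
        _ = (C ^ 301 * ((n * n) ^ 300) ^ 400) * d ^ 301 := by
            rw [mul_pow]
            generalize ((n * n) ^ 300) ^ 400 = N
            rw [pow_succ C 300, pow_succ d 300]
            generalize C ^ 300 = c
            generalize d ^ 300 = e
            ring
        _ ≤ d * d ^ 301 := Nat.mul_le_mul_right _ h3
        _ = d ^ 302 := (pow_succ' d 301).symm
        _ ≤ d ^ 400 := Nat.pow_le_pow_right hd (by norm_num)
    exact (Nat.pow_le_pow_iff_left (by norm_num)).mp h6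

theorem gap (C n : ℕ) : ∃ ε : ℝ, 0 < ε ∧
    ∀ (k K : Type) [Field k] [Field K] [NumberField k] [NumberField K] (S : Finset (k →+* ℂ))
      (A : Matrix (Fin n) (Fin n) (𝓞 k)) (i i' : k →+* K), S.Nonempty →
      (S.card * finrank ℚ K) ^ 400 ≤ C * finrank ℚ k ^ 401 → IsUnit A →
      (∀ σ : k →+* ℂ, σ ∉ S → ∀ l : ℂ, ((emb σ).mapMatrix A).charpoly.IsRoot l → ‖l‖ = 1) →
      (∀ N : ℕ, 0 < N → ¬ IsNilpotent (A ^ N - 1)) →
      (∀ w : K →+* ℂ, ¬ (w.comp i ∈ S ∧ w.comp i' ∈ S)) →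
      ∃ σ ∈ S, ∃ l : ℂ, ((emb σ).mapMatrix A).charpoly.IsRoot l ∧ ε ≤ ‖l - 1‖ := by
  obtain ⟨D0, hD0⟩ := pair
  obtain ⟨d1, hd1⟩ : ∃ d1, d1 = D0 ^ 400 * C + C ^ 301 * ((n * n) ^ 300) ^ 400 := ⟨_, rfl⟩
  obtain ⟨ε, hε, h⟩ := gap_small n d1
  refine ⟨min ε 1, lt_min hε one_pos, ?_⟩
  intro k K _ _ _ _ S A i i' hS hsize hA hout hnil hdis
  by_cases hd : finrank ℚ k ≤ d1
  · obtain ⟨σ, hσ, l, hl, hl2⟩ := h k S A hS hd hA (fun σ hσ l hl => (hout σ hσ l hl).le)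
      (by
        have := hnil 1 one_pos
        rwa [pow_one] at this)
    exact ⟨σ, hσ, l, hl, (min_le_left _ _).trans hl2⟩
  · push Not at hd
    by_contra hcon
    push Not at hcon
    obtain ⟨m, hm⟩ : ∃ m, finrank ℚ K = m * finrank ℚ k := by
      letI : Algebra k K := i.toAlgebra
      refine ⟨finrank k K, ?_⟩
      rw [mul_comm]
      exact (Module.finrank_mul_finrank ℚ k K).symm
    have hdpos : 0 < finrank ℚ k := Module.finrank_pos
    have hmpos : 0 < m := by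
      rcases Nat.eq_zero_or_pos m with h0 | h0
      · rw [h0, zero_mul] at hm
        have := Module.finrank_pos (R := ℚ) (M := K)
        omega
      · exact h0
    rw [hm] at hsize
    obtain ⟨e1, e2⟩ := sizes D0 C n S.card m (finrank ℚ k) hdpos hmpos hsize
      ((Nat.le_add_right _ _).trans (hd1 ▸ hd.le)) ((Nat.le_add_left _ _).trans (hd1 ▸ hd.le))
    refine hD0 k K n A i i' S m hm hA hout (fun σ hσ l hl => ?_) hnil hdis e1 e2
    have h1 : ‖l - 1‖ < 1 := (hcon σ hσ l hl).trans_le (min_le_right _ _)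
    have h2 : ‖l‖ ≤ ‖l - 1‖ + ‖(1 : ℂ)‖ := by
      have := norm_add_le (l - 1) 1
      rwa [sub_add_cancel] at this
    rw [norm_one] at h2
    have := Real.exp_one_gt_d9
    linarith

theorem uniform_two (C n : ℕ) {G : Type*} [Group G] [TopologicalSpace G] {M : ℕ}
    (ρ : G →* Matrix (Fin M) (Fin M) ℂ) (hρ : Continuous ρ) :
    UniformlyDiscrete (TwoEmbeddingsFamily C n ρ) := by
  obtain ⟨ε, hε, h⟩ := gap C n
  refine ⟨_, nhd ρ hρ ε hε, ?_⟩
  rintro Γ ⟨htf, k, _, _, S, R, K, _, _, i, i', hdis, hsize⟩ g u hu hΓ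
  refine final_step' R htf ε hε g u hu hΓ fun hnil => ?_
  have hunit : IsUnit (R.r ⟨g * u * g⁻¹, hΓ⟩) :=
    (Group.isUnit (⟨g * u * g⁻¹, hΓ⟩ : Γ)).map R.r
  exact h k K S _ i i' R.nonempty hsize hunit (fun σ hσ l hl => out_one R _ σ hσ l hl) hnil hdis

end Pool.Agent.H776GM
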