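import Pool.Agent.H776GM.DepPair

/-!
# The gap for sets of embeddings which can be separated
-/

set_option autoImplicit false

namespace Pool.Agent.H776GM

open Polynomial NumberField Finset Module Pool.Agent.H225R3.Marg

theorem contra_pair {k K : Type} [Field k] [Field K] [NumberField k] [NumberField K] {n : ℕ}
    (A : Matrix (Fin n) (Fin n) (𝓞 k)) (i i' : k →+* K) (w : K →+* ℂ) (S' : Finset (k →+* ℂ))
    (hout : ∀ σ : k →+* ℂ, σ ∉ S' → ∀ l : ℂ, ((emb σ).mapMatrix A).charpoly.IsRoot l → ‖l‖ = 1)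
    (hnil : ∀ N : ℕ, 0 < N → ¬ IsNilpotent (A ^ N - 1)) (l : ℂ)
    (hl : ((emb (w.comp i)).mapMatrix A).charpoly.IsRoot l) (hl0 : l ≠ 0) (hl1 : ‖l‖ ≠ 1)
    (hw2 : w.comp i' ∉ S') : ∃ (L : Type) (_ : Field L) (_ : NumberField L) (_ : Algebra K L)
      (α β : L),
      (A.charpoly.map (((algebraMap K L).comp i).comp (algebraMap (𝓞 k) k))).IsRoot α ∧
      (A.charpoly.map (((algebraMap K L).comp i').comp (algebraMap (𝓞 k) k))).IsRoot β ∧
      ∀ u v : ℤ, (u, v) ≠ (0, 0) → α ^ u * β ^ v ≠ 1 := by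
  set P : K[X] := A.charpoly.map (i.comp (algebraMap (𝓞 k) k)) *
    A.charpoly.map (i'.comp (algebraMap (𝓞 k) k)) with hP
  have hP0 : P ≠ 0 := ((A.charpoly_monic.map _).mul (A.charpoly_monic.map _)).ne_zero
  obtain ⟨L, _, _, _, hsplit⟩ : ∃ (L : Type) (_ : Field L) (_ : NumberField L)
      (_ : Algebra K L), (P.map (algebraMap K L)).Splits := by
    haveI : CharZero P.SplittingField :=
      charZero_of_injective_algebraMap (algebraMap K P.SplittingField).injective
    exact ⟨P.SplittingField, inferInstance, NumberField.of_module_finite K _, inferInstance,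
      SplittingField.splits P⟩
  haveI : FiniteDimensional K L := FiniteDimensional.right ℚ K L
  obtain ⟨w', hw'⟩ := extend_emb (algebraMap K L) (fun x => by
    have : IsIntegral K x := Algebra.IsIntegral.isIntegral x
    exact this) w
  have hmap : (P.map (algebraMap K L)) =
      A.charpoly.map (((algebraMap K L).comp i).comp (algebraMap (𝓞 k) k)) *
      A.charpoly.map (((algebraMap K L).comp i').comp (algebraMap (𝓞 k) k)) := by
    rw [hP, Polynomial.map_mul, Polynomial.map_map, Polynomial.map_map]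
    rfl
  have hPL0 : (P.map (algebraMap K L)) ≠ 0 := (Polynomial.map_ne_zero_iff
    (algebraMap K L).injective).mpr hP0
  rw [hmap] at hsplit hPL0
  have hsA := hsplit.of_dvd hPL0 (dvd_mul_right _ _)
  have hsB := hsplit.of_dvd hPL0 (dvd_mul_left _ _)
  obtain ⟨α, h1, h2⟩ := lift_root' A i w' hsA l (by rw [hw']; exact hl)
  obtain ⟨β, h3, h4⟩ := nonroot_hom ((algebraMap K L).comp i') A hsB hnil
  refine ⟨L, inferInstance, inferInstance, inferInstance, α, β, h1, h3, ?_⟩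
  intro u v huv h5
  have h6 : ‖w' β‖ = 1 := by
    refine hout (w'.comp ((algebraMap K L).comp i')) ?_ _ (spec_root A _ w' β h3)
    rw [← RingHom.comp_assoc, hw']
    exact hw2
  have h7 := congrArg (fun x => ‖w' x‖) h5
  simp only [map_mul, map_zpow₀, norm_mul, norm_zpow, map_one, norm_one] at h7
  rw [h6, one_zpow, mul_one, h2] at h7
  have h8 : u = 0 := (zpow_eq_one_iff_right₀ (norm_nonneg l) hl1).mp h7
  subst h8
  rw [zpow_zero, one_mul] at h5
  have h9 : v ≠ 0 := fun h => huv (by rw [h])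
  rcases Int.natAbs_eq v with h10 | h10
  · rw [h10, zpow_natCast] at h5
    exact h4 _ (Int.natAbs_pos.mpr h9) h5
  · rw [h10, zpow_neg, zpow_natCast, inv_eq_one] at h5
    exact h4 _ (Int.natAbs_pos.mpr h9) h5

theorem gap2 (C n : ℕ) : ∃ ε : ℝ, 0 < ε ∧
    ∀ (k : Type) [Field k] [NumberField k] (S : Finset (k →+* ℂ))
      (A : Matrix (Fin n) (Fin n) (𝓞 k)), S.Nonempty → IsUnit A →
      (∀ σ : k →+* ℂ, σ ∉ S → ∀ l : ℂ, ((emb σ).mapMatrix A).charpoly.IsRoot l → ‖l‖ = 1) →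
      (∀ N : ℕ, 0 < N → ¬ IsNilpotent (A ^ N - 1)) →
      (∀ S' ⊆ S, S'.Nonempty → ∃ (K : Type) (_ : Field K) (_ : NumberField K) (i i' : k →+* K)
        (w : K →+* ℂ), w.comp i ∈ S' ∧ w.comp i' ∉ S' ∧
        (S'.card * finrank ℚ K) ^ 400 ≤ C * finrank ℚ k ^ 401) →
      ∃ σ ∈ S, ∃ l : ℂ, ((emb σ).mapMatrix A).charpoly.IsRoot l ∧ ε ≤ ‖l - 1‖ := by
  classical
  obtain ⟨D0, hD0⟩ := dep_pair
  obtain ⟨d1, hd1⟩ : ∃ d1, d1 = D0 ^ 400 * C + C ^ 301 * ((n * n) ^ 300) ^ 400 := ⟨_, rfl⟩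
  obtain ⟨ε, hε, h⟩ := gap_small n d1
  refine ⟨min ε 1, lt_min hε one_pos, ?_⟩
  intro k _ _ S A hS hA hout hnil hsep
  by_cases hd : finrank ℚ k ≤ d1
  · obtain ⟨σ, hσ, l, hl, hl2⟩ := h k S A hS hd hA (fun σ hσ l hl => (hout σ hσ l hl).le)
      (by
        have := hnil 1 one_pos
        rwa [pow_one] at this)
    exact ⟨σ, hσ, l, hl, (min_le_left _ _).trans hl2⟩
  · push Not at hd
    by_contra hcon
    push Not at hcon
    set S' := S.filter fun σ => ∃ l : ℂ, ((emb σ).mapMatrix A).charpoly.IsRoot l ∧ ‖l‖ ≠ 1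
      with hS'
    have hout' : ∀ σ : k →+* ℂ, σ ∉ S' → ∀ l : ℂ,
        ((emb σ).mapMatrix A).charpoly.IsRoot l → ‖l‖ = 1 := by
      intro σ hσ l hl
      by_contra hne
      by_cases h1 : σ ∈ S
      · exact hσ (Finset.mem_filter.mpr ⟨h1, l, hl, hne⟩)
      · exact hne (hout σ h1 l hl)
    have hne : S'.Nonempty := by
      obtain ⟨σ, h1, l, h2, h3, _⟩ := exists_root S A hA hout hnil
      exact ⟨σ, Finset.mem_filter.mpr ⟨h1, l, h2, h3.ne'⟩⟩
    obtain ⟨K, _, _, i, i', w, hw1, hw2, hsize⟩ := hsep S' (Finset.filter_subset _ _) hne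
    obtain ⟨l, hl, hl1⟩ := (Finset.mem_filter.mp hw1).2
    have hl0 : l ≠ 0 := by
      obtain ⟨B, hB⟩ := hA.exists_left_inv
      have h1 : (emb (w.comp i)).mapMatrix B * (emb (w.comp i)).mapMatrix A = 1 := by
        rw [← map_mul, hB, map_one]
      exact (root_inv _ _ h1 l hl).1
    obtain ⟨L, _, _, _, α, β, hα, hβ, hno⟩ := contra_pair A i i' w S' hout' hnil l hl hl0 hl1 hw2
    obtain ⟨m, hm⟩ : ∃ m, finrank ℚ K = m * finrank ℚ k := by
      letI : Algebra k K := i.toAlgebra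
      refine ⟨finrank k K, ?_⟩
      rw [mul_comm]
      exact (Module.finrank_mul_finrank ℚ k K).symm
    have hdpos : 0 < finrank ℚ k := Module.finrank_pos
    have hmpos : 0 < m := by
      rcases Nat.eq_zero_or_pos m with h0 | h0
      · rw [h0, zero_mul] at hm
        have := Module.finrank_pos (R := ℚ) (M := K)
        omega
      · exact h0
    rw [hm] at hsize
    obtain ⟨e1, e2⟩ := sizes D0 C n S'.card m (finrank ℚ k) hdpos hmpos hsize
      ((Nat.le_add_right _ _).trans (hd1 ▸ hd.le)) ((Nat.le_add_left _ _).trans (hd1 ▸ hd.le))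
    have hin : ∀ σ ∈ S', ∀ l : ℂ, ((emb σ).mapMatrix A).charpoly.IsRoot l →
        ‖l‖ ≤ Real.exp 1 := by
      intro σ hσ l hl
      have h1 : ‖l - 1‖ < 1 :=
        (hcon σ (Finset.mem_filter.mp hσ).1 l hl).trans_le (min_le_right _ _)
      have h2 : ‖l‖ ≤ ‖l - 1‖ + ‖(1 : ℂ)‖ := by
        have := norm_add_le (l - 1) 1
        rwa [sub_add_cancel] at this
      rw [norm_one] at h2
      have := Real.exp_one_gt_d9
      linarith
    obtain ⟨u, v, huv, hdep⟩ := hD0 k K L n A A i i' S' m hm hA hA hout' hout' hin hin e1 e2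
      α β hα hβ
    exact hno u v huv hdep

end Pool.Agent.H776GM
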