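import Pool.Agent.H776GM.RootMat

/-!
# Eigenvalues grow with the degree of the field
-/

set_option autoImplicit false

namespace Pool.Agent.H776GM

open Polynomial NumberField Finset Module Pool.Agent.H225R3.Marg

/-- choice of the size of the eigenvalues -/
theorem exists_size (e : ℕ) (he0 : e ≠ 0) (d : ℕ) (hd : 0 < d) (c : ℝ) (hc : (2 : ℝ) ^ e ≤ c) :
    ∃ h : ℕ, 0 < h ∧ h ^ e ≤ d ∧
      ∀ x : ℝ, c * (1 + |Real.log x|) ^ e < d → 0 < x → x ≤ Real.exp h := by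
  classical
  have hex : ∃ h : ℕ, d < (h + 1) ^ e := ⟨d, (Nat.lt_succ_self d).trans_le
    (Nat.le_self_pow he0 _)⟩
  set h := Nat.find hex with hh
  have h1 : d < (h + 1) ^ e := Nat.find_spec hex
  have h0 : 0 < h := by
    rcases Nat.eq_zero_or_pos h with h2 | h2
    · rw [h2, zero_add, one_pow] at h1
      omega
    · exact h2
  have h2 : h ^ e ≤ d := by
    have h3 := Nat.find_min hex (m := h - 1) (by omega)
    push Not at h3
    rwa [Nat.sub_add_cancel h0] at h3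
  refine ⟨h, h0, h2, ?_⟩
  intro x hx hx0
  have h3 : (d : ℝ) < ((h : ℝ) + 1) ^ e := by exact_mod_cast h1
  have h4 : ((h : ℝ) + 1) ≤ 2 * h := by
    have : (1 : ℝ) ≤ h := by exact_mod_cast h0
    linarith
  have h5 : ((h : ℝ) + 1) ^ e ≤ (2 * h) ^ e := pow_le_pow_left₀ (by positivity) h4 e
  have h6 : (2 * (1 + |Real.log x|)) ^ e < (2 * (h : ℝ)) ^ e := by
    calc (2 * (1 + |Real.log x|)) ^ e = 2 ^ e * (1 + |Real.log x|) ^ e := mul_pow _ _ _
      _ ≤ c * (1 + |Real.log x|) ^ e := mul_le_mul_of_nonneg_right hc (by positivity)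
      _ < d := hx
      _ < ((h : ℝ) + 1) ^ e := h3
      _ ≤ (2 * h) ^ e := h5
  have h7 := lt_of_pow_lt_pow_left₀ e (by positivity) h6
  have h8 : Real.log x ≤ h := by
    have := le_abs_self (Real.log x)
    linarith
  rw [← Real.log_le_iff_le_exp hx0]
  exact h8

theorem grow' (e : ℕ) (he : e = 3000) (C n : ℕ) : ∃ c : ℝ, 0 < c ∧
    ∀ (k : Type) [Field k] [NumberField k] (S : Finset (k →+* ℂ))
      (A : Matrix (Fin n) (Fin n) (𝓞 k)), IsUnit A →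
      (∀ σ : k →+* ℂ, σ ∉ S → ∀ l : ℂ, ((emb σ).mapMatrix A).charpoly.IsRoot l → ‖l‖ = 1) →
      (∀ N : ℕ, 0 < N → ¬ IsNilpotent (A ^ N - 1)) →
      (∀ S' ⊆ S, S'.Nonempty → ∃ (K : Type) (_ : Field K) (_ : NumberField K) (i i' : k →+* K)
        (w : K →+* ℂ), w.comp i ∈ S' ∧ w.comp i' ∉ S' ∧
        (S'.card * finrank ℚ K) ^ 400 ≤ C * finrank ℚ k ^ 401) →
      ∃ σ ∈ S, ∃ l : ℂ, ((emb σ).mapMatrix A).charpoly.IsRoot l ∧
        (finrank ℚ k : ℝ) ≤ c * (1 + |Real.log ‖l‖|) ^ e := by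
  classical
  have he0 : e ≠ 0 := by omega
  obtain ⟨D0, hD0⟩ := dep_pair_h
  obtain ⟨d1, hd1⟩ : ∃ d1, d1 = D0 ^ 400 * C + C ^ 301 * ((n * n) ^ 300) ^ 400 := ⟨_, rfl⟩
  obtain ⟨c, hc⟩ : ∃ c : ℝ, c = max ((2 : ℝ) ^ e) d1 := ⟨_, rfl⟩
  have hc2 : (2 : ℝ) ^ e ≤ c := hc ▸ le_max_left _ _
  have hcd : (d1 : ℝ) ≤ c := hc ▸ le_max_right _ _
  have hc0 : 0 < c := lt_of_lt_of_le (by positivity) hc2
  refine ⟨c, hc0, ?_⟩
  intro k _ _ S A hA hout hnil hsep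
  by_contra hcon
  push Not at hcon
  have hdpos : 0 < finrank ℚ k := Module.finrank_pos
  obtain ⟨h, hh, hhd, hsize0⟩ := exists_size e he0 (finrank ℚ k) hdpos c hc2
  set S' := S.filter fun σ => ∃ l : ℂ, ((emb σ).mapMatrix A).charpoly.IsRoot l ∧ ‖l‖ ≠ 1
    with hS'
  have hout' : ∀ σ : k →+* ℂ, σ ∉ S' → ∀ l : ℂ,
      ((emb σ).mapMatrix A).charpoly.IsRoot l → ‖l‖ = 1 := by
    intro σ hσ l hl
    by_contra hne
    by_cases h1 : σ ∈ S
    · exact hσ (Finset.mem_filter.mpr ⟨h1, l, hl, hne⟩)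
    · exact hne (hout σ h1 l hl)
  obtain ⟨σ0, hσ0, l0, hl0, hl01, _⟩ := exists_root S A hA hout hnil
  have hne : S'.Nonempty := ⟨σ0, Finset.mem_filter.mpr ⟨hσ0, l0, hl0, hl01.ne'⟩⟩
  have hd : d1 ≤ finrank ℚ k := by
    have h1 := hcon σ0 hσ0 l0 hl0
    have h2 : c ≤ c * (1 + |Real.log ‖l0‖|) ^ e := by
      refine le_mul_of_one_le_right hc0.le (one_le_pow₀ ?_)
      have := abs_nonneg (Real.log ‖l0‖)
      linarith
    have h3 : (d1 : ℝ) ≤ finrank ℚ k := (hcd.trans h2).trans h1.le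
    exact_mod_cast h3
  obtain ⟨K, _, _, i, i', w, hw1, hw2, hsize⟩ := hsep S' (Finset.filter_subset _ _) hne
  obtain ⟨l, hl, hl1⟩ := (Finset.mem_filter.mp hw1).2
  have hne0 : ∀ σ : k →+* ℂ, ∀ l : ℂ, ((emb σ).mapMatrix A).charpoly.IsRoot l → l ≠ 0 := by
    intro σ l hl
    obtain ⟨B, hB⟩ := hA.exists_left_inv
    have h1 : (emb σ).mapMatrix B * (emb σ).mapMatrix A = 1 := by
      rw [← map_mul, hB, map_one]
    exact (root_inv _ _ h1 l hl).1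
  obtain ⟨L, _, _, _, α, β, hα, hβ, hno⟩ :=
    contra_pair A i i' w S' hout' hnil l hl (hne0 _ l hl) hl1 hw2
  obtain ⟨m, hm⟩ : ∃ m, finrank ℚ K = m * finrank ℚ k := by
    letI : Algebra k K := i.toAlgebra
    refine ⟨finrank k K, ?_⟩
    rw [mul_comm]
    exact (Module.finrank_mul_finrank ℚ k K).symm
  have hmpos : 0 < m := by
    rcases Nat.eq_zero_or_pos m with h0 | h0
    · rw [h0, zero_mul] at hm
      have := Module.finrank_pos (R := ℚ) (M := K)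
      omega
    · exact h0
  rw [hm] at hsize
  obtain ⟨e1, e2⟩ := sizes_h D0 C n S'.card m (finrank ℚ k) h hdpos hmpos hsize
    ((Nat.le_add_right _ _).trans (hd1 ▸ hd)) ((Nat.le_add_left _ _).trans (hd1 ▸ hd)) (he ▸ hhd)
  have hin : ∀ σ ∈ S', ∀ l : ℂ, ((emb σ).mapMatrix A).charpoly.IsRoot l →
      ‖l‖ ≤ Real.exp h := by
    intro σ hσ l hl
    exact hsize0 _ (hcon σ (Finset.mem_filter.mp hσ).1 l hl) (norm_pos_iff.mpr (hne0 σ l hl))
  obtain ⟨u, v, huv, hdep⟩ := hD0 k K L n A A i i' S' m h hh hm hA hA hout' hout' hin hin e1 e2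
    α β hα hβ
  exact hno u v huv hdep

end Pool.Agent.H776GM
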