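import Mathlib

/-!
# A packing argument and a pigeonhole principle
-/

set_option autoImplicit false

namespace Pool.Agent.H776GM

open Metric MeasureTheory Module ENNReal

theorem pack {E : Type*} [NormedAddCommGroup E] [NormedSpace ℝ E] [FiniteDimensional ℝ E]
    (s : Finset E) (r η : ℝ) (hr : 0 ≤ r) (hη : 0 < η) (hs : ∀ c ∈ s, ‖c‖ ≤ r)
    (h : ∀ c ∈ s, ∀ d ∈ s, c ≠ d → η ≤ ‖c - d‖) :
    (s.card : ℝ) ≤ (1 + 2 * r / η) ^ finrank ℝ E := by
  borelize E
  let μ : Measure E := Measure.addHaar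
  let δ : ℝ := η / 2
  let ρ : ℝ := r + η / 2
  have δpos : 0 < δ := by positivity
  have ρpos : 0 < ρ := by positivity
  set A := ⋃ c ∈ s, ball (c : E) δ with hA
  have D : Set.Pairwise (s : Set E) (Function.onFun Disjoint fun c => ball (c : E) δ) := by
    rintro c hc d hd hcd
    apply ball_disjoint_ball
    rw [dist_eq_norm]
    have := h c hc d hd hcd
    simp only [δ]
    linarith
  have A_subset : A ⊆ ball (0 : E) ρ := by
    refine Set.iUnion₂_subset fun x hx => ?_
    apply ball_subset_ball'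
    calc
      δ + dist x 0 ≤ δ + r := by rw [dist_zero_right]; exact add_le_add le_rfl (hs x hx)
      _ = ρ := by simp only [δ, ρ]; ring
  have I :
    (s.card : ℝ≥0∞) * ENNReal.ofReal (δ ^ finrank ℝ E) * μ (ball 0 1) ≤
      ENNReal.ofReal (ρ ^ finrank ℝ E) * μ (ball 0 1) :=
    calc
      (s.card : ℝ≥0∞) * ENNReal.ofReal (δ ^ finrank ℝ E) * μ (ball 0 1) = μ A := by
        rw [hA, measure_biUnion_finset D fun c _ => measurableSet_ball]
        simp only [μ.addHaar_ball_of_pos _ δpos]
        simp only [Finset.sum_const, nsmul_eq_mul, mul_assoc]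
      _ ≤ μ (ball (0 : E) ρ) := measure_mono A_subset
      _ = ENNReal.ofReal (ρ ^ finrank ℝ E) * μ (ball 0 1) := by
        simp only [μ.addHaar_ball_of_pos _ ρpos]
  have J : (s.card : ℝ≥0∞) * ENNReal.ofReal (δ ^ finrank ℝ E) ≤
      ENNReal.ofReal (ρ ^ finrank ℝ E) :=
    (ENNReal.mul_le_mul_iff_left (measure_ball_pos _ _ zero_lt_one).ne' measure_ball_lt_top.ne).1 I
  have K := ENNReal.toReal_le_of_le_ofReal (pow_nonneg ρpos.le _) J
  rw [ENNReal.toReal_mul, ENNReal.toReal_natCast, ENNReal.toReal_ofReal (by positivity)] at K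
  have h1 : 1 + 2 * r / η = ρ / δ := by
    simp only [ρ, δ]
    field_simp
    ring
  rw [h1, div_pow, le_div_iff₀ (by positivity)]
  exact K

/-- the pigeonhole principle -/
theorem pigeon {ι : Type} [Fintype ι] [DecidableEq ι] {E : Type*} [NormedAddCommGroup E]
    [NormedSpace ℝ E] (J : (ι → ℤ) →+ E) (B : ℕ) (r η : ℝ) (hr : 0 ≤ r)
    (hη : 0 < η) (hsep : ∀ c, J c ≠ 0 → η ≤ ‖J c‖)
    (hbd : ∀ c : ι → ℤ, (∀ i, |c i| ≤ B) → ‖J c‖ ≤ r)
    (E' : Submodule ℝ E) [FiniteDimensional ℝ E'] (hE' : ∀ c, J c ∈ E') (ρ : ℕ)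
    (hρ : finrank ℝ E' ≤ ρ)
    (W : Submodule ℚ (ι → ℚ))
    (hW : ∀ c : ι → ℤ, (∀ i, |c i| ≤ B) → J c = 0 → (fun i => (c i : ℚ)) ∈ W) :
    ((B : ℝ) + 1) ^ (Fintype.card ι - finrank ℚ W) ≤ (1 + 2 * r / η) ^ ρ := by
  classical
  set q : ι → (ι → ℚ) ⧸ W := fun i => W.mkQ (Pi.single i 1) with hq
  obtain ⟨κ, a, ha, hspan, hlin⟩ := exists_linearIndependent' ℚ q
  have hfin : Finite κ := Finite.of_injective a ha
  have : Fintype κ := Fintype.ofFinite κ
  have hspan2 : Submodule.span ℚ (Set.range q) = ⊤ := by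
    have h1 : Submodule.span ℚ (Set.range fun i : ι => (Pi.single i (1 : ℚ) : ι → ℚ)) = ⊤ := by
      have h0 : (fun i : ι => (Pi.single i (1 : ℚ) : ι → ℚ)) = ⇑(Pi.basisFun ℚ ι) := by
        funext i
        rw [Pi.basisFun_apply]
      rw [h0]
      exact (Pi.basisFun ℚ ι).span_eq
    have h2 : Set.range q = W.mkQ '' (Set.range fun i : ι => (Pi.single i (1 : ℚ) : ι → ℚ)) := by
      rw [← Set.range_comp]
      rfl
    rw [h2, ← Submodule.map_span, h1, Submodule.map_top, Submodule.range_mkQ]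
  have hcard : Fintype.card κ = Fintype.card ι - finrank ℚ W := by
    have h1 : finrank ℚ ((ι → ℚ) ⧸ W) = Fintype.card κ := by
      have b := Module.Basis.mk hlin (by rw [hspan, hspan2])
      exact Module.finrank_eq_card_basis b
    have h2 := Submodule.finrank_quotient_add_finrank W
    rw [h1, Module.finrank_fintype_fun_eq_card] at h2
    omega
  set cf : (κ → Fin (B + 1)) → ι → ℤ := fun f => ∑ k, Pi.single (a k) ((f k : ℕ) : ℤ) with hcf
  have hcfa : ∀ f k, cf f (a k) = ((f k : ℕ) : ℤ) := by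
    intro f k
    simp only [hcf, Finset.sum_apply]
    rw [Finset.sum_eq_single k]
    · simp
    · intro k' _ hk'
      rw [Pi.single_apply, if_neg]
      intro h
      exact hk' (ha h.symm)
    · simp
  have hcf0 : ∀ f i, (∀ k, a k ≠ i) → cf f i = 0 := by
    intro f i hi
    simp only [hcf, Finset.sum_apply]
    refine Finset.sum_eq_zero fun k _ => ?_
    rw [Pi.single_apply, if_neg]
    exact fun h => hi k h.symm
  have hdiff : ∀ f g i, |(cf f - cf g) i| ≤ B := by
    intro f g i
    by_cases hi : ∃ k, a k = i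
    · obtain ⟨k, rfl⟩ := hi
      rw [Pi.sub_apply, hcfa, hcfa, abs_le]
      have h1 := (f k).2
      have h2 := (g k).2
      constructor <;> omega
    · push Not at hi
      rw [Pi.sub_apply, hcf0 f i hi, hcf0 g i hi]
      simp
  have hbox : ∀ f i, |cf f i| ≤ B := by
    intro f i
    by_cases hi : ∃ k, a k = i
    · obtain ⟨k, rfl⟩ := hi
      rw [hcfa, abs_le]
      have h1 := (f k).2
      constructor <;> omega
    · push Not at hi
      rw [hcf0 f i hi]
      simp
  have hinj : Function.Injective fun f => (⟨J (cf f), hE' _⟩ : E') := by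
    intro f g hfg
    have hfg' : J (cf f) = J (cf g) := congrArg Subtype.val hfg
    have h1 : J (cf f - cf g) = 0 := by rw [map_sub, hfg', sub_self]
    have h2 := hW _ (hdiff f g) h1
    have h3 : ∑ k, (((f k : ℕ) : ℚ) - ((g k : ℕ) : ℚ)) • (q ∘ a) k = 0 := by
      have h4 : (fun i => (((cf f - cf g) i : ℤ) : ℚ)) =
          ∑ k, (((f k : ℕ) : ℚ) - ((g k : ℕ) : ℚ)) • (Pi.single (a k) (1 : ℚ) : ι → ℚ) := by
        funext i
        simp only [hcf, Pi.sub_apply, Finset.sum_apply, Int.cast_sub, Int.cast_sum, Pi.smul_apply,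
          smul_eq_mul]
        rw [← Finset.sum_sub_distrib]
        refine Finset.sum_congr rfl fun k _ => ?_
        by_cases hik : i = a k
        · subst hik
          simp
        · simp [Pi.single_apply, hik]
      have h5 : W.mkQ (fun i => (((cf f - cf g) i : ℤ) : ℚ)) = 0 := by
        rw [Submodule.mkQ_apply, Submodule.Quotient.mk_eq_zero]
        exact h2
      rw [h4, map_sum] at h5
      simpa only [map_smul, hq, Function.comp] using h5
    have h6 := Fintype.linearIndependent_iff.mp hlin _ h3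
    funext k
    have h7 := h6 k
    have h8 : ((f k : ℕ) : ℚ) = ((g k : ℕ) : ℚ) := by linarith
    exact Fin.ext (by exact_mod_cast h8)
  set s : Finset E' := Finset.univ.image fun f => (⟨J (cf f), hE' _⟩ : E') with hs
  have hscard : s.card = (B + 1) ^ Fintype.card κ := by
    rw [hs, Finset.card_image_of_injective _ hinj, Finset.card_univ, Fintype.card_fun,
      Fintype.card_fin]
  have hp := pack s r η hr hη (by
    intro c hc
    rw [hs, Finset.mem_image] at hc
    obtain ⟨f, _, rfl⟩ := hc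
    exact hbd _ (hbox f)) (by
    intro c hc d hd hcd
    rw [hs, Finset.mem_image] at hc hd
    obtain ⟨f, _, rfl⟩ := hc
    obtain ⟨g, _, rfl⟩ := hd
    have : J (cf f - cf g) ≠ 0 := by
      intro h0
      apply hcd
      rw [map_sub, sub_eq_zero] at h0
      exact Subtype.ext h0
    have h1 := hsep _ this
    rw [map_sub] at h1
    exact h1)
  rw [hscard, hcard] at hp
  push_cast at hp
  refine hp.trans (pow_le_pow_right₀ ?_ hρ)
  have : 0 ≤ 2 * r / η := by positivity
  linarith

end Pool.Agent.H776GM
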