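import Pool.Agent.H776GM.Disc
import Pool.Agent.H776GM.Pack

/-!
# Heights and extrapolation
-/

set_option autoImplicit false

namespace Pool.Agent.H776GM

open Polynomial NumberField Finset Pool.Agent.H225R3.Marg

variable {K : Type} [Field K] [NumberField K]

theorem one_le_norm_prod (x : 𝓞 K) (hx : x ≠ 0) : 1 ≤ ∏ w : K →+* ℂ, ‖emb w x‖ := by
  rw [← norm_int_eq]
  have : 0 < (Algebra.norm ℤ x).natAbs := Int.natAbs_pos.mpr (Algebra.norm_ne_zero_iff.mpr hx)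
  exact_mod_cast this

theorem prod_max (a : 𝓞 K) (s : ℕ) (hs : (univ.filter fun w : K →+* ℂ => ‖emb w a‖ ≠ 1).card ≤ s)
    (hle : ∀ w : K →+* ℂ, ‖emb w a‖ ≤ Real.exp 1) (M : ℕ) :
    ∏ w : K →+* ℂ, (max 1 ‖emb w a‖) ^ M ≤ Real.exp ((s * M : ℕ) : ℝ) := by
  have h1 : ∏ w : K →+* ℂ, max 1 ‖emb w a‖ =
      ∏ w ∈ univ.filter (fun w : K →+* ℂ => ‖emb w a‖ ≠ 1), max 1 ‖emb w a‖ := by
    rw [Finset.prod_filter_of_ne]
    intro x _ hx h
    rw [h, max_self] at hx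
    exact hx rfl
  have h2 : ∏ w : K →+* ℂ, max 1 ‖emb w a‖ ≤ Real.exp s := by
    rw [h1]
    calc ∏ w ∈ univ.filter (fun w : K →+* ℂ => ‖emb w a‖ ≠ 1), max 1 ‖emb w a‖
        ≤ ∏ _w ∈ univ.filter (fun w : K →+* ℂ => ‖emb w a‖ ≠ 1), Real.exp 1 :=
          Finset.prod_le_prod (fun x _ => le_trans zero_le_one (le_max_left _ _))
            fun x _ => max_le (Real.one_le_exp zero_le_one) (hle x)
      _ = Real.exp 1 ^ (univ.filter (fun w : K →+* ℂ => ‖emb w a‖ ≠ 1)).card := by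
          rw [Finset.prod_const]
      _ ≤ Real.exp 1 ^ s := pow_le_pow_right₀ (Real.one_le_exp zero_le_one) hs
      _ = Real.exp s := by rw [← Real.exp_nat_mul, mul_one]
  rw [Finset.prod_pow]
  calc (∏ w : K →+* ℂ, max 1 ‖emb w a‖) ^ M ≤ Real.exp s ^ M :=
        pow_le_pow_left₀ (Finset.prod_nonneg fun x _ => le_trans zero_le_one (le_max_left _ _)) h2 M
    _ = Real.exp ((s * M : ℕ) : ℝ) := by
        rw [← Real.exp_nat_mul]
        congr 1
        push_cast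
        ring

theorem ev_eq_jet {m n : ℕ} {R : Type*} [CommRing R] (c : Fin m × Fin n → ℤ) (x y : R) :
    ev c x y = jet c 0 0 x y := by
  simp [ev, jet]

theorem jet_bound {m n : ℕ} (c : Fin m × Fin n → ℤ) (B T : ℕ) (hc : ∀ p, |c p| ≤ B) (u v : ℕ)
    (hu : u ≤ T) (hv : v ≤ T) (x y : ℂ) :
    ‖jet c u v x y‖ ≤ ((m * n * B * (m * n) ^ T : ℕ) : ℝ) *
      ((max 1 ‖x‖) ^ m * (max 1 ‖y‖) ^ n) := by
  rw [jet]
  refine (norm_sum_le _ _).trans ?_
  have h1 : ∀ p : Fin m × Fin n, ‖(c p : ℂ) * (((p.1 : ℕ).choose u : ℂ) *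
      ((p.2 : ℕ).choose v : ℂ)) * x ^ ((p.1 : ℕ) - u) * y ^ ((p.2 : ℕ) - v)‖ ≤
      ((B * (m * n) ^ T : ℕ) : ℝ) * ((max 1 ‖x‖) ^ m * (max 1 ‖y‖) ^ n) := by
    intro p
    have hp1 := p.1.2
    have hp2 := p.2.2
    rw [norm_mul, norm_mul, norm_mul, norm_mul, norm_pow, norm_pow, Complex.norm_natCast,
      Complex.norm_natCast]
    have e1 : ‖(c p : ℂ)‖ ≤ B := by
      rw [Complex.norm_intCast]
      exact_mod_cast hc p
    have e2 : ((p.1 : ℕ).choose u : ℝ) ≤ (m : ℝ) ^ T := by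
      have h2 : (p.1 : ℕ).choose u ≤ m ^ T :=
        (Nat.choose_le_pow _ _).trans ((Nat.pow_le_pow_left hp1.le u).trans
          (Nat.pow_le_pow_right (by omega) hu))
      exact_mod_cast h2
    have e3 : ((p.2 : ℕ).choose v : ℝ) ≤ (n : ℝ) ^ T := by
      have h2 : (p.2 : ℕ).choose v ≤ n ^ T :=
        (Nat.choose_le_pow _ _).trans ((Nat.pow_le_pow_left hp2.le v).trans
          (Nat.pow_le_pow_right (by omega) hv))
      exact_mod_cast h2
    have e4 : ∀ (z : ℂ) (i k : ℕ), i ≤ k → ‖z‖ ^ i ≤ (max 1 ‖z‖) ^ k := by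
      intro z i k hik
      exact (pow_le_pow_left₀ (norm_nonneg _) (le_max_right _ _) i).trans
        (pow_le_pow_right₀ (le_max_left _ _) hik)
    have e5 := e4 x ((p.1 : ℕ) - u) m (by omega)
    have e6 := e4 y ((p.2 : ℕ) - v) n (by omega)
    calc ‖(c p : ℂ)‖ * (((p.1 : ℕ).choose u : ℝ) * ((p.2 : ℕ).choose v : ℝ)) *
          ‖x‖ ^ ((p.1 : ℕ) - u) * ‖y‖ ^ ((p.2 : ℕ) - v)
        ≤ B * ((m : ℝ) ^ T * (n : ℝ) ^ T) * (max 1 ‖x‖) ^ m * (max 1 ‖y‖) ^ n := by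
          gcongr
      _ = _ := by
          push_cast
          ring
  refine (Finset.sum_le_sum fun p _ => h1 p).trans ?_
  rw [Finset.sum_const, Finset.card_univ, Fintype.card_prod, Fintype.card_fin, Fintype.card_fin,
    nsmul_eq_mul]
  apply le_of_eq
  push_cast
  ring

section main

variable (a b : 𝓞 K) (s : ℕ)
  (hsa : (univ.filter fun w : K →+* ℂ => ‖emb w a‖ ≠ 1).card ≤ s)
  (hsb : (univ.filter fun w : K →+* ℂ => ‖emb w b‖ ≠ 1).card ≤ s)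
  (hla : ∀ w : K →+* ℂ, ‖emb w a‖ ≤ Real.exp 1)
  (hlb : ∀ w : K →+* ℂ, ‖emb w b‖ ≤ Real.exp 1)

include hsa hsb hla hlb

theorem prod_A (k m n : ℕ) (h : s * (k * m + k * n) ≤ Module.finrank ℚ K) :
    ∏ w : K →+* ℂ, ((max 1 ‖emb w (a ^ k)‖) ^ m * (max 1 ‖emb w (b ^ k)‖) ^ n) ≤
      Real.exp (Module.finrank ℚ K) := by
  have h1 : ∀ (x : 𝓞 K) (w : K →+* ℂ) (i : ℕ), (max 1 ‖emb w (x ^ k)‖) ^ i ≤
      (max 1 ‖emb w x‖) ^ (k * i) := by
    intro x w i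
    rw [pow_mul]
    refine pow_le_pow_left₀ (le_trans zero_le_one (le_max_left _ _)) ?_ i
    rw [map_pow, norm_pow]
    refine max_le (one_le_pow₀ (le_max_left _ _)) ?_
    exact pow_le_pow_left₀ (norm_nonneg _) (le_max_right _ _) k
  have h0 : ∀ z : ℝ, (0 : ℝ) ≤ max 1 z := fun z => le_trans zero_le_one (le_max_left _ _)
  calc ∏ w : K →+* ℂ, ((max 1 ‖emb w (a ^ k)‖) ^ m * (max 1 ‖emb w (b ^ k)‖) ^ n)
      ≤ ∏ w : K →+* ℂ, ((max 1 ‖emb w a‖) ^ (k * m) * (max 1 ‖emb w b‖) ^ (k * n)) := by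
        refine Finset.prod_le_prod (fun w _ => mul_nonneg (pow_nonneg (h0 _) _)
          (pow_nonneg (h0 _) _)) fun w _ => ?_
        exact mul_le_mul (h1 a w m) (h1 b w n) (pow_nonneg (h0 _) _) (pow_nonneg (h0 _) _)
    _ = (∏ w : K →+* ℂ, (max 1 ‖emb w a‖) ^ (k * m)) *
          ∏ w : K →+* ℂ, (max 1 ‖emb w b‖) ^ (k * n) := Finset.prod_mul_distrib
    _ ≤ Real.exp ((s * (k * m) : ℕ) : ℝ) * Real.exp ((s * (k * n) : ℕ) : ℝ) :=
        mul_le_mul (prod_max a s hsa hla _) (prod_max b s hsb hlb _)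
          (Finset.prod_nonneg fun w _ => pow_nonneg (h0 _) _) (Real.exp_pos _).le
    _ = Real.exp ((s * (k * m + k * n) : ℕ) : ℝ) := by
        rw [← Real.exp_add]
        congr 1
        push_cast
        ring
    _ ≤ _ := Real.exp_le_exp.mpr (by exact_mod_cast h)

theorem norm_ev_le (k m n B : ℕ) (h : s * (k * m + k * n) ≤ Module.finrank ℚ K)
    (c : Fin m × Fin n → ℤ) (hc : ∀ p, |c p| ≤ B) :
    ((Algebra.norm ℤ (ev c (a ^ k) (b ^ k))).natAbs : ℝ) ≤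
      (((m * n * B : ℕ) : ℝ) * Real.exp 1) ^ Module.finrank ℚ K := by
  rw [norm_int_eq]
  have h0 : ∀ z : ℝ, (0 : ℝ) ≤ max 1 z := fun z => le_trans zero_le_one (le_max_left _ _)
  calc ∏ w : K →+* ℂ, ‖emb w (ev c (a ^ k) (b ^ k))‖
      ≤ ∏ w : K →+* ℂ, (((m * n * B : ℕ) : ℝ) *
          ((max 1 ‖emb w (a ^ k)‖) ^ m * (max 1 ‖emb w (b ^ k)‖) ^ n)) := by
        refine Finset.prod_le_prod (fun w _ => norm_nonneg _) fun w _ => ?_
        rw [map_ev, ev_eq_jet]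
        have := jet_bound c B 0 hc 0 0 le_rfl le_rfl (emb w (a ^ k)) (emb w (b ^ k))
        rwa [pow_zero, mul_one] at this
    _ = ((m * n * B : ℕ) : ℝ) ^ Module.finrank ℚ K *
          ∏ w : K →+* ℂ, ((max 1 ‖emb w (a ^ k)‖) ^ m * (max 1 ‖emb w (b ^ k)‖) ^ n) := by
        rw [Finset.prod_mul_distrib, Finset.prod_const, Finset.card_univ,
          NumberField.Embeddings.card]
    _ ≤ ((m * n * B : ℕ) : ℝ) ^ Module.finrank ℚ K * Real.exp (Module.finrank ℚ K) :=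
        mul_le_mul_of_nonneg_left (prod_A a b s hsa hsb hla hlb k m n h) (by positivity)
    _ = _ := by
        rw [mul_pow, ← Real.exp_nat_mul, mul_one]

/-- extrapolation without multiplicities -/
theorem extrap_one (k l m n B : ℕ) (hl : l.Prime)
    (h : s * (k * l * m + k * l * n) ≤ Module.finrank ℚ K)
    (c : Fin m × Fin n → ℤ) (hc : ∀ p, |c p| ≤ B) (h0 : ev c (a ^ k) (b ^ k) = 0)
    (hlt : ((m * n * B : ℕ) : ℝ) * Real.exp 1 < l) :
    ev c ((a ^ k) ^ l) ((b ^ k) ^ l) = 0 := by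
  by_contra hne
  have h1 := ev_frob c l hl (a ^ k) (b ^ k)
  rw [h0, zero_pow hl.ne_zero, sub_zero] at h1
  have h2 := norm_ev_le a b s hsa hsb hla hlb (k * l) m n B h c hc
  rw [pow_mul, pow_mul] at h2
  have h3 := map_dvd (Algebra.norm ℤ) h1
  have h4 : Algebra.norm ℤ (l : 𝓞 K) = (l : ℤ) ^ Module.finrank ℚ K := by
    have := Algebra.norm_algebraMap (R := ℤ) (S := 𝓞 K) (l : ℤ)
    rw [RingOfIntegers.rank] at this
    simpa using this
  rw [h4] at h3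
  have h5 : Algebra.norm ℤ (ev c ((a ^ k) ^ l) ((b ^ k) ^ l)) ≠ 0 :=
    Algebra.norm_ne_zero_iff.mpr hne
  have h6 := Nat.le_of_dvd (Int.natAbs_pos.mpr h5) (Int.natAbs_dvd_natAbs.mpr h3)
  rw [Int.natAbs_pow, Int.natAbs_natCast] at h6
  have h7 : ((l : ℝ)) ^ Module.finrank ℚ K ≤
      (((m * n * B : ℕ) : ℝ) * Real.exp 1) ^ Module.finrank ℚ K :=
    le_trans (by exact_mod_cast h6) h2
  have h8 := pow_lt_pow_left₀ hlt (by positivity)
    (Module.finrank_pos (R := ℚ) (M := K)).ne'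
  linarith

omit hsa hsb hla hlb in
theorem dlt_ne (hsa : (univ.filter fun w : K →+* ℂ => ‖emb w a‖ ≠ 1).card ≤ s)
    (hsb : (univ.filter fun w : K →+* ℂ => ‖emb w b‖ ≠ 1).card ≤ s)
    (hla : ∀ w : K →+* ℂ, ‖emb w a‖ ≤ Real.exp 1)
    (hlb : ∀ w : K →+* ℂ, ‖emb w b‖ ≤ Real.exp 1) :
    dlt (minpoly ℤ a) (minpoly ℤ b) a b ≠ 0 :=
  mul_ne_zero (quo_bound a s hsa hla).2 (quo_bound b s hsb hlb).2

omit hsa hsb hla hlb in
theorem minpoly_eval (a : 𝓞 K) :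
    ((minpoly ℤ a).map (Int.castRingHom (𝓞 K))).eval a = 0 := by
  have := minpoly.aeval ℤ a
  rwa [aeval_def, ← eval_map] at this

theorem norm_dlt_le :
    ((Algebra.norm ℤ (dlt (minpoly ℤ a) (minpoly ℤ b) a b)).natAbs : ℝ) ≤
      ((Module.finrank ℚ K : ℝ) * Real.exp s) ^ (4 * Module.finrank ℚ K) := by
  rw [norm_int_eq]
  simp only [dlt, map_mul, norm_mul, Finset.prod_mul_distrib]
  have h1 := (quo_bound a s hsa hla).1
  have h2 := (quo_bound b s hsb hlb).1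
  calc _ ≤ ((Module.finrank ℚ K : ℝ) * Real.exp s) ^ (2 * Module.finrank ℚ K) *
        ((Module.finrank ℚ K : ℝ) * Real.exp s) ^ (2 * Module.finrank ℚ K) :=
        mul_le_mul h1 h2 (Finset.prod_nonneg fun w _ => norm_nonneg _) (by positivity)
    _ = _ := by
        rw [← pow_add]
        congr 1
        ring

/-- the number of bad primes -/
theorem bad_primes (Y : ℕ) (𝔅 : Finset ℕ) (h𝔅 : ∀ p ∈ 𝔅, p.Prime ∧ Y ≤ p ∧
      (p : ℤ) ^ (Module.finrank ℚ K / 4 + 1) ∣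
        Algebra.norm ℤ (dlt (minpoly ℤ a) (minpoly ℤ b) a b)) :
    (Y : ℝ) ^ 𝔅.card ≤ ((Module.finrank ℚ K : ℝ) * Real.exp s) ^ 16 := by
  set D := Module.finrank ℚ K with hD
  have hDpos : 0 < D := Module.finrank_pos
  set N := Algebra.norm ℤ (dlt (minpoly ℤ a) (minpoly ℤ b) a b) with hN
  have hN0 : N ≠ 0 := Algebra.norm_ne_zero_iff.mpr (dlt_ne a b s hsa hsb hla hlb)
  have h1 : (∏ p ∈ 𝔅, p ^ (D / 4 + 1)) ∣ N.natAbs := by
    have h0 : (∏ p ∈ 𝔅, (p : ℤ) ^ (D / 4 + 1)) ∣ N := by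
      apply Finset.prod_dvd_of_coprime
      · intro p hp q hq hpq
        exact (Nat.isCoprime_iff_coprime.mpr
          ((Nat.coprime_primes (h𝔅 p hp).1 (h𝔅 q hq).1).mpr hpq)).pow
      · intro p hp
        exact (h𝔅 p hp).2.2
    have h01 := Int.natAbs_dvd_natAbs.mpr h0
    have h02 : (∏ p ∈ 𝔅, (p : ℤ) ^ (D / 4 + 1)).natAbs = ∏ p ∈ 𝔅, p ^ (D / 4 + 1) := by
      have : (∏ p ∈ 𝔅, (p : ℤ) ^ (D / 4 + 1)) = ((∏ p ∈ 𝔅, p ^ (D / 4 + 1) : ℕ) : ℤ) := by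
        push_cast
        rfl
      rw [this, Int.natAbs_natCast]
    rwa [h02] at h01
  have h2 := Nat.le_of_dvd (Int.natAbs_pos.mpr hN0) h1
  have h3 : Y ^ ((D / 4 + 1) * 𝔅.card) ≤ ∏ p ∈ 𝔅, p ^ (D / 4 + 1) := by
    rw [pow_mul, ← Finset.prod_const]
    exact Finset.prod_le_prod' fun p hp => Nat.pow_le_pow_left (h𝔅 p hp).2.1 _
  have h4 : ((Y : ℝ) ^ 𝔅.card) ^ (D / 4 + 1) ≤
      (((D : ℝ) * Real.exp s) ^ 16) ^ (D / 4 + 1) := by
    rw [← pow_mul, ← pow_mul, mul_comm 𝔅.card]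
    calc (Y : ℝ) ^ ((D / 4 + 1) * 𝔅.card) ≤ (N.natAbs : ℝ) := by exact_mod_cast h3.trans h2
      _ ≤ ((D : ℝ) * Real.exp s) ^ (4 * D) := norm_dlt_le a b s hsa hsb hla hlb
      _ ≤ ((D : ℝ) * Real.exp s) ^ (16 * (D / 4 + 1)) := by
          refine pow_le_pow_right₀ ?_ (by omega)
          have e1 : (1 : ℝ) ≤ D := by exact_mod_cast hDpos
          have e2 : (1 : ℝ) ≤ Real.exp s := Real.one_le_exp (Nat.cast_nonneg _)
          nlinarith
  exact le_of_pow_le_pow_left₀ (by omega) (by positivity) h4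

/-- extrapolation with multiplicities -/
theorem extrap (hgen : ∀ w w' : K →+* ℂ, emb w a = emb w' a → emb w b = emb w' b → w = w')
    (p T m n B : ℕ) (hp : p.Prime) (hT : 0 < T)
    (hgood : ¬ (p : ℤ) ^ (Module.finrank ℚ K / 4 + 1) ∣
        Algebra.norm ℤ (dlt (minpoly ℤ a) (minpoly ℤ b) a b))
    (h : s * (p * m + p * n) ≤ Module.finrank ℚ K)
    (c : Fin m × Fin n → ℤ) (hc : ∀ p, |c p| ≤ B)
    (hjet : ∀ u < T, ∀ v < T, jet c u v a b = 0)
    (hlt : (((m * n * B : ℕ) : ℝ) * Real.exp 1) ^ 2 < (p : ℝ) ^ T) :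
    ev c (a ^ p) (b ^ p) = 0 := by
  by_contra hne
  obtain ⟨w0⟩ : Nonempty (K →+* ℂ) := inferInstance
  set D := Module.finrank ℚ K with hD
  have hDpos : 0 < D := Module.finrank_pos
  set δ := dlt (minpoly ℤ a) (minpoly ℤ b) a b with hδ
  set G := ev c (a ^ p) (b ^ p) with hG
  have h1 := main_dvd (minpoly ℤ a) (minpoly ℤ b) a b (minpoly_eval a) (minpoly_eval b) hgen w0
    p hp T hT c hjet
  rw [← hδ, ← hG] at h1
  have h2 := map_dvd (Algebra.norm ℤ) h1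
  have h3 : Algebra.norm ℤ (((p ^ T : ℕ)) : 𝓞 K) = (p : ℤ) ^ (T * D) := by
    have := Algebra.norm_algebraMap (R := ℤ) (S := 𝓞 K) ((p ^ T : ℕ) : ℤ)
    rw [RingOfIntegers.rank] at this
    rw [pow_mul]
    simpa using this
  rw [h3, map_mul, map_pow] at h2
  set N := Algebra.norm ℤ δ with hN
  have hN0 : N ≠ 0 := Algebra.norm_ne_zero_iff.mpr (dlt_ne a b s hsa hsb hla hlb)
  have hG0 : Algebra.norm ℤ G ≠ 0 := Algebra.norm_ne_zero_iff.mpr hne
  have hpp : Prime (p : ℤ) := Nat.prime_iff_prime_int.mp hp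
  have hfin : FiniteMultiplicity (p : ℤ) N := FiniteMultiplicity.of_prime_left hpp hN0
  obtain ⟨N', hN', hN'2⟩ := hfin.exists_eq_pow_mul_and_not_dvd
  set k := multiplicity (p : ℤ) N with hk
  have hk4 : k ≤ D / 4 := by
    by_contra hcon
    apply hgood
    rw [hN']
    exact (pow_dvd_pow _ (by omega)).trans (dvd_mul_right _ _)
  have h4 : (p : ℤ) ^ (T * D - 2 * T * k) ∣ Algebra.norm ℤ G := by
    have h5 : 2 * T * k ≤ T * D := by
      have : 2 * k ≤ D := by omega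
      calc 2 * T * k = T * (2 * k) := by ring
        _ ≤ T * D := Nat.mul_le_mul_left _ this
    have e1 : (p : ℤ) ^ (2 * T * k) * (p : ℤ) ^ (T * D - 2 * T * k) = (p : ℤ) ^ (T * D) := by
      rw [← pow_add]
      congr 1
      omega
    have e2 : (p : ℤ) ^ (2 * T * k) * (N' ^ (2 * T) * Algebra.norm ℤ G) =
        N ^ (2 * T) * Algebra.norm ℤ G := by
      have e3 : N ^ (2 * T) = (p : ℤ) ^ (2 * T * k) * N' ^ (2 * T) := by
        conv_lhs => rw [hN']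
        rw [mul_pow, ← pow_mul]
        congr 2
        ring
      rw [e3]
      ring
    rw [← e1, ← e2] at h2
    have h8 := (mul_dvd_mul_iff_left (pow_ne_zero (2 * T * k) hpp.ne_zero)).mp h2
    refine hpp.pow_dvd_of_dvd_mul_left _ ?_ h8
    intro h9
    exact hN'2 (hpp.dvd_of_dvd_pow h9)
  have h5 := Nat.le_of_dvd (Int.natAbs_pos.mpr hG0) (Int.natAbs_dvd_natAbs.mpr h4)
  rw [Int.natAbs_pow, Int.natAbs_natCast] at h5
  have h6 := norm_ev_le a b s hsa hsb hla hlb p m n B h c hc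
  have h7 : ((p : ℝ)) ^ (T * D - 2 * T * k) ≤ (((m * n * B : ℕ) : ℝ) * Real.exp 1) ^ D :=
    le_trans (by exact_mod_cast h5) h6
  have hp1 : (1 : ℝ) ≤ p := by exact_mod_cast hp.one_le
  have h8 : ((p : ℝ) ^ T) ^ D ≤ ((((m * n * B : ℕ) : ℝ) * Real.exp 1) ^ 2) ^ D := by
    calc ((p : ℝ) ^ T) ^ D = (p : ℝ) ^ (T * D) := by rw [← pow_mul]
      _ ≤ (p : ℝ) ^ ((T * D - 2 * T * k) * 2) := by
          refine pow_le_pow_right₀ hp1 ?_
          have : 4 * k ≤ D := by omega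
          have h9 : T * (4 * k) ≤ T * D := Nat.mul_le_mul_left _ this
          have h10 : 2 * T * k * 2 = T * (4 * k) := by ring
          omega
      _ = ((p : ℝ) ^ (T * D - 2 * T * k)) ^ 2 := by rw [pow_mul]
      _ ≤ ((((m * n * B : ℕ) : ℝ) * Real.exp 1) ^ D) ^ 2 :=
          pow_le_pow_left₀ (by positivity) h7 2
      _ = _ := by
          rw [← pow_mul, ← pow_mul]
          congr 1
          ring
  have h9 := pow_lt_pow_left₀ hlt (by positivity) hDpos.ne'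
  linarith

end main

end Pool.Agent.H776GM
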