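import Pool.Agent.H776GM.Short

/-!
# The eigenvalues of short elements are quadratic units up to powers
-/

set_option autoImplicit false

namespace Pool.Agent.H776GM

open Polynomial NumberField Finset Module Pool.Agent.H225R3.Marg

theorem quad_core {k L : Type} [Field k] [NumberField k] [Field L] [NumberField L] [Algebra k L]
    [Normal k L] {n : ℕ} (A : Matrix (Fin n) (Fin n) (𝓞 k)) (hA : IsUnit A)
    (hdep : ∀ α β : L, (A.charpoly.map ((algebraMap k L).comp (algebraMap (𝓞 k) k))).IsRoot α →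
      (A.charpoly.map ((algebraMap k L).comp (algebraMap (𝓞 k) k))).IsRoot β →
      ∃ u v : ℤ, (u, v) ≠ (0, 0) ∧ α ^ u * β ^ v = 1) :
    ∃ N : ℕ, 0 < N ∧ ∀ α : L,
      (A.charpoly.map ((algebraMap k L).comp (algebraMap (𝓞 k) k))).IsRoot α →
      ∃ t : 𝓞 k, (α ^ N) ^ 2 - algebraMap k L (t : k) * α ^ N + 1 = 0 := by
  classical
  haveI : FiniteDimensional k L := FiniteDimensional.right ℚ k L
  haveI : IsGalois k L := { to_isSeparable := inferInstance, to_normal := inferInstance }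
  set Q : L[X] := A.charpoly.map ((algebraMap k L).comp (algebraMap (𝓞 k) k)) with hQ
  have hQm : Q.Monic := A.charpoly_monic.map _
  have hQ2 : Q = (A.charpoly.map (algebraMap (𝓞 k) k)).map (algebraMap k L) := by
    rw [hQ, Polynomial.map_map]
  -- the conjugates
  have hτroot : ∀ (α : L) (τ : L ≃ₐ[k] L), Q.IsRoot α → Q.IsRoot (τ α) := by
    intro α τ hα
    rw [hQ2, IsRoot, eval_map] at hα ⊢
    have := congrArg τ hα
    rw [map_zero] at this
    have h4 : τ (eval₂ (algebraMap k L) α (A.charpoly.map (algebraMap (𝓞 k) k))) =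
        eval₂ (algebraMap k L) (τ α) (A.charpoly.map (algebraMap (𝓞 k) k)) := by
      have := (aeval_algHom_apply (τ : L →ₐ[k] L) α (A.charpoly.map (algebraMap (𝓞 k) k))).symm
      exact this
    rw [← h4]
    exact this
  have hN : ∀ (α : L) (τ : L ≃ₐ[k] L), ∃ N : ℕ, 0 < N ∧
      (Q.IsRoot α → (τ (α ^ N) = α ^ N ∨ τ (α ^ N) = (α ^ N)⁻¹)) := by
    intro α τ
    by_cases hα : Q.IsRoot α
    · by_cases h : ∀ N : ℕ, 0 < N → α ^ N ≠ 1
      · obtain ⟨hα0, hαi⟩ := unit_root A hA α hα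
        obtain ⟨u, v, huv, hd⟩ := hdep α (τ α) hα (hτroot α τ hα)
        obtain ⟨N, hN, h1⟩ := pow_eq α τ hα0 (int_root A α hα) hαi h u v huv hd
        exact ⟨N, hN, fun _ => h1⟩
      · push Not at h
        obtain ⟨N, hN, h1⟩ := h
        exact ⟨N, hN, fun _ => Or.inl (by rw [h1, map_one])⟩
    · exact ⟨1, one_pos, fun h => absurd h hα⟩
  choose N hN0 hN1 using hN
  set M := ∏ α ∈ Q.roots.toFinset, ∏ τ : L ≃ₐ[k] L, N α τ with hM
  have hM0 : 0 < M := Finset.prod_pos fun α _ => Finset.prod_pos fun τ _ => hN0 α τ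
  refine ⟨M, hM0, ?_⟩
  intro α hα
  have hM1 : ∀ τ : L ≃ₐ[k] L, τ (α ^ M) = α ^ M ∨ τ (α ^ M) = (α ^ M)⁻¹ := by
    intro τ
    have hmem : α ∈ Q.roots.toFinset := by
      rw [Multiset.mem_toFinset, mem_roots hQm.ne_zero]
      exact hα
    obtain ⟨c, hc⟩ := (Finset.dvd_prod_of_mem (N α) (Finset.mem_univ τ)).trans
      (Finset.dvd_prod_of_mem (fun α => ∏ τ : L ≃ₐ[k] L, N α τ) hmem)
    rw [← hM] at hc
    rcases hN1 α τ hα with h1 | h1
    · left
      rw [hc, pow_mul, map_pow, h1]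
    · right
      rw [hc, pow_mul, map_pow, h1, inv_pow]
  obtain ⟨hα0, hαi⟩ := unit_root A hA α hα
  have hαint := int_root A α hα
  have hfix : ∀ τ : L ≃ₐ[k] L, τ (α ^ M + (α ^ M)⁻¹) = α ^ M + (α ^ M)⁻¹ := by
    intro τ
    rcases hM1 τ with h1 | h1
    · rw [map_add, map_inv₀, h1]
    · rw [map_add, map_inv₀, h1, inv_inv, add_comm]
  obtain ⟨t, ht⟩ : ∃ t : k, algebraMap k L t = α ^ M + (α ^ M)⁻¹ := by
    have := (IsGalois.mem_bot_iff_fixed (F := k) (E := L) (α ^ M + (α ^ M)⁻¹)).mpr hfix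
    rw [IntermediateField.mem_bot] at this
    exact this
  have htint : IsIntegral ℤ t := by
    have h1 : IsIntegral ℤ (algebraMap k L t) := by
      rw [ht, ← inv_pow]
      exact (hαint.pow M).add (hαi.pow M)
    obtain ⟨p, hp, hp0⟩ := h1
    refine ⟨p, hp, ?_⟩
    apply (algebraMap k L).injective
    rw [map_zero, hom_eval₂, RingHom.ext_int ((algebraMap k L).comp (algebraMap ℤ k))
      (algebraMap ℤ L)]
    exact hp0
  obtain ⟨t', ht'⟩ : ∃ t' : 𝓞 k, (t' : k) = t := ⟨⟨t, htint⟩, rfl⟩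
  refine ⟨t', ?_⟩
  have hαM : α ^ M ≠ 0 := pow_ne_zero _ hα0
  rw [ht', ht]
  generalize α ^ M = x at hαM
  field_simp
  ring

theorem short_quad (C n : ℕ) {G : Type*} [Group G] [TopologicalSpace G] {M : ℕ}
    (ρ : G →* Matrix (Fin M) (Fin M) ℂ) (hρ : Continuous ρ) :
    ∃ U ∈ nhds (1 : G), ∀ (Γ : Subgroup G) (k : Type) [Field k] [NumberField k]
      (S : Finset (k →+* ℂ)) (R : Realization ρ Γ k n S),
      S.card ^ 400 ≤ C * finrank ℚ k → ∀ γ : Γ, (∃ g : G, ∃ u ∈ U, (γ : G) = g * u * g⁻¹) →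
      (∀ δ : Γ, (∃ g : G, ∃ u ∈ U, (δ : G) = g * u * g⁻¹) →
        ∀ (σ : k →+* ℂ) (l m : ℂ), IsEig (conjMat σ (R.r γ)) l → IsEig (conjMat σ (R.r δ)) m →
        ∃ a b : ℤ, (a, b) ≠ (0, 0) ∧ l ^ a * m ^ b = 1) ∧
      ∃ N : ℕ, 0 < N ∧ ∀ (σ : k →+* ℂ) (l : ℂ), IsEig (conjMat σ (R.r γ)) l →
        ∃ t : 𝓞 k, (l ^ N) ^ 2 - σ (t : k) * l ^ N + 1 = 0 := by
  classical
  obtain ⟨U1, hU1, h1⟩ := short_dep C n ρ hρ
  obtain ⟨U2, hU2, h2⟩ := short_complex C n ρ hρ
  refine ⟨U1 ∩ U2, Filter.inter_mem hU1 hU2, ?_⟩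
  intro Γ k _ _ S R hsize γ hγ
  obtain ⟨g, u, ⟨hu1, hu2⟩, hgu⟩ := hγ
  refine ⟨?_, ?_⟩
  · rintro δ ⟨g', u', ⟨hu1', hu2'⟩, hgu'⟩ σ l m hl hm
    exact h2 Γ k S R hsize γ δ ⟨g, u, hu2, hgu⟩ ⟨g', u', hu2', hgu'⟩ σ l m hl hm
  · set P : k[X] := (R.r γ).charpoly.map (algebraMap (𝓞 k) k) with hP
    obtain ⟨L, _, _, _, hsplit, hnormal⟩ : ∃ (L : Type) (_ : Field L) (_ : NumberField L)
        (_ : Algebra k L), (P.map (algebraMap k L)).Splits ∧ Normal k L := by
      haveI : CharZero P.SplittingField :=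
        charZero_of_injective_algebraMap (algebraMap k P.SplittingField).injective
      exact ⟨P.SplittingField, inferInstance, NumberField.of_module_finite k _, inferInstance,
        SplittingField.splits P, inferInstance⟩
    haveI : FiniteDimensional k L := FiniteDimensional.right ℚ k L
    have hPL : P.map (algebraMap k L) =
        (R.r γ).charpoly.map ((algebraMap k L).comp (algebraMap (𝓞 k) k)) := by
      rw [hP, Polynomial.map_map]
    rw [hPL] at hsplit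
    have hm : ((R.r γ).charpoly.map ((algebraMap k L).comp (algebraMap (𝓞 k) k))).Monic :=
      (R.r γ).charpoly_monic.map _
    obtain ⟨N, hN, hquad⟩ := quad_core (L := L) (R.r γ) ((Group.isUnit γ).map R.r)
      (fun α β hα hβ => h1 Γ k L S R hsize γ γ ⟨g, u, hu1, hgu⟩ ⟨g, u, hu1, hgu⟩ α β hα hβ)
    refine ⟨N, hN, fun σ l hl => ?_⟩
    obtain ⟨w, hw⟩ := extend_emb (algebraMap k L) (fun x => by
      have : IsIntegral k x := Algebra.IsIntegral.isIntegral x
      exact this) σ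
    have h3 : ((emb σ).mapMatrix (R.r γ)).charpoly =
        ((R.r γ).charpoly.map ((algebraMap k L).comp (algebraMap (𝓞 k) k))).map w := by
      rw [Polynomial.map_map, ← RingHom.comp_assoc, hw, ← Matrix.charpoly_map]; rfl
    have h4 : l ∈ (((R.r γ).charpoly.map ((algebraMap k L).comp
        (algebraMap (𝓞 k) k))).map w).roots := by
      rw [mem_roots (hm.map w).ne_zero, ← h3]
      exact hl
    rw [hsplit.roots_map, Multiset.mem_map] at h4
    obtain ⟨α, h5, h6⟩ := h4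
    obtain ⟨t, ht⟩ := hquad α ((mem_roots hm.ne_zero).mp h5)
    refine ⟨t, ?_⟩
    have h7 := congrArg w ht
    rw [map_add, map_sub, map_mul, map_pow, map_pow, map_one, map_zero, h6] at h7
    have h8 : w (algebraMap k L (t : k)) = σ (t : k) := RingHom.congr_fun hw (t : k)
    rw [h8] at h7
    exact h7

end Pool.Agent.H776GM
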