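import Pool.Agent.H776GM.Grow
import Pool.Agent.H776GM.Quad

/-!
# Elements of length up to a power of the degree
-/

set_option autoImplicit false

namespace Pool.Agent.H776GM

open Polynomial NumberField Finset Module Pool.Agent.H225R3.Marg

theorem dep_long (e : ℕ) (he : e = 3000) (C n : ℕ) : ∃ c : ℝ, 0 < c ∧
    ∀ (k L : Type) [Field k] [Field L] [NumberField k] [NumberField L] [Algebra k L]
      (S : Finset (k →+* ℂ)) (A B : Matrix (Fin n) (Fin n) (𝓞 k)), S.Nonempty →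
      S.card ^ 400 ≤ C * finrank ℚ k → IsUnit A → IsUnit B →
      (∀ σ : k →+* ℂ, σ ∉ S → ∀ l : ℂ, ((emb σ).mapMatrix A).charpoly.IsRoot l → ‖l‖ = 1) →
      (∀ σ : k →+* ℂ, σ ∉ S → ∀ l : ℂ, ((emb σ).mapMatrix B).charpoly.IsRoot l → ‖l‖ = 1) →
      (∀ σ ∈ S, ∀ l : ℂ, ((emb σ).mapMatrix A).charpoly.IsRoot l →
        c * (1 + |Real.log ‖l‖|) ^ e < finrank ℚ k) →
      (∀ σ ∈ S, ∀ l : ℂ, ((emb σ).mapMatrix B).charpoly.IsRoot l →
        c * (1 + |Real.log ‖l‖|) ^ e < finrank ℚ k) →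
      ∀ α β : L, (A.charpoly.map ((algebraMap k L).comp (algebraMap (𝓞 k) k))).IsRoot α →
        (B.charpoly.map ((algebraMap k L).comp (algebraMap (𝓞 k) k))).IsRoot β →
        ∃ u v : ℤ, (u, v) ≠ (0, 0) ∧ α ^ u * β ^ v = 1 := by
  classical
  have he0 : e ≠ 0 := by omega
  obtain ⟨D0, hD0⟩ := dep_pair_h
  obtain ⟨d1, hd1⟩ : ∃ d1, d1 = D0 ^ 400 * C + C ^ 301 * ((n * n) ^ 300) ^ 400 := ⟨_, rfl⟩
  obtain ⟨c, hc⟩ : ∃ c : ℝ, c = max ((2 : ℝ) ^ e) d1 := ⟨_, rfl⟩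
  have hc2 : (2 : ℝ) ^ e ≤ c := hc ▸ le_max_left _ _
  have hcd : (d1 : ℝ) ≤ c := hc ▸ le_max_right _ _
  have hc0 : 0 < c := lt_of_lt_of_le (by positivity) hc2
  refine ⟨c, hc0, ?_⟩
  intro k L _ _ _ _ _ S A B hS hsize hA hB houtA houtB hinA hinB α β hα hβ
  have hdpos : 0 < finrank ℚ k := Module.finrank_pos
  obtain ⟨h, hh, hhd, hsize0⟩ := exists_size e he0 (finrank ℚ k) hdpos c hc2
  obtain ⟨σ0, hσ0⟩ := hS
  have : FiniteDimensional k L := FiniteDimensional.right ℚ k L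
  obtain ⟨w, hw⟩ := extend_emb (algebraMap k L) (fun x => by
    have : IsIntegral k x := Algebra.IsIntegral.isIntegral x
    exact this) σ0
  have hl0 := spec_root A (algebraMap k L) w α hα
  rw [hw] at hl0
  have hd : d1 ≤ finrank ℚ k := by
    have h1 := hinA σ0 hσ0 _ hl0
    have h2 : c ≤ c * (1 + |Real.log ‖w α‖|) ^ e := by
      refine le_mul_of_one_le_right hc0.le (one_le_pow₀ ?_)
      have := abs_nonneg (Real.log ‖w α‖)
      linarith
    have h3 : (d1 : ℝ) ≤ finrank ℚ k := (hcd.trans h2).trans h1.le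
    exact_mod_cast h3
  have hsize' : (S.card * (1 * finrank ℚ k)) ^ 400 ≤ C * finrank ℚ k ^ 401 := by
    rw [one_mul]
    calc (S.card * finrank ℚ k) ^ 400 = S.card ^ 400 * finrank ℚ k ^ 400 := mul_pow _ _ _
      _ ≤ (C * finrank ℚ k) * finrank ℚ k ^ 400 := Nat.mul_le_mul_right _ hsize
      _ = C * finrank ℚ k ^ 401 := by rw [mul_assoc, ← pow_succ']
  obtain ⟨e1, e2⟩ := sizes_h D0 C n S.card 1 (finrank ℚ k) h hdpos one_pos hsize'
    ((Nat.le_add_right _ _).trans (hd1 ▸ hd)) ((Nat.le_add_left _ _).trans (hd1 ▸ hd)) (he ▸ hhd)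
  have hne0 : ∀ A : Matrix (Fin n) (Fin n) (𝓞 k), IsUnit A → ∀ σ : k →+* ℂ, ∀ l : ℂ,
      ((emb σ).mapMatrix A).charpoly.IsRoot l → l ≠ 0 := by
    intro A hA σ l hl
    obtain ⟨B, hB⟩ := hA.exists_left_inv
    have h1 : (emb σ).mapMatrix B * (emb σ).mapMatrix A = 1 := by
      rw [← map_mul, hB, map_one]
    exact (root_inv _ _ h1 l hl).1
  exact hD0 k k L n A B (RingHom.id k) (RingHom.id k) S 1 h hh (one_mul _).symm hA hB houtA houtB
    (fun σ hσ l hl => hsize0 _ (hinA σ hσ l hl) (norm_pos_iff.mpr (hne0 A hA σ l hl)))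
    (fun σ hσ l hl => hsize0 _ (hinB σ hσ l hl) (norm_pos_iff.mpr (hne0 B hB σ l hl)))
    e1 e2 α β hα hβ

theorem long_quad (e : ℕ) (he : e = 3000) (C n : ℕ) : ∃ c : ℝ, 0 < c ∧
    ∀ {G : Type*} [Group G] {M : ℕ} (ρ : G →* Matrix (Fin M) (Fin M) ℂ) (Γ : Subgroup G)
      (k : Type) [Field k] [NumberField k] (S : Finset (k →+* ℂ)) (R : Realization ρ Γ k n S),
      S.card ^ 400 ≤ C * finrank ℚ k → ∀ γ : Γ,
      (∀ l : ℂ, IsEig (ρ γ) l → c * (1 + |Real.log ‖l‖|) ^ e < finrank ℚ k) →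
      (∀ δ : Γ, (∀ l : ℂ, IsEig (ρ δ) l → c * (1 + |Real.log ‖l‖|) ^ e < finrank ℚ k) →
        ∀ (σ : k →+* ℂ) (l m : ℂ), IsEig (conjMat σ (R.r γ)) l → IsEig (conjMat σ (R.r δ)) m →
        ∃ a b : ℤ, (a, b) ≠ (0, 0) ∧ l ^ a * m ^ b = 1) ∧
      ∃ N : ℕ, 0 < N ∧ ∀ (σ : k →+* ℂ) (l : ℂ), IsEig (conjMat σ (R.r γ)) l →
        ∃ t : 𝓞 k, (l ^ N) ^ 2 - σ (t : k) * l ^ N + 1 = 0 := by
  classical
  obtain ⟨c, hc, h⟩ := dep_long e he C n
  refine ⟨c, hc, ?_⟩
  intro G _ M ρ Γ k _ _ S R hsize γ hγ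
  have hunit : ∀ γ : Γ, IsUnit (R.r γ) := fun γ => (Group.isUnit γ).map R.r
  refine ⟨?_, ?_⟩
  · intro δ hδ σ l m hl hm
    obtain ⟨L, _, _, _, w, α, β, h1, h2, h3, h4⟩ := eig_lift (R.r γ) (R.r δ) σ l m hl hm
    obtain ⟨u, v, huv, hdep⟩ := h k L S (R.r γ) (R.r δ) R.nonempty hsize (hunit _) (hunit _)
      (fun σ hσ l hl => out_one R _ σ hσ l hl) (fun σ hσ l hl => out_one R _ σ hσ l hl)
      (fun σ hσ l hl => hγ l (R.eig σ hσ γ l hl)) (fun σ hσ l hl => hδ l (R.eig σ hσ δ l hl))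
      α β h1 h2
    refine ⟨u, v, huv, ?_⟩
    rw [← h3, ← h4, ← map_zpow₀, ← map_zpow₀, ← map_mul, hdep, map_one]
  · set P : k[X] := (R.r γ).charpoly.map (algebraMap (𝓞 k) k) with hP
    obtain ⟨L, _, _, _, hsplit, hnormal⟩ : ∃ (L : Type) (_ : Field L) (_ : NumberField L)
        (_ : Algebra k L), (P.map (algebraMap k L)).Splits ∧ Normal k L := by
      have : CharZero P.SplittingField :=
        charZero_of_injective_algebraMap (algebraMap k P.SplittingField).injective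
      exact ⟨P.SplittingField, inferInstance, NumberField.of_module_finite k _, inferInstance,
        SplittingField.splits P, inferInstance⟩
    have : FiniteDimensional k L := FiniteDimensional.right ℚ k L
    have hPL : P.map (algebraMap k L) =
        (R.r γ).charpoly.map ((algebraMap k L).comp (algebraMap (𝓞 k) k)) := by
      rw [hP, Polynomial.map_map]
    rw [hPL] at hsplit
    have hm : ((R.r γ).charpoly.map ((algebraMap k L).comp (algebraMap (𝓞 k) k))).Monic :=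
      (R.r γ).charpoly_monic.map _
    obtain ⟨N, hN, hquad⟩ := quad_core (L := L) (R.r γ) (hunit γ)
      (fun α β hα hβ => h k L S (R.r γ) (R.r γ) R.nonempty hsize (hunit _) (hunit _)
        (fun σ hσ l hl => out_one R _ σ hσ l hl) (fun σ hσ l hl => out_one R _ σ hσ l hl)
        (fun σ hσ l hl => hγ l (R.eig σ hσ γ l hl)) (fun σ hσ l hl => hγ l (R.eig σ hσ γ l hl))
        α β hα hβ)
    refine ⟨N, hN, fun σ l hl => ?_⟩
    obtain ⟨w, hw⟩ := extend_emb (algebraMap k L) (fun x => by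
      have : IsIntegral k x := Algebra.IsIntegral.isIntegral x
      exact this) σ
    have h3 : ((emb σ).mapMatrix (R.r γ)).charpoly =
        ((R.r γ).charpoly.map ((algebraMap k L).comp (algebraMap (𝓞 k) k))).map w := by
      rw [Polynomial.map_map, ← RingHom.comp_assoc, hw, ← Matrix.charpoly_map]; rfl
    have h4 : l ∈ (((R.r γ).charpoly.map ((algebraMap k L).comp
        (algebraMap (𝓞 k) k))).map w).roots := by
      rw [mem_roots (hm.map w).ne_zero, ← h3]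
      exact hl
    rw [hsplit.roots_map, Multiset.mem_map] at h4
    obtain ⟨α, h5, h6⟩ := h4
    obtain ⟨t, ht⟩ := hquad α ((mem_roots hm.ne_zero).mp h5)
    refine ⟨t, ?_⟩
    have h7 := congrArg w ht
    rw [map_add, map_sub, map_mul, map_pow, map_pow, map_one, map_zero, h6] at h7
    have h8 : w (algebraMap k L (t : k)) = σ (t : k) := RingHom.congr_fun hw (t : k)
    rw [h8] at h7
    exact h7

end Pool.Agent.H776GM
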