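import Pool.Agent.H776GM.Quad

/-!
# Groups in which every element has an eigenvalue of degree at least three
-/

set_option autoImplicit false

namespace Pool.Agent.H776GM

open Polynomial NumberField Finset Module Pool.Agent.H225R3.Marg

theorem uniform_three (C n : ℕ) {G : Type*} [Group G] [TopologicalSpace G] {M : ℕ}
    (ρ : G →* Matrix (Fin M) (Fin M) ℂ) (hρ : Continuous ρ) :
    UniformlyDiscrete (DegreeThreeFamily C n ρ) := by
  obtain ⟨U, hU, h⟩ := short_quad C n ρ hρ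
  refine ⟨U, hU, ?_⟩
  rintro Γ ⟨htf, k, _, _, S, R, hsize, hf⟩ g u hu hΓ
  by_contra hne
  obtain ⟨γ, hγ⟩ : ∃ γ : Γ, γ = ⟨g * u * g⁻¹, hΓ⟩ := ⟨_, rfl⟩
  have hγ1 : γ ≠ 1 := by
    rw [hγ]
    exact fun h => hne (congrArg Subtype.val h)
  obtain ⟨_, N, hN, hq⟩ := h Γ k S R hsize γ ⟨g, u, hu, by rw [hγ]⟩
  have hγN : γ ^ N ≠ 1 := by
    intro h
    have h4 : (γ : G) ^ N = 1 := congrArg Subtype.val h
    exact hγ1 (Subtype.ext (htf _ γ.2 N hN h4))
  obtain ⟨f, hf1, hf2, hf3⟩ := hf (γ ^ N) hγN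
  obtain ⟨σ⟩ : Nonempty (k →+* ℂ) := inferInstance
  have hdeg : (f.map σ).degree ≠ 0 := by
    rw [degree_map]
    intro h0
    have := natDegree_eq_zero_iff_degree_le_zero.mpr h0.le
    omega
  obtain ⟨z, hz⟩ := IsAlgClosed.exists_root (f.map σ) hdeg
  have hzr : ((emb σ).mapMatrix (R.r (γ ^ N))).charpoly.IsRoot z := by
    have h1 : ((emb σ).mapMatrix (R.r (γ ^ N))).charpoly =
        ((R.r (γ ^ N)).charpoly.map (algebraMap (𝓞 k) k)).map σ := by
      rw [Polynomial.map_map, ← Matrix.charpoly_map]; rfl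
    rw [h1]
    exact hz.dvd (Polynomial.map_dvd σ hf3)
  rw [map_pow, map_pow] at hzr
  obtain ⟨l, hl, hl2⟩ := eig_pow' _ N hN z hzr
  obtain ⟨t, ht⟩ := hq σ l hl
  rw [← hl2] at ht
  have hq2 : (X ^ 2 - Polynomial.C (t : k) * X + 1 : k[X]).natDegree ≤ 2 := by
    compute_degree
  have hq0 : (X ^ 2 - Polynomial.C (t : k) * X + 1 : k[X]) ≠ 0 := by
    intro h0
    have := congrArg (fun p => coeff p 2) h0
    simp [coeff_X, coeff_one] at this
  by_cases h5 : f ∣ (X ^ 2 - Polynomial.C (t : k) * X + 1 : k[X])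
  · have := natDegree_le_of_dvd h5 hq0
    omega
  · obtain ⟨a, b, hab⟩ := (hf1.coprime_iff_not_dvd).mpr h5
    have h6 := congrArg (fun p : k[X] => eval z (p.map σ)) hab
    simp only [Polynomial.map_add, Polynomial.map_mul, Polynomial.map_sub, Polynomial.map_pow,
      Polynomial.map_X, Polynomial.map_C, Polynomial.map_one, eval_add, eval_mul, eval_sub,
      eval_pow, eval_X, eval_C, eval_one] at h6
    rw [IsRoot] at hz
    rw [hz, ht, mul_zero, mul_zero, add_zero] at h6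
    exact zero_ne_one h6

end Pool.Agent.H776GM
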