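import Pool.Agent.H225R3.MargDefs

/-!
# Families of arithmetic groups whose elements have independent eigenvalues, by degree
-/

set_option autoImplicit false

namespace Pool.Agent.H776GM

open NumberField Pool.Agent.H225R3.Marg

/-- The torsion-free subgroups `Γ` with a realization `r` of size `n` over a number field `k` of
degree `d`, with `|S| ^ 400 ≤ C * d`, such that for every `γ ≠ 1` in `Γ` the characteristic
polynomial of `r γ` has an irreducible factor over `k` of degree at least `3`. -/
def DegreeThreeFamilyAt (C n d : ℕ) {G : Type*} [Group G] {M : ℕ}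
    (ρ : G →* Matrix (Fin M) (Fin M) ℂ) : Set (Subgroup G) :=
  {Γ | (∀ γ ∈ Γ, ∀ N : ℕ, 0 < N → γ ^ N = 1 → γ = 1) ∧
    ∃ (k : Type) (_ : Field k) (_ : NumberField k) (S : Finset (k →+* ℂ))
    (R : Realization ρ Γ k n S), Module.finrank ℚ k = d ∧ S.card ^ 400 ≤ C * d ∧
    ∀ γ : Γ, γ ≠ 1 → ∃ f : Polynomial k, Irreducible f ∧ 3 ≤ f.natDegree ∧
      f ∣ (R.r γ).charpoly.map (algebraMap (𝓞 k) k)}

/-- The torsion-free subgroups `Γ` with a realization `r` of size `n` over a number field `k` of
degree `d`, with `|S| ^ 400 ≤ C * d`, such that, for a division algebra `D` of odd dimension `N`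
over `k` and a map `f` from `Γ` to `D`, the characteristic polynomial of `r γ` is that of the left
multiplication by `f γ` on `D`, times `(X - 1) ^ (n - N)`, and this multiplication has
determinant `1`. -/
def OddDivisionFamilyAt (C n d : ℕ) {G : Type*} [Group G] {M : ℕ}
    (ρ : G →* Matrix (Fin M) (Fin M) ℂ) : Set (Subgroup G) :=
  {Γ | (∀ γ ∈ Γ, ∀ N : ℕ, 0 < N → γ ^ N = 1 → γ = 1) ∧
    ∃ (k : Type) (_ : Field k) (_ : NumberField k) (S : Finset (k →+* ℂ))
    (R : Realization ρ Γ k n S), Module.finrank ℚ k = d ∧ S.card ^ 400 ≤ C * d ∧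
    ∃ (D : Type) (_ : DivisionRing D) (_ : Algebra k D) (N : ℕ) (b : Module.Basis (Fin N) k D)
      (f : Γ → D), Odd N ∧
    ∀ γ : Γ, (R.r γ).charpoly.map (algebraMap (𝓞 k) k) =
        (Algebra.leftMulMatrix b (f γ)).charpoly * (Polynomial.X - 1) ^ (n - N) ∧
      (Algebra.leftMulMatrix b (f γ)).det = 1}

end Pool.Agent.H776GM
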