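import Pool.Agent.H776GM.Long
import Pool.Agent.H776GM.Quad2
import Pool.Agent.H776GM.ShortDefs2
import Pool.Agent.H776GM.Fam2

/-!
# Growth of the eigenvalues in the families without condition on the field
-/

set_option autoImplicit false

namespace Pool.Agent.H776GM

open Polynomial NumberField Finset Module Pool.Agent.H225R3.Marg

theorem three_contra {G : Type*} [Group G] {M : ℕ} {ρ : G →* Matrix (Fin M) (Fin M) ℂ}
    {Γ : Subgroup G} {k : Type} [Field k] [NumberField k] {n : ℕ} {S : Finset (k →+* ℂ)}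
    (R : Realization ρ Γ k n S) (htf : ∀ γ ∈ Γ, ∀ N : ℕ, 0 < N → γ ^ N = 1 → γ = 1)
    (hf : ∀ γ : Γ, γ ≠ 1 → ∃ f : Polynomial k, Irreducible f ∧ 3 ≤ f.natDegree ∧
      f ∣ (R.r γ).charpoly.map (algebraMap (𝓞 k) k)) (γ : Γ) (hγ1 : γ ≠ 1) (N : ℕ) (hN : 0 < N)
    (hq : ∀ (σ : k →+* ℂ) (l : ℂ), IsEig (conjMat σ (R.r γ)) l →
        ∃ t : 𝓞 k, (l ^ N) ^ 2 - σ (t : k) * l ^ N + 1 = 0) : False := by
  have hγN : γ ^ N ≠ 1 := by
    intro h
    have h4 : (γ : G) ^ N = 1 := congrArg Subtype.val h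
    exact hγ1 (Subtype.ext (htf _ γ.2 N hN h4))
  obtain ⟨f, hf1, hf2, hf3⟩ := hf (γ ^ N) hγN
  obtain ⟨σ⟩ : Nonempty (k →+* ℂ) := inferInstance
  have hdeg : (f.map σ).degree ≠ 0 := by
    rw [degree_map]
    intro h0
    have := natDegree_eq_zero_iff_degree_le_zero.mpr h0.le
    omega
  obtain ⟨z, hz⟩ := IsAlgClosed.exists_root (f.map σ) hdeg
  have hzr : ((emb σ).mapMatrix (R.r (γ ^ N))).charpoly.IsRoot z := by
    have h1 : ((emb σ).mapMatrix (R.r (γ ^ N))).charpoly =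
        ((R.r (γ ^ N)).charpoly.map (algebraMap (𝓞 k) k)).map σ := by
      rw [Polynomial.map_map, ← Matrix.charpoly_map]; rfl
    rw [h1]
    exact hz.dvd (Polynomial.map_dvd σ hf3)
  rw [map_pow, map_pow] at hzr
  obtain ⟨l, hl, hl2⟩ := eig_pow' _ N hN z hzr
  obtain ⟨t, ht⟩ := hq σ l hl
  rw [← hl2] at ht
  have hq2 : (X ^ 2 - Polynomial.C (t : k) * X + 1 : k[X]).natDegree ≤ 2 := by
    compute_degree
  have hq0 : (X ^ 2 - Polynomial.C (t : k) * X + 1 : k[X]) ≠ 0 := by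
    intro h0
    have := congrArg (fun p => coeff p 2) h0
    simp [coeff_X, coeff_one] at this
  by_cases h5 : f ∣ (X ^ 2 - Polynomial.C (t : k) * X + 1 : k[X])
  · have := natDegree_le_of_dvd h5 hq0
    omega
  · obtain ⟨a, b, hab⟩ := (hf1.coprime_iff_not_dvd).mpr h5
    have h6 := congrArg (fun p : k[X] => eval z (p.map σ)) hab
    simp only [Polynomial.map_add, Polynomial.map_mul, Polynomial.map_sub, Polynomial.map_pow,
      Polynomial.map_X, Polynomial.map_C, Polynomial.map_one, eval_add, eval_mul, eval_sub,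
      eval_pow, eval_X, eval_C, eval_one] at h6
    rw [IsRoot] at hz
    rw [hz, ht, mul_zero, mul_zero, add_zero] at h6
    exact zero_ne_one h6

theorem grow_three (e : ℕ) (he : e = 3000) (C n : ℕ) {G : Type*} [Group G] {M : ℕ}
    (ρ : G →* Matrix (Fin M) (Fin M) ℂ) : Grows ρ e fun d => DegreeThreeFamilyAt C n d ρ := by
  obtain ⟨c, hc, h⟩ := long_quad e he C n
  refine ⟨c, ?_⟩
  rintro d Γ ⟨htf, k, _, _, S, R, hkd, hsize, hf⟩ γ hγ hne
  subst hkd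
  by_contra hcon
  push Not at hcon
  obtain ⟨_, N, hN, hq⟩ := h ρ Γ k S R hsize ⟨γ, hγ⟩ hcon
  exact three_contra R htf hf ⟨γ, hγ⟩ (fun h => hne (congrArg Subtype.val h)) N hN hq

theorem grow_odd (e : ℕ) (he : e = 3000) (C n : ℕ) {G : Type*} [Group G] {M : ℕ}
    (ρ : G →* Matrix (Fin M) (Fin M) ℂ) : Grows ρ e fun d => OddDivisionFamilyAt C n d ρ := by
  obtain ⟨c, hc, h⟩ := long_quad e he C n
  refine ⟨c, ?_⟩
  rintro d Γ ⟨htf, k, _, _, S, R, hkd, hsize, D, _, _, N, b, f, hN, hf⟩ γ hγ hne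
  subst hkd
  by_contra hcon
  push Not at hcon
  obtain ⟨hdep, _⟩ := h ρ Γ k S R hsize ⟨γ, hγ⟩ hcon
  obtain ⟨h1, h2⟩ := hf ⟨γ, hγ⟩
  have hunit : IsUnit (R.r ⟨γ, hγ⟩) := (Group.isUnit (⟨γ, hγ⟩ : Γ)).map R.r
  have : Module.Finite k D := Module.Finite.of_basis b
  have hint : IsIntegral k (f ⟨γ, hγ⟩) := Algebra.IsIntegral.isIntegral _
  obtain ⟨σ, l, m, hl, hm, hlm⟩ := ind_of_field _ (odd_core hN (R.r ⟨γ, hγ⟩) hunit _ h2 (n - N) h1
    (minpoly k (f ⟨γ, hγ⟩)) (minpoly.irreducible hint)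
    (by rw [aeval_algHom_apply, minpoly.aeval, map_zero])
    (nil_pow R htf ⟨γ, hγ⟩ (fun h => hne (congrArg Subtype.val h))))
  obtain ⟨a, b, hab, hd⟩ := hdep ⟨γ, hγ⟩ hcon σ l m hl hm
  exact hlm a b hab hd

theorem disc_three (C n : ℕ) {G : Type*} [Group G] [TopologicalSpace G] {M : ℕ}
    (ρ : G →* Matrix (Fin M) (Fin M) ℂ) (hρ : Continuous ρ) :
    UniformlyDiscrete (⋃ d, DegreeThreeFamilyAt C n d ρ) := by
  obtain ⟨U, hU, h⟩ := uniform_three C n ρ hρ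
  refine ⟨U, hU, fun Γ hΓ => h Γ ?_⟩
  rw [Set.mem_iUnion] at hΓ
  obtain ⟨d, htf, k, _, _, S, R, hkd, hsize, hf⟩ := hΓ
  subst hkd
  exact ⟨htf, k, inferInstance, inferInstance, S, R, hsize, hf⟩

theorem disc_odd (C n : ℕ) {G : Type*} [Group G] [TopologicalSpace G] {M : ℕ}
    (ρ : G →* Matrix (Fin M) (Fin M) ℂ) (hρ : Continuous ρ) :
    UniformlyDiscrete (⋃ d, OddDivisionFamilyAt C n d ρ) := by
  obtain ⟨U, hU, h⟩ := uniform_ind C n ρ hρ
  refine ⟨U, hU, fun Γ hΓ => h Γ (odd_sub C n ρ ?_)⟩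
  rw [Set.mem_iUnion] at hΓ
  obtain ⟨d, htf, k, _, _, S, R, hkd, hsize, hf⟩ := hΓ
  subst hkd
  exact ⟨htf, k, inferInstance, inferInstance, S, R, hsize, hf⟩

end Pool.Agent.H776GM
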