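import Mathlib

/-!
# Parameters
-/

set_option autoImplicit false

namespace Pool.Agent.H776GM

open Filter Topology

theorem pw {v C k j n : ℕ} (hv : 1 ≤ v) (h : C ≤ v ^ k) (hn : k + j ≤ n) : C * v ^ j ≤ v ^ n :=
  calc C * v ^ j ≤ v ^ k * v ^ j := Nat.mul_le_mul_right _ h
    _ = v ^ (k + j) := (pow_add v k j).symm
    _ ≤ v ^ n := Nat.pow_le_pow_right hv hn

theorem params : ∃ v0 : ℕ, ∀ v ≥ v0, ∀ s : ℕ, s * s ≤ v → 200 ≤ v ∧ 10 ^ 12 * (s + 1) ≤ v ∧
    v ^ 18600000 < 2 ^ v ∧ (36 * s + 200) * v ^ 20 ≤ Nat.primeCounting (v ^ 21) := by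
  have h1 : ∀ᶠ v : ℕ in atTop, 10 ^ 30 ≤ v := eventually_ge_atTop (10 ^ 30)
  have h4 : ∀ᶠ v : ℕ in atTop, v ^ 18600000 < 2 ^ v := by
    have := tendsto_pow_const_div_const_pow_of_one_lt 18600000 (r := (2 : ℝ)) one_lt_two
    have h5 := this.eventually_lt_const zero_lt_one
    filter_upwards [h5] with v hv
    rw [div_lt_one (by positivity)] at hv
    exact_mod_cast hv
  have h5 : ∀ᶠ v : ℕ in atTop, Real.log v ≤ (1 / 9912) * Real.sqrt v := by
    have h6 := (isLittleO_log_rpow_atTop (show (0 : ℝ) < 1 / 2 by norm_num)).bound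
      (show (0 : ℝ) < 1 / 9912 by positivity)
    have h7 := tendsto_natCast_atTop_atTop (R := ℝ) |>.eventually h6
    filter_upwards [h7] with v hv
    rw [← Real.sqrt_eq_rpow, Real.norm_eq_abs, Real.norm_eq_abs,
      abs_of_nonneg (Real.sqrt_nonneg _)] at hv
    exact (le_abs_self _).trans hv
  have hall := h1.and (h4.and h5)
  obtain ⟨v0, hv0⟩ := eventually_atTop.mp hall
  refine ⟨v0, fun v hv s hsv => ?_⟩
  obtain ⟨e1', e4, e5'⟩ := hv0 v hv
  have e1 : 200 ≤ v := le_trans (by norm_num) e1'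
  have hvR : (200 : ℝ) ≤ v := by exact_mod_cast e1
  have hs2 : (s : ℝ) ≤ Real.sqrt v := by
    refine Real.le_sqrt_of_sq_le ?_
    rw [sq]
    exact_mod_cast hsv
  have hq1 : (10 : ℝ) ^ 15 ≤ Real.sqrt v := by
    refine Real.le_sqrt_of_sq_le ?_
    have : ((10 : ℝ) ^ 30) ≤ v := by exact_mod_cast e1'
    linarith [show ((10 : ℝ) ^ 15) ^ 2 = 10 ^ 30 by norm_num]
  have hq2 : Real.sqrt v * Real.sqrt v = v := Real.mul_self_sqrt (by positivity)
  have e2 : 10 ^ 12 * (s + 1) ≤ v := by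
    have : (10 : ℝ) ^ 12 * (s + 1) ≤ v := by nlinarith
    exact_mod_cast this
  refine ⟨e1, e2, e4, ?_⟩
  have e5 : (42 * (36 * s + 200)) * Real.log v ≤ v := by
    have g1 : (42 * (36 * (s : ℝ) + 200)) ≤ 9912 * Real.sqrt v := by
      linarith
    have g2 : 0 ≤ Real.log v := Real.log_nonneg (by linarith)
    calc (42 * (36 * s + 200)) * Real.log v ≤ (9912 * Real.sqrt v) * Real.log v :=
          mul_le_mul_of_nonneg_right g1 g2
      _ ≤ (9912 * Real.sqrt v) * ((1 / 9912) * Real.sqrt v) :=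
          mul_le_mul_of_nonneg_left e5' (by positivity)
      _ = Real.sqrt v * Real.sqrt v := by ring
      _ = v := hq2
  have hpi := Chebyshev.pi_ge (v ^ 21)
  have hlogv : 0 < Real.log v := Real.log_pos (by linarith)
  have hlog : Real.log ((v ^ 21 : ℕ) : ℝ) = 21 * Real.log v := by
    push_cast
    rw [Real.log_pow]
    norm_num
  rw [hlog] at hpi
  have hl1 : Real.log (((v ^ 21 : ℕ) : ℝ) + 1) ≤ (v : ℝ) ^ 21 / 10 := by
    have f1 : (((v ^ 21 : ℕ) : ℝ) + 1) ≤ 2 * (v : ℝ) ^ 21 := by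
      push_cast
      have : (1 : ℝ) ≤ (v : ℝ) ^ 21 := one_le_pow₀ (by linarith)
      linarith
    have f2 : Real.log (((v ^ 21 : ℕ) : ℝ) + 1) ≤ Real.log 2 + 21 * Real.log v := by
      refine (Real.log_le_log (by positivity) f1).trans ?_
      rw [Real.log_mul (by norm_num) (by positivity), Real.log_pow]
      norm_num
    have f3 : Real.log 2 ≤ 1 := by
      have := Real.log_two_lt_d9
      linarith
    have f4 : Real.log v ≤ v := (Real.log_le_self (by linarith))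
    have f5 : 22 * (v : ℝ) ≤ (v : ℝ) ^ 21 / 10 := by
      have f6 : (v : ℝ) ^ 2 ≤ (v : ℝ) ^ 21 := pow_le_pow_right₀ (by linarith) (by norm_num)
      have f7 : (v : ℝ) ^ 3 ≤ (v : ℝ) ^ 21 := pow_le_pow_right₀ (by linarith) (by norm_num)
      have f8 : (v : ℝ) ^ 3 = v * v ^ 2 := by ring
      nlinarith
    linarith
  have hnum : (v : ℝ) ^ 21 / 2 ≤ ((v ^ 21 : ℕ) : ℝ) * Real.log 2 -
      Real.log (((v ^ 21 : ℕ) : ℝ) + 1) := by
    have f1 := Real.log_two_gt_d9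
    have f2 : (0 : ℝ) < (v : ℝ) ^ 21 := by positivity
    push_cast at hl1 ⊢
    nlinarith
  have hfin : ((36 * s + 200 : ℝ)) * (v : ℝ) ^ 20 ≤ (v : ℝ) ^ 21 / 2 / (21 * Real.log v) := by
    rw [le_div_iff₀ (by positivity)]
    have g1 : (36 * s + 200 : ℝ) * (42 * Real.log v) ≤ v := by
      calc (36 * s + 200 : ℝ) * (42 * Real.log v) = 42 * (36 * s + 200) * Real.log v := by ring
        _ ≤ _ := e5
    have g2 : (0 : ℝ) < (v : ℝ) ^ 20 := by positivity
    nlinarith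
  have hle : ((36 * s + 200 : ℝ)) * (v : ℝ) ^ 20 ≤ (Nat.primeCounting (v ^ 21) : ℝ) := by
    refine hfin.trans (le_trans ?_ hpi)
    exact div_le_div_of_nonneg_right hnum (by positivity)
  exact_mod_cast hle

theorem pow100 (x : ℝ) (hx : 200 ≤ x) (n : ℕ) (hn : (n : ℝ) = 100) :
    (x + 1) ^ n ≤ 2 * x ^ n := by
  have h0 : (0 : ℝ) ≤ x := by linarith
  have e1 : x + 1 ≤ x * Real.exp (1 / 200) := by
    have h5 := Real.add_one_le_exp (1 / 200 : ℝ)
    have h6 := mul_le_mul_of_nonneg_left h5 h0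
    linarith
  have e4 : (Real.exp (1 / 200)) ^ n = Real.exp (1 / 2) := by
    rw [← Real.exp_nat_mul, hn]
    norm_num
  have e5 : Real.exp (1 / 2) ≤ 2 := by
    have e2 : Real.exp (1 / 2) * Real.exp (1 / 2) = Real.exp 1 := by
      rw [← Real.exp_add]
      norm_num
    have e3 := Real.exp_one_lt_d9
    nlinarith [Real.exp_pos (1 / 2)]
  have e6 := pow_le_pow_left₀ (by linarith : (0 : ℝ) ≤ x + 1) e1 n
  rw [mul_pow, e4] at e6
  have e7 := mul_le_mul_of_nonneg_left e5 (pow_nonneg h0 n)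
  linarith

theorem exists_v' (n : ℕ) (hn : (n : ℝ) = 100) (v0 D : ℕ) (h0 : 200 ≤ v0) (hD : v0 ^ n ≤ D) :
    ∃ v, v0 ≤ v ∧ v ^ n ≤ D ∧ D ≤ 2 * v ^ n := by
  classical
  have hn0 : n ≠ 0 := by
    rintro rfl
    norm_num at hn
  have hv0D : v0 ≤ D := (Nat.le_self_pow hn0 v0).trans hD
  obtain ⟨v, h1, h2, h3⟩ : ∃ v, v0 ≤ v ∧ v ^ n ≤ D ∧ D < (v + 1) ^ n := by
    refine ⟨Nat.findGreatest (fun k => k ^ n ≤ D) D, Nat.le_findGreatest hv0D hD,
      Nat.findGreatest_spec (P := fun k => k ^ n ≤ D) hv0D hD, ?_⟩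
    by_contra hcon
    push Not at hcon
    have h4 := (Nat.le_self_pow hn0 _).trans hcon
    have h5 := Nat.le_findGreatest (P := fun k => k ^ n ≤ D) h4 hcon
    omega
  refine ⟨v, h1, h2, h3.le.trans ?_⟩
  have hv200 : (200 : ℝ) ≤ v := by exact_mod_cast h0.trans h1
  have h4 := pow100 v hv200 n hn
  exact_mod_cast h4

theorem exists_v (v0 D : ℕ) (h0 : 200 ≤ v0) (hD : v0 ^ 100 ≤ D) :
    ∃ v, v0 ≤ v ∧ v ^ 100 ≤ D ∧ D ≤ 2 * v ^ 100 :=
  exists_v' 100 (by norm_num) v0 D h0 hD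

end Pool.Agent.H776GM
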