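import Pool.Agent.H776GM.Step2
import Pool.Agent.H776GM.Param

/-!
# The main theorem on heights
-/

set_option autoImplicit false

namespace Pool.Agent.H776GM

open Polynomial Polynomial.Bivariate NumberField Finset Module Pool.Agent.H225R3.Marg

theorem prime_set {K : Type} [Field K] [NumberField K] (a b : 𝓞 K) (s v : ℕ)
    (hsa : (univ.filter fun w : K →+* ℂ => ‖emb w a‖ ≠ 1).card ≤ s)
    (hsb : (univ.filter fun w : K →+* ℂ => ‖emb w b‖ ≠ 1).card ≤ s)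
    (hla : ∀ w : K →+* ℂ, ‖emb w a‖ ≤ Real.exp 1)
    (hlb : ∀ w : K →+* ℂ, ‖emb w b‖ ≤ Real.exp 1) (hv : 200 ≤ v)
    (hsv : s ≤ v) (hD : finrank ℚ K ≤ 2 * v ^ 100)
    (hpi : (36 * s + 200) * v ^ 20 ≤ Nat.primeCounting (v ^ 21)) :
    ∃ Λ : Finset ℕ, (∀ p ∈ Λ, p.Prime ∧ v ^ 20 < p ∧ p ≤ v ^ 21 ∧
      ¬ (p : ℤ) ^ (finrank ℚ K / 4 + 1) ∣
        Algebra.norm ℤ (dlt (minpoly ℤ a) (minpoly ℤ b) a b)) ∧
      (36 * s + 100) * v ^ 20 ≤ Λ.card := by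
  classical
  set N := Algebra.norm ℤ (dlt (minpoly ℤ a) (minpoly ℤ b) a b)
  set Q := Nat.primesLE (v ^ 21) with hQ
  have hQp : ∀ p ∈ Q, p.Prime ∧ p ≤ v ^ 21 := by
    intro p hp
    exact ⟨Nat.prime_of_mem_primesLE hp, Nat.le_of_mem_primesLE hp⟩
  set bad : ℕ → Prop := fun p => (p : ℤ) ^ (finrank ℚ K / 4 + 1) ∣ N with hbad
  set 𝔅 := Q.filter fun p => v ^ 20 < p ∧ bad p with h𝔅
  have hB := bad_primes a b s hsa hsb hla hlb (v ^ 20) 𝔅 (by
    intro p hp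
    rw [h𝔅, Finset.mem_filter] at hp
    exact ⟨(hQp p hp.1).1, hp.2.1.le, hp.2.2⟩)
  have hvR : (200 : ℝ) ≤ v := by exact_mod_cast hv
  have hBcard : 𝔅.card ≤ 81 + s := by
    by_contra hcon
    push Not at hcon
    have he3 : Real.exp 1 ≤ v := by
      have := Real.exp_one_lt_d9
      linarith
    have h1 : (finrank ℚ K : ℝ) * Real.exp s ≤ (v : ℝ) ^ (101 + s) := by
      have h2 : (finrank ℚ K : ℝ) ≤ 2 * (v : ℝ) ^ 100 := by exact_mod_cast hD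
      have h3 : Real.exp s ≤ (v : ℝ) ^ s := by
        have h4 : Real.exp s = (Real.exp 1) ^ s := by rw [← Real.exp_nat_mul, mul_one]
        rw [h4]
        exact pow_le_pow_left₀ (Real.exp_pos _).le he3 s
      calc (finrank ℚ K : ℝ) * Real.exp s ≤ (2 * (v : ℝ) ^ 100) * (v : ℝ) ^ s :=
            mul_le_mul h2 h3 (Real.exp_pos _).le (by positivity)
        _ = 2 * (v : ℝ) ^ (100 + s) := by rw [pow_add]; ring
        _ ≤ v * (v : ℝ) ^ (100 + s) := mul_le_mul_of_nonneg_right (by linarith) (by positivity)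
        _ = (v : ℝ) ^ (101 + s) := by rw [← pow_succ']; congr 1; ring
    have h2 : (((v ^ 20 : ℕ)) : ℝ) ^ 𝔅.card ≤ (v : ℝ) ^ ((101 + s) * 16) := by
      refine hB.trans ?_
      calc ((finrank ℚ K : ℝ) * Real.exp s) ^ 16 ≤ ((v : ℝ) ^ (101 + s)) ^ 16 :=
            pow_le_pow_left₀ (by positivity) h1 16
        _ = (v : ℝ) ^ ((101 + s) * 16) := by rw [← pow_mul]
    rw [Nat.cast_pow, ← pow_mul] at h2
    have h3 : (v : ℝ) ^ ((101 + s) * 16) < (v : ℝ) ^ (20 * 𝔅.card) :=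
      pow_lt_pow_right₀ (by linarith) (by omega)
    linarith
  refine ⟨Q.filter fun p => v ^ 20 < p ∧ ¬ bad p, ?_, ?_⟩
  · intro p hp
    rw [Finset.mem_filter] at hp
    exact ⟨(hQp p hp.1).1, hp.2.1, (hQp p hp.1).2, hp.2.2⟩
  · have hQcard : Q.card = Nat.primeCounting (v ^ 21) := Nat.primesLE_card_eq_primeCounting _
    have hsub : Q ⊆ (Q.filter fun p => v ^ 20 < p ∧ ¬ bad p) ∪ (𝔅 ∪ range (v ^ 20 + 1)) := by
      intro p hp
      rw [Finset.mem_union, Finset.mem_union, Finset.mem_filter, h𝔅, Finset.mem_filter,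
        Finset.mem_range]
      by_cases h1 : v ^ 20 < p
      · by_cases h2 : bad p
        · exact Or.inr (Or.inl ⟨hp, h1, h2⟩)
        · exact Or.inl ⟨hp, h1, h2⟩
      · exact Or.inr (Or.inr (by omega))
    have h1 := Finset.card_le_card hsub
    have h2 := Finset.card_union_le (Q.filter fun p => v ^ 20 < p ∧ ¬ bad p)
      (𝔅 ∪ range (v ^ 20 + 1))
    have h3 := Finset.card_union_le 𝔅 (range (v ^ 20 + 1))
    rw [Finset.card_range] at h3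
    have h4 : v ≤ v ^ 20 := Nat.le_self_pow (by norm_num) v
    have h5 : (36 * s + 200) * v ^ 20 = (36 * s + 100) * v ^ 20 + 100 * v ^ 20 := by ring
    omega

/-- **Main theorem on heights.** In a number field of large degree there are no two
multiplicatively independent elements of small height with small support. -/
theorem heights : ∃ D0 : ℕ, ∀ (K : Type) [Field K] [NumberField K],
    D0 ≤ finrank ℚ K → ∀ s : ℕ, 0 < s → s ^ 300 ≤ finrank ℚ K →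
    ∀ a b : 𝓞 K, a ≠ 0 → b ≠ 0 →
    (∀ w w' : K →+* ℂ, emb w a = emb w' a → emb w b = emb w' b → w = w') →
    (univ.filter fun w : K →+* ℂ => ‖emb w a‖ ≠ 1).card ≤ s →
    (univ.filter fun w : K →+* ℂ => ‖emb w b‖ ≠ 1).card ≤ s →
    (∀ w : K →+* ℂ, ‖emb w a‖ ≤ Real.exp 1) → (∀ w : K →+* ℂ, ‖emb w b‖ ≤ Real.exp 1) →
    (∀ u v : ℤ, (u, v) ≠ (0, 0) → ∃ w : K →+* ℂ, ‖emb w a‖ ^ u * ‖emb w b‖ ^ v ≠ 1) →
    False := by
  obtain ⟨v0, hv0⟩ := params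
  refine ⟨(max v0 200) ^ 100, ?_⟩
  intro K _ _ hDD s hs hsD a b ha0 hb0 hgen hsa hsb hla hlb hind
  obtain ⟨v, hv1, hv2, hv3⟩ := exists_v (max v0 200) (finrank ℚ K) (le_max_right _ _) hDD
  have hss : s * s ≤ v := by
    have hv200 : 200 ≤ v := (le_max_right _ _).trans hv1
    have q1 : (s * s) ^ 150 ≤ v ^ 150 := by
      calc (s * s) ^ 150 = s ^ 300 := by rw [← sq, ← pow_mul]
        _ ≤ finrank ℚ K := hsD
        _ ≤ 2 * v ^ 100 := hv3
        _ ≤ v ^ 101 := pw (by omega) (by rw [pow_one]; omega : 2 ≤ v ^ 1) (by norm_num)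
        _ ≤ v ^ 150 := Nat.pow_le_pow_right (by omega) (by norm_num)
    exact (Nat.pow_le_pow_iff_left (by norm_num)).mp q1
  obtain ⟨c1, c2, c4, c5⟩ := hv0 v ((le_max_left _ _).trans hv1) s hss
  set D := finrank ℚ K with hD
  obtain ⟨Λ, hΛ, hΛc⟩ := prime_set a b s v hsa hsb hla hlb c1 (by omega) hv3 c5
  have hvpos : 1 ≤ v := by omega
  have hvR : (200 : ℝ) ≤ v := by exact_mod_cast c1
  have hsv : ∀ C : ℕ, C ≤ 10 ^ 12 → C * s ≤ v ^ 1 := by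
    intro C hC
    rw [pow_one]
    calc C * s ≤ 10 ^ 12 * (s + 1) := Nat.mul_le_mul hC (Nat.le_succ s)
      _ ≤ v := c2
  have hCv : ∀ C : ℕ, C ≤ 10 ^ 12 → C ≤ v ^ 1 := by
    intro C hC
    rw [pow_one]
    calc C = C * 1 := (mul_one C).symm
      _ ≤ 10 ^ 12 * (s + 1) := Nat.mul_le_mul hC (by omega)
      _ ≤ v := c2
  have he3 : Real.exp 1 < 3 := by
    have := Real.exp_one_lt_d9
    linarith
  -- sizes
  have size1 : ∀ p m n : ℕ, p ≤ v ^ 21 → m ≤ v ^ 78 → n ≤ v ^ 78 → s * (p * m + p * n) ≤ D := by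
    intro p m n hp hm hn
    calc s * (p * m + p * n) ≤ s * (v ^ 21 * v ^ 78 + v ^ 21 * v ^ 78) :=
          Nat.mul_le_mul_left _ (Nat.add_le_add (Nat.mul_le_mul hp hm) (Nat.mul_le_mul hp hn))
      _ = (2 * s) * v ^ 99 := by ring
      _ ≤ v ^ 100 := pw hvpos (hsv 2 (by norm_num)) (by norm_num)
      _ ≤ D := hv2
  have hcD : 43700 * D ≤ 87400 * v ^ 100 := by omega
  have hpos : ∀ k : ℕ, 0 < v ^ k := fun k => Nat.pow_pos (by omega)
  have hW : ∀ m n : ℕ, (m = v ^ 60 ∧ n = v ^ 60) ∨ (m = v ^ 78 ∧ n = v ^ 42) ∨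
      (m = v ^ 42 ∧ n = v ^ 78) →
      ∃ W : Submodule ℚ ℚ[X][Y], W ≤ Box ℚ m n ∧ m * n ≤ finrank ℚ W + 43700 * D ∧
      ∀ F ∈ W, ∀ p ∈ Λ, EV (((a ^ p : 𝓞 K)) : K) (((b ^ p : 𝓞 K)) : K) F = 0 := by
    intro m n hmn
    have hmn2 : m * n = v ^ 120 := by
      rcases hmn with ⟨rfl, rfl⟩ | ⟨rfl, rfl⟩ | ⟨rfl, rfl⟩ <;> rw [← pow_add]
    have hm : m ≤ v ^ 78 := by
      rcases hmn with ⟨rfl, _⟩ | ⟨rfl, _⟩ | ⟨rfl, _⟩
      · exact Nat.pow_le_pow_right hvpos (by norm_num)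
      · exact le_rfl
      · exact Nat.pow_le_pow_right hvpos (by norm_num)
    have hn : n ≤ v ^ 78 := by
      rcases hmn with ⟨_, rfl⟩ | ⟨_, rfl⟩ | ⟨_, rfl⟩
      · exact Nat.pow_le_pow_right hvpos (by norm_num)
      · exact Nat.pow_le_pow_right hvpos (by norm_num)
      · exact le_rfl
    refine space a b s hsa hsb hla hlb hgen m n 15 (v ^ 20) (by norm_num) Λ ?_
      (size1 1 m n (Nat.one_le_pow _ _ (by omega)) hm hn) _ ?_
    · intro p hp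
      obtain ⟨p1, p2, p3, p4⟩ := hΛ p hp
      refine ⟨p1, p4, size1 p m n p3 hm hn, ?_⟩
      rw [hmn2]
      have e1 : ((v ^ 120 * v ^ 20 : ℕ) : ℝ) = (v : ℝ) ^ 140 := by
        push_cast
        rw [← pow_add]
      rw [e1]
      have e2 : (v : ℝ) ^ 20 < p := by exact_mod_cast p2
      calc ((v : ℝ) ^ 140 * Real.exp 1) ^ 2 = (v : ℝ) ^ 280 * (Real.exp 1) ^ 2 := by
            rw [mul_pow, ← pow_mul]
        _ ≤ (v : ℝ) ^ 280 * 9 := by
            refine mul_le_mul_of_nonneg_left ?_ (by positivity)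
            nlinarith [Real.exp_pos 1]
        _ ≤ (v : ℝ) ^ 280 * (v : ℝ) ^ 1 := by
            refine mul_le_mul_of_nonneg_left ?_ (by positivity)
            linarith
        _ = (v : ℝ) ^ 281 := by rw [← pow_add]
        _ ≤ (v : ℝ) ^ 300 := pow_le_pow_right₀ (by linarith) (by norm_num)
        _ = ((v : ℝ) ^ 20) ^ 15 := by rw [← pow_mul]
        _ < (p : ℝ) ^ 15 := pow_lt_pow_left₀ e2 (by positivity) (by norm_num)
    · rw [hmn2]
      have e1 : ((v ^ 120 * v ^ 20 * (v ^ 120) ^ 15 : ℕ) : ℝ) = (v : ℝ) ^ 1940 := by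
        push_cast
        rw [← pow_mul, ← pow_add, ← pow_add]
      rw [e1]
      have e2 : 1 + 2 * (v : ℝ) ^ 1940 * Real.exp 1 ≤ (v : ℝ) ^ 1941 := by
        have f1 : (1 : ℝ) ≤ (v : ℝ) ^ 1940 := one_le_pow₀ (by linarith)
        have f2 : (v : ℝ) ^ 1941 = (v : ℝ) ^ 1940 * v := pow_succ _ _
        rw [f2]
        nlinarith [Real.exp_pos 1]
      calc (1 + 2 * (v : ℝ) ^ 1940 * Real.exp 1) ^ (2 * 15 ^ 2 * finrank ℚ K)
          ≤ ((v : ℝ) ^ 1941) ^ (2 * 15 ^ 2 * finrank ℚ K) :=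
            pow_le_pow_left₀ (by positivity) e2 _
        _ = (v : ℝ) ^ (1941 * (2 * 15 ^ 2 * finrank ℚ K)) := by rw [← pow_mul]
        _ ≤ (v : ℝ) ^ (20 * (43700 * D + 1)) := by
            refine pow_le_pow_right₀ (by linarith) ?_
            omega
        _ = ((v : ℝ) ^ 20) ^ (43700 * D + 1) := by rw [← pow_mul]
        _ < (((v ^ 20 : ℕ) : ℝ) + 1) ^ (43700 * D + 1) := by
            refine pow_lt_pow_left₀ ?_ (by positivity) (by omega)
            push_cast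
            linarith
  have hcard : ∀ k : ℕ, k * (D / s) ≤ 2 * (v ^ 60 * v ^ 60) → 3 * k < Λ.card := by
    intro k hk
    have e1 : v ^ 60 * v ^ 60 = v ^ 120 := by rw [← pow_add]
    rw [e1] at hk
    have e2 : D < (D / s + 1) * s := by
      rw [mul_comm]
      exact Nat.lt_mul_div_succ D hs
    have e3 : s ≤ v ^ 100 := by
      calc s = s * 1 := (mul_one s).symm
        _ ≤ s * v ^ 99 := Nat.mul_le_mul_left _ (hpos 99)
        _ = (1 * s) * v ^ 99 := by ring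
        _ ≤ v ^ 100 := pw hvpos (hsv 1 (by norm_num)) (by norm_num)
    have e4 : 2 * s ≤ v ^ 100 := by
      calc 2 * s = (2 * s) * 1 := (mul_one _).symm
        _ ≤ (2 * s) * v ^ 99 := Nat.mul_le_mul_left _ (hpos 99)
        _ ≤ v ^ 100 := pw hvpos (hsv 2 (by norm_num)) (by norm_num)
    have e5 : v ^ 100 ≤ 2 * (D / s * s) := by
      have : (D / s + 1) * s = D / s * s + s := by ring
      omega
    have e6 : k * v ^ 100 ≤ 4 * s * v ^ 20 * v ^ 100 := by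
      calc k * v ^ 100 ≤ k * (2 * (D / s * s)) := Nat.mul_le_mul_left _ e5
        _ = (k * (D / s)) * (2 * s) := by ring
        _ ≤ (2 * v ^ 120) * (2 * s) := Nat.mul_le_mul_right _ hk
        _ = 4 * s * v ^ 20 * v ^ 100 := by ring
    have e7 : k ≤ 4 * s * v ^ 20 := Nat.le_of_mul_le_mul_right e6 (hpos 100)
    have e8 : 3 * k ≤ 12 * s * v ^ 20 := by
      calc 3 * k ≤ 3 * (4 * s * v ^ 20) := Nat.mul_le_mul_left _ e7
        _ = _ := by ring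
    have e9 : (36 * s + 100) * v ^ 20 = 12 * s * v ^ 20 + (24 * s * v ^ 20 + 100 * v ^ 20) := by
      ring
    have e10 := hpos 20
    omega
  have hexa : ∃ w : K →+* ℂ, ‖emb w a‖ ≠ 1 := by
    obtain ⟨w, hw⟩ := hind 1 0 (by simp)
    refine ⟨w, fun h => hw ?_⟩
    rw [h]
    simp
  have hbox : ∀ i j : ℕ, i + j = 100 → 43700 * D < (10 ^ 5 * v ^ i + 1) * v ^ j := by
    intro i j hij
    have e1 : (10 ^ 5 * v ^ i + 1) * v ^ j = 10 ^ 5 * v ^ 100 + v ^ j := by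
      rw [← hij, pow_add]
      ring
    rw [e1]
    have := hpos 100
    have := hpos j
    omega
  obtain ⟨p, hp, R, hR, hRe, hRx, hRy⟩ := small_curve a b s hsa ha0 hexa Λ
    (fun p hp => (hΛ p hp).1.ne_zero) (43700 * D) (v ^ 60) (v ^ 78) (v ^ 42)
    (by rw [← pow_add, ← pow_add])
    (by
      have e1 : v ^ 60 * v ^ 60 = v ^ 120 := by rw [← pow_add]
      rw [e1]
      calc 43700 * D ≤ 87400 * v ^ 100 := hcD
        _ < 87401 * v ^ 100 := by have := hpos 100; omega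
        _ ≤ v ^ 120 := pw hvpos (hCv 87401 (by norm_num)) (by norm_num))
    hW hcard (10 ^ 5 * v ^ 40) (10 ^ 5 * v ^ 58) (10 ^ 5 * v ^ 22)
    (hbox 40 60 rfl) (hbox 58 42 rfl) (hbox 22 78 rfl)
    (by
      have e1 : 10 ^ 5 * v ^ 40 * (10 ^ 5 * v ^ 22) + 10 ^ 5 * v ^ 58 * (10 ^ 5 * v ^ 40) +
          10 ^ 5 * v ^ 40 + 10 ^ 5 * v ^ 58 =
          10 ^ 10 * v ^ 62 + 10 ^ 10 * v ^ 98 + 10 ^ 5 * v ^ 40 + 10 ^ 5 * v ^ 58 := by ring
      rw [e1]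
      have f1 : v ^ 62 ≤ v ^ 98 := Nat.pow_le_pow_right hvpos (by norm_num)
      have f2 : v ^ 40 ≤ v ^ 98 := Nat.pow_le_pow_right hvpos (by norm_num)
      have f3 : v ^ 58 ≤ v ^ 98 := Nat.pow_le_pow_right hvpos (by norm_num)
      have f4 : 10 ^ 10 * v ^ 62 + 10 ^ 10 * v ^ 98 + 10 ^ 5 * v ^ 40 + 10 ^ 5 * v ^ 58 ≤
          3 * 10 ^ 10 * v ^ 98 := by omega
      calc s * (10 ^ 10 * v ^ 62 + 10 ^ 10 * v ^ 98 + 10 ^ 5 * v ^ 40 + 10 ^ 5 * v ^ 58)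
          ≤ s * (3 * 10 ^ 10 * v ^ 98) := Nat.mul_le_mul_left _ f4
        _ = (3 * 10 ^ 10 * s) * v ^ 98 := by ring
        _ ≤ v ^ 99 := pw hvpos (hsv (3 * 10 ^ 10) (by norm_num)) (by norm_num)
        _ < v ^ 100 := Nat.pow_lt_pow_right (by omega) (by norm_num)
        _ ≤ D := hv2)
  obtain ⟨p1, p2, p3, p4⟩ := hΛ p hp
  obtain ⟨l, hl, hl1, hl2⟩ := Nat.exists_prime_lt_and_le_two_mul (v ^ 47) (hpos 47).ne'
  refine no_curve a b s hsa hsb hla hlb ha0 hb0 hind p l (v ^ 23) (10 ^ 5 * v ^ 22)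
    p1.ne_zero hl R hR hRe hRx hRy
    (size1 p _ _ p3 (Nat.pow_le_pow_right hvpos (by norm_num))
      (Nat.pow_le_pow_right hvpos (by norm_num))) ?_ ?_ ?_ ?_ ?_ ?_ ?_
  · calc s * (p * l * v ^ 23 + p * l * v ^ 23)
        ≤ s * (v ^ 21 * (2 * v ^ 47) * v ^ 23 + v ^ 21 * (2 * v ^ 47) * v ^ 23) := by
          refine Nat.mul_le_mul_left _ (Nat.add_le_add ?_ ?_) <;>
          exact Nat.mul_le_mul_right _ (Nat.mul_le_mul p3 hl2)
      _ = (4 * s) * v ^ 91 := by ring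
      _ ≤ v ^ 100 := pw hvpos (hsv 4 (by norm_num)) (by norm_num)
      _ ≤ D := hv2
  · have e1 : ((v ^ 23 * v ^ 23 * 1 : ℕ) : ℝ) = (v : ℝ) ^ 46 := by
      push_cast
      rw [mul_one, ← pow_add]
    rw [e1]
    calc (v : ℝ) ^ 46 * Real.exp 1 ≤ (v : ℝ) ^ 46 * v :=
          mul_le_mul_of_nonneg_left (by linarith) (by positivity)
      _ = (v : ℝ) ^ 47 := by ring
      _ < l := by exact_mod_cast hl1
  · have e1 : ((v ^ 23 * v ^ 23 * 1 * (v ^ 23 * v ^ 23) ^ 1 : ℕ) : ℝ) = (v : ℝ) ^ 92 := by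
      push_cast
      rw [mul_one, pow_one, ← pow_add, ← pow_add]
    rw [e1]
    have e2 : 1 + 2 * (v : ℝ) ^ 92 * Real.exp 1 ≤ (v : ℝ) ^ 93 := by
      have f1 : (1 : ℝ) ≤ (v : ℝ) ^ 92 := one_le_pow₀ (by linarith)
      have f2 : (v : ℝ) ^ 93 = (v : ℝ) ^ 92 * v := pow_succ _ _
      rw [f2]
      nlinarith [Real.exp_pos 1]
    have e3 : 2 * (10 ^ 5 * v ^ 22) * v ^ 23 = 200000 * v ^ 45 := by ring
    rw [e3]
    calc (1 + 2 * (v : ℝ) ^ 92 * Real.exp 1) ^ (200000 * v ^ 45)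
        ≤ ((v : ℝ) ^ 93) ^ (200000 * v ^ 45) := pow_le_pow_left₀ (by positivity) e2 _
      _ = ((v : ℝ) ^ 18600000) ^ (v ^ 45) := by
          rw [← pow_mul, ← pow_mul]
          congr 1
          ring
      _ < ((2 : ℝ) ^ v) ^ (v ^ 45) := by
          refine pow_lt_pow_left₀ ?_ (by positivity) (hpos 45).ne'
          exact_mod_cast c4
      _ = 2 ^ (v ^ 23 * v ^ 23) := by
          rw [← pow_mul]
          congr 1
          ring
  · calc v ^ 23 ≤ v ^ 47 := Nat.pow_le_pow_right hvpos (by norm_num)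
      _ ≤ l := hl1.le
  · calc 2 * (10 ^ 5 * v ^ 22 * (10 ^ 5 * v ^ 22)) = (2 * 10 ^ 10) * v ^ 44 := by ring
      _ ≤ v ^ 47 := pw hvpos (hCv _ (by norm_num)) (by norm_num)
      _ < l := hl1
  · have f0 : l * v ^ 23 ≤ 2 * v ^ 70 := by
      calc l * v ^ 23 ≤ (2 * v ^ 47) * v ^ 23 := Nat.mul_le_mul_right _ hl2
        _ = 2 * v ^ 70 := by ring
    have f1 : 2 * (10 ^ 5 * v ^ 22) * (l * v ^ 23) ≤ 4 * 10 ^ 5 * v ^ 92 := by
      calc 2 * (10 ^ 5 * v ^ 22) * (l * v ^ 23) ≤ 2 * (10 ^ 5 * v ^ 22) * (2 * v ^ 70) :=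
            Nat.mul_le_mul_left _ f0
        _ = _ := by ring
    have f2 : v ^ 22 ≤ v ^ 92 := Nat.pow_le_pow_right hvpos (by norm_num)
    have f3 : v ^ 70 ≤ v ^ 92 := Nat.pow_le_pow_right hvpos (by norm_num)
    have f4 : 2 * (10 ^ 5 * v ^ 22) * (l * v ^ 23) + 10 ^ 5 * v ^ 22 + l * v ^ 23 ≤
        10 ^ 6 * v ^ 92 := by omega
    calc (2 * (10 ^ 5 * v ^ 22) * (l * v ^ 23) + 10 ^ 5 * v ^ 22 + l * v ^ 23) * s
        ≤ (10 ^ 6 * v ^ 92) * s := Nat.mul_le_mul_right _ f4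
      _ = (10 ^ 6 * s) * v ^ 92 := by ring
      _ ≤ v ^ 99 := pw hvpos (hsv _ (by norm_num)) (by norm_num)
      _ < v ^ 100 := Nat.pow_lt_pow_right (by omega) (by norm_num)
      _ ≤ D := hv2
  · calc 2 * (10 ^ 5 * v ^ 22) * (2 * (10 ^ 5 * v ^ 22) * (2 * s)) =
          (8 * 10 ^ 10 * s) * v ^ 44 := by ring
      _ ≤ v ^ 99 := pw hvpos (hsv _ (by norm_num)) (by norm_num)
      _ < v ^ 100 := Nat.pow_lt_pow_right (by omega) (by norm_num)
      _ ≤ D := hv2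

end Pool.Agent.H776GM
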