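import Pool.Agent.H776GM.Dep

/-!
# Odd degree: two conjugate eigenvalues are multiplicatively independent
-/

set_option autoImplicit false

namespace Pool.Agent.H776GM

open Polynomial NumberField Finset Module Pool.Agent.H225R3.Marg

theorem parity (R : Multiset ℝ) (c : ℝ) (h : ∀ x ∈ R, x = c ∨ x = -c) :
    ∃ j : ℤ, R.sum = j * c ∧ (Even j ↔ Even (Multiset.card R)) := by
  induction R using Multiset.induction with
  | empty => exact ⟨0, by simp, by simp⟩
  | cons a s ih =>
    obtain ⟨j, h1, h2⟩ := ih fun x hx => h x (Multiset.mem_cons_of_mem hx)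
    rw [Multiset.sum_cons, Multiset.card_cons]
    rcases h a (Multiset.mem_cons_self a s) with h3 | h3
    · refine ⟨j + 1, ?_, ?_⟩
      · rw [h1, h3]
        push_cast
        ring
      · rw [Int.even_add_one, Nat.even_add_one, h2]
    · refine ⟨j - 1, ?_, ?_⟩
      · rw [h1, h3]
        push_cast
        ring
      · rw [Int.even_sub_one, Nat.even_add_one, h2]

/-- a unit which is not a root of unity has an embedding with nonzero logarithm -/
theorem exists_log_ne {L : Type} [Field L] [NumberField L] (α : L) (h0 : α ≠ 0)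
    (hint : IsIntegral ℤ α) (h : ∀ N : ℕ, 0 < N → α ^ N ≠ 1) :
    ∃ w : L →+* ℂ, Real.log ‖w α‖ ≠ 0 := by
  by_contra hcon
  push Not at hcon
  obtain ⟨N, hN, h1⟩ := NumberField.Embeddings.pow_eq_one_of_norm_eq_one L ℂ hint fun w => by
    have h2 := hcon w
    have h3 : 0 < ‖w α‖ := norm_pos_iff.mpr ((map_ne_zero w).mpr h0)
    have h4 := Real.exp_log h3
    rw [h2, Real.exp_zero] at h4
    exact h4.symm
  exact h N hN h1

/-- dependent conjugate units have logarithms equal up to sign -/
theorem log_eq {k L : Type} [Field k] [Field L] [NumberField L] [Algebra k L]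
    (α : L) (τ : L ≃ₐ[k] L) (h0 : α ≠ 0) (hint : IsIntegral ℤ α)
    (h : ∀ N : ℕ, 0 < N → α ^ N ≠ 1) (u v : ℤ) (huv : (u, v) ≠ (0, 0))
    (hdep : α ^ u * (τ α) ^ v = 1) (w : L →+* ℂ) :
    Real.log ‖w (τ α)‖ = Real.log ‖w α‖ ∨ Real.log ‖w (τ α)‖ = -Real.log ‖w α‖ := by
  classical
  have hτ0 : τ α ≠ 0 := (map_ne_zero τ).mpr h0
  have hlog : ∀ w : L →+* ℂ, (u : ℝ) * Real.log ‖w α‖ + v * Real.log ‖w (τ α)‖ = 0 := by
    intro w
    have h1 : ‖w α‖ ^ u * ‖w (τ α)‖ ^ v = 1 := by
      have := congrArg (fun x => ‖w x‖) hdep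
      simp only [map_mul, map_zpow₀, norm_mul, norm_zpow, map_one, norm_one] at this
      exact this
    have h2 : 0 < ‖w α‖ := norm_pos_iff.mpr ((map_ne_zero w).mpr h0)
    have h3 : 0 < ‖w (τ α)‖ := norm_pos_iff.mpr ((map_ne_zero w).mpr hτ0)
    have h4 := congrArg Real.log h1
    rw [Real.log_mul (zpow_pos h2 u).ne' (zpow_pos h3 v).ne', Real.log_zpow, Real.log_zpow,
      Real.log_one] at h4
    exact h4
  set H : L → ℝ := fun x => ∑ w : L →+* ℂ, |Real.log ‖w x‖| with hH
  have hinv : H (τ α) = H α := by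
    rw [hH]
    have e : (L →+* ℂ) ≃ (L →+* ℂ) :=
      { toFun := fun w => w.comp (τ : L →+* L)
        invFun := fun w => w.comp (τ.symm : L →+* L)
        left_inv := fun w => by ext x; simp
        right_inv := fun w => by ext x; simp }
    have h1 : ∀ w : L →+* ℂ, |Real.log ‖w (τ α)‖| = |Real.log ‖(w.comp (τ : L →+* L)) α‖| :=
      fun w => rfl
    have hbij : Function.Bijective (fun w : L →+* ℂ => w.comp (τ : L →+* L)) := by
      constructor
      · intro w w' hw
        ext x
        obtain ⟨y, rfl⟩ := τ.surjective x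
        exact RingHom.congr_fun hw y
      · intro w
        refine ⟨w.comp (τ.symm : L →+* L), ?_⟩
        ext x
        simp
    exact hbij.sum_comp fun w => |Real.log ‖w α‖|
  have hpos : 0 < H α := by
    obtain ⟨w0, hw0⟩ := exists_log_ne α h0 hint h
    exact lt_of_lt_of_le (abs_pos.mpr hw0)
      (Finset.single_le_sum (f := fun w : L →+* ℂ => |Real.log ‖w α‖|)
        (fun w _ => abs_nonneg _) (Finset.mem_univ w0))
  have hsum : |(u : ℝ)| * H α = |(v : ℝ)| * H (τ α) := by
    rw [hH, Finset.mul_sum, Finset.mul_sum]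
    refine Finset.sum_congr rfl fun w _ => ?_
    rw [← abs_mul, ← abs_mul]
    have h1 := hlog w
    have h2 : (u : ℝ) * Real.log ‖w α‖ = -(v * Real.log ‖w (τ α)‖) := by linarith
    rw [h2, abs_neg]
  rw [hinv] at hsum
  have habs : |(u : ℝ)| = |(v : ℝ)| := mul_right_cancel₀ hpos.ne' hsum
  have hv0 : (v : ℝ) ≠ 0 := by
    intro h1
    rw [h1, abs_zero, abs_eq_zero] at habs
    apply huv
    have h2 : u = 0 := by exact_mod_cast habs
    have h3 : v = 0 := by exact_mod_cast h1
    rw [h2, h3]
  have h1 := hlog w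
  rcases abs_eq_abs.mp habs with h2 | h2
  · right
    rw [h2, ← mul_add] at h1
    have := (mul_eq_zero.mp h1).resolve_left hv0
    linarith
  · left
    have h3 : (v : ℝ) * (Real.log ‖w (τ α)‖ - Real.log ‖w α‖) = 0 := by
      rw [h2] at h1
      linarith
    have := (mul_eq_zero.mp h3).resolve_left hv0
    linarith

/-- roots of the characteristic polynomial are roots of any polynomial killing the matrix -/
theorem root_of_kill {k L : Type} [Field k] [Field L] [Algebra k L] {n : ℕ}
    (B : Matrix (Fin n) (Fin n) k) (f : k[X]) (hf : aeval B f = 0) (z : L)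
    (hz : (B.charpoly.map (algebraMap k L)).IsRoot z) : aeval z f = 0 := by
  set φ : Matrix (Fin n) (Fin n) k →+* Matrix (Fin n) (Fin n) L :=
    (algebraMap k L).mapMatrix with hφ
  have h1 : (φ B).charpoly = B.charpoly.map (algebraMap k L) := by
    rw [← Matrix.charpoly_map]; rfl
  rw [← h1] at hz
  obtain ⟨v, hv, hv2⟩ := eigvec (φ B) z hz
  have h2 : ∀ p : k[X], (φ (aeval B p)).mulVec v = (aeval z p) • v := by
    intro p
    induction p using Polynomial.induction_on' with
    | add p q hp hq => rw [map_add, map_add, Matrix.add_mulVec, hp, hq, map_add, add_smul]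
    | monomial m c =>
      rw [aeval_monomial, aeval_monomial, map_mul, map_pow, ← Matrix.mulVec_mulVec]
      have h3 : ∀ m : ℕ, (φ B ^ m).mulVec v = (z ^ m) • v := by
        intro m
        induction m with
        | zero => simp
        | succ m ih =>
          rw [pow_succ, ← Matrix.mulVec_mulVec, hv2, Matrix.mulVec_smul, ih, smul_smul,
            pow_succ, mul_comm]
      rw [h3]
      have h4 : φ (algebraMap k (Matrix (Fin n) (Fin n) k) c) =
          algebraMap L (Matrix (Fin n) (Fin n) L) (algebraMap k L c) := by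
        ext i j
        simp only [hφ, RingHom.mapMatrix_apply, Matrix.map_apply, Matrix.algebraMap_matrix_apply]
        split_ifs <;> simp
      rw [h4, Algebra.algebraMap_eq_smul_one, Matrix.smul_mulVec, Matrix.one_mulVec, smul_smul]
  have h5 := h2 f
  rw [hf, map_zero, Matrix.zero_mulVec] at h5
  exact (smul_eq_zero.mp h5.symm).resolve_right hv

/-- some eigenvalue is not a root of unity -/
theorem exists_nonroot {k L : Type} [Field k] [NumberField k] [Field L] [Algebra k L] {n : ℕ}
    (A : Matrix (Fin n) (Fin n) (𝓞 k)) (P : k[X]) (hP : P = A.charpoly.map (algebraMap (𝓞 k) k))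
    (hsplit : (P.map (algebraMap k L)).Splits)
    (hnil : ∀ N : ℕ, 0 < N → ¬ IsNilpotent (A ^ N - 1)) :
    ∃ α : L, (P.map (algebraMap k L)).IsRoot α ∧ ∀ N : ℕ, 0 < N → α ^ N ≠ 1 := by
  have hPm : (P.map (algebraMap k L)).Monic := by
    rw [hP]
    exact (A.charpoly_monic.map _).map _
  set E := AlgebraicClosure L with hE
  set g : 𝓞 k →+* E := ((algebraMap L E).comp (algebraMap k L)).comp (algebraMap (𝓞 k) k) with hg
  have hginj : Function.Injective g := by
    rw [hg]
    exact ((algebraMap L E).comp (algebraMap k L)).injective.comp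
      (FaithfulSMul.algebraMap_injective (𝓞 k) k)
  by_contra hcon
  push Not at hcon
  obtain ⟨N, hN, h⟩ := nilp_of_roots g hginj A (by
    intro l hl
    have h1 : A.charpoly.map g = (P.map (algebraMap k L)).map (algebraMap L E) := by
      rw [hP, Polynomial.map_map, Polynomial.map_map, hg, RingHom.comp_assoc]
    have h2 : ((P.map (algebraMap k L)).map (algebraMap L E)).roots =
        (P.map (algebraMap k L)).roots.map (algebraMap L E) := hsplit.roots_map _
    have h3 : l ∈ ((P.map (algebraMap k L)).map (algebraMap L E)).roots := by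
      rw [mem_roots (hPm.map _).ne_zero, ← h1]
      exact hl
    rw [h2, Multiset.mem_map] at h3
    obtain ⟨α, hα1, rfl⟩ := h3
    obtain ⟨N, hN, h4⟩ := hcon α ((mem_roots hPm.ne_zero).mp hα1)
    exact ⟨N, hN, by rw [← map_pow, h4, map_one]⟩)
  exact hnil N hN h

theorem odd_core {k : Type} [Field k] [NumberField k] {n N : ℕ} (hN : Odd N)
    (A : Matrix (Fin n) (Fin n) (𝓞 k)) (hA : IsUnit A)
    (B : Matrix (Fin N) (Fin N) k) (hdet : B.det = 1) (j : ℕ)
    (hAB : A.charpoly.map (algebraMap (𝓞 k) k) = B.charpoly * (X - 1) ^ j)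
    (f : k[X]) (hf : Irreducible f) (hfB : aeval B f = 0)
    (hnil : ∀ N : ℕ, 0 < N → ¬ IsNilpotent (A ^ N - 1)) :
    ∃ (L : Type) (_ : Field L) (_ : NumberField L) (_ : Algebra k L) (α β : L),
      (A.charpoly.map ((algebraMap k L).comp (algebraMap (𝓞 k) k))).IsRoot α ∧
      (A.charpoly.map ((algebraMap k L).comp (algebraMap (𝓞 k) k))).IsRoot β ∧
      ∀ u v : ℤ, (u, v) ≠ (0, 0) → α ^ u * β ^ v ≠ 1 := by
  classical
  obtain ⟨P, hP⟩ : ∃ P : k[X], P = A.charpoly.map (algebraMap (𝓞 k) k) := ⟨_, rfl⟩
  obtain ⟨L, _, _, _, hsplit, hnormal⟩ : ∃ (L : Type) (_ : Field L) (_ : NumberField L)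
      (_ : Algebra k L), (P.map (algebraMap k L)).Splits ∧ Normal k L := by
    haveI : CharZero P.SplittingField :=
      charZero_of_injective_algebraMap (algebraMap k P.SplittingField).injective
    exact ⟨P.SplittingField, inferInstance, NumberField.of_module_finite k _, inferInstance,
      SplittingField.splits P, inferInstance⟩
  refine ⟨L, inferInstance, inferInstance, inferInstance, ?_⟩
  have hPL : A.charpoly.map ((algebraMap k L).comp (algebraMap (𝓞 k) k)) =
      P.map (algebraMap k L) := by rw [hP, Polynomial.map_map]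
  rw [hPL]
  obtain ⟨α, hα, hαN⟩ := exists_nonroot A P hP hsplit hnil
  have hPm : (P.map (algebraMap k L)).Monic := by
    rw [hP]
    exact (A.charpoly_monic.map _).map _
  rw [← hP] at hAB
  set Q := B.charpoly.map (algebraMap k L) with hQ
  have hQm : Q.Monic := B.charpoly_monic.map _
  have hPQ : P.map (algebraMap k L) = Q * (X - 1) ^ j := by
    rw [hAB, Polynomial.map_mul, Polynomial.map_pow, Polynomial.map_sub, Polynomial.map_X,
      Polynomial.map_one]
  have hQP : ∀ z : L, Q.IsRoot z → (P.map (algebraMap k L)).IsRoot z := by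
    intro z hz
    rw [hPQ, IsRoot, eval_mul, hz, zero_mul]
  have hQsplit : Q.Splits := hsplit.of_dvd hPm.ne_zero (Dvd.intro _ hPQ.symm)
  by_contra hcon
  push Not at hcon
  have hα' : (A.charpoly.map ((algebraMap k L).comp (algebraMap (𝓞 k) k))).IsRoot α := by
    rw [hPL]; exact hα
  obtain ⟨hα0, _⟩ := unit_root A hA α hα'
  have hαint := int_root A α hα'
  obtain ⟨w, hw⟩ := exists_log_ne α hα0 hαint hαN
  have hαQ : Q.IsRoot α := by
    rw [hPQ, IsRoot, eval_mul, mul_eq_zero] at hα
    rcases hα with h1 | h1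
    · exact h1
    · exfalso
      rw [eval_pow, eval_sub, eval_X, eval_one] at h1
      have h2 : α - 1 = 0 := by
        rcases Nat.eq_zero_or_pos j with h0 | h0
        · rw [h0, pow_zero] at h1
          exact absurd h1 one_ne_zero
        · exact (pow_eq_zero_iff h0.ne').mp h1
      exact hαN 1 one_pos (by rw [pow_one]; exact sub_eq_zero.mp h2)
  have hkill : ∀ z : L, Q.IsRoot z → aeval z f = 0 := fun z hz => root_of_kill B f hfB z hz
  have hmin : ∀ z : L, Q.IsRoot z → IsConjRoot k α z := by
    intro z hz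
    rw [isConjRoot_def, ← minpoly.eq_of_irreducible hf (hkill α hαQ),
      ← minpoly.eq_of_irreducible hf (hkill z hz)]
  have hroot : ∀ z ∈ Q.roots,
      Real.log ‖w z‖ = Real.log ‖w α‖ ∨ Real.log ‖w z‖ = -Real.log ‖w α‖ := by
    intro z hz
    have hz' := (mem_roots hQm.ne_zero).mp hz
    obtain ⟨τ, hτ⟩ := (hmin z hz').exists_algEquiv
    have h1 : z = τ.symm α := by
      rw [← hτ]
      exact (τ.symm_apply_apply z).symm
    obtain ⟨u, v, huv, hdep⟩ := hcon α z hα (hQP z hz')
    rw [h1] at hdep ⊢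
    exact log_eq α τ.symm hα0 hαint hαN u v huv hdep w
  have hprod : Q.roots.prod = 1 := by
    set φ : Matrix (Fin N) (Fin N) k →+* Matrix (Fin N) (Fin N) L :=
      (algebraMap k L).mapMatrix with hφ
    have h1 : (φ B).charpoly = Q := by
      rw [hQ, ← Matrix.charpoly_map]; rfl
    have h2 : (φ B).det = (φ B).charpoly.roots.prod :=
      Matrix.det_eq_prod_roots_charpoly_of_splits (by rw [h1]; exact hQsplit)
    have h3 : (φ B).det = 1 := by
      rw [hφ, ← RingHom.map_det, hdet, map_one]
    rw [← h1, ← h2, h3]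
  have hcard : Multiset.card Q.roots = N := by
    rw [splits_iff_card_roots.mp hQsplit, hQ, B.charpoly_monic.natDegree_map,
      Matrix.charpoly_natDegree_eq_dim, Fintype.card_fin]
  have hne : ∀ z ∈ Q.roots, z ≠ 0 := by
    intro z hz
    refine (unit_root A hA z ?_).1
    rw [hPL]
    exact hQP z ((mem_roots hQm.ne_zero).mp hz)
  have hsum : ((Q.roots.map fun z => Real.log ‖w z‖)).sum = 0 := by
    have key : ∀ R : Multiset L, (∀ z ∈ R, z ≠ 0) →
        (R.map fun z => Real.log ‖w z‖).sum = Real.log ‖w R.prod‖ := by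
      intro R
      induction R using Multiset.induction with
      | empty => intro _; simp
      | cons a s ih =>
        intro h
        rw [Multiset.map_cons, Multiset.sum_cons, Multiset.prod_cons, map_mul, norm_mul,
          ih fun z hz => h z (Multiset.mem_cons_of_mem hz), Real.log_mul]
        · exact (norm_pos_iff.mpr ((map_ne_zero w).mpr (h a (Multiset.mem_cons_self a s)))).ne'
        · refine (norm_pos_iff.mpr ((map_ne_zero w).mpr ?_)).ne'
          exact Multiset.prod_ne_zero fun h0 => h 0 (Multiset.mem_cons_of_mem h0) rfl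
    rw [key _ hne, hprod, map_one, norm_one, Real.log_one]
  obtain ⟨j, hj1, hj2⟩ := parity (Q.roots.map fun z => Real.log ‖w z‖)
    (Real.log ‖w α‖) (by
      intro x hx
      obtain ⟨z, hz, rfl⟩ := Multiset.mem_map.mp hx
      exact hroot z hz)
  rw [hsum] at hj1
  rw [Multiset.card_map, hcard] at hj2
  have hj0 : (j : ℝ) = 0 := by
    rcases mul_eq_zero.mp hj1.symm with h1 | h1
    · exact h1
    · exact absurd h1 hw
  have hj0' : j = 0 := by exact_mod_cast hj0
  rw [hj0'] at hj2
  have : Even N := hj2.mp (by simp)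
  exact (Nat.not_even_iff_odd.mpr hN) this

end Pool.Agent.H776GM
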