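import Pool.Agent.H776GM.Roots

/-!
# The pair of conjugate eigenvalues
-/

set_option autoImplicit false

namespace Pool.Agent.H776GM

open Polynomial NumberField Finset Module Pool.Agent.H225R3.Marg

/-- number of extensions along a ring homomorphism -/
theorem card_over' {k K : Type} [Field k] [Field K] [NumberField k] [NumberField K]
    (i : k →+* K) (S : Finset (k →+* ℂ)) [DecidablePred fun τ : K →+* ℂ => τ.comp i ∈ S] (m : ℕ)
    (hm : finrank ℚ K = m * finrank ℚ k) :
    (univ.filter fun τ : K →+* ℂ => τ.comp i ∈ S).card = S.card * m := by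
  letI : Algebra k K := i.toAlgebra
  have h1 : finrank ℚ k * finrank k K = finrank ℚ K := Module.finrank_mul_finrank ℚ k K
  have h2 : 0 < finrank ℚ k := Module.finrank_pos
  have h3 : finrank k K = m := by
    rw [hm, mul_comm] at h1
    exact Nat.eq_of_mul_eq_mul_right h2 h1
  rw [← h3]
  exact card_over (k := k) (L := K) S

/-- the count of the embeddings with support -/
theorem supp_count {k K F : Type} [Field k] [Field K] [NumberField k] [NumberField K]
    [Field F] [NumberField F] {n : ℕ}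
    (A : Matrix (Fin n) (Fin n) (𝓞 k)) (i i' : k →+* K) (S : Finset (k →+* ℂ)) (m : ℕ)
    (hm : finrank ℚ K = m * finrank ℚ k) (a b : 𝓞 F)
    (hgen : ∀ w w' : F →+* ℂ, emb w a = emb w' a → emb w b = emb w' b → w = w')
    (T : Finset (F →+* ℂ))
    (hT : ∀ u ∈ T, ∃ ψ : K →+* ℂ, ψ.comp i ∈ S ∧
      ((emb (ψ.comp i)).mapMatrix A).charpoly.IsRoot (emb u a) ∧
      ((emb (ψ.comp i')).mapMatrix A).charpoly.IsRoot (emb u b)) :
    T.card ≤ S.card * m * (n * n) := by
  classical
  set P := univ.filter fun ψ : K →+* ℂ => ψ.comp i ∈ S with hP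
  set R : (k →+* ℂ) → Finset ℂ := fun σ => ((emb σ).mapMatrix A).charpoly.roots.toFinset with hR
  have hRc : ∀ σ, (R σ).card ≤ n := by
    intro σ
    refine (Multiset.toFinset_card_le _).trans ((card_roots' _).trans ?_)
    rw [Matrix.charpoly_natDegree_eq_dim, Fintype.card_fin]
  have hRm : ∀ σ l, ((emb σ).mapMatrix A).charpoly.IsRoot l → l ∈ R σ := by
    intro σ l hl
    rw [hR]
    simp only [Multiset.mem_toFinset]
    rw [mem_roots (Matrix.charpoly_monic _).ne_zero]
    exact hl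
  set B : Finset (ℂ × ℂ) := P.biUnion fun ψ => R (ψ.comp i) ×ˢ R (ψ.comp i') with hB
  have h1 : B.card ≤ P.card * (n * n) := by
    refine Finset.card_biUnion_le_card_mul _ _ _ fun ψ _ => ?_
    rw [Finset.card_product]
    exact Nat.mul_le_mul (hRc _) (hRc _)
  have h2 : T.card ≤ B.card := by
    refine Finset.card_le_card_of_injOn (fun u => (emb u a, emb u b)) ?_ ?_
    · intro u hu
      obtain ⟨ψ, h3, h4, h5⟩ := hT u (Finset.mem_coe.mp hu)
      simp only [hB, Finset.coe_biUnion, Set.mem_iUnion]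
      refine ⟨ψ, ?_, ?_⟩
      · rw [hP]
        simp [h3]
      · rw [Finset.mem_coe, Finset.mem_product]
        exact ⟨hRm _ _ h4, hRm _ _ h5⟩
    · intro u _ u' _ h
      simp only [Prod.mk.injEq] at h
      exact hgen u u' h.1 h.2
  have h3 : P.card = S.card * m := card_over' i S m hm
  rw [h3] at h1
  exact h2.trans h1

/-- a number field inside `Ω` generated by two algebraic integers -/
theorem exists_field {Ω : Type} [Field Ω] [CharZero Ω] (α β : Ω) (hα : IsIntegral ℤ α)
    (hβ : IsIntegral ℤ β) :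
    ∃ (F : Type) (_ : Field F) (_ : NumberField F) (jF : F →+* Ω) (a b : 𝓞 F),
      jF (a : F) = α ∧ jF (b : F) = β ∧
      ∀ w w' : F →+* ℂ, emb w a = emb w' a → emb w b = emb w' b → w = w' := by
  let F := IntermediateField.adjoin ℚ ({α, β} : Set Ω)
  haveI : FiniteDimensional ℚ F := by
    refine IntermediateField.finiteDimensional_adjoin fun x hx => ?_
    rcases hx with rfl | hx
    · exact hα.tower_top
    · rw [Set.mem_singleton_iff] at hx
      subst hx
      exact hβ.tower_top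
  haveI : NumberField F := NumberField.of_module_finite ℚ F
  have hαF : α ∈ F := IntermediateField.subset_adjoin ℚ _ (by simp)
  have hβF : β ∈ F := IntermediateField.subset_adjoin ℚ _ (by simp)
  let x : F := ⟨α, hαF⟩
  let y : F := ⟨β, hβF⟩
  let jF : F →+* Ω := algebraMap F Ω
  have hjx : jF x = α := rfl
  have hjy : jF y = β := rfl
  have hxint : IsIntegral ℤ x := by
    obtain ⟨p, hp, hp0⟩ := hα
    refine ⟨p, hp, ?_⟩
    apply jF.injective
    rw [map_zero, hom_eval₂, hjx, RingHom.ext_int (jF.comp (algebraMap ℤ F)) (algebraMap ℤ Ω)]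
    exact hp0
  have hyint : IsIntegral ℤ y := by
    obtain ⟨p, hp, hp0⟩ := hβ
    refine ⟨p, hp, ?_⟩
    apply jF.injective
    rw [map_zero, hom_eval₂, hjy, RingHom.ext_int (jF.comp (algebraMap ℤ F)) (algebraMap ℤ Ω)]
    exact hp0
  refine ⟨F, inferInstance, inferInstance, jF, ⟨x, hxint⟩, ⟨y, hyint⟩, rfl, rfl, ?_⟩
  intro w w' h1 h2
  have h1' : w x = w' x := h1
  have h2' : w y = w' y := h2
  -- the subfield where w and w' agree
  let E : Subfield F := RingHom.eqLocusField w w'
  have hE : ∀ z : F, z ∈ E := by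
    rintro ⟨z, hz⟩
    have key : ∀ z : Ω, z ∈ IntermediateField.adjoin ℚ ({α, β} : Set Ω) →
        ∀ hz : z ∈ F, (⟨z, hz⟩ : F) ∈ E := by
      intro z hz
      refine IntermediateField.adjoin_induction ℚ
        (p := fun z _ => ∀ hz : z ∈ F, (⟨z, hz⟩ : F) ∈ E) ?_ ?_ ?_ ?_ ?_ hz
      · intro z hz hz'
        rcases hz with rfl | hz
        · exact h1'
        · rw [Set.mem_singleton_iff] at hz
          subst hz
          exact h2'
      · intro q hq
        have h3 : (⟨algebraMap ℚ Ω q, hq⟩ : F) = (q : F) := by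
          apply jF.injective
          rw [map_ratCast]
          exact eq_ratCast (algebraMap ℚ Ω) q
        rw [h3]
        exact SubfieldClass.ratCast_mem E q
      · intro u v hu hv ihu ihv huv
        exact E.add_mem (ihu hu) (ihv hv)
      · intro u hu ihu hu'
        exact E.inv_mem (ihu hu)
      · intro u v hu hv ihu ihv huv
        exact E.mul_mem (ihu hu) (ihv hv)
    exact key z hz hz
  ext z
  exact hE z

/-- integrality over the small field -/
theorem alg_over {k K Ω : Type} [Field k] [Field K] [NumberField k] [NumberField K] [Field Ω]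
    [Algebra K Ω] [Algebra.IsIntegral K Ω] (i : k →+* K) (x : Ω) :
    ∃ p : k[X], p.Monic ∧ p.eval₂ ((algebraMap K Ω).comp i) x = 0 := by
  letI : Algebra k K := i.toAlgebra
  letI : Algebra k Ω := ((algebraMap K Ω).comp i).toAlgebra
  haveI : IsScalarTower k K Ω := IsScalarTower.of_algebraMap_eq' rfl
  haveI : FiniteDimensional k K := FiniteDimensional.right ℚ k K
  have h1 : IsIntegral K x := Algebra.IsIntegral.isIntegral x
  have h2 : IsIntegral k x := isIntegral_trans x h1
  exact h2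

theorem alg_over' {K F Ω : Type} [Field K] [NumberField K] [Field F] [Field Ω]
    [Algebra K Ω] [Algebra.IsIntegral K Ω] (j : F →+* Ω) (x : Ω) :
    ∃ p : F[X], p.Monic ∧ p.eval₂ j x = 0 := by
  letI : Algebra F Ω := j.toAlgebra
  haveI : CharZero Ω := charZero_of_injective_algebraMap (algebraMap K Ω).injective
  have h1 : IsIntegral K x := Algebra.IsIntegral.isIntegral x
  obtain ⟨p, hp, hp0⟩ : ∃ p : ℚ[X], p.Monic ∧ p.eval₂ (algebraMap ℚ Ω) x = 0 :=
    isIntegral_trans (R := ℚ) (A := K) x h1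
  have hF0 : CharZero F := ⟨fun a b h => by
    have h3 := congrArg j h
    rw [map_natCast, map_natCast] at h3
    exact Nat.cast_injective h3⟩
  refine ⟨p.map (algebraMap ℚ F), hp.map _, ?_⟩
  rw [eval₂_map, RingHom.ext_rat (j.comp (algebraMap ℚ F)) (algebraMap ℚ Ω)]
  exact hp0

theorem pair : ∃ D0 : ℕ, ∀ (k K : Type) [Field k] [Field K] [NumberField k] [NumberField K]
    (n : ℕ) (A : Matrix (Fin n) (Fin n) (𝓞 k)) (i i' : k →+* K) (S : Finset (k →+* ℂ)) (m : ℕ),
    finrank ℚ K = m * finrank ℚ k → IsUnit A →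
    (∀ σ : k →+* ℂ, σ ∉ S → ∀ l : ℂ, ((emb σ).mapMatrix A).charpoly.IsRoot l → ‖l‖ = 1) →
    (∀ σ ∈ S, ∀ l : ℂ, ((emb σ).mapMatrix A).charpoly.IsRoot l → ‖l‖ ≤ Real.exp 1) →
    (∀ N : ℕ, 0 < N → ¬ IsNilpotent (A ^ N - 1)) →
    (∀ w : K →+* ℂ, ¬ (w.comp i ∈ S ∧ w.comp i' ∈ S)) →
    D0 * S.card ≤ finrank ℚ k →
    (S.card * m * (n * n)) ^ 300 * S.card ≤ finrank ℚ k → False := by
  classical
  obtain ⟨D0, hD0⟩ := heights
  refine ⟨D0, ?_⟩
  intro k K _ _ _ _ n A i i' S m hm hA hout hin hnil hdis hd1 hd2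
  obtain ⟨σ, hσS, l, hl, hl1, hlint, hldeg⟩ := exists_root S A hA hout hnil
  have hScard : 0 < S.card := Finset.card_pos.mpr ⟨σ, hσS⟩
  have hn : 0 < n := by
    rcases Nat.eq_zero_or_pos n with h0 | h0
    · exfalso
      subst h0
      have : ((emb σ).mapMatrix A).charpoly = 1 := by
        rw [Matrix.charpoly, Matrix.det_isEmpty]
      rw [this] at hl
      simp at hl
    · exact h0
  have hmpos : 0 < m := by
    rcases Nat.eq_zero_or_pos m with h0 | h0
    · rw [h0, zero_mul] at hm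
      have := Module.finrank_pos (R := ℚ) (M := K)
      omega
    · exact h0
  -- the algebraic closure
  obtain ⟨Ω, _, _, _, _, _⟩ : ∃ (Ω : Type) (_ : Field Ω) (_ : IsAlgClosed Ω) (_ : CharZero Ω)
      (_ : Algebra K Ω), Algebra.IsIntegral K Ω :=
    ⟨AlgebraicClosure K, inferInstance, inferInstance,
      charZero_of_injective_algebraMap (algebraMap K (AlgebraicClosure K)).injective,
      inferInstance, inferInstance⟩
  set j : K →+* Ω := algebraMap K Ω with hj
  obtain ⟨w1, hw1⟩ := extend_emb (j.comp i) (fun x => alg_over i x) σ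
  obtain ⟨w2, hw2⟩ := extend_emb (j.comp i') (fun x => alg_over i' x) σ
  obtain ⟨α, hα1, hα2⟩ := lift_root A (j.comp i) w1 l (by rw [hw1]; exact hl)
  obtain ⟨β, hβ1, hβ2⟩ := lift_root A (j.comp i') w2 l (by rw [hw2]; exact hl)
  have hαint : IsIntegral ℤ α := by
    obtain ⟨p, hp, hp0⟩ := hlint
    refine ⟨p, hp, ?_⟩
    apply w1.injective
    rw [map_zero, hom_eval₂, hα1, RingHom.ext_int (w1.comp (algebraMap ℤ Ω)) (algebraMap ℤ ℂ)]
    exact hp0
  have hβint : IsIntegral ℤ β := by
    obtain ⟨p, hp, hp0⟩ := hlint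
    refine ⟨p, hp, ?_⟩
    apply w2.injective
    rw [map_zero, hom_eval₂, hβ1, RingHom.ext_int (w2.comp (algebraMap ℤ Ω)) (algebraMap ℤ ℂ)]
    exact hp0
  have hl0 : l ≠ 0 := by
    rintro rfl
    rw [norm_zero] at hl1
    linarith
  -- the field
  obtain ⟨F, _, _, jF, a, b, hjx, hjy, hgen⟩ := exists_field α β hαint hβint
  have hea : ∀ w : Ω →+* ℂ, emb (w.comp jF) a = w α := by
    intro w
    rw [← hjx]
    rfl
  have heb : ∀ w : Ω →+* ℂ, emb (w.comp jF) b = w β := by
    intro w
    rw [← hjy]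
    rfl
  have ha0 : a ≠ 0 := by
    intro h
    apply hl0
    have h1 : ((0 : 𝓞 F) : F) = 0 := rfl
    rw [← hα1, ← hjx, h, h1, map_zero, map_zero]
  have hb0 : b ≠ 0 := by
    intro h
    apply hl0
    have h1 : ((0 : 𝓞 F) : F) = 0 := rfl
    rw [← hβ1, ← hjy, h, h1, map_zero, map_zero]
  -- extension of embeddings to Ω
  have hroots : ∀ u : F →+* ℂ, ∃ ψ : K →+* ℂ,
      ((emb (ψ.comp i)).mapMatrix A).charpoly.IsRoot (emb u a) ∧
      ((emb (ψ.comp i')).mapMatrix A).charpoly.IsRoot (emb u b) := by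
    intro u
    obtain ⟨w, hw⟩ := extend_emb jF (fun x => alg_over' (K := K) jF x) u
    refine ⟨w.comp j, ?_, ?_⟩
    · have := spec_root A (j.comp i) w α hα2
      rw [← hw, hea]
      exact this
    · have := spec_root A (j.comp i') w β hβ2
      rw [← hw, heb]
      exact this
  have hbda : ∀ u : F →+* ℂ, ‖emb u a‖ ≤ Real.exp 1 := by
    intro u
    obtain ⟨ψ, h1, h2⟩ := hroots u
    by_cases h3 : ψ.comp i ∈ S
    · exact hin _ h3 _ h1
    · rw [hout _ h3 _ h1]
      exact Real.one_le_exp zero_le_one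
  have hbdb : ∀ u : F →+* ℂ, ‖emb u b‖ ≤ Real.exp 1 := by
    intro u
    obtain ⟨ψ, h1, h2⟩ := hroots u
    by_cases h3 : ψ.comp i' ∈ S
    · exact hin _ h3 _ h2
    · rw [hout _ h3 _ h2]
      exact Real.one_le_exp zero_le_one
  have hsuppa : (univ.filter fun w : F →+* ℂ => ‖emb w a‖ ≠ 1).card ≤ S.card * m * (n * n) := by
    refine supp_count A i i' S m hm a b hgen _ fun u hu => ?_
    obtain ⟨ψ, h1, h2⟩ := hroots u
    refine ⟨ψ, ?_, h1, h2⟩
    by_contra h3
    exact (Finset.mem_filter.mp hu).2 (hout _ h3 _ h1)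
  have hsuppb : (univ.filter fun w : F →+* ℂ => ‖emb w b‖ ≠ 1).card ≤ S.card * m * (n * n) := by
    refine supp_count A i' i S m hm b a (fun w w' h1 h2 => hgen w w' h2 h1) _ fun u hu => ?_
    obtain ⟨ψ, h1, h2⟩ := hroots u
    refine ⟨ψ, ?_, h2, h1⟩
    by_contra h3
    exact (Finset.mem_filter.mp hu).2 (hout _ h3 _ h2)
  -- independence
  have hind : ∀ u v : ℤ, (u, v) ≠ (0, 0) →
      ∃ w : F →+* ℂ, ‖emb w a‖ ^ u * ‖emb w b‖ ^ v ≠ 1 := by
    intro u v huv
    have hz : ∀ t : ℤ, t ≠ 0 → ‖l‖ ^ t ≠ 1 := by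
      intro t ht h
      exact ht ((zpow_eq_one_iff_right₀ (norm_nonneg l) hl1.ne').mp h)
    by_cases hu : u = 0
    · have hv : v ≠ 0 := by
        rintro rfl
        exact huv (by rw [hu])
      refine ⟨w2.comp jF, ?_⟩
      rw [hu, zpow_zero, one_mul, heb, hβ1]
      exact hz v hv
    · refine ⟨w1.comp jF, ?_⟩
      have h2 : (w1.comp j).comp i ∈ S := by
        have : (w1.comp j).comp i = σ := hw1
        rw [this]
        exact hσS
      have h3 : (w1.comp j).comp i' ∉ S := fun h => hdis _ ⟨h2, h⟩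
      have h4 : ‖emb (w1.comp jF) b‖ = 1 := by
        rw [heb]
        exact hout _ h3 _ (spec_root A (j.comp i') w1 β hβ2)
      rw [hea, hα1, h4, one_zpow, mul_one]
      exact hz u hu
  -- degree
  have hdeg : finrank ℚ k ≤ finrank ℚ F * S.card := by
    refine hldeg.trans (Nat.mul_le_mul_right _ ?_)
    have h1 : minpoly ℚ l = minpoly ℚ (a : F) := by
      have h2 : l = RingHom.toRatAlgHom (w1.comp jF) (a : F) := by
        rw [← hα1]
        exact (hea w1).symm
      rw [h2]
      exact minpoly.algHom_eq (RingHom.toRatAlgHom (w1.comp jF)) (w1.comp jF).injective (a : F)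
    rw [h1]
    exact minpoly.natDegree_le (a : F)
  have hspos : 0 < S.card * m * (n * n) :=
    Nat.mul_pos (Nat.mul_pos hScard hmpos) (Nat.mul_pos hn hn)
  refine hD0 F ?_ (S.card * m * (n * n)) hspos ?_ a b ha0 hb0 hgen hsuppa hsuppb
    hbda hbdb hind
  · exact Nat.le_of_mul_le_mul_right (hd1.trans hdeg) hScard
  · exact Nat.le_of_mul_le_mul_right (hd2.trans hdeg) hScard

end Pool.Agent.H776GM
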