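import Pool.Agent.H776GM.Biv

/-!
# The zero estimate
-/

set_option autoImplicit false

namespace Pool.Agent.H776GM

open Polynomial Polynomial.Bivariate Module Finset

variable {K : Type} [Field K] [Algebra ℚ K]

/-- evaluation at a point of `K × K` -/
noncomputable abbrev EV (x y : K) : ℚ[X][Y] →ₐ[ℚ] K := aevalAeval x y

theorem EV_C (x y : K) (r : ℚ[X]) : EV x y (C r) = aeval x r := aevalAeval_C x y r

theorem irr_factor (x y : K) (F : ℚ[X][Y]) (hF : F ≠ 0) (h : EV x y F = 0) :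
    ∃ R, Irreducible R ∧ R ∣ F ∧ EV x y R = 0 := by
  induction F using WfDvdMonoid.induction_on_irreducible with
  | zero => exact absurd rfl hF
  | unit u hu =>
    exact absurd h (hu.map (EV x y)).ne_zero
  | mul a i ha hi ih =>
    rw [map_mul] at h
    rcases mul_eq_zero.mp h with h1 | h1
    · exact ⟨i, hi, dvd_mul_right _ _, h1⟩
    · obtain ⟨R, hR1, hR2, hR3⟩ := ih ha h1
      exact ⟨R, hR1, hR2.mul_left _, hR3⟩

/-- common zeros of two relatively prime polynomials -/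
theorem common {ι : Type} (Λ : Finset ι) (x y : ι → K) (A B : ℚ[X][Y]) (hA : A ≠ 0) (hB : B ≠ 0)
    (hrel : IsRelPrime A B) (hxA : ∀ i ∈ Λ, EV (x i) (y i) A = 0)
    (hxB : ∀ i ∈ Λ, EV (x i) (y i) B = 0) (hint : ∀ i ∈ Λ, IsIntegral ℚ (x i))
    (hinj : ∀ i ∈ Λ, ∀ j ∈ Λ, minpoly ℚ (x i) = minpoly ℚ (x j) → i = j) :
    ∑ i ∈ Λ, (minpoly ℚ (x i)).natDegree ≤
      dX A * B.natDegree + dX B * A.natDegree + dX A + dX B := by
  obtain ⟨r, hr0, hrdeg, U, V, hUV⟩ := bezout A B hA hB hrel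
  refine le_trans ?_ hrdeg
  have h1 : ∏ i ∈ Λ, minpoly ℚ (x i) ∣ r := by
    refine Finset.prod_dvd_of_coprime ?_ ?_
    · intro i hi j hj hij
      have h2 := minpoly.irreducible (hint i hi)
      have h3 := minpoly.irreducible (hint j hj)
      by_cases h4 : minpoly ℚ (x i) ∣ minpoly ℚ (x j)
      swap
      · exact (Irreducible.coprime_iff_not_dvd h2).mpr h4
      · exfalso
        apply hij
        apply hinj i hi j hj
        exact eq_of_monic_of_associated (minpoly.monic (hint i hi)) (minpoly.monic (hint j hj))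
          (h2.associated_of_dvd h3 h4)
    · intro i hi
      apply minpoly.dvd
      have h2 := congrArg (EV (x i) (y i)) hUV
      rw [map_add, map_mul, map_mul, hxA i hi, hxB i hi, mul_zero, mul_zero, add_zero,
        EV_C] at h2
      exact h2.symm
  have h2 := natDegree_le_of_dvd h1 hr0
  rwa [natDegree_prod_of_monic _ _ fun i hi => minpoly.monic (hint i hi)] at h2

theorem common_one (x y : K) (A B : ℚ[X][Y]) (hA : A ≠ 0) (hB : B ≠ 0)
    (hrel : IsRelPrime A B) (hxA : EV x y A = 0)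
    (hxB : EV x y B = 0) (hint : IsIntegral ℚ x) :
    (minpoly ℚ x).natDegree ≤ dX A * B.natDegree + dX B * A.natDegree + dX A + dX B := by
  have := common ({()} : Finset Unit) (fun _ => x) (fun _ => y) A B hA hB hrel (fun _ _ => hxA)
    (fun _ _ => hxB) (fun _ _ => hint) (fun _ _ _ _ _ => rfl)
  simpa using this

theorem coprime_part {R : Type*} [CommMonoidWithZero R]
    [UniqueFactorizationMonoid R] (B : R)
    (A : R) (hA : A ≠ 0) : ∃ P, P ∣ A ∧ IsRelPrime P B ∧
      ∀ Q, Irreducible Q → Q ∣ A → ¬ Q ∣ B → Q ∣ P := by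
  induction A using WfDvdMonoid.induction_on_irreducible with
  | zero => exact absurd rfl hA
  | unit u hu =>
    refine ⟨1, one_dvd _, isRelPrime_one_left, ?_⟩
    intro Q hQ hQu
    exact absurd (isUnit_of_dvd_unit hQu hu) hQ.not_isUnit
  | mul a i ha hi ih =>
    obtain ⟨P, hP1, hP2, hP3⟩ := ih ha
    by_cases hiB : i ∣ B
    · refine ⟨P, hP1.mul_left _, hP2, ?_⟩
      intro Q hQ hQd hQB
      rcases hQ.prime.dvd_or_dvd hQd with h1 | h1
      · exfalso
        apply hQB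
        exact ((hQ.associated_of_dvd hi h1).dvd).trans hiB
      · exact hP3 Q hQ h1 hQB
    · refine ⟨i * P, mul_dvd_mul_left _ hP1, ?_, ?_⟩
      · exact (hi.isRelPrime_iff_not_dvd.mpr hiB).mul_left hP2
      · intro Q hQ hQd hQB
        rcases hQ.prime.dvd_or_dvd hQd with h1 | h1
        · exact h1.mul_right _
        · exact (hP3 Q hQ h1 hQB).mul_left _

theorem exists_avoid {ι : Type} (Λ : Finset ι) (W : Submodule ℚ ℚ[X][Y]) (R : ι → ℚ[X][Y])
    (h : ∀ i ∈ Λ, ∃ G ∈ W, ¬ R i ∣ G) : ∃ G ∈ W, ∀ i ∈ Λ, ¬ R i ∣ G := by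
  classical
  let S : ι → Submodule ℚ W := fun i =>
    ((Ideal.span {R i}).restrictScalars ℚ).comap W.subtype
  have hS : ∀ i (G : W), G ∈ S i ↔ R i ∣ (G : ℚ[X][Y]) := by
    intro i G
    simp only [S, Submodule.mem_comap, Submodule.subtype_apply, Submodule.restrictScalars_mem,
      Ideal.mem_span_singleton]
  have h1 : (⊤ : Submodule ℚ W) ∉ Λ.image S := by
    intro h2
    rw [Finset.mem_image] at h2
    obtain ⟨i, hi, h3⟩ := h2
    obtain ⟨G, hG, hG2⟩ := h i hi
    apply hG2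
    rw [← hS i ⟨G, hG⟩, h3]
    exact Submodule.mem_top
  have h2 := Subspace.biUnion_ne_univ_of_top_notMem (k := ℚ) (E := W) (s := Λ.image S) h1
  obtain ⟨G, hG⟩ := (Set.ne_univ_iff_exists_notMem _).mp h2
  refine ⟨G, G.2, fun i hi hd => hG ?_⟩
  rw [Set.mem_iUnion₂]
  exact ⟨S i, Finset.mem_image_of_mem S hi, (hS i G).mpr hd⟩

/-- The zero estimate: a large space of polynomials that vanishes at many points. -/
theorem zero_est {ι : Type} [DecidableEq ι] (Λ : Finset ι) (x y : ι → K) (Ds : ℕ)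
    (hint : ∀ i ∈ Λ, IsIntegral ℚ (x i))
    (hinj : ∀ i ∈ Λ, ∀ j ∈ Λ, minpoly ℚ (x i) = minpoly ℚ (x j) → i = j)
    (hDs : ∀ i ∈ Λ, Ds ≤ (minpoly ℚ (x i)).natDegree)
    (m n : ℕ) (W : Submodule ℚ ℚ[X][Y]) (hW : W ≤ Box ℚ m n) (hne : W ≠ ⊥)
    (hv : ∀ F ∈ W, ∀ i ∈ Λ, EV (x i) (y i) F = 0) (c : ℕ) (hc : m * n ≤ finrank ℚ W + c) :
    ∃ Λb ⊆ Λ, Λb.card * Ds ≤ 2 * (m * n) ∧ ∀ i ∈ Λ, i ∉ Λb → ∃ R, Irreducible R ∧
      EV (x i) (y i) R = 0 ∧ dX R * n ≤ c ∧ R.natDegree * m ≤ c := by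
  classical
  obtain ⟨A, hAW, hA0⟩ := (Submodule.ne_bot_iff W).mp hne
  have hAbox := (mem_box_iff hA0).mp (hW hAW)
  have h1 : ∀ i, ∃ R, i ∈ Λ → (Irreducible R ∧ R ∣ A ∧ EV (x i) (y i) R = 0) := by
    intro i
    by_cases hi : i ∈ Λ
    · obtain ⟨R, hR⟩ := irr_factor (x i) (y i) A hA0 (hv A hAW i hi)
      exact ⟨R, fun _ => hR⟩
    · exact ⟨0, fun h => absurd h hi⟩
  choose R hR using h1
  refine ⟨Λ.filter fun i => ∃ G ∈ W, ¬ R i ∣ G, Finset.filter_subset _ _, ?_, ?_⟩
  · set Λb := Λ.filter fun i => ∃ G ∈ W, ¬ R i ∣ G with hΛb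
    by_cases hemp : Λb = ∅
    · rw [hemp]
      simp
    obtain ⟨i0, hi0⟩ := Finset.nonempty_iff_ne_empty.mpr hemp
    obtain ⟨B, hBW, hB⟩ := exists_avoid Λb W R fun i hi => (Finset.mem_filter.mp hi).2
    have hB0 : B ≠ 0 := by
      rintro rfl
      exact hB i0 hi0 (dvd_zero _)
    have hBbox := (mem_box_iff hB0).mp (hW hBW)
    obtain ⟨P, hP1, hP2, hP3⟩ := coprime_part B A hA0
    have hP0 : P ≠ 0 := by
      rintro rfl
      exact hA0 (zero_dvd_iff.mp hP1)
    have h2 := common Λb x y P B hP0 hB0 hP2 (by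
        intro i hi
        have hiΛ := (Finset.mem_filter.mp hi).1
        obtain ⟨hr1, hr2, hr3⟩ := hR i hiΛ
        obtain ⟨t, ht⟩ := hP3 (R i) hr1 hr2 (hB i hi)
        rw [ht, map_mul, hr3, zero_mul]) (by
        intro i hi
        exact hv B hBW i (Finset.mem_filter.mp hi).1)
      (fun i hi => hint i (Finset.mem_filter.mp hi).1)
      (fun i hi j hj => hinj i (Finset.mem_filter.mp hi).1 j (Finset.mem_filter.mp hj).1)
    have h3 : Λb.card * Ds ≤ ∑ i ∈ Λb, (minpoly ℚ (x i)).natDegree := by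
      rw [← smul_eq_mul, ← Finset.sum_const]
      exact Finset.sum_le_sum fun i hi => hDs i (Finset.mem_filter.mp hi).1
    have h4 : dX P ≤ dX A := dX_le_of_dvd hA0 hP1
    have h5 : P.natDegree ≤ A.natDegree := natDegree_le_of_dvd hP1 hA0
    have h6 : dX P + 1 ≤ m := by omega
    have h7 : dX B + 1 ≤ m := by omega
    have h8 : P.natDegree + 1 ≤ n := by omega
    have h9 : B.natDegree + 1 ≤ n := by omega
    have h10 : dX P * (B.natDegree + 1) ≤ m * n := Nat.mul_le_mul (by omega) h9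
    have h11 : dX B * (P.natDegree + 1) ≤ m * n := Nat.mul_le_mul (by omega) h8
    calc Λb.card * Ds ≤ dX P * B.natDegree + dX B * P.natDegree + dX P + dX B := h3.trans h2
      _ = dX P * (B.natDegree + 1) + dX B * (P.natDegree + 1) := by ring
      _ ≤ 2 * (m * n) := by omega
  · intro i hi hib
    obtain ⟨hr1, hr2, hr3⟩ := hR i hi
    have hdvd : ∀ G ∈ W, R i ∣ G := by
      intro G hG
      by_contra hcon
      exact hib (Finset.mem_filter.mpr ⟨hi, G, hG, hcon⟩)
    have hRX : dX (R i) ≤ dX A := dX_le_of_dvd hA0 hr2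
    have hRY : (R i).natDegree ≤ A.natDegree := natDegree_le_of_dvd hr2 hA0
    have key : ∀ m' n' : ℕ, m' ≤ m → n' ≤ n → c < m' * n' →
        ∃ G ∈ W, G ≠ 0 ∧ G ∈ Box ℚ m' n' := by
      intro m' n' hm hn hlt
      by_contra hcon
      push Not at hcon
      have hdis : W ⊓ Box ℚ m' n' = ⊥ := by
        rw [eq_bot_iff]
        intro G hG
        rw [Submodule.mem_bot]
        by_contra h0
        exact hcon G hG.1 h0 hG.2
      have hWfin : FiniteDimensional ℚ W := Submodule.finiteDimensional_of_le hW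
      have hBfin : FiniteDimensional ℚ (Box ℚ m' n') :=
        Submodule.finiteDimensional_of_le (box_mono hm hn)
      have h2 := Submodule.finrank_sup_add_finrank_inf_eq W (Box ℚ m' n')
      rw [hdis, finrank_bot, add_zero] at h2
      have h3 : finrank ℚ (W ⊔ Box ℚ m' n' : Submodule ℚ ℚ[X][Y]) ≤ finrank ℚ (Box ℚ m n) :=
        Submodule.finrank_mono (sup_le hW (box_mono hm hn))
      rw [finrank_box] at h3 h2
      omega
    refine ⟨R i, hr1, hr3, ?_, ?_⟩
    · by_contra hcon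
      push Not at hcon
      obtain ⟨G, hGW, hG0, hGb⟩ := key (dX (R i)) n (by omega) le_rfl hcon
      have h2 := dX_le_of_dvd hG0 (hdvd G hGW)
      have h3 := ((mem_box_iff hG0).mp hGb).1
      omega
    · by_contra hcon
      push Not at hcon
      rw [mul_comm] at hcon
      obtain ⟨G, hGW, hG0, hGb⟩ := key m (R i).natDegree le_rfl (by omega) hcon
      have h2 := natDegree_le_of_dvd (hdvd G hGW) hG0
      have h3 := ((mem_box_iff hG0).mp hGb).2
      omega

end Pool.Agent.H776GM
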