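import Pool.Agent.H776GM.Height
import Pool.Agent.H776GM.Zero

/-!
# Small polynomials that vanish at a point
-/

set_option autoImplicit false

namespace Pool.Agent.H776GM

open Polynomial Polynomial.Bivariate NumberField Finset Module Pool.Agent.H225R3.Marg

variable {K : Type} [Field K] [NumberField K]

section degrees

theorem fiber_le (θ : K) (s : ℕ) (hs : (univ.filter fun w : K →+* ℂ => ‖w θ‖ ≠ 1).card ≤ s)
    (hex : ∃ w : K →+* ℂ, ‖w θ‖ ≠ 1) : finrank (IntermediateField.adjoin ℚ {θ}) K ≤ s := by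
  classical
  obtain ⟨w0, hw0⟩ := hex
  rw [← fiber_card θ w0, Nat.card_eq_fintype_card, Fintype.card_subtype]
  refine le_trans (Finset.card_le_card ?_) hs
  intro w hw
  rw [Finset.mem_filter] at hw ⊢
  exact ⟨hw.1, by rw [hw.2]; exact hw0⟩

theorem fiber_le' (θ : K) (s : ℕ) (hs : (univ.filter fun w : K →+* ℂ => ‖w θ‖ ≠ 1).card ≤ s)
    (hex : ∃ w : K →+* ℂ, ‖w θ‖ ≠ 1) (z : ℂ) :
    (univ.filter fun w : K →+* ℂ => w θ = z).card ≤ s := by
  classical
  by_cases h : ∃ w : K →+* ℂ, w θ = z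
  · obtain ⟨w0, rfl⟩ := h
    rw [← Fintype.card_subtype, ← Nat.card_eq_fintype_card, fiber_card θ w0]
    exact fiber_le θ s hs hex
  · push Not at h
    rw [Finset.filter_false_of_mem fun w _ => h w]
    exact Nat.zero_le _

theorem deg_lower (θ : K) (s : ℕ) (hs : (univ.filter fun w : K →+* ℂ => ‖w θ‖ ≠ 1).card ≤ s)
    (hex : ∃ w : K →+* ℂ, ‖w θ‖ ≠ 1) : finrank ℚ K ≤ (minpoly ℚ θ).natDegree * s := by
  have h1 : finrank ℚ (IntermediateField.adjoin ℚ {θ}) *
      finrank (IntermediateField.adjoin ℚ {θ}) K = finrank ℚ K := finrank_mul_finrank ℚ _ K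
  have h2 : finrank ℚ (IntermediateField.adjoin ℚ {θ}) = (minpoly ℚ θ).natDegree :=
    IntermediateField.adjoin.finrank (Algebra.IsIntegral.isIntegral θ)
  rw [← h1, h2]
  exact Nat.mul_le_mul_left _ (fiber_le θ s hs hex)

theorem pow_ne (a : 𝓞 K) (hex : ∃ w : K →+* ℂ, ‖emb w a‖ ≠ 1) (p : ℕ) (hp : p ≠ 0) :
    ∃ w : K →+* ℂ, ‖emb w (a ^ p)‖ ≠ 1 := by
  obtain ⟨w, hw⟩ := hex
  refine ⟨w, ?_⟩
  rw [map_pow, norm_pow]
  intro h
  exact hw ((pow_eq_one_iff_of_nonneg (norm_nonneg _) hp).mp h)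

theorem pow_filter (a : 𝓞 K) (p : ℕ) :
    (univ.filter fun w : K →+* ℂ => ‖emb w (a ^ p)‖ ≠ 1) ⊆
      univ.filter fun w : K →+* ℂ => ‖emb w a‖ ≠ 1 := by
  intro w hw
  rw [Finset.mem_filter] at hw ⊢
  refine ⟨hw.1, fun h => hw.2 ?_⟩
  rw [map_pow, norm_pow, h, one_pow]

theorem exists_gt (a : 𝓞 K) (ha : a ≠ 0) (hex : ∃ w : K →+* ℂ, ‖emb w a‖ ≠ 1) :
    ∃ w : K →+* ℂ, 1 < ‖emb w a‖ := by
  by_contra hcon
  push Not at hcon
  obtain ⟨w0, hw0⟩ := hex
  have h1 := one_le_norm_prod a ha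
  have h2 : ∏ w : K →+* ℂ, ‖emb w a‖ < ∏ _w : K →+* ℂ, (1 : ℝ) := by
    apply Finset.prod_lt_prod
    · intro w _
      rw [norm_pos_iff]
      intro h
      exact ha (emb_inj w (by rw [h, map_zero]))
    · intro w _
      exact hcon w
    · exact ⟨w0, Finset.mem_univ _, lt_of_le_of_ne (hcon w0) hw0⟩
  rw [Finset.prod_const_one] at h2
  linarith

theorem minpoly_inj (a : 𝓞 K) (ha : a ≠ 0) (hex : ∃ w : K →+* ℂ, ‖emb w a‖ ≠ 1) (p q : ℕ)
    (h : minpoly ℚ (((a ^ p : 𝓞 K)) : K) = minpoly ℚ (((a ^ q : 𝓞 K)) : K)) : p = q := by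
  obtain ⟨w1, hw1⟩ := exists_gt a ha hex
  obtain ⟨w0, _, hw0⟩ := Finset.exists_max_image (univ : Finset (K →+* ℂ)) (fun w => ‖emb w a‖)
    ⟨w1, Finset.mem_univ _⟩
  have hM : 1 < ‖emb w0 a‖ := hw1.trans_le (hw0 w1 (Finset.mem_univ _))
  have key : ∀ p q : ℕ, minpoly ℚ (((a ^ p : 𝓞 K)) : K) = minpoly ℚ (((a ^ q : 𝓞 K)) : K) →
      p ≤ q := by
    intro p q h
    have h1 := NumberField.Embeddings.range_eval_eq_rootSet_minpoly K ℂ (((a ^ p : 𝓞 K)) : K)
    have h2 := NumberField.Embeddings.range_eval_eq_rootSet_minpoly K ℂ (((a ^ q : 𝓞 K)) : K)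
    rw [h, ← h2] at h1
    have h3 : w0 (((a ^ p : 𝓞 K)) : K) ∈ Set.range fun φ : K →+* ℂ => φ (((a ^ p : 𝓞 K)) : K) :=
      ⟨w0, rfl⟩
    rw [h1] at h3
    obtain ⟨w, hw⟩ := h3
    have h4 : ‖emb w a‖ ^ q = ‖emb w0 a‖ ^ p := by
      have e1 : emb w (a ^ q) = emb w0 (a ^ p) := hw
      rw [← norm_pow, ← norm_pow, ← map_pow, ← map_pow, e1]
    have h5 : ‖emb w0 a‖ ^ p ≤ ‖emb w0 a‖ ^ q := by
      rw [← h4]
      exact pow_le_pow_left₀ (norm_nonneg _) (hw0 w (Finset.mem_univ _)) q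
    exact (pow_le_pow_iff_right₀ hM).mp h5
  exact le_antisymm (key p q h) (key q p h.symm)

end degrees

section jetmap

variable (m n T : ℕ) (x y : 𝓞 K)

/-- the weights -/
noncomputable def wt (m n : ℕ) (x y : 𝓞 K) (w : K →+* ℂ) : ℝ :=
  (max 1 ‖emb w x‖) ^ m * (max 1 ‖emb w y‖) ^ n

omit [NumberField K] in
theorem wt_pos (w : K →+* ℂ) : 0 < wt m n x y w := by
  unfold wt
  have h0 : ∀ z : ℝ, (0 : ℝ) < max 1 z := fun z => lt_of_lt_of_le one_pos (le_max_left _ _)
  exact mul_pos (pow_pos (h0 _) _) (pow_pos (h0 _) _)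

/-- the map that sends a polynomial to its weighted jets -/
noncomputable def Jm : (Fin m × Fin n → ℤ) →+ (((K →+* ℂ) × Fin T × Fin T) → ℂ) where
  toFun c := fun z => emb z.1 (jet c z.2.1 z.2.2 x y) / (wt m n x y z.1 : ℂ)
  map_zero' := by
    funext z
    simp [jet]
  map_add' c d := by
    funext z
    have : jet (c + d) z.2.1 z.2.2 x y = jet c z.2.1 z.2.2 x y + jet d z.2.1 z.2.2 x y := by
      simp only [jet, Pi.add_apply, Int.cast_add, ← Finset.sum_add_distrib]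
      refine Finset.sum_congr rfl fun p _ => ?_
      ring
    rw [this, map_add, add_div]
    rfl

theorem Jm_eq_zero (c : Fin m × Fin n → ℤ) :
    Jm m n T x y c = 0 ↔ ∀ u < T, ∀ v < T, jet c u v x y = 0 := by
  constructor
  · intro h u hu v hv
    obtain ⟨w0⟩ : Nonempty (K →+* ℂ) := inferInstance
    have h1 := congrFun h (w0, ⟨u, hu⟩, ⟨v, hv⟩)
    have h2 : emb w0 (jet c u v x y) / (wt m n x y w0 : ℂ) = 0 := h1
    rw [div_eq_zero_iff] at h2
    rcases h2 with h2 | h2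
    · exact emb_inj w0 (by rw [h2, map_zero])
    · exact absurd (by exact_mod_cast h2) (wt_pos m n x y w0).ne'
  · intro h
    funext z
    show emb z.1 (jet c z.2.1 z.2.2 x y) / (wt m n x y z.1 : ℂ) = 0
    rw [h _ z.2.1.2 _ z.2.2.2, map_zero, zero_div]

theorem Jm_sep (hA : ∏ w : K →+* ℂ, wt m n x y w ≤ Real.exp (finrank ℚ K))
    (c : Fin m × Fin n → ℤ) (h : Jm m n T x y c ≠ 0) :
    Real.exp (-1) ≤ ‖Jm m n T x y c‖ := by
  by_contra hcon
  push Not at hcon
  apply h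
  rw [Jm_eq_zero]
  intro u hu v hv
  by_contra hne
  have h1 := one_le_norm_prod _ hne
  have h2 : ∀ w : K →+* ℂ, ‖emb w (jet c u v x y)‖ ≤ Real.exp (-1) * wt m n x y w := by
    intro w
    have h3 := norm_le_pi_norm (Jm m n T x y c) (w, ⟨u, hu⟩, ⟨v, hv⟩)
    have h4 : ‖emb w (jet c u v x y) / (wt m n x y w : ℂ)‖ ≤ ‖Jm m n T x y c‖ := h3
    rw [norm_div, Complex.norm_real, Real.norm_eq_abs, abs_of_pos (wt_pos m n x y w),
      div_le_iff₀ (wt_pos m n x y w)] at h4
    refine h4.trans (mul_le_mul_of_nonneg_right hcon.le (wt_pos m n x y w).le)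
  obtain ⟨w0⟩ : Nonempty (K →+* ℂ) := inferInstance
  have h2' : ‖emb w0 (jet c u v x y)‖ < Real.exp (-1) * wt m n x y w0 := by
    have h3 := norm_le_pi_norm (Jm m n T x y c) (w0, ⟨u, hu⟩, ⟨v, hv⟩)
    have h4 : ‖emb w0 (jet c u v x y) / (wt m n x y w0 : ℂ)‖ ≤ ‖Jm m n T x y c‖ := h3
    rw [norm_div, Complex.norm_real, Real.norm_eq_abs, abs_of_pos (wt_pos m n x y w0),
      div_le_iff₀ (wt_pos m n x y w0)] at h4
    exact h4.trans_lt (mul_lt_mul_of_pos_right hcon (wt_pos m n x y w0))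
  have h5 : ∏ w : K →+* ℂ, ‖emb w (jet c u v x y)‖ <
      ∏ w : K →+* ℂ, (Real.exp (-1) * wt m n x y w) := by
    apply Finset.prod_lt_prod
    · intro w _
      rw [norm_pos_iff]
      intro h
      exact hne (emb_inj w (by rw [h, map_zero]))
    · intro w _
      exact h2 w
    · exact ⟨w0, Finset.mem_univ _, h2'⟩
  rw [Finset.prod_mul_distrib, Finset.prod_const, Finset.card_univ,
    NumberField.Embeddings.card, ← Real.exp_nat_mul] at h5
  have h6 : Real.exp ((finrank ℚ K : ℝ) * -1) * ∏ w : K →+* ℂ, wt m n x y w ≤ 1 := by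
    calc Real.exp ((finrank ℚ K : ℝ) * -1) * ∏ w : K →+* ℂ, wt m n x y w
        ≤ Real.exp ((finrank ℚ K : ℝ) * -1) * Real.exp (finrank ℚ K) :=
          mul_le_mul_of_nonneg_left hA (Real.exp_pos _).le
      _ = 1 := by
          rw [← Real.exp_add]
          simp
  linarith

theorem Jm_bd (B : ℕ) (c : Fin m × Fin n → ℤ) (hc : ∀ p, |c p| ≤ B) :
    ‖Jm m n T x y c‖ ≤ ((m * n * B * (m * n) ^ T : ℕ) : ℝ) := by
  rw [pi_norm_le_iff_of_nonneg (by positivity)]
  intro z
  show ‖emb z.1 (jet c z.2.1 z.2.2 x y) / (wt m n x y z.1 : ℂ)‖ ≤ _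
  rw [norm_div, Complex.norm_real, Real.norm_eq_abs, abs_of_pos (wt_pos m n x y z.1),
    div_le_iff₀ (wt_pos m n x y z.1), map_jet]
  exact jet_bound c B T hc _ _ z.2.1.2.le z.2.2.2.le _ _

end jetmap

/-- the rational span of the small polynomials all of whose jets vanish -/
def Wsub (m n T B : ℕ) (x y : 𝓞 K) : Submodule ℚ (Fin m × Fin n → ℚ) :=
  Submodule.span ℚ {d | ∃ c : Fin m × Fin n → ℤ, (∀ p, |c p| ≤ B) ∧
    (∀ u < T, ∀ v < T, jet c u v x y = 0) ∧ d = fun p => (c p : ℚ)}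

/-- the codimension of the space of small polynomials with vanishing jets -/
theorem codim (m n T B : ℕ) (x y : 𝓞 K)
    (hA : ∏ w : K →+* ℂ, wt m n x y w ≤ Real.exp (finrank ℚ K)) :
    ((B : ℝ) + 1) ^ (m * n - finrank ℚ (Wsub m n T B x y)) ≤
      (1 + 2 * ((m * n * B * (m * n) ^ T : ℕ) : ℝ) * Real.exp 1) ^ (2 * T ^ 2 * finrank ℚ K) := by
  classical
  have h1 := pigeon (Jm m n T x y) B ((m * n * B * (m * n) ^ T : ℕ) : ℝ) (Real.exp (-1))
    (Nat.cast_nonneg _) (Real.exp_pos _) (Jm_sep m n T x y hA) (Jm_bd m n T x y B) ⊤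
    (fun c => Submodule.mem_top) (2 * T ^ 2 * finrank ℚ K) (by
      rw [finrank_top, Module.finrank_pi_fintype]
      simp only [Complex.finrank_real_complex, Finset.sum_const, Finset.card_univ, smul_eq_mul,
        Fintype.card_prod, Fintype.card_fin, NumberField.Embeddings.card]
      apply le_of_eq
      ring)
    (Wsub m n T B x y) (by
      intro c hc h0
      exact Submodule.subset_span ⟨c, hc, (Jm_eq_zero m n T x y c).mp h0, rfl⟩)
  rw [Fintype.card_prod, Fintype.card_fin, Fintype.card_fin] at h1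
  rw [Real.exp_neg, div_inv_eq_mul] at h1
  exact h1

theorem EV_bp {m n : ℕ} (x y : K) (c : Fin m × Fin n → ℚ) :
    EV x y (bp c) = ∑ p, (c p : K) * x ^ (p.1 : ℕ) * y ^ (p.2 : ℕ) := by
  rw [bp, map_sum]
  refine Finset.sum_congr rfl fun p _ => ?_
  have h1 : (monomial (p.2 : ℕ) (monomial (p.1 : ℕ) (c p)) : ℚ[X][Y]) =
      C (C (c p)) * (C X) ^ (p.1 : ℕ) * Y ^ (p.2 : ℕ) := by
    rw [← C_mul_X_pow_eq_monomial, ← C_mul_X_pow_eq_monomial, C_mul, C_pow]
  rw [h1, map_mul, map_mul, map_pow, map_pow, aevalAeval_Y, aevalAeval_X, aevalAeval_C, aeval_C,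
    eq_ratCast]

theorem EV_int {m n : ℕ} (x y : 𝓞 K) (c : Fin m × Fin n → ℤ) :
    EV (x : K) (y : K) (bp fun p => (c p : ℚ)) = ((ev c x y : 𝓞 K) : K) := by
  rw [EV_bp]
  simp [ev]

theorem finrank_span_image {E : Type*} [NormedAddCommGroup E] [NormedSpace ℝ E] [Module ℚ E]
    [IsScalarTower ℚ ℝ E]
    (V : Submodule ℚ K) (Ψ : K →ₗ[ℚ] E) :
    FiniteDimensional ℝ (Submodule.span ℝ (Ψ '' V)) ∧
    finrank ℝ (Submodule.span ℝ (Ψ '' (V : Set K))) ≤ finrank ℚ V := by
  classical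
  let b := Module.finBasis ℚ V
  have h1 : Submodule.span ℝ (Ψ '' (V : Set K)) ≤
      Submodule.span ℝ (Set.range fun i => Ψ (b i : K)) := by
    rw [Submodule.span_le]
    rintro _ ⟨z, hz, rfl⟩
    have h2 : (z : K) = ∑ i, (b.repr ⟨z, hz⟩ i) • (b i : K) := by
      have h3 := congrArg V.subtype (b.sum_repr ⟨z, hz⟩)
      rw [map_sum] at h3
      simp only [map_smul, Submodule.subtype_apply] at h3
      exact h3.symm
    rw [h2, map_sum]
    refine Submodule.sum_mem _ fun i _ => ?_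
    rw [map_smul, ← algebraMap_smul ℝ]
    exact Submodule.smul_mem _ _ (Submodule.subset_span ⟨i, rfl⟩)
  have hfin : FiniteDimensional ℝ (Submodule.span ℝ (Set.range fun i => Ψ (b i : K))) :=
    FiniteDimensional.span_of_finite ℝ (Set.finite_range _)
  refine ⟨Submodule.finiteDimensional_of_le h1, ?_⟩
  refine (Submodule.finrank_mono h1).trans ?_
  refine (finrank_range_le_card _).trans ?_
  simp

/-- a small polynomial that vanishes at a point on a curve of small degree -/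
theorem small_poly (m : ℕ) (x y : 𝓞 K) (ω : ℕ)
    (hA : ∏ w : K →+* ℂ, wt m m x y w ≤ Real.exp (finrank ℚ K))
    (R : ℚ[X][Y]) (hR : R ≠ 0) (hRx : dX R ≤ ω) (hRy : R.natDegree ≤ ω)
    (hEV : EV (x : K) (y : K) R = 0)
    (hnum : (1 + 2 * ((m * m * 1 * (m * m) ^ 1 : ℕ) : ℝ) * Real.exp 1) ^ (2 * ω * m) <
      2 ^ (m * m)) :
    ∃ c : Fin m × Fin m → ℤ, c ≠ 0 ∧ (∀ p, |c p| ≤ (1 : ℕ)) ∧ ev c x y = 0 := by
  classical
  by_contra hcon
  push Not at hcon
  let L : (Fin m × Fin m → ℚ) →ₗ[ℚ] K := (EV (x : K) (y : K)).toLinearMap.comp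
    ((Box ℚ m m).subtype.comp (boxEquiv ℚ m m).toLinearMap)
  have hL : ∀ c, L c = EV (x : K) (y : K) (bp c) := fun c => rfl
  -- the kernel is large
  have hker : (m - dX R) * (m - R.natDegree) ≤ finrank ℚ (LinearMap.ker L) := by
    by_cases hle : dX R ≤ m ∧ R.natDegree ≤ m
    swap
    · rw [not_and_or, not_le, not_le] at hle
      rcases hle with h | h
      · rw [Nat.sub_eq_zero_of_le h.le, zero_mul]
        exact Nat.zero_le _
      · rw [Nat.sub_eq_zero_of_le h.le, mul_zero]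
        exact Nat.zero_le _
    have hmem : ∀ c : Fin (m - dX R) × Fin (m - R.natDegree) → ℚ, R * bp c ∈ Box ℚ m m := by
      intro c
      have h1 : R ∈ Box ℚ (dX R + 1) (R.natDegree + 1) :=
        (mem_box_iff hR).mpr ⟨by omega, by omega⟩
      have h2 := mul_mem_box h1 (bp_mem c)
      rwa [Nat.add_sub_cancel' hle.1, Nat.add_sub_cancel' hle.2] at h2
    let μ0 : (Fin (m - dX R) × Fin (m - R.natDegree) → ℚ) → (Fin m × Fin m → ℚ) := fun c =>
      (boxEquiv ℚ m m).symm ⟨R * bp c, hmem c⟩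
    have hμ0 : ∀ c, bp (μ0 c) = R * bp c := by
      intro c
      have := (boxEquiv ℚ m m).apply_symm_apply ⟨R * bp c, hmem c⟩
      exact congrArg Subtype.val this
    have hbpinj : ∀ {m n : ℕ} {c d : Fin m × Fin n → ℚ}, bp c = bp d → c = d := by
      intro m n c d h
      exact (boxEquiv ℚ m n).injective (Subtype.ext h)
    have hbpadd : ∀ {m n : ℕ} (c d : Fin m × Fin n → ℚ), bp (c + d) = bp c + bp d := by
      intro m n c d
      exact congrArg Subtype.val ((boxEquiv ℚ m n).map_add c d)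
    have hbpsmul : ∀ {m n : ℕ} (r : ℚ) (c : Fin m × Fin n → ℚ), bp (r • c) = r • bp c := by
      intro m n r c
      exact congrArg Subtype.val ((boxEquiv ℚ m n).map_smul r c)
    let μ : (Fin (m - dX R) × Fin (m - R.natDegree) → ℚ) →ₗ[ℚ] LinearMap.ker L :=
      { toFun := fun c => ⟨μ0 c, by
          rw [LinearMap.mem_ker, hL, hμ0, map_mul, hEV, zero_mul]⟩
        map_add' := fun G H => by
          apply Subtype.ext
          apply hbpinj
          show bp (μ0 (G + H)) = bp (μ0 G + μ0 H)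
          rw [hμ0, hbpadd, hbpadd, hμ0, hμ0, mul_add]
        map_smul' := fun r G => by
          apply Subtype.ext
          apply hbpinj
          show bp (μ0 (r • G)) = bp (r • μ0 G)
          rw [hμ0, hbpsmul, hbpsmul, hμ0, mul_smul_comm] }
    have hinj : Function.Injective μ := by
      intro G H h
      have h1 : μ0 G = μ0 H := congrArg Subtype.val h
      have h2 : R * bp G = R * bp H := by rw [← hμ0, ← hμ0, h1]
      exact hbpinj (mul_left_cancel₀ hR h2)
    have h1 := LinearMap.finrank_le_finrank_of_injective hinj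
    rw [Module.finrank_fintype_fun_eq_card, Fintype.card_prod, Fintype.card_fin,
      Fintype.card_fin] at h1
    exact h1
  have hrange : finrank ℚ (LinearMap.range L) ≤ 2 * ω * m := by
    have h1 := LinearMap.finrank_range_add_finrank_ker L
    rw [Module.finrank_fintype_fun_eq_card, Fintype.card_prod, Fintype.card_fin] at h1
    have h2 : m * m ≤ (m - dX R) * (m - R.natDegree) + 2 * ω * m := by
      have e1 : m ≤ (m - dX R) + ω := by omega
      have e2 : m ≤ (m - R.natDegree) + ω := by omega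
      calc m * m ≤ ((m - dX R) + ω) * m := Nat.mul_le_mul_right _ e1
        _ = (m - dX R) * m + ω * m := by ring
        _ ≤ (m - dX R) * ((m - R.natDegree) + ω) + ω * m :=
            Nat.add_le_add_right (Nat.mul_le_mul_left _ e2) _
        _ = (m - dX R) * (m - R.natDegree) + (m - dX R) * ω + ω * m := by ring
        _ ≤ (m - dX R) * (m - R.natDegree) + m * ω + ω * m := by
            have : (m - dX R) * ω ≤ m * ω := Nat.mul_le_mul_right _ (Nat.sub_le _ _)
            omega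
        _ = _ := by ring
    omega
  let Ψ : K →ₗ[ℚ] (((K →+* ℂ) × Fin 1 × Fin 1) → ℂ) :=
    { toFun := fun z w => w.1 z / (wt m m x y w.1 : ℂ)
      map_add' := fun z z' => by
        funext w
        show w.1 (z + z') / _ = w.1 z / _ + w.1 z' / _
        rw [map_add, add_div]
      map_smul' := fun r z => by
        funext w
        show w.1 (r • z) / _ = r • (w.1 z / _)
        rw [Rat.smul_def, map_mul, map_ratCast, Rat.smul_def, mul_div_assoc] }
  obtain ⟨hfin, hfr⟩ := finrank_span_image (LinearMap.range L) Ψ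
  have h1 := pigeon (Jm m m 1 x y) 1 ((m * m * 1 * (m * m) ^ 1 : ℕ) : ℝ) (Real.exp (-1))
    (Nat.cast_nonneg _) (Real.exp_pos _) (Jm_sep m m 1 x y hA) (Jm_bd m m 1 x y 1)
    (Submodule.span ℝ (Ψ '' (LinearMap.range L : Set K))) (by
      intro c
      apply Submodule.subset_span
      refine ⟨EV (x : K) (y : K) (bp fun p => (c p : ℚ)), ⟨fun p => (c p : ℚ), rfl⟩, ?_⟩
      funext w
      show w.1 (EV (x : K) (y : K) (bp fun p => (c p : ℚ))) / (wt m m x y w.1 : ℂ) =
        emb w.1 (jet c w.2.1 w.2.2 x y) / (wt m m x y w.1 : ℂ)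
      have e1 : (w.2.1 : ℕ) = 0 := by omega
      have e2 : (w.2.2 : ℕ) = 0 := by omega
      rw [EV_int, e1, e2, ← ev_eq_jet]
      rfl) (2 * ω * m) (hfr.trans hrange) ⊥ (by
      intro c hc h0
      rw [Submodule.mem_bot]
      by_contra hne
      refine hcon c ?_ hc ?_
      · rintro rfl
        apply hne
        funext p
        simp
      · rw [ev_eq_jet]
        exact (Jm_eq_zero m m 1 x y c).mp h0 0 one_pos 0 one_pos)
  rw [Fintype.card_prod, Fintype.card_fin, finrank_bot, Nat.sub_zero, Real.exp_neg,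
    div_inv_eq_mul] at h1
  norm_num at h1 hnum
  linarith

end Pool.Agent.H776GM
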