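import Pool.Agent.H776GM.Gap2

/-!
# Matrices whose eigenvalues are roots of the eigenvalues of a matrix
-/

set_option autoImplicit false

namespace Pool.Agent.H776GM

open Polynomial NumberField Finset Module Pool.Agent.H225R3.Marg

theorem exists_comp {R : Type*} [CommRing R] [Nontrivial R] (P : R[X]) (hP : P.Monic) (N : ℕ)
    (hN : P.natDegree = N) : ∃ B : Matrix (Fin N) (Fin N) R, B.charpoly = P := by
  subst hN
  set pb := AdjoinRoot.powerBasis' hP with hpb
  have h1 := charpoly_leftMulMatrix pb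
  have h2 : P = minpoly R pb.gen := by
    have h3 : pb.gen = AdjoinRoot.root P := rfl
    rw [h3]
    refine minpoly.unique' R (AdjoinRoot.root P) hP (AdjoinRoot.aeval_eq P ▸ AdjoinRoot.mk_self) ?_
    intro q hq
    by_cases h0 : q = 0
    · exact Or.inl h0
    · right
      rw [AdjoinRoot.aeval_eq]
      intro h4
      rw [AdjoinRoot.mk_eq_zero] at h4
      exact hP.not_dvd_of_degree_lt h0 hq h4
  have hdim : pb.dim = P.natDegree := rfl
  refine ⟨Matrix.reindex (finCongr hdim) (finCongr hdim)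
    (Algebra.leftMulMatrix pb.basis pb.gen), ?_⟩
  rw [Matrix.charpoly_reindex, h1, ← h2]

/-- a matrix whose eigenvalues are the `h`-th roots of the eigenvalues of `A` -/
theorem root_matrix {R : Type*} [CommRing R] [Nontrivial R] {n : ℕ}
    (A : Matrix (Fin n) (Fin n) R) (h : ℕ) (hh : 0 < h) :
    ∃ B : Matrix (Fin (n * h)) (Fin (n * h)) R, B.charpoly = expand R h A.charpoly ∧
      (IsUnit A → IsUnit B) := by
  obtain ⟨B, hB⟩ := exists_comp (expand R h A.charpoly) (A.charpoly_monic.expand hh) (n * h)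
    (by rw [natDegree_expand, Matrix.charpoly_natDegree_eq_dim, Fintype.card_fin])
  refine ⟨B, hB, fun hA => ?_⟩
  rw [Matrix.isUnit_iff_isUnit_det] at hA ⊢
  rw [Matrix.det_eq_sign_charpoly_coeff] at hA ⊢
  rw [hB, coeff_zero_eq_eval_zero, expand_eval, zero_pow hh.ne', ← coeff_zero_eq_eval_zero]
  have h1 := isUnit_of_mul_isUnit_right hA
  exact ((isUnit_neg_one).pow _).mul h1

theorem expand_root {R E : Type*} [CommRing R] [CommRing E] (P : R[X]) (h : ℕ) (f : R →+* E)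
    (l : E) : ((expand R h P).map f).IsRoot l ↔ (P.map f).IsRoot (l ^ h) := by
  rw [IsRoot, IsRoot, map_expand, expand_eval]

theorem charpoly_emb {k : Type} [Field k] {n : ℕ} (σ : k →+* ℂ)
    (A : Matrix (Fin n) (Fin n) (𝓞 k)) :
    ((emb σ).mapMatrix A).charpoly = A.charpoly.map (emb σ) := by
  rw [← Matrix.charpoly_map]; rfl

theorem root_matrix_emb {k : Type} [Field k] {n h : ℕ} (σ : k →+* ℂ)
    (A : Matrix (Fin n) (Fin n) (𝓞 k)) (B : Matrix (Fin (n * h)) (Fin (n * h)) (𝓞 k))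
    (hB : B.charpoly = expand (𝓞 k) h A.charpoly) (l : ℂ)
    (hl : ((emb σ).mapMatrix B).charpoly.IsRoot l) :
    ((emb σ).mapMatrix A).charpoly.IsRoot (l ^ h) := by
  rw [charpoly_emb, hB, expand_root] at hl
  rw [charpoly_emb]
  exact hl

/-- roots in an extension field -/
theorem exists_ext_roots {L : Type} [Field L] [NumberField L] (α β : L) (h : ℕ) (hh : 0 < h) :
    ∃ (L' : Type) (_ : Field L') (_ : NumberField L') (_ : Algebra L L') (α' β' : L'),
      α' ^ h = algebraMap L L' α ∧ β' ^ h = algebraMap L L' β := by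
  set P : L[X] := (X ^ h - C α) * (X ^ h - C β) with hP
  have hm1 : (X ^ h - C α : L[X]).Monic := monic_X_pow_sub_C α hh.ne'
  have hm2 : (X ^ h - C β : L[X]).Monic := monic_X_pow_sub_C β hh.ne'
  obtain ⟨L', _, _, _, hsplit⟩ : ∃ (L' : Type) (_ : Field L') (_ : NumberField L')
      (_ : Algebra L L'), (P.map (algebraMap L L')).Splits := by
    have : CharZero P.SplittingField :=
      charZero_of_injective_algebraMap (algebraMap L P.SplittingField).injective
    exact ⟨P.SplittingField, inferInstance, NumberField.of_module_finite L _, inferInstance,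
      SplittingField.splits P⟩
  have hP0 : P.map (algebraMap L L') ≠ 0 := ((hm1.mul hm2).map _).ne_zero
  have key : ∀ γ : L, (X ^ h - C γ) ∣ P → ∃ γ' : L', γ' ^ h = algebraMap L L' γ := by
    intro γ hd
    have h1 : ((X ^ h - C γ : L[X]).map (algebraMap L L')).Splits :=
      hsplit.of_dvd hP0 (Polynomial.map_dvd _ hd)
    have h2 : ((X ^ h - C γ : L[X]).map (algebraMap L L')).degree ≠ 0 := by
      rw [degree_map, degree_X_pow_sub_C hh]
      exact_mod_cast hh.ne'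
    obtain ⟨x, hx⟩ := h1.exists_eval_eq_zero h2
    refine ⟨x, ?_⟩
    rw [Polynomial.map_sub, Polynomial.map_pow, map_X, map_C, eval_sub, eval_pow, eval_X,
      eval_C, sub_eq_zero] at hx
    exact hx
  obtain ⟨α', hα'⟩ := key α (dvd_mul_right _ _)
  obtain ⟨β', hβ'⟩ := key β (dvd_mul_left _ _)
  exact ⟨L', inferInstance, inferInstance, inferInstance, α', β', hα', hβ'⟩

theorem dep_pair_h : ∃ D0 : ℕ, ∀ (k K L : Type) [Field k] [Field K] [Field L] [NumberField k]
    [NumberField K] [NumberField L] [Algebra K L] (n : ℕ)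
    (A B : Matrix (Fin n) (Fin n) (𝓞 k)) (i i' : k →+* K) (S : Finset (k →+* ℂ)) (m h : ℕ),
    0 < h → finrank ℚ K = m * finrank ℚ k → IsUnit A → IsUnit B →
    (∀ σ : k →+* ℂ, σ ∉ S → ∀ l : ℂ, ((emb σ).mapMatrix A).charpoly.IsRoot l → ‖l‖ = 1) →
    (∀ σ : k →+* ℂ, σ ∉ S → ∀ l : ℂ, ((emb σ).mapMatrix B).charpoly.IsRoot l → ‖l‖ = 1) →
    (∀ σ ∈ S, ∀ l : ℂ, ((emb σ).mapMatrix A).charpoly.IsRoot l → ‖l‖ ≤ Real.exp h) →
    (∀ σ ∈ S, ∀ l : ℂ, ((emb σ).mapMatrix B).charpoly.IsRoot l → ‖l‖ ≤ Real.exp h) →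
    D0 * S.card ≤ finrank ℚ k →
    (S.card * m * ((n * h) * (n * h))) ^ 300 * S.card ≤ finrank ℚ k →
    ∀ α β : L,
      (A.charpoly.map (((algebraMap K L).comp i).comp (algebraMap (𝓞 k) k))).IsRoot α →
      (B.charpoly.map (((algebraMap K L).comp i').comp (algebraMap (𝓞 k) k))).IsRoot β →
      ∃ u v : ℤ, (u, v) ≠ (0, 0) ∧ α ^ u * β ^ v = 1 := by
  obtain ⟨D0, hD0⟩ := dep_pair
  refine ⟨D0, ?_⟩
  intro k K L _ _ _ _ _ _ _ n A B i i' S m h hh hmK hA hB houtA houtB hinA hinB hd1 hd2 α β hα hβ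
  obtain ⟨A', hA', hAu⟩ := root_matrix A h hh
  obtain ⟨B', hB', hBu⟩ := root_matrix B h hh
  obtain ⟨L', _, _, _, α', β', hα', hβ'⟩ := exists_ext_roots α β h hh
  letI : Algebra K L' := ((algebraMap L L').comp (algebraMap K L)).toAlgebra
  have hout : ∀ (A : Matrix (Fin n) (Fin n) (𝓞 k)) (A' : Matrix (Fin (n * h)) (Fin (n * h)) (𝓞 k)),
      A'.charpoly = expand (𝓞 k) h A.charpoly → (∀ σ : k →+* ℂ, σ ∉ S → ∀ l : ℂ,
        ((emb σ).mapMatrix A).charpoly.IsRoot l → ‖l‖ = 1) → ∀ σ : k →+* ℂ, σ ∉ S → ∀ l : ℂ,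
        ((emb σ).mapMatrix A').charpoly.IsRoot l → ‖l‖ = 1 := by
    intro A A' hc ho σ hσ l hl
    have h1 := ho σ hσ _ (root_matrix_emb σ A A' hc l hl)
    rw [norm_pow] at h1
    exact (pow_eq_one_iff_of_nonneg (norm_nonneg l) hh.ne').mp h1
  have hin : ∀ (A : Matrix (Fin n) (Fin n) (𝓞 k)) (A' : Matrix (Fin (n * h)) (Fin (n * h)) (𝓞 k)),
      A'.charpoly = expand (𝓞 k) h A.charpoly → (∀ σ ∈ S, ∀ l : ℂ,
        ((emb σ).mapMatrix A).charpoly.IsRoot l → ‖l‖ ≤ Real.exp h) → ∀ σ ∈ S, ∀ l : ℂ,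
        ((emb σ).mapMatrix A').charpoly.IsRoot l → ‖l‖ ≤ Real.exp 1 := by
    intro A A' hc ho σ hσ l hl
    have h1 := ho σ hσ _ (root_matrix_emb σ A A' hc l hl)
    rw [norm_pow] at h1
    have h2 : Real.exp h = Real.exp 1 ^ h := by
      rw [← Real.exp_nat_mul, mul_one]
    rw [h2] at h1
    exact (pow_le_pow_iff_left₀ (norm_nonneg l) (Real.exp_pos 1).le hh.ne').mp h1
  have hroot : ∀ (A : Matrix (Fin n) (Fin n) (𝓞 k))
      (A' : Matrix (Fin (n * h)) (Fin (n * h)) (𝓞 k)) (i : k →+* K) (α : L) (α' : L'),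
      A'.charpoly = expand (𝓞 k) h A.charpoly → α' ^ h = algebraMap L L' α →
      (A.charpoly.map (((algebraMap K L).comp i).comp (algebraMap (𝓞 k) k))).IsRoot α →
      (A'.charpoly.map (((algebraMap K L').comp i).comp (algebraMap (𝓞 k) k))).IsRoot α' := by
    intro A A' i α α' hc he hr
    rw [hc, expand_root, he]
    have h1 := hr.map (f := algebraMap L L')
    rw [Polynomial.map_map] at h1
    exact h1
  obtain ⟨u, v, huv, hdep⟩ := hD0 k K L' (n * h) A' B' i i' S m hmK (hAu hA) (hBu hB)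
    (hout A A' hA' houtA) (hout B B' hB' houtB) (hin A A' hA' hinA) (hin B B' hB' hinB) hd1 hd2
    α' β' (hroot A A' i α α' hA' hα' hα) (hroot B B' i' β β' hB' hβ' hβ)
  refine ⟨u, v, huv, ?_⟩
  apply (algebraMap L L').injective
  rw [map_mul, map_zpow₀, map_zpow₀, map_one, ← hα', ← hβ', ← zpow_natCast, ← zpow_natCast,
    zpow_comm α' _ u, zpow_comm β' _ v, ← mul_zpow, hdep, one_zpow]

theorem sizes_h (D0 C n s m d h : ℕ) (hd : 0 < d) (hm : 0 < m)
    (h1 : (s * (m * d)) ^ 400 ≤ C * d ^ 401)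
    (h2 : D0 ^ 400 * C ≤ d) (h3 : C ^ 301 * ((n * n) ^ 300) ^ 400 ≤ d) (h0 : h ^ 3000 ≤ d) :
    D0 * s ≤ d ∧ (s * m * ((n * h) * (n * h))) ^ 300 * s ≤ d := by
  refine ⟨(sizes D0 C n s m d hd hm h1 h2 h3).1, ?_⟩
  have h4 : (s * m) ^ 400 ≤ C * d := by
    have h5 : (s * m) ^ 400 * d ^ 400 ≤ (C * d) * d ^ 400 := by
      calc (s * m) ^ 400 * d ^ 400 = (s * (m * d)) ^ 400 := by rw [← mul_pow, mul_assoc]
        _ ≤ C * d ^ 401 := h1
        _ = (C * d) * d ^ 400 := by rw [mul_assoc, ← pow_succ']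
    exact Nat.le_of_mul_le_mul_right h5 (Nat.pow_pos hd)
  have h5 : s ^ 400 ≤ C * d := by
    refine le_trans ?_ h4
    exact Nat.pow_le_pow_left (Nat.le_mul_of_pos_right s hm) 400
  have hH : ((h * h) ^ 300) ^ 400 ≤ d ^ 80 := by
    have e : ((h * h) ^ 300) ^ 400 = (h ^ 3000) ^ 80 := by
      rw [← sq, ← pow_mul, ← pow_mul, ← pow_mul]
    rw [e]
    exact Nat.pow_le_pow_left h0 80
  have h6 : ((s * m * ((n * h) * (n * h))) ^ 300 * s) ^ 400 ≤ d ^ 400 := by
    calc ((s * m * ((n * h) * (n * h))) ^ 300 * s) ^ 400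
        = ((s * m) ^ 400) ^ 300 * ((n * n) ^ 300) ^ 400 * s ^ 400 * ((h * h) ^ 300) ^ 400 := by
          have e : (n * h) * (n * h) = (n * n) * (h * h) := by ring
          rw [e, mul_pow, mul_pow (s * m) _ 300, mul_pow (n * n) (h * h) 300, mul_pow,
            mul_pow ((n * n) ^ 300), ← pow_mul (s * m) 300 400, ← pow_mul (s * m) 400 300]
          generalize ((n * n) ^ 300) ^ 400 = N
          generalize ((h * h) ^ 300) ^ 400 = H
          generalize s ^ 400 = a
          generalize (s * m) ^ (300 * 400) = b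
          have : (s * m) ^ (400 * 300) = (s * m) ^ (300 * 400) := rfl
          ring
      _ ≤ (C * d) ^ 300 * ((n * n) ^ 300) ^ 400 * (C * d) * d ^ 80 :=
          Nat.mul_le_mul (Nat.mul_le_mul (Nat.mul_le_mul_right _ (Nat.pow_le_pow_left h4 300)) h5)
            hH
      _ = (C ^ 301 * ((n * n) ^ 300) ^ 400) * d ^ 301 * d ^ 80 := by
          rw [mul_pow]
          generalize ((n * n) ^ 300) ^ 400 = N
          rw [pow_succ C 300, pow_succ d 300]
          generalize C ^ 300 = c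
          generalize d ^ 300 = e
          generalize d ^ 80 = f
          ring
      _ ≤ d * d ^ 301 * d ^ 80 := Nat.mul_le_mul_right _ (Nat.mul_le_mul_right _ h3)
      _ = d ^ 382 := by rw [← pow_succ', ← pow_add]
      _ ≤ d ^ 400 := Nat.pow_le_pow_right hd (by norm_num)
  exact (Nat.pow_le_pow_iff_left (by norm_num)).mp h6

end Pool.Agent.H776GM
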