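import Pool.Agent.H225R3.Marg8
import Pool.Agent.H776GM.Main

/-!
# Roots of the characteristic polynomial
-/

set_option autoImplicit false

namespace Pool.Agent.H776GM

open Polynomial NumberField Finset Module Pool.Agent.H225R3.Marg

/-- there is an eigenvalue of large degree with norm different from `1` -/
theorem exists_root {k : Type} [Field k] [NumberField k] {n : ℕ} (S : Finset (k →+* ℂ))
    (A : Matrix (Fin n) (Fin n) (𝓞 k)) (hA : IsUnit A)
    (hout : ∀ σ : k →+* ℂ, σ ∉ S → ∀ l : ℂ, ((emb σ).mapMatrix A).charpoly.IsRoot l → ‖l‖ = 1)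
    (hnil : ∀ N : ℕ, 0 < N → ¬ IsNilpotent (A ^ N - 1)) :
    ∃ σ ∈ S, ∃ l : ℂ, ((emb σ).mapMatrix A).charpoly.IsRoot l ∧ 1 < ‖l‖ ∧ IsIntegral ℤ l ∧
      finrank ℚ k ≤ (minpoly ℚ l).natDegree * S.card := by
  classical
  -- a root which is not a root of unity
  set f : 𝓞 k →+* AlgebraicClosure k :=
    (algebraMap k (AlgebraicClosure k)).comp (algebraMap (𝓞 k) k) with hf
  have hfinj : Function.Injective f :=
    (algebraMap k (AlgebraicClosure k)).injective.comp
      (FaithfulSMul.algebraMap_injective (𝓞 k) k)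
  obtain ⟨l, hl, hlN⟩ : ∃ l, (A.charpoly.map f).IsRoot l ∧ ∀ N : ℕ, 0 < N → l ^ N ≠ 1 := by
    by_contra hcon
    push Not at hcon
    obtain ⟨N, hN, h⟩ := nilp_of_roots f hfinj A hcon
    exact hnil N hN h
  have hspec : l ∈ spectrum (AlgebraicClosure k) (f.mapMatrix A) := by
    rw [Matrix.mem_spectrum_iff_isRoot_charpoly]
    have : (f.mapMatrix A).charpoly = A.charpoly.map f := by rw [← Matrix.charpoly_map]; rfl
    rw [this]
    exact hl
  have hl0 : l ≠ 0 := by
    rintro rfl
    exact (spectrum.zero_notMem_iff _).mpr (hA.map f.mapMatrix) hspec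
  -- the field
  have hlint : IsIntegral k l := Algebra.IsIntegral.isIntegral l
  let L := IntermediateField.adjoin k {l}
  haveI : FiniteDimensional k L := IntermediateField.adjoin.finiteDimensional hlint
  haveI : CharZero L := charZero_of_injective_algebraMap (algebraMap k L).injective
  haveI : NumberField L := NumberField.of_module_finite k L
  let x : L := ⟨l, IntermediateField.mem_adjoin_simple_self k l⟩
  have hxl : algebraMap L (AlgebraicClosure k) x = l := rfl
  set g : 𝓞 k →+* L := (algebraMap k L).comp (algebraMap (𝓞 k) k) with hg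
  have hgf : (algebraMap L (AlgebraicClosure k)).comp g = f := by
    rw [hg, hf, ← RingHom.comp_assoc]
    rfl
  have hx0 : eval₂ g x A.charpoly = 0 := by
    apply (algebraMap L (AlgebraicClosure k)).injective
    rw [map_zero, hom_eval₂, hgf, hxl]
    rw [IsRoot, eval_map] at hl
    exact hl
  have hxint : IsIntegral ℤ x := by
    have h1 : IsIntegral (𝓞 k) x := by
      refine ⟨A.charpoly, A.charpoly_monic, ?_⟩
      have : algebraMap (𝓞 k) L = g := rfl
      rw [this]
      exact hx0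
    haveI : IsScalarTower ℤ (𝓞 k) L := IsScalarTower.of_algebraMap_eq' (RingHom.ext_int _ _)
    exact isIntegral_trans x h1
  have hxne : x ≠ 0 := by
    intro h
    apply hl0
    rw [← hxl, h, map_zero]
  -- norms of the conjugates
  have hτroot : ∀ τ : L →+* ℂ,
      ((emb (τ.comp (algebraMap k L))).mapMatrix A).charpoly.IsRoot (τ x) := by
    intro τ
    have h1 : ((emb (τ.comp (algebraMap k L))).mapMatrix A).charpoly =
        A.charpoly.map (emb (τ.comp (algebraMap k L))) := by rw [← Matrix.charpoly_map]; rfl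
    rw [h1, IsRoot, eval_map]
    have h2 : emb (τ.comp (algebraMap k L)) = τ.comp g := rfl
    rw [h2, ← hom_eval₂, hx0, map_zero]
  have hτout : ∀ τ : L →+* ℂ, τ.comp (algebraMap k L) ∉ S → ‖τ x‖ = 1 :=
    fun τ hτ => hout _ hτ _ (hτroot τ)
  obtain ⟨τ0, hτ0⟩ : ∃ τ0 : L →+* ℂ, 1 < ‖τ0 x‖ := by
    by_contra hcon
    push Not at hcon
    obtain ⟨N, hN, h⟩ := NumberField.Embeddings.pow_eq_one_of_norm_le_one L ℂ hxne hxint hcon
    apply hlN N hN
    rw [← hxl, ← map_pow, h, map_one]
  have hdeg := deg_bound S x τ0 (fun τ hτ => by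
    by_contra hS
    have := hτout τ hS
    rw [hτ] at this
    linarith)
  refine ⟨τ0.comp (algebraMap k L), ?_, τ0 x, hτroot τ0, hτ0, ?_, ?_⟩
  · by_contra hS
    have := hτout τ0 hS
    linarith
  · exact hxint.map (RingHom.toIntAlgHom τ0)
  · have h1 : minpoly ℚ (τ0 x) = minpoly ℚ x :=
      minpoly.algHom_eq (RingHom.toRatAlgHom τ0) τ0.injective x
    rw [h1]
    exact hdeg

/-- eigenvalues lift along extensions of an embedding to an algebraically closed field -/
theorem lift_root {k Ω : Type} [Field k] [Field Ω] [IsAlgClosed Ω] {n : ℕ}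
    (A : Matrix (Fin n) (Fin n) (𝓞 k)) (i : k →+* Ω) (w : Ω →+* ℂ) (l : ℂ)
    (hl : ((emb (w.comp i)).mapMatrix A).charpoly.IsRoot l) :
    ∃ α : Ω, w α = l ∧ (A.charpoly.map (i.comp (algebraMap (𝓞 k) k))).IsRoot α := by
  set g : 𝓞 k →+* Ω := i.comp (algebraMap (𝓞 k) k) with hg
  have h1 : ((emb (w.comp i)).mapMatrix A).charpoly = (A.charpoly.map g).map w := by
    rw [Polynomial.map_map, ← Matrix.charpoly_map]; rfl
  rw [h1] at hl
  have hm : (A.charpoly.map g).Monic := A.charpoly_monic.map g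
  have h2 : ((A.charpoly.map g).map w).roots = (A.charpoly.map g).roots.map w :=
    (IsAlgClosed.splits (A.charpoly.map g)).roots_map w
  have h3 : l ∈ ((A.charpoly.map g).map w).roots := by
    rw [mem_roots (hm.map w).ne_zero]
    exact hl
  rw [h2, Multiset.mem_map] at h3
  obtain ⟨α, hα, hα2⟩ := h3
  exact ⟨α, hα2, (mem_roots hm.ne_zero).mp hα⟩

/-- roots specialise -/
theorem spec_root {k Ω : Type} [Field k] [Field Ω] {n : ℕ}
    (A : Matrix (Fin n) (Fin n) (𝓞 k)) (i : k →+* Ω) (w : Ω →+* ℂ) (α : Ω)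
    (hα : (A.charpoly.map (i.comp (algebraMap (𝓞 k) k))).IsRoot α) :
    ((emb (w.comp i)).mapMatrix A).charpoly.IsRoot (w α) := by
  set g : 𝓞 k →+* Ω := i.comp (algebraMap (𝓞 k) k) with hg
  have h1 : ((emb (w.comp i)).mapMatrix A).charpoly = (A.charpoly.map g).map w := by
    rw [Polynomial.map_map, ← Matrix.charpoly_map]; rfl
  rw [h1]
  exact hα.map

theorem extend_emb {k Ω : Type} [Field k] [Field Ω] (i : k →+* Ω)
    (h : ∀ x : Ω, ∃ p : k[X], p.Monic ∧ p.eval₂ i x = 0) (σ : k →+* ℂ) :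
    ∃ w : Ω →+* ℂ, w.comp i = σ := by
  letI : Algebra k Ω := i.toAlgebra
  letI : Algebra k ℂ := σ.toAlgebra
  haveI : Algebra.IsAlgebraic k Ω := by
    haveI : Algebra.IsIntegral k Ω := ⟨fun x => h x⟩
    infer_instance
  let φ : Ω →ₐ[k] ℂ := IsAlgClosed.lift
  exact ⟨φ.toRingHom, RingHom.ext fun x => φ.commutes x⟩

end Pool.Agent.H776GM
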