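import Pool.Agent.H776GM.Pig
import Pool.Agent.H776GM.Count

/-!
# The space of polynomials that vanish at many powers
-/

set_option autoImplicit false

namespace Pool.Agent.H776GM

open Polynomial Polynomial.Bivariate NumberField Finset Module Pool.Agent.H225R3.Marg

variable {K : Type} [Field K] [NumberField K]

theorem space (a b : 𝓞 K) (s : ℕ)
    (hsa : (univ.filter fun w : K →+* ℂ => ‖emb w a‖ ≠ 1).card ≤ s)
    (hsb : (univ.filter fun w : K →+* ℂ => ‖emb w b‖ ≠ 1).card ≤ s)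
    (hla : ∀ w : K →+* ℂ, ‖emb w a‖ ≤ Real.exp 1)
    (hlb : ∀ w : K →+* ℂ, ‖emb w b‖ ≤ Real.exp 1)
    (hgen : ∀ w w' : K →+* ℂ, emb w a = emb w' a → emb w b = emb w' b → w = w')
    (m n T B : ℕ) (hT : 0 < T) (Λ : Finset ℕ)
    (hΛ : ∀ p ∈ Λ, p.Prime ∧ (¬ (p : ℤ) ^ (finrank ℚ K / 4 + 1) ∣
        Algebra.norm ℤ (dlt (minpoly ℤ a) (minpoly ℤ b) a b)) ∧
        s * (p * m + p * n) ≤ finrank ℚ K ∧
        (((m * n * B : ℕ) : ℝ) * Real.exp 1) ^ 2 < (p : ℝ) ^ T)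
    (h1 : s * (1 * m + 1 * n) ≤ finrank ℚ K) (c : ℕ)
    (hc : (1 + 2 * ((m * n * B * (m * n) ^ T : ℕ) : ℝ) * Real.exp 1) ^ (2 * T ^ 2 * finrank ℚ K) <
      ((B : ℝ) + 1) ^ (c + 1)) :
    ∃ W : Submodule ℚ ℚ[X][Y], W ≤ Box ℚ m n ∧ m * n ≤ finrank ℚ W + c ∧
      ∀ F ∈ W, ∀ p ∈ Λ, EV (((a ^ p : 𝓞 K)) : K) (((b ^ p : 𝓞 K)) : K) F = 0 := by
  have hA : ∏ w : K →+* ℂ, wt m n a b w ≤ Real.exp (finrank ℚ K) := by
    have := prod_A a b s hsa hsb hla hlb 1 m n h1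
    simpa only [pow_one, wt] using this
  have hcod := codim m n T B a b hA
  have hB1 : (1 : ℝ) ≤ (B : ℝ) + 1 := by
    have : (0 : ℝ) ≤ B := Nat.cast_nonneg _
    linarith
  have hle : m * n - finrank ℚ (Wsub m n T B a b) ≤ c := by
    by_contra hcon
    push Not at hcon
    have h2 := pow_le_pow_right₀ hB1 hcon
    exact absurd (h2.trans hcod) (not_le.mpr hc)
  let φ : (Fin m × Fin n → ℚ) →ₗ[ℚ] ℚ[X][Y] :=
    (Box ℚ m n).subtype.comp (boxEquiv ℚ m n).toLinearMap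
  have hφinj : Function.Injective φ := by
    intro x y h
    exact (boxEquiv ℚ m n).injective (Subtype.ext h)
  refine ⟨(Wsub m n T B a b).map φ, ?_, ?_, ?_⟩
  · rintro _ ⟨d, _, rfl⟩
    exact bp_mem d
  · have h2 : finrank ℚ ((Wsub m n T B a b).map φ) = finrank ℚ (Wsub m n T B a b) :=
      (LinearEquiv.finrank_eq (Submodule.equivMapOfInjective φ hφinj _)).symm
    rw [h2]
    omega
  · rintro _ ⟨d, hd, rfl⟩ p hp
    obtain ⟨hp1, hp2, hp3, hp4⟩ := hΛ p hp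
    have hdm : d ∈ LinearMap.ker ((EV (((a ^ p : 𝓞 K)) : K) (((b ^ p : 𝓞 K)) : K)).toLinearMap.comp
        φ) := by
      have hsub : Wsub m n T B a b ≤ LinearMap.ker
          ((EV (((a ^ p : 𝓞 K)) : K) (((b ^ p : 𝓞 K)) : K)).toLinearMap.comp φ) := by
        rw [Wsub, Submodule.span_le]
        rintro _ ⟨c, hcB, hjet, rfl⟩
        have h2 := extrap a b s hsa hsb hla hlb hgen p T m n B hp1 hT hp2 hp3 c hcB hjet hp4
        show EV (((a ^ p : 𝓞 K)) : K) (((b ^ p : 𝓞 K)) : K) (bp fun q => (c q : ℚ)) = 0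
        rw [EV_int, h2]
        rfl
      exact hsub hd
    exact hdm

/-- the curve of small degree through some power -/
theorem small_curve (a b : 𝓞 K) (s : ℕ)
    (hsa : (univ.filter fun w : K →+* ℂ => ‖emb w a‖ ≠ 1).card ≤ s)
    (ha0 : a ≠ 0) (hexa : ∃ w : K →+* ℂ, ‖emb w a‖ ≠ 1)
    (Λ : Finset ℕ) (hΛ : ∀ p ∈ Λ, p ≠ 0) (c : ℕ) (m0 m1 m2 : ℕ) (h12 : m1 * m2 = m0 * m0)
    (hc : c < m0 * m0)
    (hW : ∀ m n : ℕ, (m = m0 ∧ n = m0) ∨ (m = m1 ∧ n = m2) ∨ (m = m2 ∧ n = m1) →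
      ∃ W : Submodule ℚ ℚ[X][Y], W ≤ Box ℚ m n ∧ m * n ≤ finrank ℚ W + c ∧
      ∀ F ∈ W, ∀ p ∈ Λ, EV (((a ^ p : 𝓞 K)) : K) (((b ^ p : 𝓞 K)) : K) F = 0)
    (hcard : ∀ k : ℕ, k * (finrank ℚ K / s) ≤ 2 * (m0 * m0) → 3 * k < Λ.card)
    (A0 A1 A2 : ℕ) (hA0 : c < (A0 + 1) * m0) (hA1 : c < (A1 + 1) * m2) (hA2 : c < (A2 + 1) * m1)
    (hbez : s * (A0 * A2 + A1 * A0 + A0 + A1) < finrank ℚ K) :
    ∃ p ∈ Λ, ∃ R : ℚ[X][Y], Irreducible R ∧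
      EV (((a ^ p : 𝓞 K)) : K) (((b ^ p : 𝓞 K)) : K) R = 0 ∧ dX R ≤ A2 ∧ R.natDegree ≤ A2 := by
  classical
  have hintK : ∀ p ∈ Λ, IsIntegral ℚ (((a ^ p : 𝓞 K)) : K) := fun p _ =>
    Algebra.IsIntegral.isIntegral _
  have hinj : ∀ p ∈ Λ, ∀ q ∈ Λ, minpoly ℚ (((a ^ p : 𝓞 K)) : K) = minpoly ℚ (((a ^ q : 𝓞 K)) : K) →
      p = q := fun p _ q _ h => minpoly_inj a ha0 hexa p q h
  have hdeg : ∀ p ∈ Λ, finrank ℚ K ≤ (minpoly ℚ (((a ^ p : 𝓞 K)) : K)).natDegree * s := by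
    intro p hp
    apply deg_lower
    · exact (Finset.card_le_card (pow_filter a p)).trans hsa
    · exact pow_ne a hexa p (hΛ p hp)
  have hDs : ∀ p ∈ Λ, finrank ℚ K / s ≤ (minpoly ℚ (((a ^ p : 𝓞 K)) : K)).natDegree := by
    intro p hp
    exact Nat.div_le_of_le_mul (by rw [mul_comm]; exact hdeg p hp)
  have key : ∀ m n : ℕ, (m = m0 ∧ n = m0) ∨ (m = m1 ∧ n = m2) ∨ (m = m2 ∧ n = m1) →
      ∃ Λb ⊆ Λ, 3 * Λb.card < Λ.card ∧ ∀ p ∈ Λ, p ∉ Λb → ∃ R, Irreducible R ∧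
        EV (((a ^ p : 𝓞 K)) : K) (((b ^ p : 𝓞 K)) : K) R = 0 ∧ dX R * n ≤ c ∧
        R.natDegree * m ≤ c := by
    intro m n hmn
    obtain ⟨W, hW1, hW2, hW3⟩ := hW m n hmn
    have hmn2 : m * n = m0 * m0 := by
      rcases hmn with ⟨rfl, rfl⟩ | ⟨rfl, rfl⟩ | ⟨rfl, rfl⟩
      · rfl
      · exact h12
      · rw [mul_comm]; exact h12
    have hne : W ≠ ⊥ := by
      rintro rfl
      rw [finrank_bot] at hW2
      omega
    obtain ⟨Λb, hb1, hb2, hb3⟩ := zero_est Λ (fun p => (((a ^ p : 𝓞 K)) : K))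
      (fun p => (((b ^ p : 𝓞 K)) : K)) (finrank ℚ K / s) hintK hinj hDs m n W hW1 hne hW3 c hW2
    refine ⟨Λb, hb1, ?_, hb3⟩
    apply hcard
    rw [← hmn2]
    exact hb2
  obtain ⟨Λ0, h01, h02, h03⟩ := key m0 m0 (Or.inl ⟨rfl, rfl⟩)
  obtain ⟨Λ1, h11, h12', h13⟩ := key m1 m2 (Or.inr (Or.inl ⟨rfl, rfl⟩))
  obtain ⟨Λ2, h21, h22, h23⟩ := key m2 m1 (Or.inr (Or.inr ⟨rfl, rfl⟩))
  have hlt : (Λ0 ∪ Λ1 ∪ Λ2).card < Λ.card := by
    have e1 := Finset.card_union_le (Λ0 ∪ Λ1) Λ2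
    have e2 := Finset.card_union_le Λ0 Λ1
    omega
  obtain ⟨p, hp, hpn⟩ := Finset.exists_mem_notMem_of_card_lt_card hlt
  rw [Finset.mem_union, Finset.mem_union, not_or, not_or] at hpn
  obtain ⟨R0, i0, e0, x0, y0⟩ := h03 p hp hpn.1.1
  obtain ⟨R1, i1, e1, x1, y1⟩ := h13 p hp hpn.1.2
  obtain ⟨R2, i2, e2, x2, y2⟩ := h23 p hp hpn.2
  have bd : ∀ d k A : ℕ, d * k ≤ c → c < (A + 1) * k → d ≤ A := by
    intro d k A h1 h2
    have h3 : d * k < (A + 1) * k := lt_of_le_of_lt h1 h2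
    exact Nat.lt_succ_iff.mp (lt_of_mul_lt_mul_right h3 (Nat.zero_le _))
  have d0x := bd _ _ _ x0 hA0
  have d0y := bd _ _ _ y0 hA0
  have d1x := bd _ _ _ x1 hA1
  have d1y := bd _ _ _ y1 hA2
  have d2x := bd _ _ _ x2 hA2
  have d2y := bd _ _ _ y2 hA1
  have assoc : ∀ R : ℚ[X][Y], Irreducible R →
      EV (((a ^ p : 𝓞 K)) : K) (((b ^ p : 𝓞 K)) : K) R = 0 →
      dX R0 * R.natDegree + dX R * R0.natDegree + dX R0 + dX R ≤
        A0 * A2 + A1 * A0 + A0 + A1 → Associated R0 R := by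
    intro R hR hRe hb
    by_contra hna
    have hrel : IsRelPrime R0 R := by
      rw [i0.isRelPrime_iff_not_dvd]
      intro hd
      exact hna (i0.associated_of_dvd hR hd)
    have h1 := common_one _ _ R0 R i0.ne_zero hR.ne_zero hrel e0 hRe (hintK p hp)
    have h2 := hdeg p hp
    have h3 : (minpoly ℚ (((a ^ p : 𝓞 K)) : K)).natDegree * s ≤
        s * (A0 * A2 + A1 * A0 + A0 + A1) := by
      rw [mul_comm]
      exact Nat.mul_le_mul_left _ (h1.trans hb)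
    omega
  have as1 := assoc R1 i1 e1 (by
    have f1 : dX R0 * R1.natDegree ≤ A0 * A2 := Nat.mul_le_mul d0x d1y
    have f2 : dX R1 * R0.natDegree ≤ A1 * A0 := Nat.mul_le_mul d1x d0y
    omega)
  have hA21 : dX R0 * R2.natDegree + dX R2 * R0.natDegree + dX R0 + dX R2 ≤
      A0 * A2 + A1 * A0 + A0 + A1 ∨ A1 < A2 := by
    by_cases h : A1 < A2
    · exact Or.inr h
    · left
      have f1 : dX R0 * R2.natDegree ≤ A0 * A1 := Nat.mul_le_mul d0x d2y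
      have f2 : dX R2 * R0.natDegree ≤ A2 * A0 := Nat.mul_le_mul d2x d0y
      have f3 : A0 * A1 = A1 * A0 := mul_comm _ _
      have f4 : A2 * A0 = A0 * A2 := mul_comm _ _
      omega
  refine ⟨p, hp, R0, i0, e0, ?_, ?_⟩
  · rcases hA21 with h | h
    · have as2 := assoc R2 i2 e2 h
      exact (dX_le_of_dvd i2.ne_zero as2.dvd).trans d2x
    · exact (dX_le_of_dvd i1.ne_zero as1.dvd).trans (d1x.trans h.le)
  · exact (natDegree_le_of_dvd as1.dvd i1.ne_zero).trans d1y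

end Pool.Agent.H776GM
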