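import Pool.Agent.H776GM.Space

/-!
# No curve of small degree passes through a power
-/

set_option autoImplicit false

namespace Pool.Agent.H776GM

open Polynomial Polynomial.Bivariate NumberField Finset Module Pool.Agent.H225R3.Marg

variable {K : Type} [Field K] [NumberField K]

theorem EV_exL (x y : K) (l : ℕ) (F : ℚ[X][Y]) :
    EV x y (exL ℚ l F) = EV (x ^ l) (y ^ l) F := by
  have h : ((EV x y : ℚ[X][Y] →+* K).comp (exL ℚ l)) = (EV (x ^ l) (y ^ l) : ℚ[X][Y] →+* K) := by
    apply Polynomial.ringHom_ext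
    · intro f
      induction f using Polynomial.induction_on' with
      | add p q hp hq => rw [C_add, map_add, map_add, hp, hq]
      | monomial n r =>
        simp [exL, pow_mul]
        left
        rw [← pow_mul, ← pow_mul, mul_comm]
    · simp [exL]
  exact RingHom.congr_fun h F

theorem evalEval_map (w : K →+* ℂ) (x y : K) (R : ℚ[X][Y]) :
    evalEval (w x) (w y) (R.map (mapRingHom (algebraMap ℚ ℂ))) = w (EV x y R) := by
  have h : ((evalEvalRingHom (w x) (w y)).comp (mapRingHom (mapRingHom (algebraMap ℚ ℂ)))) =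
      w.comp (EV x y : ℚ[X][Y] →+* K) := by
    apply Polynomial.ringHom_ext
    · intro f
      induction f using Polynomial.induction_on' with
      | add p q hp hq => rw [C_add, map_add, map_add, hp, hq]
      | monomial n r =>
        simp [evalEval, eval_monomial]
    · simp [evalEval]
  exact RingHom.congr_fun h R

theorem map_exL (l : ℕ) (F : ℚ[X][Y]) :
    (exL ℚ l F).map (mapRingHom (algebraMap ℚ ℂ)) =
      exL ℂ l (F.map (mapRingHom (algebraMap ℚ ℂ))) := by
  by_cases hl : l = 0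
  · subst hl
    have h : ((mapRingHom (mapRingHom (algebraMap ℚ ℂ))).comp (exL ℚ 0)) =
        (exL ℂ 0).comp (mapRingHom (mapRingHom (algebraMap ℚ ℂ))) := by
      apply Polynomial.ringHom_ext
      · intro f
        induction f using Polynomial.induction_on' with
        | add p q hp hq => rw [C_add, map_add, map_add, hp, hq]
        | monomial n r =>
          simp [exL]
      · simp [exL]
    exact RingHom.congr_fun h F
  · have hl' : 0 < l := Nat.pos_of_ne_zero hl
    apply ext2
    intro i j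
    rw [coeff_exL hl', coeff_map, coe_mapRingHom, coeff_map, coeff_exL hl']
    split_ifs with h
    · rw [coeff_map, coe_mapRingHom, coeff_map]
    · simp

theorem map_box {m n : ℕ} (F : ℚ[X][Y]) (hF : F ∈ Box ℚ m n) :
    F.map (mapRingHom (algebraMap ℚ ℂ)) ∈ Box ℂ m n := by
  intro i j h
  rw [coeff_map, coe_mapRingHom, coeff_map] at h
  apply hF
  intro h0
  rw [h0, map_zero] at h
  exact h rfl

theorem map_ne (F : ℚ[X][Y]) (hF : F ≠ 0) : F.map (mapRingHom (algebraMap ℚ ℂ)) ≠ 0 := by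
  intro h
  apply hF
  have hinj : Function.Injective (mapRingHom (algebraMap ℚ ℂ)) :=
    map_injective _ (algebraMap ℚ ℂ).injective
  exact (map_injective _ hinj) (by rw [h, Polynomial.map_zero])

theorem no_curve (a b : 𝓞 K) (s : ℕ)
    (hsa : (univ.filter fun w : K →+* ℂ => ‖emb w a‖ ≠ 1).card ≤ s)
    (hsb : (univ.filter fun w : K →+* ℂ => ‖emb w b‖ ≠ 1).card ≤ s)
    (hla : ∀ w : K →+* ℂ, ‖emb w a‖ ≤ Real.exp 1)
    (hlb : ∀ w : K →+* ℂ, ‖emb w b‖ ≤ Real.exp 1)
    (ha0 : a ≠ 0) (hb0 : b ≠ 0)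
    (hind : ∀ u v : ℤ, (u, v) ≠ (0, 0) → ∃ w : K →+* ℂ, ‖emb w a‖ ^ u * ‖emb w b‖ ^ v ≠ 1)
    (p l m ω : ℕ) (hp : p ≠ 0) (hl : l.Prime)
    (R : ℚ[X][Y]) (hR : Irreducible R)
    (hEV : EV (((a ^ p : 𝓞 K)) : K) (((b ^ p : 𝓞 K)) : K) R = 0) (hRx : dX R ≤ ω)
    (hRy : R.natDegree ≤ ω)
    (h1 : s * (p * m + p * m) ≤ finrank ℚ K)
    (h2 : s * (p * l * m + p * l * m) ≤ finrank ℚ K)
    (h3 : ((m * m * 1 : ℕ) : ℝ) * Real.exp 1 < l)
    (hnum : (1 + 2 * ((m * m * 1 * (m * m) ^ 1 : ℕ) : ℝ) * Real.exp 1) ^ (2 * ω * m) <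
      2 ^ (m * m))
    (hml : m ≤ l) (hωl : 2 * (ω * ω) < l)
    (h4 : (2 * ω * (l * m) + ω + l * m) * s < finrank ℚ K)
    (h5 : (2 * ω) * (2 * ω * (2 * s)) < finrank ℚ K) : False := by
  classical
  set x : 𝓞 K := a ^ p with hx
  set y : 𝓞 K := b ^ p with hy
  have hA : ∏ w : K →+* ℂ, wt m m x y w ≤ Real.exp (finrank ℚ K) :=
    prod_A a b s hsa hsb hla hlb p m m h1
  obtain ⟨c, hc0, hcB, hcev⟩ := small_poly m x y ω hA R hR.ne_zero hRx hRy hEV hnum
  have hext := extrap_one a b s hsa hsb hla hlb p l m m 1 hl h2 c hcB hcev h3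
  set F : ℚ[X][Y] := bp fun q => (c q : ℚ) with hF
  have hF0 : F ≠ 0 := by
    intro h0
    apply hc0
    funext q
    have := coeff_bp (fun q => (c q : ℚ)) q
    rw [← hF, h0] at this
    simp only [coeff_zero] at this
    exact_mod_cast this.symm
  have hFb : F ∈ Box ℚ m m := bp_mem _
  have hexF : EV (x : K) (y : K) (exL ℚ l F) = 0 := by
    rw [EV_exL]
    have := EV_int (x ^ l) (y ^ l) c
    rw [hext] at this
    rw [hF]
    simpa using this
  have hlpos := hl.pos
  have hex0 : exL ℚ l F ≠ 0 := exL_ne hlpos hF0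
  have hexb := (mem_box_iff hex0).mp (exL_box hlpos hFb)
  have hexa : ∃ w : K →+* ℂ, ‖emb w a‖ ≠ 1 := by
    obtain ⟨w, hw⟩ := hind 1 0 (by simp)
    refine ⟨w, fun h => hw ?_⟩
    rw [h]
    simp
  -- `R` divides `F(X^l, Y^l)`
  have hdvd : R ∣ exL ℚ l F := by
    by_contra hnd
    have hrel : IsRelPrime R (exL ℚ l F) := hR.isRelPrime_iff_not_dvd.mpr hnd
    have e1 := common_one (x : K) (y : K) R (exL ℚ l F) hR.ne_zero hex0 hrel hEV hexF
      (Algebra.IsIntegral.isIntegral _)
    have e2 : finrank ℚ K ≤ (minpoly ℚ (x : K)).natDegree * s := by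
      apply deg_lower
      · exact (Finset.card_le_card (pow_filter a p)).trans hsa
      · exact pow_ne a hexa p hp
    have e3 : dX R * (exL ℚ l F).natDegree ≤ ω * (l * m) := Nat.mul_le_mul hRx (by omega)
    have e4 : dX (exL ℚ l F) * R.natDegree ≤ (l * m) * ω := Nat.mul_le_mul (by omega) hRy
    have e5 : (minpoly ℚ (x : K)).natDegree ≤ 2 * ω * (l * m) + ω + l * m := by
      have : (l * m) * ω = ω * (l * m) := mul_comm _ _
      have e6 : 2 * ω * (l * m) = ω * (l * m) + ω * (l * m) := by ring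
      omega
    have e6 := Nat.mul_le_mul_right s e5
    omega
  -- pass to complex numbers
  set Rc := R.map (mapRingHom (algebraMap ℚ ℂ)) with hRc
  set Fc := F.map (mapRingHom (algebraMap ℚ ℂ)) with hFc
  have hRc0 : Rc ≠ 0 := map_ne R hR.ne_zero
  have hFc0 : Fc ≠ 0 := map_ne F hF0
  have hdc : Rc ∣ exL ℂ l Fc := by
    rw [hFc, ← map_exL]
    exact Polynomial.map_dvd _ hdvd
  have hRcb : Rc ∈ Box ℂ (ω + 1) (ω + 1) :=
    map_box R ((mem_box_iff hR.ne_zero).mpr ⟨by omega, by omega⟩)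
  have hxw : ∀ (a : 𝓞 K), a ≠ 0 → ∀ w : K →+* ℂ, emb w a ≠ 0 := by
    intro a ha w h
    exact ha (emb_inj w (by rw [h, map_zero]))
  have hcount := count_all hl hml hFc0 (map_box F hFb) hωl (κ := 2 * s)
    (fun w : K →+* ℂ => emb w x) (fun w => emb w y) (fun w => hxw x (pow_ne_zero _ ha0) w)
    (fun w => hxw y (pow_ne_zero _ hb0) w) (by
      intro u v huv z
      set θ : K := (x : K) ^ u * (y : K) ^ v with hθ
      have hθw : ∀ w : K →+* ℂ, w θ = emb w x ^ u * emb w y ^ v := by
        intro w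
        rw [hθ, map_mul, map_zpow₀, map_zpow₀]
        rfl
      have hnorm : ∀ w : K →+* ℂ, ‖w θ‖ = (‖emb w a‖ ^ u * ‖emb w b‖ ^ v) ^ p := by
        intro w
        rw [hθw, norm_mul, norm_zpow, norm_zpow, hx, hy, map_pow, map_pow, norm_pow, norm_pow,
          mul_pow]
        congr 1
        · rw [← zpow_natCast, ← zpow_natCast, ← zpow_mul, ← zpow_mul, mul_comm]
        · rw [← zpow_natCast, ← zpow_natCast, ← zpow_mul, ← zpow_mul, mul_comm]
      have e1 : (univ.filter fun w : K →+* ℂ => ‖w θ‖ ≠ 1).card ≤ 2 * s := by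
        have e2 : (univ.filter fun w : K →+* ℂ => ‖w θ‖ ≠ 1) ⊆
            (univ.filter fun w : K →+* ℂ => ‖emb w a‖ ≠ 1) ∪
            (univ.filter fun w : K →+* ℂ => ‖emb w b‖ ≠ 1) := by
          intro w hw
          rw [Finset.mem_union, Finset.mem_filter, Finset.mem_filter]
          by_contra hcon
          rw [not_or] at hcon
          have f1 : ‖emb w a‖ = 1 := by
            by_contra h
            exact hcon.1 ⟨Finset.mem_univ _, h⟩
          have f2 : ‖emb w b‖ = 1 := by
            by_contra h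
            exact hcon.2 ⟨Finset.mem_univ _, h⟩
          apply (Finset.mem_filter.mp hw).2
          rw [hnorm, f1, f2, one_zpow, one_zpow, one_mul, one_pow]
        have e3 := Finset.card_le_card e2
        have e4 := Finset.card_union_le (univ.filter fun w : K →+* ℂ => ‖emb w a‖ ≠ 1)
          (univ.filter fun w : K →+* ℂ => ‖emb w b‖ ≠ 1)
        omega
      have e2 : ∃ w : K →+* ℂ, ‖w θ‖ ≠ 1 := by
        obtain ⟨w, hw⟩ := hind u v huv
        refine ⟨w, ?_⟩
        rw [hnorm]
        intro h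
        apply hw
        exact (pow_eq_one_iff_of_nonneg (by positivity) hp).mp h
      have e3 := fiber_le' θ (2 * s) e1 e2 z
      simp only [hθw] at e3
      exact e3) Rc hRc0 hdc hRcb
  have hall : (univ.filter fun w : K →+* ℂ => evalEval (emb w x) (emb w y) Rc = 0) = univ := by
    apply Finset.filter_true_of_mem
    intro w _
    have := evalEval_map w (x : K) (y : K) R
    rw [hEV, map_zero] at this
    exact this
  rw [hall, Finset.card_univ, NumberField.Embeddings.card] at hcount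
  have hb := (mem_box_iff hRc0).mp hRcb
  have e1 : (dX Rc + Rc.natDegree) * (2 * ω * (2 * s)) ≤ (2 * ω) * (2 * ω * (2 * s)) :=
    Nat.mul_le_mul_right _ (by omega)
  omega

end Pool.Agent.H776GM
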