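import Pool.Agent.H776GM.Odd

/-!
# Degree at least three: two conjugate eigenvalues are multiplicatively independent
-/

set_option autoImplicit false

namespace Pool.Agent.H776GM

open Polynomial NumberField Finset Module Pool.Agent.H225R3.Marg

/-- dependent conjugate units are equal up to inversion and roots of unity -/
theorem pow_eq {k L : Type} [Field k] [Field L] [NumberField L] [Algebra k L]
    (α : L) (τ : L ≃ₐ[k] L) (h0 : α ≠ 0) (hint : IsIntegral ℤ α) (hinv : IsIntegral ℤ α⁻¹)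
    (h : ∀ N : ℕ, 0 < N → α ^ N ≠ 1) (u v : ℤ) (huv : (u, v) ≠ (0, 0))
    (hdep : α ^ u * (τ α) ^ v = 1) :
    ∃ N : ℕ, 0 < N ∧ (τ (α ^ N) = α ^ N ∨ τ (α ^ N) = (α ^ N)⁻¹) := by
  classical
  have hτ0 : τ α ≠ 0 := (map_ne_zero τ).mpr h0
  have hlog : ∀ w : L →+* ℂ, (u : ℝ) * Real.log ‖w α‖ + v * Real.log ‖w (τ α)‖ = 0 := by
    intro w
    have h1 : ‖w α‖ ^ u * ‖w (τ α)‖ ^ v = 1 := by
      have := congrArg (fun x => ‖w x‖) hdep
      simp only [map_mul, map_zpow₀, norm_mul, norm_zpow, map_one, norm_one] at this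
      exact this
    have h2 : 0 < ‖w α‖ := norm_pos_iff.mpr ((map_ne_zero w).mpr h0)
    have h3 : 0 < ‖w (τ α)‖ := norm_pos_iff.mpr ((map_ne_zero w).mpr hτ0)
    have h4 := congrArg Real.log h1
    rw [Real.log_mul (zpow_pos h2 u).ne' (zpow_pos h3 v).ne', Real.log_zpow, Real.log_zpow,
      Real.log_one] at h4
    exact h4
  -- one embedding with nonzero logarithm
  obtain ⟨w0, hw0⟩ := exists_log_ne α h0 hint h
  have hv0 : (v : ℝ) ≠ 0 := by
    intro h1
    have h2 := hlog w0
    rw [h1, zero_mul, add_zero] at h2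
    have h3 := (mul_eq_zero.mp h2).resolve_right hw0
    apply huv
    have h4 : u = 0 := by exact_mod_cast h3
    have h5 : v = 0 := by exact_mod_cast h1
    rw [h4, h5]
  have hτint : IsIntegral ℤ (τ α) := hint.map (RingHom.toIntAlgHom (τ : L →+* L))
  have key : ∀ z : L, IsIntegral ℤ z → z ≠ 0 → (∀ w : L →+* ℂ, Real.log ‖w z‖ = 0) →
      ∃ N : ℕ, 0 < N ∧ z ^ N = 1 := by
    intro z hz hz0 hzl
    by_contra hcon
    push Not at hcon
    obtain ⟨w, hw⟩ := exists_log_ne z hz0 hz hcon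
    exact hw (hzl w)
  rcases log_eq α τ h0 hint h u v huv hdep w0 with h1 | h1
  · have h2 : (u : ℝ) = -v := by
      have h3 := hlog w0
      rw [h1, ← add_mul] at h3
      have := (mul_eq_zero.mp h3).resolve_right hw0
      linarith
    have h3 : ∀ w : L →+* ℂ, Real.log ‖w (τ α)‖ = Real.log ‖w α‖ := by
      intro w
      have h4 := hlog w
      rw [h2] at h4
      have h5 : (v : ℝ) * (Real.log ‖w (τ α)‖ - Real.log ‖w α‖) = 0 := by linarith
      have := (mul_eq_zero.mp h5).resolve_left hv0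
      linarith
    obtain ⟨N, hN, h4⟩ := key (τ α * α⁻¹) (hτint.mul hinv) (mul_ne_zero hτ0 (inv_ne_zero h0)) (by
      intro w
      rw [map_mul, map_inv₀, norm_mul, norm_inv, Real.log_mul, Real.log_inv, h3]
      · ring
      · exact (norm_pos_iff.mpr ((map_ne_zero w).mpr hτ0)).ne'
      · exact inv_ne_zero (norm_pos_iff.mpr ((map_ne_zero w).mpr h0)).ne')
    refine ⟨N, hN, Or.inl ?_⟩
    rw [mul_pow, inv_pow] at h4
    rw [map_pow]
    exact (mul_inv_eq_one₀ (pow_ne_zero _ h0)).mp h4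
  · have h2 : (u : ℝ) = v := by
      have h3 := hlog w0
      rw [h1] at h3
      have h4 : ((u : ℝ) - v) * Real.log ‖w0 α‖ = 0 := by linarith
      have := (mul_eq_zero.mp h4).resolve_right hw0
      linarith
    have h3 : ∀ w : L →+* ℂ, Real.log ‖w (τ α)‖ = -Real.log ‖w α‖ := by
      intro w
      have h4 := hlog w
      rw [h2, ← mul_add] at h4
      have := (mul_eq_zero.mp h4).resolve_left hv0
      linarith
    obtain ⟨N, hN, h4⟩ := key (τ α * α) (hτint.mul hint) (mul_ne_zero hτ0 h0) (by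
      intro w
      rw [map_mul, norm_mul, Real.log_mul, h3]
      · ring
      · exact (norm_pos_iff.mpr ((map_ne_zero w).mpr hτ0)).ne'
      · exact (norm_pos_iff.mpr ((map_ne_zero w).mpr h0)).ne')
    refine ⟨N, hN, Or.inr ?_⟩
    rw [mul_pow] at h4
    rw [map_pow]
    exact eq_inv_of_mul_eq_one_left h4

theorem three_core {k : Type} [Field k] [NumberField k] {n : ℕ}
    (A : Matrix (Fin n) (Fin n) (𝓞 k)) (hA : IsUnit A)
    (hnil : ∀ N : ℕ, 0 < N → ¬ IsNilpotent (A ^ N - 1))
    (h3 : ∀ N : ℕ, 0 < N → ∀ f : k[X], Irreducible f → f.Monic →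
      f ∣ (A ^ N).charpoly.map (algebraMap (𝓞 k) k) → f = X - 1 ∨ 3 ≤ f.natDegree) :
    ∃ (L : Type) (_ : Field L) (_ : NumberField L) (_ : Algebra k L) (α β : L),
      (A.charpoly.map ((algebraMap k L).comp (algebraMap (𝓞 k) k))).IsRoot α ∧
      (A.charpoly.map ((algebraMap k L).comp (algebraMap (𝓞 k) k))).IsRoot β ∧
      ∀ u v : ℤ, (u, v) ≠ (0, 0) → α ^ u * β ^ v ≠ 1 := by
  classical
  set P : k[X] := A.charpoly.map (algebraMap (𝓞 k) k) with hP
  obtain ⟨L, _, _, _, hsplit, hnormal⟩ : ∃ (L : Type) (_ : Field L) (_ : NumberField L)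
      (_ : Algebra k L), (P.map (algebraMap k L)).Splits ∧ Normal k L := by
    haveI : CharZero P.SplittingField :=
      charZero_of_injective_algebraMap (algebraMap k P.SplittingField).injective
    exact ⟨P.SplittingField, inferInstance, NumberField.of_module_finite k _, inferInstance,
      SplittingField.splits P, inferInstance⟩
  haveI : FiniteDimensional k L := FiniteDimensional.right ℚ k L
  haveI : IsGalois k L := { to_isSeparable := inferInstance, to_normal := hnormal }
  refine ⟨L, inferInstance, inferInstance, inferInstance, ?_⟩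
  have hPL : A.charpoly.map ((algebraMap k L).comp (algebraMap (𝓞 k) k)) =
      P.map (algebraMap k L) := by rw [hP, Polynomial.map_map]
  rw [hPL]
  have hPm : (P.map (algebraMap k L)).Monic := (A.charpoly_monic.map _).map _
  obtain ⟨α, hα, hαN⟩ := exists_nonroot A P hP hsplit hnil
  by_contra hcon
  push Not at hcon
  have hα' : (A.charpoly.map ((algebraMap k L).comp (algebraMap (𝓞 k) k))).IsRoot α := by
    rw [hPL]; exact hα
  obtain ⟨hα0, hαi⟩ := unit_root A hA α hα'
  have hαint := int_root A α hα'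
  -- the conjugates
  have hτroot : ∀ τ : L ≃ₐ[k] L, (P.map (algebraMap k L)).IsRoot (τ α) := by
    intro τ
    rw [IsRoot, eval_map] at hα ⊢
    have := congrArg τ hα
    rw [map_zero] at this
    have h4 : τ (eval₂ (algebraMap k L) α P) = eval₂ (algebraMap k L) (τ α) P := by
      have := (aeval_algHom_apply (τ : L →ₐ[k] L) α P).symm
      exact this
    rw [← h4]
    exact this
  have hN : ∀ τ : L ≃ₐ[k] L, ∃ N : ℕ, 0 < N ∧
      (τ (α ^ N) = α ^ N ∨ τ (α ^ N) = (α ^ N)⁻¹) := by
    intro τ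
    obtain ⟨u, v, huv, hdep⟩ := hcon α (τ α) hα (hτroot τ)
    exact pow_eq α τ hα0 hαint hαi hαN u v huv hdep
  choose N hN0 hN1 using hN
  set M := ∏ τ : L ≃ₐ[k] L, N τ with hM
  have hM0 : 0 < M := Finset.prod_pos fun τ _ => hN0 τ
  have hM1 : ∀ τ : L ≃ₐ[k] L, τ (α ^ M) = α ^ M ∨ τ (α ^ M) = (α ^ M)⁻¹ := by
    intro τ
    obtain ⟨c, hc⟩ := Finset.dvd_prod_of_mem N (Finset.mem_univ τ)
    rw [← hM] at hc
    rcases hN1 τ with h1 | h1
    · left
      rw [hc, pow_mul, map_pow, h1]
    · right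
      rw [hc, pow_mul, map_pow, h1, inv_pow]
  have hfix : ∀ τ : L ≃ₐ[k] L, τ (α ^ M + (α ^ M)⁻¹) = α ^ M + (α ^ M)⁻¹ := by
    intro τ
    rcases hM1 τ with h1 | h1
    · rw [map_add, map_inv₀, h1]
    · rw [map_add, map_inv₀, h1, inv_inv, add_comm]
  obtain ⟨t, ht⟩ : ∃ t : k, algebraMap k L t = α ^ M + (α ^ M)⁻¹ := by
    have := (IsGalois.mem_bot_iff_fixed (F := k) (E := L) (α ^ M + (α ^ M)⁻¹)).mpr hfix
    rw [IntermediateField.mem_bot] at this
    exact this
  -- the minimal polynomial of the power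
  have hint : IsIntegral k (α ^ M) := Algebra.IsIntegral.isIntegral _
  have hq0 : aeval (α ^ M) (X ^ 2 - C t * X + 1 : k[X]) = 0 := by
    simp only [map_pow, aeval_X, map_add, map_sub, map_mul, aeval_C, map_one, ht]
    have hαM : α ^ M ≠ 0 := pow_ne_zero _ hα0
    generalize α ^ M = x at hαM
    field_simp
    ring
  have hq : (X ^ 2 - C t * X + 1 : k[X]).natDegree ≤ 2 := by
    compute_degree
  have hqne : (X ^ 2 - C t * X + 1 : k[X]) ≠ 0 := by
    intro h0
    have := congrArg (fun p => coeff p 2) h0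
    simp [coeff_X, coeff_one] at this
  have hdeg : (minpoly k (α ^ M)).natDegree ≤ 2 :=
    (natDegree_le_of_dvd (minpoly.dvd k _ hq0) hqne).trans hq
  -- the power is an eigenvalue
  set φ : Matrix (Fin n) (Fin n) (𝓞 k) →+* Matrix (Fin n) (Fin n) L :=
    ((algebraMap k L).comp (algebraMap (𝓞 k) k)).mapMatrix with hφ
  have hchar : ∀ B : Matrix (Fin n) (Fin n) (𝓞 k), (φ B).charpoly =
      (B.charpoly.map (algebraMap (𝓞 k) k)).map (algebraMap k L) := by
    intro B
    rw [Polynomial.map_map, ← Matrix.charpoly_map]; rfl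
  have hroot : ((A ^ M).charpoly.map (algebraMap (𝓞 k) k)).map (algebraMap k L) |>.IsRoot
      (α ^ M) := by
    have h4 : (φ A).charpoly.IsRoot α := by
      rw [hchar]
      exact hα
    obtain ⟨v, hv, hv2⟩ := eigvec (φ A) α h4
    have h5 : ∀ m : ℕ, (φ A ^ m).mulVec v = (α ^ m) • v := by
      intro m
      induction m with
      | zero => simp
      | succ m ih =>
        rw [pow_succ, ← Matrix.mulVec_mulVec, hv2, Matrix.mulVec_smul, ih, smul_smul,
          pow_succ, mul_comm]
    rw [← hchar, map_pow]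
    exact root_of_eigvec _ _ v hv (h5 M)
  have hdvd : minpoly k (α ^ M) ∣ (A ^ M).charpoly.map (algebraMap (𝓞 k) k) := by
    refine minpoly.dvd k _ ?_
    rw [IsRoot, eval_map] at hroot
    exact hroot
  rcases h3 M hM0 _ (minpoly.irreducible hint) (minpoly.monic hint) hdvd with h4 | h4
  · have h5 := minpoly.aeval k (α ^ M)
    rw [h4, map_sub, aeval_X, map_one, sub_eq_zero] at h5
    exact hαN M hM0 h5
  · omega

end Pool.Agent.H776GM
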